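import Pool.Agent.BAC.Defs

namespace BAC

open scoped Classical in
/-- the set counted by `climb_count` -/
noncomputable def clSet (c1 c2 : ℕ) (w1 w2 : ℤ) (h S Z : ℕ) : Finset (ℕ × ℕ) :=
  (Finset.Icc 1 Z ×ˢ Finset.Icc 1 Z).filter (fun y : ℕ × ℕ => Nat.Coprime y.1 y.2 ∧
      Z < 2 * (c1 * y.1 + c2 * y.2) ∧ c1 * y.1 + c2 * y.2 ≤ Z ∧
      (3 ^ h : ℤ) ∣ (y.1 : ℤ) * w2 - (y.2 : ℤ) * w1 ∧
      ¬ Climb c1 c2 y.1 y.2 h S)

theorem mem_clSet {c1 c2 : ℕ} {w1 w2 : ℤ} {h S Z : ℕ} {y1 y2 : ℕ} :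
    (y1, y2) ∈ clSet c1 c2 w1 w2 h S Z ↔ ((1 ≤ y1 ∧ y1 ≤ Z) ∧ (1 ≤ y2 ∧ y2 ≤ Z)) ∧
      Nat.Coprime y1 y2 ∧
      Z < 2 * (c1 * y1 + c2 * y2) ∧ c1 * y1 + c2 * y2 ≤ Z ∧
      (3 ^ h : ℤ) ∣ (y1 : ℤ) * w2 - (y2 : ℤ) * w1 ∧
      ¬ Climb c1 c2 y1 y2 h S := by
  simp [clSet]

theorem clSet_step {c1 c2 : ℕ} {w1 w2 : ℤ} {h S Z : ℕ} {y1 y2 : ℕ} (hc : 4 * (c1 + c2) ≤ Z)
    (hy : (y1, y2) ∈ clSet c1 c2 w1 w2 h S Z) :
    (y1 < y2 ∧ (y1, y2 - y1) ∈ clSet (c1 + c2) c2 w1 (w2 - w1) h S Z) ∨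
    (y2 < y1 ∧ (y1 - y2, y2) ∈ clSet c1 (c1 + c2) (w1 - w2) w2 h S Z) := by
  rw [mem_clSet] at hy
  obtain ⟨⟨⟨a1, a2⟩, ⟨a3, a4⟩⟩, a5, a6, a7, a8, a9⟩ := hy
  rcases Nat.lt_trichotomy y1 y2 with hlt | heq | hlt
  · left
    refine ⟨hlt, ?_⟩
    rw [mem_clSet]
    obtain ⟨u, rfl⟩ : ∃ u, y2 = y1 + u := ⟨y2 - y1, by omega⟩
    have hu : y1 + u - y1 = u := by omega
    rw [hu]
    have e1 : (c1 + c2) * y1 + c2 * u = c1 * y1 + c2 * (y1 + u) := by ring
    refine ⟨⟨⟨a1, a2⟩, ⟨by omega, by omega⟩⟩, ?_, ?_, ?_, ?_, ?_⟩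
    · simpa using a5
    · rw [e1]; exact a6
    · rw [e1]; exact a7
    · convert a8 using 1
      push_cast; ring
    · intro hcl
      apply a9
      apply Climb.l hlt
      rw [hu]
      exact hcl
  · exfalso
    subst heq
    have : y1 = 1 := by simpa using a5
    subst this
    omega
  · right
    refine ⟨hlt, ?_⟩
    rw [mem_clSet]
    obtain ⟨u, rfl⟩ : ∃ u, y1 = u + y2 := ⟨y1 - y2, by omega⟩
    have hu : u + y2 - y2 = u := by omega
    rw [hu]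
    have e1 : c1 * u + (c1 + c2) * y2 = c1 * (u + y2) + c2 * y2 := by ring
    refine ⟨⟨⟨by omega, by omega⟩, ⟨a3, a4⟩⟩, ?_, ?_, ?_, ?_, ?_⟩
    · simpa using a5
    · rw [e1]; exact a6
    · rw [e1]; exact a7
    · convert a8 using 1
      push_cast; ring
    · intro hcl
      apply a9
      apply Climb.r hlt
      rw [hu]
      exact hcl

theorem clSet_S1 {c1 c2 : ℕ} (w1 w2 : ℤ) (h : ℕ) {S Z : ℕ} (hc : 4 * (c1 + c2) ≤ Z) :
    (clSet c1 c2 w1 w2 h S Z).card ≤ (clSet (c1 + c2) c2 w1 (w2 - w1) h S Z).card +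
      (clSet c1 (c1 + c2) (w1 - w2) w2 h S Z).card := by
  classical
  have hsub : clSet c1 c2 w1 w2 h S Z ⊆
      (clSet (c1 + c2) c2 w1 (w2 - w1) h S Z).image (fun z => (z.1, z.1 + z.2)) ∪
      (clSet c1 (c1 + c2) (w1 - w2) w2 h S Z).image (fun z => (z.1 + z.2, z.2)) := by
    rintro ⟨y1, y2⟩ hy
    rw [Finset.mem_union, Finset.mem_image, Finset.mem_image]
    rcases clSet_step hc hy with ⟨hlt, hm⟩ | ⟨hlt, hm⟩
    · left
      exact ⟨_, hm, by simp only [Prod.mk.injEq, true_and]; omega⟩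
    · right
      exact ⟨_, hm, by simp only [Prod.mk.injEq, and_true]; omega⟩
  refine (Finset.card_le_card hsub).trans ((Finset.card_union_le _ _).trans ?_)
  exact add_le_add Finset.card_image_le Finset.card_image_le

theorem clSet_S2 {c1 c2 : ℕ} (w1 w2 : ℤ) (h : ℕ) {S Z : ℕ} (hc : 4 * (c1 + c2) ≤ Z)
    (h3 : 3 ∣ w1 + w2) (hw : ¬ (3 ∣ w1 ∧ 3 ∣ w2)) (hc1 : 0 < c1) (hc2 : 0 < c2) :
    (clSet c1 c2 w1 w2 (h + 1) S Z).card ≤
      (clSet (2 * c1 + c2) (c1 + 2 * c2) ((2 * w1 - w2) / 3) ((2 * w2 - w1) / 3) h S Z).card +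
      (clSet (c1 + 2 * c2) c2 w1 (w2 - 2 * w1) (h + 1) S Z).card +
      (clSet c1 (2 * c1 + c2) (w1 - 2 * w2) w2 (h + 1) S Z).card := by
  classical
  have hsub : clSet c1 c2 w1 w2 (h + 1) S Z ⊆
      ((clSet (2 * c1 + c2) (c1 + 2 * c2) ((2 * w1 - w2) / 3) ((2 * w2 - w1) / 3) h S Z).image
        (fun z => (2 * z.1 + z.2, z.1 + 2 * z.2)) ∪
      (clSet (c1 + 2 * c2) c2 w1 (w2 - 2 * w1) (h + 1) S Z).image
        (fun z => (z.1, 2 * z.1 + z.2))) ∪
      (clSet c1 (2 * c1 + c2) (w1 - 2 * w2) w2 (h + 1) S Z).image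
        (fun z => (z.1 + 2 * z.2, z.2)) := by
    rintro ⟨y1, y2⟩ hy
    have hy0 := hy
    rw [mem_clSet] at hy
    obtain ⟨⟨⟨a1, a2⟩, ⟨a3, a4⟩⟩, a5, a6, a7, a8, a9⟩ := hy
    have h3d : (3 : ℤ) ∣ (y1 : ℤ) * w2 - (y2 : ℤ) * w1 :=
      (dvd_pow_self 3 (Nat.succ_ne_zero h)).trans a8
    have h3w1 : ¬ (3 : ℤ) ∣ w1 := by
      intro h'
      exact hw ⟨h', by omega⟩
    have h3y : (3 : ℤ) ∣ (y1 : ℤ) + y2 := by
      have e : w1 * ((y1 : ℤ) + y2) = (y1 : ℤ) * (w1 + w2) - ((y1 : ℤ) * w2 - (y2 : ℤ) * w1) := by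
        ring
      have h4 : (3 : ℤ) ∣ w1 * ((y1 : ℤ) + y2) := by
        rw [e]
        exact dvd_sub (h3.mul_left _) h3d
      rcases Int.prime_three.dvd_or_dvd h4 with h5 | h5
      · exact absurd h5 h3w1
      · exact h5
    rw [Finset.mem_union, Finset.mem_union, Finset.mem_image, Finset.mem_image, Finset.mem_image]
    by_cases hA : 2 * y1 ≤ y2
    · -- LL
      left; right
      have hne : 2 * y1 ≠ y2 := by
        intro he
        have h1 : y1 ∣ 1 := by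
          have : y1 ∣ Nat.gcd y1 y2 := Nat.dvd_gcd dvd_rfl ⟨2, by omega⟩
          rwa [a5] at this
        have h1' : y1 = 1 := Nat.dvd_one.mp h1
        subst h1'
        have : y2 = 2 := by omega
        subst this
        omega
      rcases clSet_step hc hy0 with ⟨hlt, hm⟩ | ⟨hlt, hm⟩
      · have hm0 := hm
        rw [mem_clSet] at hm
        obtain ⟨_, b5, b6, b7, b8, b9⟩ := hm
        obtain ⟨u, rfl⟩ : ∃ u, y2 = 2 * y1 + u := ⟨y2 - 2 * y1, by omega⟩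
        have hu : 2 * y1 + u - y1 = y1 + u := by omega
        rw [hu] at b5 b6 b7 b8 b9
        have hu' : y1 + u - y1 = u := by omega
        refine ⟨(y1, u), ?_, rfl⟩
        rw [mem_clSet]
        have e1 : (c1 + 2 * c2) * y1 + c2 * u = c1 * y1 + c2 * (2 * y1 + u) := by ring
        refine ⟨⟨⟨a1, a2⟩, ⟨by omega, by omega⟩⟩, ?_, ?_, ?_, ?_, ?_⟩
        · simpa using b5
        · rw [e1]; exact a6
        · rw [e1]; exact a7
        · convert a8 using 1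
          push_cast; ring
        · intro hcl
          apply b9
          apply Climb.l (by omega)
          rw [hu']
          have e2 : c1 + c2 + c2 = c1 + 2 * c2 := by ring
          rw [e2]
          exact hcl
      · omega
    · by_cases hB : 2 * y2 ≤ y1
      · -- RR
        right
        have hne : 2 * y2 ≠ y1 := by
          intro he
          have h1 : y2 ∣ 1 := by
            have : y2 ∣ Nat.gcd y1 y2 := Nat.dvd_gcd ⟨2, by omega⟩ dvd_rfl
            rwa [a5] at this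
          have h1' : y2 = 1 := Nat.dvd_one.mp h1
          subst h1'
          have : y1 = 2 := by omega
          subst this
          omega
        rcases clSet_step hc hy0 with ⟨hlt, hm⟩ | ⟨hlt, hm⟩
        · omega
        · have hm0 := hm
          rw [mem_clSet] at hm
          obtain ⟨_, b5, b6, b7, b8, b9⟩ := hm
          obtain ⟨u, rfl⟩ : ∃ u, y1 = u + 2 * y2 := ⟨y1 - 2 * y2, by omega⟩
          have hu : u + 2 * y2 - y2 = u + y2 := by omega
          rw [hu] at b5 b6 b7 b8 b9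
          have hu' : u + y2 - y2 = u := by omega
          refine ⟨(u, y2), ?_, rfl⟩
          rw [mem_clSet]
          have e1 : c1 * u + (2 * c1 + c2) * y2 = c1 * (u + 2 * y2) + c2 * y2 := by ring
          refine ⟨⟨⟨by omega, by omega⟩, ⟨a3, a4⟩⟩, ?_, ?_, ?_, ?_, ?_⟩
          · simpa using b5
          · rw [e1]; exact a6
          · rw [e1]; exact a7
          · convert a8 using 1
            push_cast; ring
          · intro hcl
            apply b9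
            apply Climb.r (by omega)
            rw [hu']
            have e2 : c1 + (c1 + c2) = 2 * c1 + c2 := by ring
            rw [e2]
            exact hcl
      · -- X
        left; left
        push Not at hA hB
        obtain ⟨s, hs⟩ := h3y
        obtain ⟨z1, hz1⟩ : ∃ z1 : ℕ, (z1 : ℤ) = y1 - s := ⟨(y1 - s : ℤ).toNat, by omega⟩
        obtain ⟨z2, hz2⟩ : ∃ z2 : ℕ, (z2 : ℤ) = y2 - s := ⟨(y2 - s : ℤ).toNat, by omega⟩
        have hy1 : y1 = 2 * z1 + z2 := by omega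
        have hy2 : y2 = z1 + 2 * z2 := by omega
        have hz1p : 0 < z1 := by omega
        have hz2p : 0 < z2 := by omega
        refine ⟨(z1, z2), ?_, by simp only [Prod.mk.injEq]; exact ⟨hy1.symm, hy2.symm⟩⟩
        rw [mem_clSet]
        obtain ⟨t, ht⟩ := h3
        have hw1' : (2 * w1 - w2) / 3 = w1 - t := by omega
        have hw2' : (2 * w2 - w1) / 3 = w2 - t := by omega
        have e1 : (2 * c1 + c2) * z1 + (c1 + 2 * c2) * z2 = c1 * y1 + c2 * y2 := by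
          rw [hy1, hy2]; ring
        refine ⟨⟨⟨by omega, by omega⟩, ⟨by omega, by omega⟩⟩, ?_, ?_, ?_, ?_, ?_⟩
        · rw [Nat.coprime_iff_gcd_eq_one] at a5 ⊢
          have h1 : Nat.gcd z1 z2 ∣ Nat.gcd y1 y2 := by
            apply Nat.dvd_gcd
            · rw [hy1]
              exact dvd_add ((Nat.gcd_dvd_left _ _).mul_left 2) (Nat.gcd_dvd_right _ _)
            · rw [hy2]
              exact dvd_add (Nat.gcd_dvd_left _ _) ((Nat.gcd_dvd_right _ _).mul_left 2)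
          rw [a5] at h1
          exact Nat.dvd_one.mp h1
        · rw [e1]; exact a6
        · rw [e1]; exact a7
        · rw [hw1', hw2']
          have e2 : (y1 : ℤ) * w2 - (y2 : ℤ) * w1 =
              3 * ((z1 : ℤ) * (w2 - t) - (z2 : ℤ) * (w1 - t)) := by
            have q1 : (y1 : ℤ) = 2 * z1 + z2 := by exact_mod_cast hy1
            have q2 : (y2 : ℤ) = z1 + 2 * z2 := by exact_mod_cast hy2
            rw [q1, q2]
            linear_combination (-(z1 : ℤ) + z2) * ht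
          rw [e2, pow_succ, mul_comm ((3 : ℤ) ^ h) 3] at a8
          exact (mul_dvd_mul_iff_left (by norm_num)).mp a8
        · intro hcl
          apply a9
          rw [hy1, hy2]
          exact Climb.x hz1p hz2p hcl
  refine (Finset.card_le_card hsub).trans ((Finset.card_union_le _ _).trans ?_)
  refine add_le_add ((Finset.card_union_le _ _).trans ?_) Finset.card_image_le
  exact add_le_add Finset.card_image_le Finset.card_image_le

theorem Climb.symm {c1 c2 y1 y2 h S : ℕ} (hc : Climb c1 c2 y1 y2 h S) :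
    Climb c2 c1 y2 y1 h S := by
  induction hc with
  | done h => exact Climb.done (by omega)
  | l hy _ ih => exact Climb.r hy (by rw [Nat.add_comm]; exact ih)
  | r hy _ ih => exact Climb.l hy (by rw [Nat.add_comm]; exact ih)
  | x h1 h2 _ ih =>
    rename_i c1 c2 z1 z2 h S _
    have e1 : 2 * z1 + z2 = z2 + 2 * z1 := by ring
    have e2 : z1 + 2 * z2 = 2 * z2 + z1 := by ring
    rw [e1, e2]
    apply Climb.x h2 h1
    have e3 : 2 * c2 + c1 = c1 + 2 * c2 := by ring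
    have e4 : c2 + 2 * c1 = 2 * c1 + c2 := by ring
    rw [e3, e4]
    exact ih

theorem clSet_swap (c1 c2 : ℕ) (w1 w2 : ℤ) (h S Z : ℕ) :
    (clSet c1 c2 w1 w2 h S Z).card ≤ (clSet c2 c1 w2 w1 h S Z).card := by
  classical
  apply Finset.card_le_card_of_injOn Prod.swap
  · rintro ⟨y1, y2⟩ hy
    simp only [Finset.mem_coe, Prod.swap_prod_mk] at hy ⊢
    rw [mem_clSet] at hy ⊢
    obtain ⟨⟨⟨a1, a2⟩, ⟨a3, a4⟩⟩, a5, a6, a7, a8, a9⟩ := hy
    refine ⟨⟨⟨a3, a4⟩, ⟨a1, a2⟩⟩, a5.symm, by rw [Nat.add_comm]; exact a6,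
      by rw [Nat.add_comm]; exact a7, ?_, fun hc => a9 hc.symm⟩
    have e : (y2 : ℤ) * w1 - (y1 : ℤ) * w2 = -((y1 : ℤ) * w2 - (y2 : ℤ) * w1) := by ring
    rw [e]
    exact (dvd_neg).mpr a8
  · exact Prod.swap_injective.injOn

theorem count_residue (M q : ℕ) (T : Finset ℕ) (hT : ∀ y ∈ T, y ≤ M)
    (hd : ∀ y ∈ T, ∀ y' ∈ T, (q : ℤ) ∣ (y : ℤ) - y') : T.card ≤ M / q + 1 := by
  have h1 : T.card ≤ (Finset.range (M / q + 1)).card := by
    apply Finset.card_le_card_of_injOn (fun y => y / q)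
    · intro y hy
      simp only [Finset.coe_range, Set.mem_Iio]
      exact Nat.lt_succ_of_le (Nat.div_le_div_right (hT y hy))
    · intro y hy y' hy' he
      simp only at he
      have h2 := hd y hy y' hy'
      have h3 : y % q = y' % q := by
        have h4 : ((y' : ℤ)) ≡ (y : ℤ) [ZMOD q] := Int.modEq_iff_dvd.mpr h2
        have h5 := (Int.natCast_modEq_iff.mp h4)
        exact h5.symm
      rw [← Nat.div_add_mod y q, ← Nat.div_add_mod y' q, he, h3]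
  rwa [Finset.card_range] at h1

/-- base case, when `3` does not divide `w1` -/
theorem clSet_base1 {c1 c2 h S Z : ℕ} (w1 w2 : ℤ) (hc1 : 0 < c1) (hc2 : 0 < c2)
    (hw : ¬ (3 : ℤ) ∣ w1) (hS : c1 + c2 ≤ S) (hZ : 4 * 3 ^ h * S ≤ Z) :
    ((clSet c1 c2 w1 w2 h S Z).card : ℝ) * (c1 * c2) ≤ 4 * (Z : ℝ) ^ 2 * (2 / 3) ^ h := by
  classical
  have hsub : clSet c1 c2 w1 w2 h S Z ⊆ (Finset.Icc 1 (Z / c1)).biUnion (fun y1 =>
      ((Finset.Icc 1 (Z / c2)).filter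
        (fun y2 : ℕ => (3 ^ h : ℤ) ∣ (y1 : ℤ) * w2 - (y2 : ℤ) * w1)).image (fun y2 => (y1, y2))) := by
    rintro ⟨y1, y2⟩ hy
    rw [mem_clSet] at hy
    obtain ⟨⟨⟨a1, a2⟩, ⟨a3, a4⟩⟩, a5, a6, a7, a8, a9⟩ := hy
    rw [Finset.mem_biUnion]
    refine ⟨y1, ?_, ?_⟩
    · rw [Finset.mem_Icc]
      refine ⟨a1, (Nat.le_div_iff_mul_le hc1).mpr ?_⟩
      rw [Nat.mul_comm]; omega
    · rw [Finset.mem_image]
      refine ⟨y2, ?_, rfl⟩
      rw [Finset.mem_filter, Finset.mem_Icc]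
      refine ⟨⟨a3, (Nat.le_div_iff_mul_le hc2).mpr ?_⟩, a8⟩
      rw [Nat.mul_comm]; omega
  have hcard : (clSet c1 c2 w1 w2 h S Z).card ≤ (Z / c1) * ((Z / c2) / 3 ^ h + 1) := by
    refine (Finset.card_le_card hsub).trans ?_
    refine (Finset.card_biUnion_le_card_mul _ _ ((Z / c2) / 3 ^ h + 1) ?_).trans ?_
    · intro y1 _
      refine Finset.card_image_le.trans ?_
      apply count_residue
      · intro y hy
        rw [Finset.mem_filter, Finset.mem_Icc] at hy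
        exact hy.1.2
      · intro y hy y' hy'
        rw [Finset.mem_filter] at hy hy'
        have h1 := dvd_sub hy'.2 hy.2
        have e : (y1 : ℤ) * w2 - (y' : ℤ) * w1 - ((y1 : ℤ) * w2 - (y : ℤ) * w1) =
            ((y : ℤ) - y') * w1 := by ring
        rw [e] at h1
        have hcop : IsCoprime ((3 : ℤ) ^ h) w1 := by
          apply IsCoprime.pow_left
          exact (Int.prime_three.coprime_iff_not_dvd).mpr hw
        have h2 := hcop.dvd_of_dvd_mul_right h1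
        exact_mod_cast h2
    · rw [Nat.card_Icc]
      simp
  have hZ1 : (c2 : ℝ) * 3 ^ h ≤ Z := by
    have : c2 * 3 ^ h ≤ Z := by
      calc c2 * 3 ^ h ≤ S * 3 ^ h := Nat.mul_le_mul_right _ (by omega)
        _ ≤ 4 * 3 ^ h * S := by
          rw [Nat.mul_comm S, Nat.mul_assoc]
          exact Nat.le_mul_of_pos_left _ (by norm_num)
        _ ≤ Z := hZ
    exact_mod_cast this
  have hc1' : (0 : ℝ) < c1 := by exact_mod_cast hc1
  have hc2' : (0 : ℝ) < c2 := by exact_mod_cast hc2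
  have h3 : (0 : ℝ) < 3 ^ h := by positivity
  have r1 : ((Z / c1 : ℕ) : ℝ) ≤ Z / c1 := Nat.cast_div_le
  have r2 : (((Z / c2) / 3 ^ h : ℕ) : ℝ) ≤ Z / c2 / 3 ^ h := by
    refine Nat.cast_div_le.trans ?_
    push_cast
    exact div_le_div_of_nonneg_right Nat.cast_div_le h3.le
  have r3 : ((clSet c1 c2 w1 w2 h S Z).card : ℝ) ≤ (Z / c1) * (Z / c2 / 3 ^ h + 1) := by
    have : ((clSet c1 c2 w1 w2 h S Z).card : ℝ) ≤
        ((Z / c1 : ℕ) : ℝ) * ((((Z / c2) / 3 ^ h : ℕ) : ℝ) + 1) := by exact_mod_cast hcard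
    refine this.trans ?_
    apply mul_le_mul r1 (by linarith) (by positivity) (by positivity)
  have r4 : (1 : ℝ) ≤ Z / c2 / 3 ^ h := by
    rw [le_div_iff₀ h3, one_mul, le_div_iff₀ hc2', mul_comm]
    exact hZ1
  have r5 : ((clSet c1 c2 w1 w2 h S Z).card : ℝ) * (c1 * c2) ≤ 2 * (Z : ℝ) ^ 2 / 3 ^ h := by
    calc ((clSet c1 c2 w1 w2 h S Z).card : ℝ) * (c1 * c2)
        ≤ ((Z / c1) * (Z / c2 / 3 ^ h + 1)) * (c1 * c2) :=
          mul_le_mul_of_nonneg_right r3 (by positivity)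
      _ ≤ ((Z / c1) * (Z / c2 / 3 ^ h + Z / c2 / 3 ^ h)) * (c1 * c2) := by
          apply mul_le_mul_of_nonneg_right _ (by positivity)
          apply mul_le_mul_of_nonneg_left _ (by positivity)
          linarith
      _ = 2 * (Z : ℝ) ^ 2 / 3 ^ h := by
          field_simp
          ring
  refine r5.trans ?_
  rw [div_pow, mul_div_assoc', div_le_div_iff_of_pos_right h3]
  have : (1 : ℝ) ≤ 2 ^ h := one_le_pow₀ (by norm_num)
  nlinarith [sq_nonneg (Z : ℝ)]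

/-- the bound to be proved, for all frames -/
def CBound (n S Z : ℕ) : Prop := ∀ (c1 c2 h : ℕ) (w1 w2 : ℤ), 0 < c1 → 0 < c2 →
  ¬ (3 ∣ w1 ∧ 3 ∣ w2) → 32 ^ n * (c1 + c2) ≤ S → 4 * 3 ^ h * S ≤ Z →
    ((clSet c1 c2 w1 w2 h S Z).card : ℝ) * (c1 * c2) ≤
      4 * (Z : ℝ) ^ 2 * (2 / 3) ^ h * (47 / 48) ^ n

theorem four_le {S Z h c : ℕ} (hZ : 4 * 3 ^ h * S ≤ Z) (hc : c ≤ S) : 4 * c ≤ Z := by
  have h3 : 1 ≤ 3 ^ h := Nat.one_le_pow _ _ (by norm_num)
  have h1 : 4 * 1 * S ≤ 4 * 3 ^ h * S := Nat.mul_le_mul_right _ (Nat.mul_le_mul_left _ h3)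
  omega

theorem le_of_pow_mul {n c S : ℕ} (h : 32 ^ n * c ≤ S) : c ≤ S := by
  have h3 : 1 ≤ 32 ^ n := Nat.one_le_pow _ _ (by norm_num)
  have h1 : 1 * c ≤ 32 ^ n * c := Nat.mul_le_mul_right _ h3
  omega

section
variable {n S Z : ℕ}

/-- the constant -/
noncomputable def cK (n h Z : ℕ) : ℝ := 4 * (Z : ℝ) ^ 2 * (2 / 3) ^ h * (47 / 48) ^ n

theorem cK_nonneg (n h Z : ℕ) : 0 ≤ cK n h Z := by unfold cK; positivity

theorem cK_succ (n h Z : ℕ) : cK n h Z = 3 / 2 * cK n (h + 1) Z := by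
  unfold cK; rw [pow_succ]; ring

theorem leaf (hB : CBound n S Z) {c1 c2 h : ℕ} {w1 w2 : ℤ} (hc1 : 0 < c1) (hc2 : 0 < c2)
    (hw : ¬ (3 ∣ w1 ∧ 3 ∣ w2)) (hS : 32 ^ n * (c1 + c2) ≤ S) (hZ : 4 * 3 ^ h * S ≤ Z) :
    ((clSet c1 c2 w1 w2 h S Z).card : ℝ) ≤ cK n h Z / (c1 * c2) := by
  have h1 : (0 : ℝ) < c1 * c2 := by
    have : 0 < c1 * c2 := Nat.mul_pos hc1 hc2
    exact_mod_cast this
  rw [le_div_iff₀ h1]
  exact hB c1 c2 h w1 w2 hc1 hc2 hw hS hZ

theorem clSet_S2' (hB : CBound n S Z) {x y h : ℕ} {w1 w2 : ℤ} (hx : 0 < x) (hy : 0 < y)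
    (hw : ¬ (3 ∣ w1 ∧ 3 ∣ w2)) (h3 : 3 ∣ w1 + w2) (hS : 32 ^ n * (3 * (x + y)) ≤ S)
    (hZ : 4 * 3 ^ (h + 1) * S ≤ Z) :
    ((clSet x y w1 w2 (h + 1) S Z).card : ℝ) ≤ cK n (h + 1) Z / (x * y) -
      3 / 2 * (cK n (h + 1) Z / ((2 * x + y) * (x + 2 * y))) := by
  have hxy : 4 * (x + y) ≤ Z := by
    have := four_le hZ (le_of_pow_mul hS)
    omega
  have hmono : ∀ c, c ≤ 3 * (x + y) → 32 ^ n * c ≤ S := fun c hc =>
    (Nat.mul_le_mul_left _ hc).trans hS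
  have hZ' : 4 * 3 ^ h * S ≤ Z := by
    refine le_trans ?_ hZ
    apply Nat.mul_le_mul_right
    apply Nat.mul_le_mul_left
    exact Nat.pow_le_pow_right (by norm_num) (Nat.le_succ h)
  have h1 := clSet_S2 w1 w2 h (S := S) hxy h3 hw hx hy
  have hX : ((clSet (2 * x + y) (x + 2 * y) ((2 * w1 - w2) / 3) ((2 * w2 - w1) / 3) h S Z).card : ℝ)
      ≤ cK n h Z / (((2 * x + y : ℕ) : ℝ) * ((x + 2 * y : ℕ) : ℝ)) := by
    apply leaf hB (by omega) (by omega) _ (hmono _ (by omega)) hZ'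
    rintro ⟨d1, d2⟩
    apply hw
    obtain ⟨t, ht⟩ := h3
    have hw1' : (2 * w1 - w2) / 3 = w1 - t := by omega
    have hw2' : (2 * w2 - w1) / 3 = w2 - t := by omega
    rw [hw1'] at d1
    rw [hw2'] at d2
    constructor <;> omega
  have hLL : ((clSet (x + 2 * y) y w1 (w2 - 2 * w1) (h + 1) S Z).card : ℝ)
      ≤ cK n (h + 1) Z / (((x + 2 * y : ℕ) : ℝ) * (y : ℝ)) := by
    apply leaf hB (by omega) (by omega) _ (hmono _ (by omega)) hZ
    rintro ⟨d1, d2⟩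
    apply hw
    constructor <;> omega
  have hRR : ((clSet x (2 * x + y) (w1 - 2 * w2) w2 (h + 1) S Z).card : ℝ)
      ≤ cK n (h + 1) Z / ((x : ℝ) * ((2 * x + y : ℕ) : ℝ)) := by
    apply leaf hB (by omega) (by omega) _ (hmono _ (by omega)) hZ
    rintro ⟨d1, d2⟩
    apply hw
    constructor <;> omega
  have h2 : ((clSet x y w1 w2 (h + 1) S Z).card : ℝ) ≤
      cK n h Z / (((2 * x + y : ℕ) : ℝ) * ((x + 2 * y : ℕ) : ℝ)) +
      cK n (h + 1) Z / (((x + 2 * y : ℕ) : ℝ) * (y : ℝ)) +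
      cK n (h + 1) Z / ((x : ℝ) * ((2 * x + y : ℕ) : ℝ)) := by
    have : ((clSet x y w1 w2 (h + 1) S Z).card : ℝ) ≤
      ((clSet (2 * x + y) (x + 2 * y) ((2 * w1 - w2) / 3) ((2 * w2 - w1) / 3) h S Z).card : ℝ) +
      ((clSet (x + 2 * y) y w1 (w2 - 2 * w1) (h + 1) S Z).card : ℝ) +
      ((clSet x (2 * x + y) (w1 - 2 * w2) w2 (h + 1) S Z).card : ℝ) := by exact_mod_cast h1
    linarith
  refine h2.trans (le_of_eq ?_)
  rw [cK_succ]
  push_cast
  have hx' : (0 : ℝ) < x := by exact_mod_cast hx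
  have hy' : (0 : ℝ) < y := by exact_mod_cast hy
  field_simp
  ring

theorem clSet_S1r {x y h : ℕ} (w1 w2 : ℤ) (hxy : 4 * (x + y) ≤ Z) :
    ((clSet x y w1 w2 h S Z).card : ℝ) ≤
      ((clSet (x + y) y w1 (w2 - w1) h S Z).card : ℝ) +
      ((clSet x (x + y) (w1 - w2) w2 h S Z).card : ℝ) := by
  have := clSet_S1 w1 w2 h (S := S) hxy
  exact_mod_cast this

theorem num_aux {K P a b : ℝ} (hK : 0 ≤ K) (hP : 0 < P) (ha : 0 < a) (hb : 0 < b)
    (h : P ≤ 36 * (a * b)) : K / (a * b) - 3 / 2 * (K / P) ≤ 23 / 24 * (K / (a * b)) := by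
  have hab : 0 < a * b := mul_pos ha hb
  have h1 : K / (36 * (a * b)) ≤ K / P := div_le_div_of_nonneg_left hK hP h
  have h2 : K / (36 * (a * b)) = 1 / 36 * (K / (a * b)) := by field_simp
  rw [h2] at h1
  linarith

theorem clSet_G (hB : CBound n S Z) {a b h : ℕ} {w1 w2 : ℤ} (ha : 0 < a) (hab : a ≤ b)
    (hba : b ≤ 2 * a) (hw : ¬ (3 ∣ w1 ∧ 3 ∣ w2)) (hS : 32 ^ n * (9 * a + 3 * b) ≤ S)
    (hZ : 4 * 3 ^ (h + 1) * S ≤ Z) :
    ((clSet a b w1 w2 (h + 1) S Z).card : ℝ) ≤ 23 / 24 * (cK n (h + 1) Z / (a * b)) := by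
  have hb : 0 < b := by omega
  have ha' : (0 : ℝ) < a := by exact_mod_cast ha
  have hb' : (0 : ℝ) < b := by exact_mod_cast hb
  have hab' : (a : ℝ) ≤ b := by exact_mod_cast hab
  have hba' : (b : ℝ) ≤ 2 * a := by exact_mod_cast hba
  have hK := cK_nonneg n (h + 1) Z
  have hmono : ∀ c, c ≤ 9 * a + 3 * b → 32 ^ n * c ≤ S := fun c hc =>
    (Nat.mul_le_mul_left _ hc).trans hS
  have hz : ∀ c, c ≤ 9 * a + 3 * b → 4 * c ≤ Z := fun c hc =>
    four_le hZ (le_of_pow_mul (hmono c hc))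
  have hprod : 0 ≤ ((b : ℝ) - a) * (2 * a - b) :=
    mul_nonneg (by linarith) (by linarith)
  have hcase : (3 ∣ w1 + w2) ∨ (3 ∣ w1) ∨ (3 ∣ w2) ∨ (3 ∣ w1 - w2) := by
    have e1 : w1 % 3 = 0 ∨ w1 % 3 = 1 ∨ w1 % 3 = 2 := by omega
    have e2 : w2 % 3 = 0 ∨ w2 % 3 = 1 ∨ w2 % 3 = 2 := by omega
    rcases e1 with e1 | e1 | e1
    · exact Or.inr (Or.inl (by omega))
    · rcases e2 with e2 | e2 | e2
      · exact Or.inr (Or.inr (Or.inl (by omega)))
      · exact Or.inr (Or.inr (Or.inr (by omega)))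
      · exact Or.inl (by omega)
    · rcases e2 with e2 | e2 | e2
      · exact Or.inr (Or.inr (Or.inl (by omega)))
      · exact Or.inl (by omega)
      · exact Or.inr (Or.inr (Or.inr (by omega)))
  set K := cK n (h + 1) Z with hKdef
  rcases hcase with h3 | h3 | h3 | h3
  · have h1 := clSet_S2' hB (h := h) ha hb hw h3 (hmono _ (by omega)) hZ
    refine h1.trans (num_aux hK (by positivity) ha' hb' ?_)
    nlinarith
  · have h1 := clSet_S1r (S := S) (h := h + 1) w1 w2 (hz (a + b) (by omega))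
    have h2 : ((clSet (a + b) b w1 (w2 - w1) (h + 1) S Z).card : ℝ) ≤
        K / (((a + b : ℕ) : ℝ) * b) :=
      leaf hB (by omega) hb (by rintro ⟨d1, d2⟩; apply hw; constructor <;> omega)
        (hmono _ (by omega)) hZ
    have h4 := clSet_S2' hB (x := a) (y := a + b) (h := h) (w1 := w1 - w2) (w2 := w2) ha
      (by omega) (by rintro ⟨d1, d2⟩; apply hw; constructor <;> omega) (by omega)
      (hmono _ (by omega)) hZ
    rw [← hKdef] at h4
    push_cast at h2 h4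
    have h5 : K / (((a : ℝ) + b) * b) + K / ((a : ℝ) * (a + b)) = K / (a * b) := by
      field_simp
    refine le_trans ?_ (num_aux (P := (2 * (a : ℝ) + (a + b)) * (a + 2 * (a + b))) hK
      (by positivity) ha' hb' (by nlinarith))
    linarith
  · have h1 := clSet_S1r (S := S) (h := h + 1) w1 w2 (hz (a + b) (by omega))
    have h2 : ((clSet a (a + b) (w1 - w2) w2 (h + 1) S Z).card : ℝ) ≤
        K / ((a : ℝ) * ((a + b : ℕ) : ℝ)) :=
      leaf hB ha (by omega) (by rintro ⟨d1, d2⟩; apply hw; constructor <;> omega)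
        (hmono _ (by omega)) hZ
    have h4 := clSet_S2' hB (x := a + b) (y := b) (h := h) (w1 := w1) (w2 := w2 - w1) (by omega)
      hb (by rintro ⟨d1, d2⟩; apply hw; constructor <;> omega) (by omega)
      (hmono _ (by omega)) hZ
    rw [← hKdef] at h4
    push_cast at h2 h4
    have h5 : K / (((a : ℝ) + b) * b) + K / ((a : ℝ) * (a + b)) = K / (a * b) := by
      field_simp
    refine le_trans ?_ (num_aux (P := (2 * ((a : ℝ) + b) + b) * ((a + b) + 2 * b)) hK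
      (by positivity) ha' hb' (by nlinarith))
    linarith
  · have h1 := clSet_S1r (S := S) (h := h + 1) w1 w2 (hz (a + b) (by omega))
    have h2 : ((clSet (a + b) b w1 (w2 - w1) (h + 1) S Z).card : ℝ) ≤
        K / (((a + b : ℕ) : ℝ) * b) :=
      leaf hB (by omega) hb (by rintro ⟨d1, d2⟩; apply hw; constructor <;> omega)
        (hmono _ (by omega)) hZ
    have h1' := clSet_S1r (S := S) (h := h + 1) (x := a) (y := a + b) (w1 - w2) w2
      (hz (a + (a + b)) (by omega))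
    have h2' : ((clSet (a + (a + b)) (a + b) (w1 - w2) (w2 - (w1 - w2)) (h + 1) S Z).card : ℝ) ≤
        K / (((a + (a + b) : ℕ) : ℝ) * ((a + b : ℕ) : ℝ)) :=
      leaf hB (by omega) (by omega) (by rintro ⟨d1, d2⟩; apply hw; constructor <;> omega)
        (hmono _ (by omega)) hZ
    have h4 := clSet_S2' hB (x := a) (y := a + (a + b)) (h := h) (w1 := w1 - w2 - w2) (w2 := w2)
      ha (by omega) (by rintro ⟨d1, d2⟩; apply hw; constructor <;> omega) (by omega)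
      (hmono _ (by omega)) hZ
    rw [← hKdef] at h4
    push_cast at h2 h2' h4
    have h5 : K / (((a : ℝ) + b) * b) + K / ((a : ℝ) * (a + b)) = K / (a * b) := by
      field_simp
    have h6 : K / (((a : ℝ) + (a + b)) * (a + b)) + K / ((a : ℝ) * (a + (a + b))) =
        K / (a * (a + b)) := by
      field_simp
    refine le_trans ?_ (num_aux (P := (2 * (a : ℝ) + (a + (a + b))) * (a + 2 * (a + (a + b)))) hK
      (by positivity) ha' hb' (by nlinarith))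
    linarith

theorem clSet_A (hB : CBound n S Z) {c2 h : ℕ} (hc2 : 0 < c2) (hZ : 4 * 3 ^ (h + 1) * S ≤ Z)
    (k : ℕ) : ∀ (x : ℕ) (w1 w2 : ℤ), c2 ≤ x → ¬ (3 ∣ w1 ∧ 3 ∣ w2) →
      32 ^ n * (12 * (x + k * c2)) ≤ S →
      ((clSet x c2 w1 w2 (h + 1) S Z).card : ℝ) ≤
        23 / 24 * (cK n (h + 1) Z / (x * c2)) +
          1 / 24 * (cK n (h + 1) Z / (((x : ℝ) + k * c2) * c2)) := by
  induction k with
  | zero =>
    intro x w1 w2 hx hw hS
    have h1 := leaf hB (h := h + 1) (w1 := w1) (w2 := w2) (by omega : 0 < x) hc2 hw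
      ((Nat.mul_le_mul_left _ (by omega)).trans hS) hZ
    simp only [Nat.cast_zero, zero_mul, add_zero]
    linarith
  | succ k ih =>
    intro x w1 w2 hx hw hS
    have hx0 : 0 < x := by omega
    have hexp : (k + 1) * c2 = k * c2 + c2 := by ring
    rw [hexp] at hS
    have hz : 4 * (x + c2) ≤ Z := by
      have := four_le hZ (le_of_pow_mul hS)
      omega
    have h1 := clSet_S1r (S := S) (h := h + 1) w1 w2 hz
    have h2 := ih (x + c2) w1 (w2 - w1) (by omega)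
      (by rintro ⟨d1, d2⟩; apply hw; constructor <;> omega)
      ((Nat.mul_le_mul_left _ (by omega)).trans hS)
    have h3 := clSet_G hB (a := x) (b := x + c2) (h := h) (w1 := w1 - w2) (w2 := w2) hx0
      (by omega) (by omega) (by rintro ⟨d1, d2⟩; apply hw; constructor <;> omega)
      ((Nat.mul_le_mul_left _ (by omega)).trans hS) hZ
    push_cast at h2 h3 ⊢
    have hx' : (0 : ℝ) < x := by exact_mod_cast hx0
    have hc' : (0 : ℝ) < c2 := by exact_mod_cast hc2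
    have h5 : cK n (h + 1) Z / (((x : ℝ) + c2) * c2) + cK n (h + 1) Z / ((x : ℝ) * (x + c2)) =
        cK n (h + 1) Z / (x * c2) := by
      field_simp
    have h6 : ((x : ℝ) + c2 + k * c2) = x + (k + 1) * c2 := by ring
    rw [h6] at h2
    linarith

theorem clSet_step1 (hB : CBound n S Z) {c1 c2 h : ℕ} {w1 w2 : ℤ} (hc2 : 0 < c2)
    (h12 : c2 ≤ c1) (hw : ¬ (3 ∣ w1 ∧ 3 ∣ w2)) (hS : 32 ^ (n + 1) * (c1 + c2) ≤ S)
    (hZ : 4 * 3 ^ (h + 1) * S ≤ Z) :
    ((clSet c1 c2 w1 w2 (h + 1) S Z).card : ℝ) * (c1 * c2) ≤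
      4 * (Z : ℝ) ^ 2 * (2 / 3) ^ (h + 1) * (47 / 48) ^ (n + 1) := by
  have hc1 : 0 < c1 := by omega
  obtain ⟨k, hk1, hk2⟩ : ∃ k, c1 ≤ k * c2 ∧ k * c2 ≤ c1 + c2 := by
    refine ⟨c1 / c2 + 1, ?_, ?_⟩
    · have := Nat.lt_div_mul_add (a := c1) hc2
      rw [Nat.add_mul]; omega
    · have := Nat.div_mul_le_self c1 c2
      rw [Nat.add_mul]; omega
  have hS' : 32 ^ n * (12 * (c1 + k * c2)) ≤ S := by
    refine le_trans ?_ hS
    rw [pow_succ, Nat.mul_assoc]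
    apply Nat.mul_le_mul_left
    omega
  have h1 := clSet_A hB hc2 hZ k c1 w1 w2 h12 hw hS'
  have hx' : (0 : ℝ) < c1 := by exact_mod_cast hc1
  have hc' : (0 : ℝ) < c2 := by exact_mod_cast hc2
  have hk1' : (c1 : ℝ) ≤ k * c2 := by exact_mod_cast hk1
  have hK := cK_nonneg n (h + 1) Z
  have h2 : cK n (h + 1) Z / (((c1 : ℝ) + k * c2) * c2) ≤
      1 / 2 * (cK n (h + 1) Z / (c1 * c2)) := by
    have : cK n (h + 1) Z / (((c1 : ℝ) + k * c2) * c2) ≤
        cK n (h + 1) Z / ((2 * c1) * c2) := by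
      apply div_le_div_of_nonneg_left hK (by positivity)
      apply mul_le_mul_of_nonneg_right _ hc'.le
      linarith
    refine this.trans (le_of_eq ?_)
    field_simp
  have h3 : ((clSet c1 c2 w1 w2 (h + 1) S Z).card : ℝ) ≤
      47 / 48 * (cK n (h + 1) Z / (c1 * c2)) := by linarith
  have h4 : (0 : ℝ) < c1 * c2 := by positivity
  calc ((clSet c1 c2 w1 w2 (h + 1) S Z).card : ℝ) * (c1 * c2)
      ≤ 47 / 48 * (cK n (h + 1) Z / (c1 * c2)) * (c1 * c2) :=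
        mul_le_mul_of_nonneg_right h3 h4.le
    _ = 47 / 48 * cK n (h + 1) Z := by
        field_simp
    _ = 4 * (Z : ℝ) ^ 2 * (2 / 3) ^ (h + 1) * (47 / 48) ^ (n + 1) := by
        unfold cK
        rw [pow_succ (47 / 48 : ℝ)]
        ring

end

theorem cBound_all (S Z : ℕ) (n : ℕ) : CBound n S Z := by
  induction n with
  | zero =>
    intro c1 c2 h w1 w2 hc1 hc2 hw hS hZ
    rw [pow_zero, one_mul] at hS
    rw [pow_zero, mul_one]
    by_cases h1 : (3 : ℤ) ∣ w1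
    · have h2 : ¬ (3 : ℤ) ∣ w2 := fun h2 => hw ⟨h1, h2⟩
      have h3 := clSet_base1 w2 w1 hc2 hc1 h2 (by omega) hZ
      have h4 : ((clSet c1 c2 w1 w2 h S Z).card : ℝ) ≤ ((clSet c2 c1 w2 w1 h S Z).card : ℝ) := by
        exact_mod_cast clSet_swap c1 c2 w1 w2 h S Z
      refine le_trans ?_ h3
      rw [mul_comm (c2 : ℝ) c1]
      exact mul_le_mul_of_nonneg_right h4 (by positivity)
    · exact clSet_base1 w1 w2 hc1 hc2 h1 hS hZ
  | succ n ih =>
    intro c1 c2 h w1 w2 hc1 hc2 hw hS hZ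
    rcases h with _ | h
    · have h0 : clSet c1 c2 w1 w2 0 S Z = ∅ := by
        rw [Finset.eq_empty_iff_forall_notMem]
        rintro ⟨y1, y2⟩ hy
        rw [mem_clSet] at hy
        exact hy.2.2.2.2.2 (Climb.done (le_of_pow_mul hS))
      rw [h0]
      simp only [Finset.card_empty, Nat.cast_zero, zero_mul]
      positivity
    · rcases Nat.le_total c2 c1 with h12 | h12
      · exact clSet_step1 ih hc2 h12 hw hS hZ
      · have h3 := clSet_step1 ih (w1 := w2) (w2 := w1) hc1 h12 (fun h => hw ⟨h.2, h.1⟩)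
          (by rw [Nat.add_comm c2 c1]; exact hS) hZ
        have h4 : ((clSet c1 c2 w1 w2 (h + 1) S Z).card : ℝ) ≤
            ((clSet c2 c1 w2 w1 (h + 1) S Z).card : ℝ) := by
          exact_mod_cast clSet_swap c1 c2 w1 w2 (h + 1) S Z
        refine le_trans ?_ h3
        rw [mul_comm (c2 : ℝ) c1]
        exact mul_le_mul_of_nonneg_right h4 (by positivity)

open scoped Classical in
/-- task CLIMB -/
theorem climb_count (n : ℕ) {c1 c2 h S Z : ℕ} (w1 w2 : ℤ) (hc1 : 0 < c1) (hc2 : 0 < c2)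
    (hw : ¬ (3 ∣ w1 ∧ 3 ∣ w2)) (hS : 32 ^ n * (c1 + c2) ≤ S) (hZ : 4 * 3 ^ h * S ≤ Z) :
    (((Finset.Icc 1 Z ×ˢ Finset.Icc 1 Z).filter (fun y : ℕ × ℕ => Nat.Coprime y.1 y.2 ∧
      Z < 2 * (c1 * y.1 + c2 * y.2) ∧ c1 * y.1 + c2 * y.2 ≤ Z ∧
      (3 ^ h : ℤ) ∣ (y.1 : ℤ) * w2 - (y.2 : ℤ) * w1 ∧
      ¬ Climb c1 c2 y.1 y.2 h S)).card : ℝ) * (c1 * c2) ≤
        4 * (Z : ℝ) ^ 2 * (2 / 3) ^ h * (47 / 48) ^ n :=
  cBound_all S Z n c1 c2 h w1 w2 hc1 hc2 hw hS hZ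

end BAC
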