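import Pool.Agent.BAC.Frames
import Pool.Agent.BAC.ClimbCount

namespace BAC

/-- residue directions modulo `3 ^ h` -/
def dirs (h : ℕ) : Finset (ℤ × ℤ) :=
  (Finset.range (3 ^ h)).image (fun t : ℕ => ((1 : ℤ), (t : ℤ))) ∪
    (Finset.range (3 ^ (h - 1))).image (fun s : ℕ => ((3 : ℤ) * (s : ℤ), (1 : ℤ)))

theorem dirs_card {h : ℕ} (hh : 1 ≤ h) : ((dirs h).card : ℝ) ≤ 4 / 3 * 3 ^ h := by
  have h1 : (dirs h).card ≤ 3 ^ h + 3 ^ (h - 1) := by
    unfold dirs
    refine (Finset.card_union_le _ _).trans (Nat.add_le_add ?_ ?_)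
    · exact Finset.card_image_le.trans (by simp)
    · exact Finset.card_image_le.trans (by simp)
  have h2 : ((dirs h).card : ℝ) ≤ (3 : ℝ) ^ h + 3 ^ (h - 1) := by exact_mod_cast h1
  obtain ⟨k, rfl⟩ : ∃ k, h = k + 1 := ⟨h - 1, by omega⟩
  simp only [Nat.add_sub_cancel] at h2
  rw [pow_succ] at h2 ⊢
  linarith

theorem dirs_ndvd {h : ℕ} {w : ℤ × ℤ} (hw : w ∈ dirs h) : ¬ (3 ∣ w.1 ∧ 3 ∣ w.2) := by
  unfold dirs at hw
  rw [Finset.mem_union, Finset.mem_image, Finset.mem_image] at hw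
  rcases hw with ⟨t, -, rfl⟩ | ⟨t, -, rfl⟩
  · rintro ⟨h1, -⟩
    norm_num at h1
  · rintro ⟨-, h1⟩
    norm_num at h1

theorem exists_res {a b q : ℕ} (hq : 0 < q) (ha : Nat.Coprime a q) :
    ∃ t < q, (q : ℤ) ∣ (a : ℤ) * t - b := by
  have h1 : IsCoprime (a : ℤ) (q : ℤ) := Nat.isCoprime_iff_coprime.mpr ha
  obtain ⟨u, v, huv⟩ := h1
  refine ⟨((u * b) % (q : ℤ)).toNat, ?_, ?_⟩
  · have h2 : (u * b) % (q : ℤ) < q := Int.emod_lt_of_pos _ (by exact_mod_cast hq)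
    have h3 : 0 ≤ (u * b) % (q : ℤ) := Int.emod_nonneg _ (by exact_mod_cast hq.ne')
    omega
  · have h3 : 0 ≤ (u * b) % (q : ℤ) := Int.emod_nonneg _ (by exact_mod_cast hq.ne')
    rw [Int.toNat_of_nonneg h3]
    have h4 : (u * b) % (q : ℤ) = u * b - q * ((u * b) / q) := by
      rw [Int.emod_def]
    rw [h4]
    refine ⟨-(v * b) - a * ((u * b) / q), ?_⟩
    have : (a : ℤ) * u = 1 - v * q := by linarith
    calc (a : ℤ) * (u * b - q * (u * b / q)) - b = (a * u) * b - a * q * (u * b / q) - b := by ring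
      _ = (1 - v * q) * b - a * q * (u * b / q) - b := by rw [this]
      _ = _ := by ring

theorem exists_dir {h y1 y2 : ℕ} (hh : 1 ≤ h) (hy : Nat.Coprime y1 y2) :
    ∃ w ∈ dirs h, (3 ^ h : ℤ) ∣ (y1 : ℤ) * w.2 - (y2 : ℤ) * w.1 := by
  by_cases h3 : 3 ∣ y1
  · obtain ⟨z, rfl⟩ := h3
    have h4 : Nat.Coprime y2 (3 ^ (h - 1)) := by
      apply Nat.Coprime.pow_right
      exact (Nat.Coprime.coprime_mul_right hy).symm
    obtain ⟨t, ht, htd⟩ := exists_res (a := y2) (b := z) (q := 3 ^ (h - 1)) (by positivity) h4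
    refine ⟨(3 * (t : ℤ), 1), ?_, ?_⟩
    · unfold dirs
      rw [Finset.mem_union]
      right
      rw [Finset.mem_image]
      exact ⟨t, Finset.mem_range.mpr ht, rfl⟩
    · obtain ⟨c, hc⟩ := htd
      refine ⟨-c, ?_⟩
      obtain ⟨k, rfl⟩ : ∃ k, h = k + 1 := ⟨h - 1, by omega⟩
      rw [Nat.add_sub_cancel] at hc
      push_cast at hc ⊢
      rw [pow_succ]
      linear_combination (-3 : ℤ) * hc
  · have h4 : Nat.Coprime y1 (3 ^ h) := by
      apply Nat.Coprime.pow_right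
      exact ((Nat.Prime.coprime_iff_not_dvd Nat.prime_three).mpr h3).symm
    obtain ⟨t, ht, htd⟩ := exists_res (a := y1) (b := y2) (q := 3 ^ h) (by positivity) h4
    refine ⟨(1, (t : ℤ)), ?_, ?_⟩
    · unfold dirs
      rw [Finset.mem_union]
      left
      rw [Finset.mem_image]
      exact ⟨t, Finset.mem_range.mpr ht, rfl⟩
    · push_cast at htd
      simpa using htd

open scoped Classical in
/-- task CLIMBBAD (from `climb_count` and `frame_sum`) -/
theorem climb_bad {j m h Z : ℕ} (hh : 1 ≤ h) (hZ : 2 ^ (m + 512 * h + 2 * h + 4) ≤ Z) :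
    (((V Z).filter (fun v => ∃ F y, Can v j m F y ∧
      ¬ Climb F.c1 F.c2 y.1 y.2 h (2 ^ (m + 512 * h - 1)))).card : ℝ) ≤
        128 * (Z : ℝ) ^ 2 / 4 ^ h := by
  set S : ℕ := 2 ^ (m + 512 * h - 1) with hSdef
  set FS : Finset (ℕ × ℕ × ℕ × ℕ) :=
    (Finset.range (2 ^ m) ×ˢ Finset.range (2 ^ m) ×ˢ Finset.range (2 ^ m) ×ˢ
      Finset.range (2 ^ m)).filter (fun F => F.1 * F.2.2.2 = F.2.1 * F.2.2.1 + 3 ^ j ∧
        F.1 + F.2.2.1 < 2 ^ m ∧ F.2.1 + F.2.2.2 < 2 ^ m ∧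
        2 ^ m ≤ (F.1 + F.2.2.1) + (F.2.1 + F.2.2.2)) with hFS
  have hFSmem : ∀ F ∈ FS, F.1 * F.2.2.2 = F.2.1 * F.2.2.1 + 3 ^ j ∧
        F.1 + F.2.2.1 < 2 ^ m ∧ F.2.1 + F.2.2.2 < 2 ^ m ∧
        2 ^ m ≤ (F.1 + F.2.2.1) + (F.2.1 + F.2.2.2) := by
    intro F hF
    rw [hFS, Finset.mem_filter] at hF
    exact hF.2
  let T : (ℕ × ℕ × ℕ × ℕ) → (ℤ × ℤ) → Finset (ℕ × ℕ) := fun F w =>
    (Finset.Icc 1 Z ×ˢ Finset.Icc 1 Z).filter (fun y : ℕ × ℕ => Nat.Coprime y.1 y.2 ∧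
      Z < 2 * ((F.1 + F.2.2.1) * y.1 + (F.2.1 + F.2.2.2) * y.2) ∧
      (F.1 + F.2.2.1) * y.1 + (F.2.1 + F.2.2.2) * y.2 ≤ Z ∧
      (3 ^ h : ℤ) ∣ (y.1 : ℤ) * w.2 - (y.2 : ℤ) * w.1 ∧
      ¬ Climb (F.1 + F.2.2.1) (F.2.1 + F.2.2.2) y.1 y.2 h S)
  have hsub : (V Z).filter (fun v => ∃ F y, Can v j m F y ∧
      ¬ Climb F.c1 F.c2 y.1 y.2 h S) ⊆ FS.biUnion (fun F => (dirs h).biUnion (fun w =>
        (T F w).image (fun y => (F.1 * y.1 + F.2.1 * y.2, F.2.2.1 * y.1 + F.2.2.2 * y.2)))) := by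
    intro v hv
    rw [Finset.mem_filter] at hv
    obtain ⟨hvV, F, y, hcan, hcl⟩ := hv
    unfold V at hvV
    rw [Finset.mem_filter] at hvV
    obtain ⟨-, hcop, hZ1, hZ2⟩ := hvV
    have hlt1 := hcan.lt1
    have hlt2 := hcan.lt2
    have hle := hcan.le
    have e1 := hcan.eq1
    have e2 := hcan.eq2
    have p1 := hcan.pos1
    have p2 := hcan.pos2
    have hdet := hcan.det
    unfold Fr.sz at hle
    unfold Fr.c1 at hlt1 hle hcl
    unfold Fr.c2 at hlt2 hle hcl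
    have hycop : Nat.Coprime y.1 y.2 := by
      have hd1 : Nat.gcd y.1 y.2 ∣ v.1 := by
        rw [← e1]
        exact dvd_add (Dvd.dvd.mul_left (Nat.gcd_dvd_left _ _) _)
          (Dvd.dvd.mul_left (Nat.gcd_dvd_right _ _) _)
      have hd2 : Nat.gcd y.1 y.2 ∣ v.2 := by
        rw [← e2]
        exact dvd_add (Dvd.dvd.mul_left (Nat.gcd_dvd_left _ _) _)
          (Dvd.dvd.mul_left (Nat.gcd_dvd_right _ _) _)
      exact Nat.eq_one_of_dvd_coprimes hcop hd1 hd2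
    have h3pos : 0 < 3 ^ j := by positivity
    have ha : 0 < F.a := by
      rcases Nat.eq_zero_or_pos F.a with h0 | h0
      · rw [h0] at hdet
        omega
      · exact h0
    have hd : 0 < F.d := by
      rcases Nat.eq_zero_or_pos F.d with h0 | h0
      · rw [h0] at hdet
        omega
      · exact h0
    obtain ⟨w, hw, hwd⟩ := exists_dir hh hycop
    rw [Finset.mem_biUnion]
    refine ⟨(F.a, F.b, F.c, F.d), ?_, ?_⟩
    · rw [hFS, Finset.mem_filter]
      refine ⟨?_, hdet, hlt1, hlt2, hle⟩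
      simp only [Finset.mem_product, Finset.mem_range]
      refine ⟨by omega, by omega, by omega, by omega⟩
    · rw [Finset.mem_biUnion]
      refine ⟨w, hw, ?_⟩
      rw [Finset.mem_image]
      refine ⟨y, ?_, ?_⟩
      · have hsum : (F.a + F.c) * y.1 + (F.b + F.d) * y.2 = v.1 + v.2 := by
          rw [← e1, ← e2]; ring
        have hy1 : y.1 ≤ (F.a + F.c) * y.1 := Nat.le_mul_of_pos_left _ (by omega)
        have hy2 : y.2 ≤ (F.b + F.d) * y.2 := Nat.le_mul_of_pos_left _ (by omega)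
        simp only [T]
        rw [Finset.mem_filter]
        refine ⟨?_, hycop, ?_, ?_, hwd, hcl⟩
        · simp only [Finset.mem_product, Finset.mem_Icc]
          omega
        · rw [hsum]; exact hZ1
        · rw [hsum]; exact hZ2
      · simp only
        rw [e1, e2]
  have hcard1 : ((V Z).filter (fun v => ∃ F y, Can v j m F y ∧
      ¬ Climb F.c1 F.c2 y.1 y.2 h S)).card ≤ ∑ F ∈ FS, ∑ w ∈ dirs h, (T F w).card := by
    refine (Finset.card_le_card hsub).trans ?_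
    refine Finset.card_biUnion_le.trans ?_
    refine Finset.sum_le_sum (fun F _ => ?_)
    refine Finset.card_biUnion_le.trans ?_
    refine Finset.sum_le_sum (fun w _ => ?_)
    exact Finset.card_image_le
  have hcard2 : (((V Z).filter (fun v => ∃ F y, Can v j m F y ∧
      ¬ Climb F.c1 F.c2 y.1 y.2 h S)).card : ℝ) ≤
        ∑ F ∈ FS, ∑ w ∈ dirs h, ((T F w).card : ℝ) := by
    exact_mod_cast hcard1
  set κ : ℝ := 4 * (Z : ℝ) ^ 2 * (2 / 3) ^ h * (47 / 48) ^ (102 * h) with hκ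
  have hκ0 : 0 ≤ κ := by positivity
  have hT : ∀ F ∈ FS, ∀ w ∈ dirs h, ((T F w).card : ℝ) ≤
      κ * ((1 : ℝ) / (((F.1 : ℝ) + F.2.2.1) * ((F.2.1 : ℝ) + F.2.2.2))) := by
    intro F hF w hw
    obtain ⟨hdet, hlt1, hlt2, hle⟩ := hFSmem F hF
    have h3pos : 0 < 3 ^ j := by positivity
    have ha : 0 < F.1 := by
      rcases Nat.eq_zero_or_pos F.1 with h0 | h0
      · rw [h0] at hdet
        omega
      · exact h0
    have hd : 0 < F.2.2.2 := by
      rcases Nat.eq_zero_or_pos F.2.2.2 with h0 | h0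
      · rw [h0] at hdet
        omega
      · exact h0
    have key := climb_count (102 * h) (c1 := F.1 + F.2.2.1) (c2 := F.2.1 + F.2.2.2) (h := h)
      (S := S) (Z := Z) w.1 w.2 (by omega) (by omega) (dirs_ndvd hw) ?_ ?_
    · have hpos : (0 : ℝ) < ((F.1 : ℝ) + F.2.2.1) * ((F.2.1 : ℝ) + F.2.2.2) := by
        have : (0 : ℝ) < (F.1 : ℝ) := by exact_mod_cast ha
        have : (0 : ℝ) < (F.2.2.2 : ℝ) := by exact_mod_cast hd
        positivity
      rw [mul_one_div, le_div_iff₀ hpos]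
      push_cast at key
      exact key
    · have : 32 ^ (102 * h) = 2 ^ (510 * h) := by
        rw [show (32 : ℕ) = 2 ^ 5 by norm_num, ← pow_mul]
        congr 1
        ring
      rw [this]
      calc 2 ^ (510 * h) * (F.1 + F.2.2.1 + (F.2.1 + F.2.2.2))
          ≤ 2 ^ (510 * h) * 2 ^ (m + 1) := by
            apply Nat.mul_le_mul_left
            rw [pow_succ]
            omega
        _ = 2 ^ (510 * h + (m + 1)) := by rw [← pow_add]
        _ ≤ S := by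
            rw [hSdef]
            exact Nat.pow_le_pow_right (by norm_num) (by omega)
    · calc 4 * 3 ^ h * S ≤ 4 * 4 ^ h * S := by
            apply Nat.mul_le_mul_right
            apply Nat.mul_le_mul_left
            exact Nat.pow_le_pow_left (by norm_num) h
        _ = 2 ^ (2 + 2 * h + (m + 512 * h - 1)) := by
            rw [hSdef, show (4 : ℕ) ^ h = 2 ^ (2 * h) by rw [pow_mul]; norm_num,
              show (4 : ℕ) = 2 ^ 2 by norm_num, ← pow_add, ← pow_add]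
        _ ≤ 2 ^ (m + 512 * h + 2 * h + 4) := Nat.pow_le_pow_right (by norm_num) (by omega)
        _ ≤ Z := hZ
  have hsum : ∑ F ∈ FS, ∑ w ∈ dirs h, ((T F w).card : ℝ) ≤
      ((dirs h).card : ℝ) * κ * 24 := by
    calc ∑ F ∈ FS, ∑ w ∈ dirs h, ((T F w).card : ℝ)
        ≤ ∑ F ∈ FS, ∑ w ∈ dirs h,
            κ * ((1 : ℝ) / (((F.1 : ℝ) + F.2.2.1) * ((F.2.1 : ℝ) + F.2.2.2))) :=
          Finset.sum_le_sum (fun F hF => Finset.sum_le_sum (fun w hw => hT F hF w hw))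
      _ = ((dirs h).card : ℝ) * κ *
            ∑ F ∈ FS, (1 : ℝ) / (((F.1 : ℝ) + F.2.2.1) * ((F.2.1 : ℝ) + F.2.2.2)) := by
          rw [Finset.mul_sum]
          refine Finset.sum_congr rfl (fun F _ => ?_)
          rw [Finset.sum_const, nsmul_eq_mul]
          ring
      _ ≤ ((dirs h).card : ℝ) * κ * 24 := by
          apply mul_le_mul_of_nonneg_left (frame_sum j m FS hFSmem)
          positivity
  refine hcard2.trans (hsum.trans ?_)
  have hr : ((47 : ℝ) / 48) ^ (102 * h) ≤ (1 / 8) ^ h := by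
    rw [pow_mul]
    apply pow_le_pow_left₀ (by positivity)
    norm_num
  have hκle : κ ≤ 4 * (Z : ℝ) ^ 2 * (2 / 3) ^ h * (1 / 8) ^ h := by
    rw [hκ]
    apply mul_le_mul_of_nonneg_left hr
    positivity
  calc ((dirs h).card : ℝ) * κ * 24
      ≤ (4 / 3 * 3 ^ h) * (4 * (Z : ℝ) ^ 2 * (2 / 3) ^ h * (1 / 8) ^ h) * 24 := by
        apply mul_le_mul_of_nonneg_right _ (by norm_num)
        exact mul_le_mul (dirs_card hh) hκle hκ0 (by positivity)
    _ = 128 * (Z : ℝ) ^ 2 * (3 * (2 / 3) * (1 / 8)) ^ h := by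
        rw [mul_pow, mul_pow]
        ring
    _ = 128 * (Z : ℝ) ^ 2 / 4 ^ h := by
        rw [show (3 : ℝ) * (2 / 3) * (1 / 8) = 1 / 4 by norm_num, one_div, inv_pow]
        rfl

end BAC
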