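import Pool.Agent.BAC.Defs

/-!
# First moment bound for obstacles (task FIRST of MP_bac445_co)
-/

namespace BAC

/-- difference of two solutions of `ε ∧ v = α` is a multiple of `ε` -/
theorem fm_wedge_diff {e1 e2 x1 x2 : ℤ} (h : IsCoprime e1 e2) (hx : e1 * x2 - e2 * x1 = 0) :
    ∃ t : ℤ, x1 = e1 * t ∧ x2 = e2 * t := by
  obtain ⟨a, b, hab⟩ := h
  refine ⟨a * x1 + b * x2, ?_, ?_⟩
  · linear_combination (-x1) * hab + (-b) * hx
  · linear_combination (-x2) * hab + a * hx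

/-- number of lattice points on a line -/
theorem fm_line_card {ε : ℕ × ℕ} (hε : Nat.Coprime ε.1 ε.2) {Z : ℕ} {α : ℤ}
    {S : Finset (ℕ × ℕ)}
    (hS : ∀ v ∈ S, v.1 + v.2 ≤ Z ∧ (ε.1 : ℤ) * v.2 - (ε.2 : ℤ) * v.1 = α) :
    S.card ≤ Z / (ε.1 + ε.2) + 1 := by
  have hs : 0 < ε.1 + ε.2 := by
    rcases Nat.eq_zero_or_pos (ε.1 + ε.2) with h | h
    · have h1 : ε.1 = 0 := by omega
      have h2 : ε.2 = 0 := by omega
      rw [h1, h2] at hε
      simp at hε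
    · exact h
  have hco : IsCoprime (ε.1 : ℤ) (ε.2 : ℤ) := Nat.isCoprime_iff_coprime.mpr hε
  have := Finset.card_le_card_of_injOn (s := S) (t := Finset.range (Z / (ε.1 + ε.2) + 1))
    (fun v => (v.1 + v.2) / (ε.1 + ε.2)) ?_ ?_
  · simpa using this
  · intro v hv
    have h := (hS v hv).1
    simp only [Finset.coe_range, Set.mem_Iio]
    exact Nat.lt_succ_of_le (Nat.div_le_div_right h)
  · intro v hv w hw hvw
    simp only at hvw
    have h1 := (hS v hv).2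
    have h2 := (hS w hw).2
    obtain ⟨t, ht1, ht2⟩ := fm_wedge_diff (x1 := (v.1 : ℤ) - w.1) (x2 := (v.2 : ℤ) - w.2) hco
      (by linear_combination h1 - h2)
    have hts : ((v.1 + v.2 : ℕ) : ℤ) - ((w.1 + w.2 : ℕ) : ℤ) = ((ε.1 + ε.2 : ℕ) : ℤ) * t := by
      push_cast
      linear_combination ht1 + ht2
    have hdv := Nat.div_add_mod (v.1 + v.2) (ε.1 + ε.2)
    have hdw := Nat.div_add_mod (w.1 + w.2) (ε.1 + ε.2)
    have hmv := Nat.mod_lt (v.1 + v.2) hs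
    have hmw := Nat.mod_lt (w.1 + w.2) hs
    rw [hvw] at hdv
    generalize (w.1 + w.2) / (ε.1 + ε.2) = q at hdv hdw
    generalize (v.1 + v.2) % (ε.1 + ε.2) = r at hdv hmv
    generalize (w.1 + w.2) % (ε.1 + ε.2) = r' at hdw hmw
    have ht0 : t = 0 := by
      rw [← hdv, ← hdw] at hts
      push_cast at hts
      have h3 : (r : ℤ) - r' = ((ε.1 : ℤ) + ε.2) * t := by linear_combination hts
      zify at hmv hmw hs
      by_contra hne
      rcases lt_or_gt_of_ne hne with h | h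
      · have : t ≤ -1 := by omega
        nlinarith [Int.natCast_nonneg r, Int.natCast_nonneg r']
      · have : 1 ≤ t := by omega
        nlinarith [Int.natCast_nonneg r, Int.natCast_nonneg r']
    rw [ht0] at ht1 ht2
    apply Prod.ext
    · omega
    · omega

theorem fm_line_card_real {ε : ℕ × ℕ} (hε : Nat.Coprime ε.1 ε.2) {Z : ℕ} {α : ℤ}
    {S : Finset (ℕ × ℕ)} (hsZ : ε.1 + ε.2 ≤ Z)
    (hS : ∀ v ∈ S, v.1 + v.2 ≤ Z ∧ (ε.1 : ℤ) * v.2 - (ε.2 : ℤ) * v.1 = α) :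
    (S.card : ℝ) ≤ 2 * Z / ((ε.1 + ε.2 : ℕ) : ℝ) := by
  have hs : 0 < ε.1 + ε.2 := by
    rcases Nat.eq_zero_or_pos (ε.1 + ε.2) with h | h
    · have h1 : ε.1 = 0 := by omega
      have h2 : ε.2 = 0 := by omega
      rw [h1, h2] at hε
      simp at hε
    · exact h
  have h := fm_line_card hε hS
  have hs' : (0 : ℝ) < ((ε.1 + ε.2 : ℕ) : ℝ) := by exact_mod_cast hs
  have h2 : (S.card : ℝ) ≤ ((Z / (ε.1 + ε.2) : ℕ) : ℝ) + 1 := by exact_mod_cast h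
  have h3 : ((Z / (ε.1 + ε.2) : ℕ) : ℝ) ≤ (Z : ℝ) / ((ε.1 + ε.2 : ℕ) : ℝ) := Nat.cast_div_le
  have h4 : (1 : ℝ) ≤ (Z : ℝ) / ((ε.1 + ε.2 : ℕ) : ℝ) := by
    rw [le_div_iff₀ hs', one_mul]
    exact_mod_cast hsZ
  calc (S.card : ℝ) ≤ (Z : ℝ) / ((ε.1 + ε.2 : ℕ) : ℝ) + (Z : ℝ) / ((ε.1 + ε.2 : ℕ) : ℝ) := by
        linarith
    _ = 2 * Z / ((ε.1 + ε.2 : ℕ) : ℝ) := by ring

/-- both signs -/
theorem fm_cr_card {ε : ℕ × ℕ} (hε : Nat.Coprime ε.1 ε.2) {Z α : ℕ}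
    {S : Finset (ℕ × ℕ)} (hsZ : ε.1 + ε.2 ≤ Z)
    (hS : ∀ v ∈ S, v.1 + v.2 ≤ Z ∧ cr ε v = α) :
    (S.card : ℝ) ≤ 4 * Z / ((ε.1 + ε.2 : ℕ) : ℝ) := by
  classical
  have hsub : S ⊆ S.filter (fun v => (ε.1 : ℤ) * v.2 - (ε.2 : ℤ) * v.1 = α) ∪
      S.filter (fun v => (ε.1 : ℤ) * v.2 - (ε.2 : ℤ) * v.1 = -(α : ℤ)) := by
    intro v hv
    have h := (hS v hv).2
    unfold cr at h
    rw [Finset.mem_union, Finset.mem_filter, Finset.mem_filter]
    rcases Int.natAbs_eq ((ε.1 : ℤ) * v.2 - (ε.2 : ℤ) * v.1) with h' | h'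
    · left
      exact ⟨hv, by rw [h', h]⟩
    · right
      exact ⟨hv, by rw [h', h]⟩
  have h1 := fm_line_card_real (α := (α : ℤ)) (S := S.filter (fun v => (ε.1 : ℤ) * v.2 -
    (ε.2 : ℤ) * v.1 = α)) hε hsZ (by
      intro v hv
      rw [Finset.mem_filter] at hv
      exact ⟨(hS v hv.1).1, hv.2⟩)
  have h2 := fm_line_card_real (α := -(α : ℤ)) (S := S.filter (fun v => (ε.1 : ℤ) * v.2 -
    (ε.2 : ℤ) * v.1 = -(α : ℤ))) hε hsZ (by
      intro v hv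
      rw [Finset.mem_filter] at hv
      exact ⟨(hS v hv.1).1, hv.2⟩)
  have h3 := (Finset.card_le_card hsub).trans (Finset.card_union_le _ _)
  have h4 : (S.card : ℝ) ≤ ((S.filter (fun v => (ε.1 : ℤ) * v.2 - (ε.2 : ℤ) * v.1 = α)).card : ℝ)
      + ((S.filter (fun v => (ε.1 : ℤ) * v.2 - (ε.2 : ℤ) * v.1 = -(α : ℤ))).card : ℝ) := by
    exact_mod_cast h3
  calc (S.card : ℝ) ≤ 2 * Z / ((ε.1 + ε.2 : ℕ) : ℝ) + 2 * Z / ((ε.1 + ε.2 : ℕ) : ℝ) := by linarith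
    _ = 4 * Z / ((ε.1 + ε.2 : ℕ) : ℝ) := by ring

theorem fm_mem_V {Z : ℕ} {v : ℕ × ℕ} (hv : v ∈ V Z) : 1 ≤ v.1 ∧ 1 ≤ v.2 ∧ Nat.Coprime v.1 v.2 ∧
    Z < 2 * (v.1 + v.2) ∧ v.1 + v.2 ≤ Z := by
  unfold V at hv
  rw [Finset.mem_filter, Finset.mem_product, Finset.mem_Icc, Finset.mem_Icc] at hv
  exact ⟨hv.1.1.1, hv.1.2.1, hv.2⟩

/-- two coprime parallel vectors are equal -/
theorem fm_eq_of_cr_eq_zero {ε v : ℕ × ℕ} (hε : Nat.Coprime ε.1 ε.2) (hv : Nat.Coprime v.1 v.2)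
    (h : cr ε v = 0) : ε = v := by
  unfold cr at h
  rw [Int.natAbs_eq_zero, sub_eq_zero] at h
  have h' : ε.1 * v.2 = ε.2 * v.1 := by exact_mod_cast h
  have h1 : ε.1 ∣ v.1 := hε.dvd_of_dvd_mul_left ⟨v.2, h'.symm⟩
  have h2 : v.1 ∣ ε.1 := hv.dvd_of_dvd_mul_right ⟨ε.2, by rw [h']; ring⟩
  have h3 : ε.2 ∣ v.2 := hε.symm.dvd_of_dvd_mul_left ⟨v.1, h'⟩
  have h4 : v.2 ∣ ε.2 := hv.symm.dvd_of_dvd_mul_right ⟨ε.1, by rw [← h']; ring⟩
  exact Prod.ext (Nat.dvd_antisymm h1 h2) (Nat.dvd_antisymm h3 h4)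

open scoped Classical in
/-- the set is covered -/
theorem fm_cover {Z m j Y : ℕ} (hY : 1 ≤ Y) (hm : 2 ^ (m + 3) ≤ Y * Z) :
    (V Z).filter (fun v => ∃ ε, ObE v m j Y ε) ⊆
      (Finset.range (j + 1)).biUnion fun i => (Finset.Icc 1 (2 ^ (m + 2) / (Y * 3 ^ i))).biUnion
        fun s => (Finset.HasAntidiagonal.antidiagonal s).biUnion fun ε => (Finset.Icc 1 (Z / 2 ^ m)).biUnion
          fun β => (V Z).filter (fun v => Nat.Coprime ε.1 ε.2 ∧ cr ε v = 3 ^ (j - i) * β) := by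
  intro v hv
  rw [Finset.mem_filter] at hv
  obtain ⟨hvV, ε, hco, h1, h2⟩ := hv
  obtain ⟨hv1, hv2, hvc, hvZ, hvZ'⟩ := fm_mem_V hvV
  set μ := padicValNat 3 (cr ε v) with hμ
  have hs : 0 < ε.1 + ε.2 := by
    rcases Nat.eq_zero_or_pos (ε.1 + ε.2) with h | h
    · have h1 : ε.1 = 0 := by omega
      have h2 : ε.2 = 0 := by omega
      rw [h1, h2] at hco
      simp at hco
    · exact h
  have h3 : 0 < 3 ^ (j - μ) := by positivity
  have hsY : Y * (ε.1 + ε.2) ≤ 2 ^ (m + 2) := by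
    calc Y * (ε.1 + ε.2) = Y * 1 * (ε.1 + ε.2) := by ring
      _ ≤ Y * 3 ^ (j - μ) * (ε.1 + ε.2) := by gcongr; omega
      _ ≤ _ := h1
  have hα : cr ε v ≠ 0 := by
    intro h0
    have hev := fm_eq_of_cr_eq_zero hco hvc h0
    rw [hev] at hsY
    have : 2 * 2 ^ (m + 2) = 2 ^ (m + 3) := by ring
    nlinarith
  have hdvd : 3 ^ (j - (j - μ)) ∣ cr ε v := by
    apply (pow_dvd_pow 3 (show j - (j - μ) ≤ μ by omega)).trans
    exact pow_padicValNat_dvd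
  obtain ⟨β, hβ⟩ := hdvd
  have hβ0 : 0 < β := by
    rcases Nat.eq_zero_or_pos β with h | h
    · rw [h, mul_zero] at hβ
      exact absurd hβ hα
    · exact h
  have hmin : min j μ = j - (j - μ) := by omega
  have hβQ : β * 2 ^ m ≤ Z := by
    rw [hmin, hβ] at h2
    have h4 : 0 < 3 ^ (j - (j - μ)) := by positivity
    have h5 : 3 ^ (j - (j - μ)) * (β * 2 ^ m) ≤ 3 ^ (j - (j - μ)) * (v.1 + v.2) := by
      calc 3 ^ (j - (j - μ)) * (β * 2 ^ m) = 3 ^ (j - (j - μ)) * β * 2 ^ m := by ring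
        _ ≤ _ := h2
    exact (Nat.le_of_mul_le_mul_left h5 h4).trans hvZ'
  simp only [Finset.mem_biUnion]
  refine ⟨j - μ, by rw [Finset.mem_range]; omega, ε.1 + ε.2, ?_, ε, ?_, β, ?_, ?_⟩
  · rw [Finset.mem_Icc]
    refine ⟨hs, ?_⟩
    rw [Nat.le_div_iff_mul_le (by positivity)]
    calc (ε.1 + ε.2) * (Y * 3 ^ (j - μ)) = Y * 3 ^ (j - μ) * (ε.1 + ε.2) := by ring
      _ ≤ _ := h1
  · rw [Finset.HasAntidiagonal.mem_antidiagonal]
  · rw [Finset.mem_Icc]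
    exact ⟨hβ0, by rw [Nat.le_div_iff_mul_le (by positivity)]; exact hβQ⟩
  · rw [Finset.mem_filter]
    exact ⟨hvV, hco, hβ⟩

/-- partial sums of the geometric series -/
theorem fm_geom3 (n : ℕ) : ∑ i ∈ Finset.range n, (1 : ℝ) / 3 ^ i ≤ 3 / 2 := by
  have h : ∀ n : ℕ, ∑ i ∈ Finset.range n, (1 : ℝ) / 3 ^ i = 3 / 2 - 3 / 2 / 3 ^ n := by
    intro n
    induction n with
    | zero => simp
    | succ n ih =>
      rw [Finset.sum_range_succ, ih, pow_succ]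
      field_simp
      ring
  rw [h]
  have : (0 : ℝ) ≤ 3 / 2 / 3 ^ n := by positivity
  linarith

open scoped Classical in
/-- task FIRST -/
theorem first_moment {Z m j Y : ℕ} (hY : 1 ≤ Y) (hm : 2 ^ (m + 3) ≤ Y * Z) :
    (((V Z).filter (fun v => ∃ ε, ObE v m j Y ε)).card : ℝ) * Y ≤ 64 * (Z : ℝ) ^ 2 := by
  have hY0 : (0 : ℝ) < Y := by exact_mod_cast hY
  have h2m : (0 : ℝ) < 2 ^ m := by positivity
  -- innermost bound
  have hb : ∀ i s : ℕ, 1 ≤ s → s ≤ 2 ^ (m + 2) / (Y * 3 ^ i) → ∀ ε ∈ Finset.HasAntidiagonal.antidiagonal s,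
      ∀ β : ℕ, (((V Z).filter (fun v => Nat.Coprime ε.1 ε.2 ∧
        cr ε v = 3 ^ (j - i) * β)).card : ℝ) ≤ 4 * Z / (s : ℝ) := by
    intro i s hs1 hs2 ε hε β
    rw [Finset.HasAntidiagonal.mem_antidiagonal] at hε
    by_cases hco : Nat.Coprime ε.1 ε.2
    · have hsZ : ε.1 + ε.2 ≤ Z := by
        rw [hε]
        rw [Nat.le_div_iff_mul_le (by positivity)] at hs2
        have h3 : 0 < 3 ^ i := by positivity
        have h4 : Y * s ≤ 2 ^ (m + 2) := by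
          calc Y * s = s * (Y * 1) := by ring
            _ ≤ s * (Y * 3 ^ i) := by gcongr; omega
            _ ≤ _ := hs2
        have h5 : 2 ^ (m + 3) = 2 * 2 ^ (m + 2) := by ring
        have h6 : Y * s ≤ Y * Z := by omega
        exact Nat.le_of_mul_le_mul_left h6 hY
      have := fm_cr_card (α := 3 ^ (j - i) * β) (S := (V Z).filter (fun v => Nat.Coprime ε.1 ε.2 ∧
        cr ε v = 3 ^ (j - i) * β)) hco hsZ (by
          intro v hv
          rw [Finset.mem_filter] at hv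
          exact ⟨(fm_mem_V hv.1).2.2.2.2, hv.2.2⟩)
      rw [hε] at this
      exact this
    · have : (V Z).filter (fun v => Nat.Coprime ε.1 ε.2 ∧ cr ε v = 3 ^ (j - i) * β) = ∅ := by
        rw [Finset.filter_eq_empty_iff]
        intro v _ h
        exact hco h.1
      rw [this]
      simp only [Finset.card_empty, Nat.cast_zero]
      positivity
  have hcard : (((V Z).filter (fun v => ∃ ε, ObE v m j Y ε)).card : ℝ) ≤
      ∑ i ∈ Finset.range (j + 1), ∑ s ∈ Finset.Icc 1 (2 ^ (m + 2) / (Y * 3 ^ i)),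
        ∑ ε ∈ Finset.HasAntidiagonal.antidiagonal s, ∑ β ∈ Finset.Icc 1 (Z / 2 ^ m), 4 * (Z : ℝ) / (s : ℝ) := by
    have h1 := Finset.card_le_card (fm_cover (j := j) hY hm)
    have h2 : (((Finset.range (j + 1)).biUnion fun i =>
        (Finset.Icc 1 (2 ^ (m + 2) / (Y * 3 ^ i))).biUnion
        fun s => (Finset.HasAntidiagonal.antidiagonal s).biUnion fun ε => (Finset.Icc 1 (Z / 2 ^ m)).biUnion
          fun β => (V Z).filter (fun v => Nat.Coprime ε.1 ε.2 ∧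
            cr ε v = 3 ^ (j - i) * β)).card : ℝ) ≤
      ∑ i ∈ Finset.range (j + 1), ∑ s ∈ Finset.Icc 1 (2 ^ (m + 2) / (Y * 3 ^ i)),
        ∑ ε ∈ Finset.HasAntidiagonal.antidiagonal s, ∑ β ∈ Finset.Icc 1 (Z / 2 ^ m), 4 * (Z : ℝ) / (s : ℝ) := by
      refine le_trans (Nat.cast_le.mpr Finset.card_biUnion_le) ?_
      push_cast
      apply Finset.sum_le_sum
      intro i _
      refine le_trans (Nat.cast_le.mpr Finset.card_biUnion_le) ?_
      push_cast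
      apply Finset.sum_le_sum
      intro s hs
      rw [Finset.mem_Icc] at hs
      refine le_trans (Nat.cast_le.mpr Finset.card_biUnion_le) ?_
      push_cast
      apply Finset.sum_le_sum
      intro ε hε
      refine le_trans (Nat.cast_le.mpr Finset.card_biUnion_le) ?_
      push_cast
      apply Finset.sum_le_sum
      intro β _
      exact hb i s hs.1 hs.2 ε hε β
    exact le_trans (by exact_mod_cast h1) h2
  have hsum : ∀ i : ℕ, ∑ s ∈ Finset.Icc 1 (2 ^ (m + 2) / (Y * 3 ^ i)),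
        ∑ ε ∈ Finset.HasAntidiagonal.antidiagonal s, ∑ β ∈ Finset.Icc 1 (Z / 2 ^ m), 4 * (Z : ℝ) / (s : ℝ) ≤
      32 * (Z : ℝ) ^ 2 / Y * (1 / 3 ^ i) := by
    intro i
    have h1 : ∀ s ∈ Finset.Icc 1 (2 ^ (m + 2) / (Y * 3 ^ i)),
        ∑ ε ∈ Finset.HasAntidiagonal.antidiagonal s, ∑ β ∈ Finset.Icc 1 (Z / 2 ^ m), 4 * (Z : ℝ) / (s : ℝ) ≤
        8 * (Z : ℝ) ^ 2 / 2 ^ m := by
      intro s hs
      rw [Finset.mem_Icc] at hs
      have hs0 : (0 : ℝ) < s := by exact_mod_cast hs.1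
      have hs1 : (1 : ℝ) ≤ s := by exact_mod_cast hs.1
      rw [Finset.sum_const, Finset.sum_const, Finset.Nat.card_antidiagonal, Nat.card_Icc]
      simp only [nsmul_eq_mul, Nat.add_sub_cancel]
      have hQ : ((Z / 2 ^ m : ℕ) : ℝ) ≤ (Z : ℝ) / 2 ^ m := by
        have := Nat.cast_div_le (α := ℝ) (m := Z) (n := 2 ^ m)
        push_cast at this
        exact this
      push_cast
      calc ((s : ℝ) + 1) * (((Z / 2 ^ m : ℕ) : ℝ) * (4 * (Z : ℝ) / (s : ℝ)))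
          ≤ (2 * s) * ((Z : ℝ) / 2 ^ m * (4 * (Z : ℝ) / (s : ℝ))) := by
            gcongr
            linarith
        _ = 8 * (Z : ℝ) ^ 2 / 2 ^ m := by
            field_simp
            ring
    have h2 := Finset.sum_le_card_nsmul _ _ _ h1
    refine h2.trans ?_
    rw [Nat.card_Icc]
    simp only [nsmul_eq_mul, Nat.add_sub_cancel]
    have hE : ((2 ^ (m + 2) / (Y * 3 ^ i) : ℕ) : ℝ) ≤ (2 : ℝ) ^ (m + 2) / (Y * 3 ^ i) := by
      have := Nat.cast_div_le (α := ℝ) (m := 2 ^ (m + 2)) (n := Y * 3 ^ i)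
      push_cast at this
      exact this
    calc ((2 ^ (m + 2) / (Y * 3 ^ i) : ℕ) : ℝ) * (8 * (Z : ℝ) ^ 2 / 2 ^ m)
        ≤ (2 : ℝ) ^ (m + 2) / (Y * 3 ^ i) * (8 * (Z : ℝ) ^ 2 / 2 ^ m) := by gcongr
      _ = 32 * (Z : ℝ) ^ 2 / Y * (1 / 3 ^ i) := by
          rw [pow_add]
          field_simp
          ring
  have htot : (((V Z).filter (fun v => ∃ ε, ObE v m j Y ε)).card : ℝ) ≤
      32 * (Z : ℝ) ^ 2 / Y * (3 / 2) := by
    refine hcard.trans ((Finset.sum_le_sum (fun i _ => hsum i)).trans ?_)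
    rw [← Finset.mul_sum]
    exact mul_le_mul_of_nonneg_left (fm_geom3 _) (by positivity)
  calc (((V Z).filter (fun v => ∃ ε, ObE v m j Y ε)).card : ℝ) * Y
      ≤ 32 * (Z : ℝ) ^ 2 / Y * (3 / 2) * Y := mul_le_mul_of_nonneg_right htot hY0.le
    _ = 48 * (Z : ℝ) ^ 2 := by field_simp; ring
    _ ≤ 64 * (Z : ℝ) ^ 2 := by
        have : (0 : ℝ) ≤ (Z : ℝ) ^ 2 := by positivity
        linarith

end BAC
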