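import Pool.Agent.BAC.Defs

/-!
# Pair count
-/

namespace BAC

namespace PairAux

/-- integer wedge product -/
def wd (a b : ℕ × ℕ) : ℤ := (a.1 : ℤ) * b.2 - (a.2 : ℤ) * b.1

theorem cr_eq (a b : ℕ × ℕ) : cr a b = (wd a b).natAbs := rfl

theorem wd_swap (a b : ℕ × ℕ) : wd a b = - wd b a := by
  unfold wd; ring

theorem par_eq {a b : ℕ × ℕ} (ha : Nat.Coprime a.1 a.2) (hb : Nat.Coprime b.1 b.2)
    (h : wd a b = 0) : a = b := by
  have h1 : a.1 * b.2 = a.2 * b.1 := by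
    unfold wd at h
    have : (a.1 : ℤ) * b.2 = (a.2 : ℤ) * b.1 := by linarith
    exact_mod_cast this
  have d1 : a.1 ∣ b.1 := ha.dvd_of_dvd_mul_left (Dvd.intro _ h1)
  have d2 : b.1 ∣ a.1 := hb.dvd_of_dvd_mul_right (Dvd.intro_left _ h1.symm)
  have d3 : a.2 ∣ b.2 := ha.symm.dvd_of_dvd_mul_left (Dvd.intro _ h1.symm)
  have d4 : b.2 ∣ a.2 := hb.symm.dvd_of_dvd_mul_right (Dvd.intro_left _ h1)
  exact Prod.ext (Nat.dvd_antisymm d1 d2) (Nat.dvd_antisymm d3 d4)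

/-- a set of integers in `[-Q, Q]`, pairwise congruent modulo `D` -/
theorem card_congr {s : Finset ℤ} {Q D : ℕ} (hD : 0 < D) (h1 : ∀ x ∈ s, -(Q : ℤ) ≤ x ∧ x ≤ Q)
    (h2 : ∀ x ∈ s, ∀ y ∈ s, (D : ℤ) ∣ x - y) : s.card ≤ 2 * Q / D + 1 := by
  have hD' : (0 : ℤ) < D := by exact_mod_cast hD
  have : s.card ≤ (Finset.range (2 * Q / D + 1)).card := by
    refine Finset.card_le_card_of_injOn (fun x => ((x + Q) / D).toNat) ?_ ?_
    · intro x hx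
      obtain ⟨h3, h4⟩ := h1 x hx
      simp only [Finset.coe_range, Set.mem_Iio]
      have h5 : (x + Q) / D ≤ (2 * Q : ℤ) / D := Int.ediv_le_ediv hD' (by linarith)
      have h6 : ((2 * Q / D : ℕ) : ℤ) = (2 * Q : ℤ) / D := by push_cast; rfl
      have h7 : 0 ≤ (x + Q) / (D : ℤ) := Int.ediv_nonneg (by linarith) hD'.le
      omega
    · intro x hx y hy hxy
      obtain ⟨h3, h4⟩ := h1 x hx
      obtain ⟨h5, h6⟩ := h1 y hy
      have h7 : 0 ≤ (x + Q) / (D : ℤ) := Int.ediv_nonneg (by linarith) hD'.le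
      have h8 : 0 ≤ (y + Q) / (D : ℤ) := Int.ediv_nonneg (by linarith) hD'.le
      have h9 : (x + Q) / (D : ℤ) = (y + Q) / (D : ℤ) := by
        simp only at hxy
        omega
      have h10 : (x + Q) % (D : ℤ) = (y + Q) % (D : ℤ) := by
        apply Int.emod_emod_of_dvd _ (dvd_refl _) |>.symm.trans
        have := h2 x hx y hy
        rw [Int.emod_emod_of_dvd _ (dvd_refl _)]
        apply (Int.emod_emod_of_dvd _ (dvd_refl (D : ℤ))).symm.trans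
        rw [Int.emod_emod_of_dvd _ (dvd_refl _)]
        exact (Int.emod_emod_of_dvd _ (dvd_refl _)).symm.trans (by
          rw [Int.emod_emod_of_dvd _ (dvd_refl _)]
          exact Int.ModEq.symm (Int.modEq_iff_dvd.2 (by simpa using this)))
      have h11 := Int.emod_add_mul_ediv (x + Q) D
      have h12 := Int.emod_add_mul_ediv (y + Q) D
      rw [h9, h10] at h11
      linarith
  simpa using this

/-- if `ε` is primitive and `wd ε v = wd ε w` then `w - v` is an integer multiple of `ε` -/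
theorem diff_mult {ε v w : ℕ × ℕ} (hε : Nat.Coprime ε.1 ε.2) (h : wd ε v = wd ε w) :
    ∃ t : ℤ, (w.1 : ℤ) - v.1 = t * ε.1 ∧ (w.2 : ℤ) - v.2 = t * ε.2 := by
  have hc : IsCoprime (ε.1 : ℤ) (ε.2 : ℤ) := Nat.isCoprime_iff_coprime.2 hε
  obtain ⟨a, b, hab⟩ := hc
  unfold wd at h
  refine ⟨a * ((w.1 : ℤ) - v.1) + b * ((w.2 : ℤ) - v.2), ?_, ?_⟩
  · linear_combination (-((w.1 : ℤ) - v.1)) * hab + b * h
  · linear_combination (-((w.2 : ℤ) - v.2)) * hab - a * h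

theorem L1 {Z m1 m2 e1 e2 : ℕ} {ε1 ε2 : ℕ × ℕ} (h1 : Nat.Coprime ε1.1 ε1.2) {d' : ℕ}
    (hd' : 0 < d') (hd3 : Nat.Coprime d' 3) (hD : (d' : ℤ) ∣ wd ε1 ε2) (hne : wd ε1 ε2 ≠ 0)
    {s : Finset (ℕ × ℕ)}
    (hs : ∀ v ∈ s, wd ε1 v ≠ 0 ∧ (3 ^ e1 : ℤ) ∣ wd ε1 v ∧ (3 ^ e2 : ℤ) ∣ wd ε2 v ∧
      (wd ε1 v).natAbs * 2 ^ m1 ≤ 3 ^ e1 * Z ∧ (wd ε2 v).natAbs * 2 ^ m2 ≤ 3 ^ e2 * Z) :
    s.card ≤ (2 * (Z / 2 ^ m2) / d' + 1) * (2 * (Z / 2 ^ m1)) := by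
  have key : ∀ (e m : ℕ) (x : ℤ), x.natAbs * 2 ^ m ≤ 3 ^ e * Z → (3 ^ e : ℤ) ∣ x →
      -((Z / 2 ^ m : ℕ) : ℤ) ≤ x / 3 ^ e ∧ x / 3 ^ e ≤ ((Z / 2 ^ m : ℕ) : ℤ) := by
    intro e m x hx hdv
    obtain ⟨y, hy⟩ := hdv
    have h3 : (3 ^ e : ℤ) ≠ 0 := by positivity
    have e1 : x / 3 ^ e = y := by rw [hy]; exact Int.mul_ediv_cancel_left _ h3
    rw [e1]
    have h4 : x.natAbs = 3 ^ e * y.natAbs := by
      rw [hy, Int.natAbs_mul, Int.natAbs_pow]; rfl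
    rw [h4] at hx
    have h5 : y.natAbs * 2 ^ m ≤ Z := by
      have : 3 ^ e * (y.natAbs * 2 ^ m) ≤ 3 ^ e * Z := by linarith [hx, mul_assoc (3 ^ e) y.natAbs (2 ^ m)]
      exact Nat.le_of_mul_le_mul_left this (by positivity)
    have h6 : y.natAbs ≤ Z / 2 ^ m := (Nat.le_div_iff_mul_le (by positivity)).2 h5
    omega
  have hcard : s.card ≤ (2 * (Z / 2 ^ m2) / d' + 1) *
      (s.image (fun v => wd ε1 v / 3 ^ e1)).card := by
    apply Finset.card_le_mul_card_image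
    intro a _
    have hinj : Set.InjOn (fun v => wd ε2 v / 3 ^ e2)
        ((s.filter (fun v => wd ε1 v / 3 ^ e1 = a) : Finset (ℕ × ℕ)) : Set (ℕ × ℕ)) := by
      intro v hv w hw hvw
      simp only [Finset.coe_filter, Set.mem_ofPred_eq] at hv hw hvw
      obtain ⟨hv1, hv2⟩ := hv
      obtain ⟨hw1, hw2⟩ := hw
      have a1 : wd ε1 v = wd ε1 w := by
        rw [← Int.ediv_mul_cancel (hs v hv1).2.1, ← Int.ediv_mul_cancel (hs w hw1).2.1, hv2, hw2]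
      have a2 : wd ε2 v = wd ε2 w := by
        rw [← Int.ediv_mul_cancel (hs v hv1).2.2.1, ← Int.ediv_mul_cancel (hs w hw1).2.2.1, hvw]
      obtain ⟨t, ht1, ht2⟩ := diff_mult h1 a1
      have a3 : t * wd ε1 ε2 = 0 := by
        unfold wd at a2 ⊢
        linear_combination (-(ε2.2 : ℤ)) * ht1 + (ε2.1 : ℤ) * ht2 + a2
      have a4 : t = 0 := by
        rcases mul_eq_zero.1 a3 with h | h
        · exact h
        · exact absurd h hne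
      rw [a4] at ht1 ht2
      apply Prod.ext
      · have : (w.1 : ℤ) = v.1 := by linarith
        exact_mod_cast this.symm
      · have : (w.2 : ℤ) = v.2 := by linarith
        exact_mod_cast this.symm
    rw [← Finset.card_image_of_injOn hinj]
    apply card_congr hd'
    · intro x hx
      obtain ⟨v, hv, rfl⟩ := Finset.mem_image.1 hx
      have hv1 := (Finset.mem_filter.1 hv).1
      exact key e2 m2 _ (hs v hv1).2.2.2.2 (hs v hv1).2.2.1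
    · intro x hx y hy
      obtain ⟨v, hv, rfl⟩ := Finset.mem_image.1 hx
      obtain ⟨w, hw, rfl⟩ := Finset.mem_image.1 hy
      obtain ⟨hv1, hv2⟩ := Finset.mem_filter.1 hv
      obtain ⟨hw1, hw2⟩ := Finset.mem_filter.1 hw
      have a1 : wd ε1 v = wd ε1 w := by
        rw [← Int.ediv_mul_cancel (hs v hv1).2.1, ← Int.ediv_mul_cancel (hs w hw1).2.1, hv2, hw2]
      obtain ⟨t, ht1, ht2⟩ := diff_mult h1 a1
      have a3 : (3 ^ e2 : ℤ) * (wd ε2 v / 3 ^ e2 - wd ε2 w / 3 ^ e2) = t * wd ε1 ε2 := by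
        rw [mul_sub, Int.mul_ediv_cancel' (hs v hv1).2.2.1, Int.mul_ediv_cancel' (hs w hw1).2.2.1]
        unfold wd
        linear_combination ε2.2 * ht1 - ε2.1 * ht2
      have a4 : (d' : ℤ) ∣ (3 ^ e2 : ℤ) * (wd ε2 v / 3 ^ e2 - wd ε2 w / 3 ^ e2) := by
        rw [a3]; exact Dvd.dvd.mul_left hD t
      have a5 : IsCoprime (d' : ℤ) (3 ^ e2 : ℤ) := by
        have : IsCoprime (d' : ℤ) (3 : ℤ) := by exact_mod_cast Nat.isCoprime_iff_coprime.2 hd3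
        exact this.pow_right
      exact a5.dvd_of_dvd_mul_left a4
  refine hcard.trans (Nat.mul_le_mul_left _ ?_)
  have hsub : s.image (fun v => wd ε1 v / 3 ^ e1) ⊆
      (Finset.Icc (-((Z / 2 ^ m1 : ℕ) : ℤ)) ((Z / 2 ^ m1 : ℕ) : ℤ)).erase 0 := by
    intro x hx
    obtain ⟨v, hv, rfl⟩ := Finset.mem_image.1 hx
    rw [Finset.mem_erase, Finset.mem_Icc]
    refine ⟨?_, key e1 m1 _ (hs v hv).2.2.2.1 (hs v hv).2.1⟩
    intro h0
    apply (hs v hv).1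
    rw [← Int.ediv_mul_cancel (hs v hv).2.1, h0, zero_mul]
  refine (Finset.card_le_card hsub).trans ?_
  generalize Z / 2 ^ m1 = Q
  have h0 : (0 : ℤ) ≤ (Q : ℤ) := Int.natCast_nonneg Q
  rw [Finset.card_erase_of_mem (Finset.mem_Icc.2 ⟨by linarith, h0⟩), Int.card_Icc]
  omega

/-- coprime vectors of size at most `N` -/
def B (N : ℕ) : Finset (ℕ × ℕ) :=
  (Finset.range (N + 1) ×ˢ Finset.range (N + 1)).filter
    (fun x => Nat.Coprime x.1 x.2 ∧ x.1 + x.2 ≤ N)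

theorem mem_B {N : ℕ} {x : ℕ × ℕ} : x ∈ B N ↔ Nat.Coprime x.1 x.2 ∧ x.1 + x.2 ≤ N := by
  unfold B
  rw [Finset.mem_filter, Finset.mem_product, Finset.mem_range, Finset.mem_range]
  constructor
  · exact fun h => h.2
  · intro h
    exact ⟨⟨by omega, by omega⟩, h⟩

theorem size_pos {x : ℕ × ℕ} (h : Nat.Coprime x.1 x.2) : 1 ≤ x.1 + x.2 := by
  by_contra h0
  have h1 : x.1 = 0 := by omega
  have h2 : x.2 = 0 := by omega
  rw [h1, h2] at h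
  simp at h

/-- a set of naturals in `[1, N]`, pairwise congruent modulo `s` -/
theorem card_congr_nat {t : Finset ℕ} {N s : ℕ} (hs : 0 < s) (hN : 1 ≤ N)
    (h1 : ∀ x ∈ t, 1 ≤ x ∧ x ≤ N)
    (h2 : ∀ x ∈ t, ∀ y ∈ t, (s : ℤ) ∣ (x : ℤ) - y) : t.card ≤ (N - 1) / s + 1 := by
  have : t.card ≤ (Finset.range ((N - 1) / s + 1)).card := by
    refine Finset.card_le_card_of_injOn (fun x => (x - 1) / s) ?_ ?_
    · intro x hx
      obtain ⟨h3, h4⟩ := h1 x hx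
      simp only [Finset.coe_range, Set.mem_Iio]
      have : (x - 1) / s ≤ (N - 1) / s := Nat.div_le_div_right (by omega)
      omega
    · intro x hx y hy hxy
      obtain ⟨h3, h4⟩ := h1 x hx
      obtain ⟨h5, h6⟩ := h1 y hy
      simp only at hxy
      obtain ⟨k, hk⟩ := h2 x hx y hy
      have h7 := Nat.div_add_mod (x - 1) s
      have h8 := Nat.div_add_mod (y - 1) s
      have h9 := Nat.mod_lt (x - 1) hs
      have h10 := Nat.mod_lt (y - 1) hs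
      rw [hxy] at h7
      have h11 : (x : ℤ) - y = ((x - 1) % s : ℕ) - ((y - 1) % s : ℕ) := by
        omega
      have h12 : (s : ℤ) * k < s * 1 := by rw [← hk, h11]; omega
      have h13 : (s : ℤ) * (-1) < s * k := by rw [← hk, h11]; omega
      have hs' : (0 : ℤ) < s := by exact_mod_cast hs
      have h14 : k < 1 := lt_of_mul_lt_mul_left h12 hs'.le
      have h15 : -1 < k := lt_of_mul_lt_mul_left h13 hs'.le
      have h16 : k = 0 := by omega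
      rw [h16] at hk
      omega
  simpa using this

theorem L2a {N1 N2 : ℕ} (hN1 : 1 ≤ N1) (hN : N1 ≤ N2) {D : ℤ} :
    ((((B N1) ×ˢ (B N2)).filter (fun p => wd p.1 p.2 = D)).card : ℝ) ≤ 4 * (N1 : ℝ) * N2 := by
  have hN2 : 1 ≤ N2 := hN1.trans hN
  -- fibres over the first vector
  have h1 : (((B N1) ×ˢ (B N2)).filter (fun p => wd p.1 p.2 = D)).card =
      ∑ a ∈ B N1, ((B N2).filter (fun b => wd a b = D)).card := by
    rw [Finset.card_filter, Finset.sum_product]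
    apply Finset.sum_congr rfl
    intro a _
    rw [Finset.card_filter]
  have h2 : ∀ a ∈ B N1, (((B N2).filter (fun b => wd a b = D)).card : ℝ) ≤
      2 * (N2 : ℝ) / ((a.1 + a.2 : ℕ) : ℝ) := by
    intro a ha
    obtain ⟨ha1, ha2⟩ := mem_B.1 ha
    have hap := size_pos ha1
    have hinj : Set.InjOn (fun b : ℕ × ℕ => b.1 + b.2)
        (((B N2).filter (fun b => wd a b = D) : Finset (ℕ × ℕ)) : Set (ℕ × ℕ)) := by
      intro x hx y hy hxy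
      simp only [Finset.coe_filter, Set.mem_ofPred_eq] at hx hy hxy
      obtain ⟨t, ht1, ht2⟩ := diff_mult ha1 (hx.2.trans hy.2.symm)
      have h3 : t * ((a.1 : ℤ) + a.2) = 0 := by
        have : (x.1 : ℤ) + x.2 = y.1 + y.2 := by exact_mod_cast hxy
        linarith
      have h4 : t = 0 := by
        rcases mul_eq_zero.1 h3 with h | h
        · exact h
        · omega
      rw [h4] at ht1 ht2
      apply Prod.ext
      · have : (y.1 : ℤ) = x.1 := by linarith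
        exact_mod_cast this.symm
      · have : (y.2 : ℤ) = x.2 := by linarith
        exact_mod_cast this.symm
    have h5 : ((B N2).filter (fun b => wd a b = D)).card ≤ (N2 - 1) / (a.1 + a.2) + 1 := by
      rw [← Finset.card_image_of_injOn hinj]
      apply card_congr_nat hap hN2
      · intro x hx
        obtain ⟨b, hb, rfl⟩ := Finset.mem_image.1 hx
        obtain ⟨hb1, hb2⟩ := mem_B.1 (Finset.mem_filter.1 hb).1
        exact ⟨size_pos hb1, hb2⟩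
      · intro x hx y hy
        obtain ⟨b, hb, rfl⟩ := Finset.mem_image.1 hx
        obtain ⟨c, hc, rfl⟩ := Finset.mem_image.1 hy
        obtain ⟨t, ht1, ht2⟩ := diff_mult ha1
          ((Finset.mem_filter.1 hb).2.trans (Finset.mem_filter.1 hc).2.symm)
        refine ⟨-t, ?_⟩
        push_cast
        linear_combination (-1) * ht1 - ht2
    have h6 : (((N2 - 1) / (a.1 + a.2) + 1 : ℕ) : ℝ) ≤ 2 * (N2 : ℝ) / ((a.1 + a.2 : ℕ) : ℝ) := by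
      have h7 : (((N2 - 1) / (a.1 + a.2) : ℕ) : ℝ) ≤ ((N2 - 1 : ℕ) : ℝ) / ((a.1 + a.2 : ℕ) : ℝ) :=
        Nat.cast_div_le
      have h8 : ((N2 - 1 : ℕ) : ℝ) / ((a.1 + a.2 : ℕ) : ℝ) ≤ (N2 : ℝ) / ((a.1 + a.2 : ℕ) : ℝ) := by
        apply div_le_div_of_nonneg_right _ (Nat.cast_nonneg _)
        exact_mod_cast Nat.sub_le _ _
      have h9 : (1 : ℝ) ≤ (N2 : ℝ) / ((a.1 + a.2 : ℕ) : ℝ) := by
        rw [le_div_iff₀ (by exact_mod_cast hap), one_mul]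
        exact_mod_cast ha2.trans hN
      push_cast at h7 h8 h9 ⊢
      have : 2 * (N2 : ℝ) / ((a.1 : ℝ) + a.2) = (N2 : ℝ) / ((a.1 : ℝ) + a.2) +
        (N2 : ℝ) / ((a.1 : ℝ) + a.2) := by ring
      rw [this]
      linarith
    exact le_trans (by exact_mod_cast h5) h6
  rw [h1]
  push_cast
  refine (Finset.sum_le_sum h2).trans ?_
  -- group by size
  have h10 : ∑ a ∈ B N1, 2 * (N2 : ℝ) / ((a.1 + a.2 : ℕ) : ℝ) =
      ∑ s ∈ Finset.Icc 1 N1, ∑ a ∈ (B N1).filter (fun a => a.1 + a.2 = s),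
        2 * (N2 : ℝ) / ((a.1 + a.2 : ℕ) : ℝ) := by
    rw [Finset.sum_fiberwise_of_maps_to]
    intro a ha
    obtain ⟨ha1, ha2⟩ := mem_B.1 ha
    exact Finset.mem_Icc.2 ⟨size_pos ha1, ha2⟩
  rw [h10]
  have h11 : ∀ s ∈ Finset.Icc 1 N1, ∑ a ∈ (B N1).filter (fun a => a.1 + a.2 = s),
        2 * (N2 : ℝ) / ((a.1 + a.2 : ℕ) : ℝ) ≤ 4 * (N2 : ℝ) := by
    intro s hs
    have hs1 := (Finset.mem_Icc.1 hs).1
    have h12 : ∑ a ∈ (B N1).filter (fun a => a.1 + a.2 = s),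
        2 * (N2 : ℝ) / ((a.1 + a.2 : ℕ) : ℝ) =
        (((B N1).filter (fun a => a.1 + a.2 = s)).card : ℝ) * (2 * (N2 : ℝ) / (s : ℝ)) := by
      rw [← nsmul_eq_mul, ← Finset.sum_const]
      apply Finset.sum_congr rfl
      intro a ha
      rw [(Finset.mem_filter.1 ha).2]
    have h13 : ((B N1).filter (fun a => a.1 + a.2 = s)).card ≤ s + 1 := by
      have : (Finset.range (s + 1)).card = s + 1 := Finset.card_range _
      rw [← this]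
      refine Finset.card_le_card_of_injOn (fun x => x.1) ?_ ?_
      · intro x hx
        have := (Finset.mem_filter.1 hx).2
        simp only [Finset.coe_range, Set.mem_Iio]
        omega
      · intro x hx y hy hxy
        have e1 := (Finset.mem_filter.1 hx).2
        have e2 := (Finset.mem_filter.1 hy).2
        simp only at hxy
        exact Prod.ext hxy (by omega)
    rw [h12]
    have h14 : (((B N1).filter (fun a => a.1 + a.2 = s)).card : ℝ) ≤ 2 * s := by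
      have : ((B N1).filter (fun a => a.1 + a.2 = s)).card ≤ 2 * s := by omega
      exact_mod_cast this
    have hs0 : (0 : ℝ) < s := by exact_mod_cast hs1
    calc _ ≤ (2 * (s : ℝ)) * (2 * (N2 : ℝ) / (s : ℝ)) := by
          apply mul_le_mul_of_nonneg_right h14; positivity
      _ = 4 * (N2 : ℝ) := by field_simp; ring
  refine (Finset.sum_le_sum h11).trans ?_
  rw [Finset.sum_const, Nat.card_Icc, nsmul_eq_mul]
  apply le_of_eq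
  push_cast
  ring

theorem L2 (N1 N2 : ℕ) (D : ℤ) :
    ((((B N1) ×ˢ (B N2)).filter (fun p => wd p.1 p.2 = D)).card : ℝ) ≤ 4 * (N1 : ℝ) * N2 := by
  by_cases h1 : N1 = 0
  · have : ((B N1) ×ˢ (B N2)).filter (fun p => wd p.1 p.2 = D) = ∅ := by
      apply Finset.eq_empty_of_forall_notMem
      intro p hp
      obtain ⟨h2, h3⟩ := mem_B.1 (Finset.mem_product.1 (Finset.mem_filter.1 hp).1).1
      have := size_pos h2
      omega
    rw [this, h1]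
    simp
  by_cases h1' : N2 = 0
  · have : ((B N1) ×ˢ (B N2)).filter (fun p => wd p.1 p.2 = D) = ∅ := by
      apply Finset.eq_empty_of_forall_notMem
      intro p hp
      obtain ⟨h2, h3⟩ := mem_B.1 (Finset.mem_product.1 (Finset.mem_filter.1 hp).1).2
      have := size_pos h2
      omega
    rw [this, h1']
    simp
  rcases le_total N1 N2 with h | h
  · exact L2a (by omega) h
  · have h2 := L2a (N1 := N2) (N2 := N1) (by omega) h (D := -D)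
    have h3 : (((B N1) ×ˢ (B N2)).filter (fun p => wd p.1 p.2 = D)).card =
        (((B N2) ×ˢ (B N1)).filter (fun p => wd p.1 p.2 = -D)).card := by
      refine Finset.card_bij' (fun p _ => (p.2, p.1)) (fun p _ => (p.2, p.1)) ?_ ?_ ?_ ?_
      · intro p hp
        obtain ⟨h4, h5⟩ := Finset.mem_filter.1 hp
        obtain ⟨h6, h7⟩ := Finset.mem_product.1 h4
        refine Finset.mem_filter.2 ⟨Finset.mem_product.2 ⟨h7, h6⟩, ?_⟩
        simp only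
        rw [wd_swap, h5]
      · intro p hp
        obtain ⟨h4, h5⟩ := Finset.mem_filter.1 hp
        obtain ⟨h6, h7⟩ := Finset.mem_product.1 h4
        refine Finset.mem_filter.2 ⟨Finset.mem_product.2 ⟨h7, h6⟩, ?_⟩
        simp only
        rw [wd_swap, h5, neg_neg]
      · intro p _; rfl
      · intro p _; rfl
    rw [h3]
    linarith

theorem L3 (K : ℕ) : ∑ d ∈ Finset.Icc 1 (2 ^ K), (1 : ℝ) / ((ordCompl[3] d : ℕ) : ℝ) ≤
    ((K : ℝ) + 1) ^ 2 := by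
  have hharm : ∑ x ∈ Finset.Icc (1:ℕ) (2 ^ K), (1 : ℝ) / (x : ℝ) ≤ (K : ℝ) + 1 := by
    have h1 := harmonic_le_one_add_log (2 ^ K)
    rw [harmonic_eq_sum_Icc] at h1
    push_cast at h1
    have h2 : Real.log ((2 : ℝ) ^ K) ≤ K := by
      rw [Real.log_pow]
      have : Real.log 2 ≤ 1 := by
        have := Real.log_two_lt_d9; linarith
      have hK : (0 : ℝ) ≤ K := Nat.cast_nonneg K
      nlinarith
    calc ∑ x ∈ Finset.Icc (1:ℕ) (2 ^ K), (1 : ℝ) / (x : ℝ) = ∑ x ∈ Finset.Icc (1:ℕ) (2 ^ K), ((x : ℝ))⁻¹ := by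
          simp
      _ ≤ _ := by linarith
  have hmap : ∑ d ∈ Finset.Icc 1 (2 ^ K), (1 : ℝ) / ((ordCompl[3] d : ℕ) : ℝ) ≤
      ∑ p ∈ Finset.range (K + 1) ×ˢ Finset.Icc (1:ℕ) (2 ^ K), (1 : ℝ) / (p.2 : ℝ) := by
    have hinj : Set.InjOn (fun d : ℕ => ((d.factorization 3, ordCompl[3] d) : ℕ × ℕ))
        (Finset.Icc 1 (2 ^ K) : Set ℕ) := by
      intro x _ y _ hxy
      simp only [Prod.mk.injEq] at hxy
      rw [← Nat.ordProj_mul_ordCompl_eq_self x 3, ← Nat.ordProj_mul_ordCompl_eq_self y 3]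
      rw [hxy.2, hxy.1]
    rw [← Finset.sum_image (f := fun p : ℕ × ℕ => (1 : ℝ) / (p.2 : ℝ)) hinj]
    apply Finset.sum_le_sum_of_subset_of_nonneg
    · intro p hp
      obtain ⟨d, hd, rfl⟩ := Finset.mem_image.1 hp
      rw [Finset.mem_Icc] at hd
      rw [Finset.mem_product, Finset.mem_range, Finset.mem_Icc]
      have hd0 : d ≠ 0 := by omega
      refine ⟨?_, Nat.ordCompl_pos 3 hd0, (Nat.ordCompl_le d 3).trans hd.2⟩
      have h1 : 3 ^ d.factorization 3 ≤ 2 ^ K := (Nat.ordProj_le 3 hd0).trans hd.2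
      have h2 : 2 ^ d.factorization 3 ≤ 2 ^ K := (Nat.pow_le_pow_left (by norm_num) _).trans h1
      have := (Nat.pow_le_pow_iff_right (by norm_num : 1 < 2)).1 h2
      simp only
      omega
    · intro p _ _
      positivity
  refine hmap.trans ?_
  rw [Finset.sum_product]
  simp only [Finset.sum_const, Finset.card_range, nsmul_eq_mul]
  push_cast
  have hK : (0 : ℝ) ≤ K := Nat.cast_nonneg K
  nlinarith

theorem facts {Z m j Y K : ℕ} (hK : 4 ≤ K) (hY : 1 ≤ Y) (hZ : 2 ^ (K + m) ≤ Z) {v : ℕ × ℕ}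
    (hv : v ∈ V Z) {ε : ℕ × ℕ} (h : ObE v m j Y ε) :
    ∃ i e, i + e = j ∧ wd ε v ≠ 0 ∧ (3 ^ e : ℤ) ∣ wd ε v ∧
      (wd ε v).natAbs * 2 ^ m ≤ 3 ^ e * (v.1 + v.2) ∧
      Y * 3 ^ i * (ε.1 + ε.2) ≤ 2 ^ (m + 2) ∧ Nat.Coprime ε.1 ε.2 := by
  obtain ⟨h1, h2, h3⟩ := h
  have hv' := (Finset.mem_filter.1 hv).2
  have hne : wd ε v ≠ 0 := by
    intro h0
    have h4 := par_eq h1 hv'.1 h0
    have h5 : 1 ≤ Y * 3 ^ (j - padicValNat 3 (cr ε v)) :=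
      Nat.mul_pos hY (by positivity)
    have h6 : ε.1 + ε.2 ≤ 2 ^ (m + 2) := by
      calc ε.1 + ε.2 = 1 * (ε.1 + ε.2) := (one_mul _).symm
        _ ≤ _ := (Nat.mul_le_mul_right _ h5).trans h2
    have h7 : 2 ^ (m + 4) ≤ 2 ^ (K + m) := Nat.pow_le_pow_right (by norm_num) (by omega)
    have h8 : 2 ^ (m + 4) = 4 * 2 ^ (m + 2) := by ring
    have h9 : 0 < 2 ^ (m + 2) := by positivity
    rw [h4] at h6
    omega
  refine ⟨j - padicValNat 3 (cr ε v), min j (padicValNat 3 (cr ε v)), by omega, hne, ?_, h3, h2,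
    h1⟩
  have h4 : 3 ^ (min j (padicValNat 3 (cr ε v))) ∣ (wd ε v).natAbs := by
    have : 3 ^ (padicValNat 3 (cr ε v)) ∣ cr ε v := pow_padicValNat_dvd
    exact (Nat.pow_dvd_pow 3 (min_le_right _ _)).trans this
  have h5 := Int.natCast_dvd.2 h4
  push_cast at h5
  exact h5

theorem detb {m1 j1 m2 j2 Y K : ℕ} (hY : 1 ≤ Y)
    (hK : 16 * 3 ^ ((j1 - j2) + (j2 - j1)) * 2 ^ ((m1 - m2) + (m2 - m1)) ≤ 2 ^ K)
    {v ε1 ε2 : ℕ × ℕ} (hv : Nat.Coprime v.1 v.2) (hne : ε1 ≠ ε2) {i1 e1 i2 e2 : ℕ}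
    (hj1 : i1 + e1 = j1) (hj2 : i2 + e2 = j2)
    (hd1 : (3 ^ e1 : ℤ) ∣ wd ε1 v) (hd2 : (3 ^ e2 : ℤ) ∣ wd ε2 v)
    (ha1 : (wd ε1 v).natAbs * 2 ^ m1 ≤ 3 ^ e1 * (v.1 + v.2))
    (ha2 : (wd ε2 v).natAbs * 2 ^ m2 ≤ 3 ^ e2 * (v.1 + v.2))
    (hs1 : Y * 3 ^ i1 * (ε1.1 + ε1.2) ≤ 2 ^ (m1 + 2))
    (hs2 : Y * 3 ^ i2 * (ε2.1 + ε2.2) ≤ 2 ^ (m2 + 2))
    (hc1 : Nat.Coprime ε1.1 ε1.2) (hc2 : Nat.Coprime ε2.1 ε2.2) :
    ∃ d, 1 ≤ d ∧ d ≤ 2 ^ K ∧ (wd ε1 ε2).natAbs = 3 ^ (min e1 e2) * d := by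
  have hD : wd ε1 ε2 ≠ 0 := fun h => hne (par_eq hc1 hc2 h)
  -- divisibility
  have hdv : (3 ^ (min e1 e2) : ℤ) ∣ wd ε1 ε2 := by
    have b1 : (3 ^ (min e1 e2) : ℤ) ∣ wd ε1 v :=
      (pow_dvd_pow 3 (min_le_left _ _)).trans hd1
    have b2 : (3 ^ (min e1 e2) : ℤ) ∣ wd ε2 v :=
      (pow_dvd_pow 3 (min_le_right _ _)).trans hd2
    have c1 : (3 ^ (min e1 e2) : ℤ) ∣ wd ε1 ε2 * v.1 := by
      have : wd ε1 ε2 * v.1 = wd ε1 v * ε2.1 - wd ε2 v * ε1.1 := by unfold wd; ring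
      rw [this]
      exact dvd_sub (b1.mul_right _) (b2.mul_right _)
    have c2 : (3 ^ (min e1 e2) : ℤ) ∣ wd ε1 ε2 * v.2 := by
      have : wd ε1 ε2 * v.2 = wd ε1 v * ε2.2 - wd ε2 v * ε1.2 := by unfold wd; ring
      rw [this]
      exact dvd_sub (b1.mul_right _) (b2.mul_right _)
    obtain ⟨a, b, hab⟩ := Nat.isCoprime_iff_coprime.2 hv
    have : wd ε1 ε2 = a * (wd ε1 ε2 * v.1) + b * (wd ε1 ε2 * v.2) := by
      linear_combination (-(wd ε1 ε2)) * hab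
    rw [this]
    exact dvd_add (c1.mul_left _) (c2.mul_left _)
  have hdv' : 3 ^ (min e1 e2) ∣ (wd ε1 ε2).natAbs := by
    have := Int.natAbs_dvd_natAbs.2 hdv
    rwa [Int.natAbs_pow] at this
  obtain ⟨d, hd⟩ := hdv'
  have hd0 : d ≠ 0 := by
    rintro rfl
    rw [mul_zero] at hd
    exact hD (Int.natAbs_eq_zero.1 hd)
  refine ⟨d, by omega, ?_, hd⟩
  -- size
  have hvpos := size_pos hv
  have hsize : (wd ε1 ε2).natAbs * (v.1 + v.2) ≤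
      (wd ε1 v).natAbs * (ε2.1 + ε2.2) + (wd ε2 v).natAbs * (ε1.1 + ε1.2) := by
    have h1 : wd ε1 ε2 * ((v.1 : ℤ) + v.2) = wd ε1 v * ((ε2.1 : ℤ) + ε2.2) -
        wd ε2 v * ((ε1.1 : ℤ) + ε1.2) := by unfold wd; ring
    have h2 : |wd ε1 ε2| * ((v.1 : ℤ) + v.2) ≤ |wd ε1 v| * ((ε2.1 : ℤ) + ε2.2) +
        |wd ε2 v| * ((ε1.1 : ℤ) + ε1.2) := by
      have e1 : |wd ε1 ε2| * ((v.1 : ℤ) + v.2) = |wd ε1 ε2 * ((v.1 : ℤ) + v.2)| := by
        rw [abs_mul, abs_of_nonneg (a := (v.1 : ℤ) + v.2) (by positivity)]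
      have e2 : |wd ε1 v| * ((ε2.1 : ℤ) + ε2.2) = |wd ε1 v * ((ε2.1 : ℤ) + ε2.2)| := by
        rw [abs_mul, abs_of_nonneg (a := (ε2.1 : ℤ) + ε2.2) (by positivity)]
      have e3 : |wd ε2 v| * ((ε1.1 : ℤ) + ε1.2) = |wd ε2 v * ((ε1.1 : ℤ) + ε1.2)| := by
        rw [abs_mul, abs_of_nonneg (a := (ε1.1 : ℤ) + ε1.2) (by positivity)]
      rw [e1, e2, e3, h1]
      exact abs_sub _ _
    zify
    exact h2
  have hm : (wd ε1 ε2).natAbs * Y * (3 ^ (i1 + i2) * 2 ^ (m1 + m2)) ≤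
      4 * (3 ^ j1 * 2 ^ (2 * m2) + 3 ^ j2 * 2 ^ (2 * m1)) := by
    have : (wd ε1 ε2).natAbs * Y * (3 ^ (i1 + i2) * 2 ^ (m1 + m2)) * (v.1 + v.2) ≤
      4 * (3 ^ j1 * 2 ^ (2 * m2) + 3 ^ j2 * 2 ^ (2 * m1)) * (v.1 + v.2) := by
      calc (wd ε1 ε2).natAbs * Y * (3 ^ (i1 + i2) * 2 ^ (m1 + m2)) * (v.1 + v.2)
          = ((wd ε1 ε2).natAbs * (v.1 + v.2)) * (Y * (3 ^ (i1 + i2) * 2 ^ (m1 + m2))) := by ring
        _ ≤ ((wd ε1 v).natAbs * (ε2.1 + ε2.2) + (wd ε2 v).natAbs * (ε1.1 + ε1.2)) *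
            (Y * (3 ^ (i1 + i2) * 2 ^ (m1 + m2))) := Nat.mul_le_mul_right _ hsize
        _ = ((wd ε1 v).natAbs * 2 ^ m1) * (Y * 3 ^ i2 * (ε2.1 + ε2.2)) * (3 ^ i1 * 2 ^ m2) +
            ((wd ε2 v).natAbs * 2 ^ m2) * (Y * 3 ^ i1 * (ε1.1 + ε1.2)) * (3 ^ i2 * 2 ^ m1) := by
          rw [pow_add, pow_add]; ring
        _ ≤ (3 ^ e1 * (v.1 + v.2)) * 2 ^ (m2 + 2) * (3 ^ i1 * 2 ^ m2) +
            (3 ^ e2 * (v.1 + v.2)) * 2 ^ (m1 + 2) * (3 ^ i2 * 2 ^ m1) := by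
          gcongr
        _ = _ := by
          rw [← hj1, ← hj2, pow_add 3 i1 e1, pow_add 3 i2 e2]; ring
    exact Nat.le_of_mul_le_mul_right this hvpos
  have hx1 : 3 ^ j1 ≤ 3 ^ (min e1 e2) * 3 ^ (i1 + i2) * 3 ^ ((j1 - j2) + (j2 - j1)) := by
    rw [← pow_add, ← pow_add]
    exact Nat.pow_le_pow_right (by norm_num) (by omega)
  have hx2 : 3 ^ j2 ≤ 3 ^ (min e1 e2) * 3 ^ (i1 + i2) * 3 ^ ((j1 - j2) + (j2 - j1)) := by
    rw [← pow_add, ← pow_add]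
    exact Nat.pow_le_pow_right (by norm_num) (by omega)
  have hx3 : 2 ^ (2 * m2) ≤ 2 ^ (m1 + m2) * 2 ^ ((m1 - m2) + (m2 - m1)) := by
    rw [← pow_add]
    exact Nat.pow_le_pow_right (by norm_num) (by omega)
  have hx4 : 2 ^ (2 * m1) ≤ 2 ^ (m1 + m2) * 2 ^ ((m1 - m2) + (m2 - m1)) := by
    rw [← pow_add]
    exact Nat.pow_le_pow_right (by norm_num) (by omega)
  have hfin : (3 ^ (min e1 e2) * (3 ^ (i1 + i2) * 2 ^ (m1 + m2))) * (d * Y) ≤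
      (3 ^ (min e1 e2) * (3 ^ (i1 + i2) * 2 ^ (m1 + m2))) * 2 ^ K := by
    calc (3 ^ (min e1 e2) * (3 ^ (i1 + i2) * 2 ^ (m1 + m2))) * (d * Y)
        = (3 ^ (min e1 e2) * d) * Y * (3 ^ (i1 + i2) * 2 ^ (m1 + m2)) := by ring
      _ = (wd ε1 ε2).natAbs * Y * (3 ^ (i1 + i2) * 2 ^ (m1 + m2)) := by rw [hd]
      _ ≤ 4 * (3 ^ j1 * 2 ^ (2 * m2) + 3 ^ j2 * 2 ^ (2 * m1)) := hm
      _ ≤ 4 * ((3 ^ (min e1 e2) * 3 ^ (i1 + i2) * 3 ^ ((j1 - j2) + (j2 - j1))) *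
            (2 ^ (m1 + m2) * 2 ^ ((m1 - m2) + (m2 - m1))) +
            (3 ^ (min e1 e2) * 3 ^ (i1 + i2) * 3 ^ ((j1 - j2) + (j2 - j1))) *
            (2 ^ (m1 + m2) * 2 ^ ((m1 - m2) + (m2 - m1)))) := by gcongr
      _ = (3 ^ (min e1 e2) * (3 ^ (i1 + i2) * 2 ^ (m1 + m2))) *
            (8 * 3 ^ ((j1 - j2) + (j2 - j1)) * 2 ^ ((m1 - m2) + (m2 - m1))) := by ring
      _ ≤ _ := by
        apply Nat.mul_le_mul_left
        refine le_trans ?_ hK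
        gcongr
        norm_num
  have h20 : d * Y ≤ 2 ^ K := Nat.le_of_mul_le_mul_left hfin (by positivity)
  calc d = d * 1 := (mul_one d).symm
    _ ≤ d * Y := Nat.mul_le_mul_left d hY
    _ ≤ _ := h20

/-- vectors `v` with prescribed wedge data -/
def T (Z m1 m2 e1 e2 : ℕ) (ε1 ε2 : ℕ × ℕ) : Finset (ℕ × ℕ) :=
  (V Z).filter (fun v => wd ε1 v ≠ 0 ∧ (3 ^ e1 : ℤ) ∣ wd ε1 v ∧ (3 ^ e2 : ℤ) ∣ wd ε2 v ∧
    (wd ε1 v).natAbs * 2 ^ m1 ≤ 3 ^ e1 * Z ∧ (wd ε2 v).natAbs * 2 ^ m2 ≤ 3 ^ e2 * Z)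

theorem card_T {Z m1 m2 e1 e2 K d μ : ℕ} {ε1 ε2 : ℕ × ℕ} (hd : 1 ≤ d) (hd2 : d ≤ 2 ^ K)
    (hZ : 2 ^ (K + m2) ≤ Z) (h1 : Nat.Coprime ε1.1 ε1.2)
    (hD : (wd ε1 ε2).natAbs = 3 ^ μ * d) :
    ((T Z m1 m2 e1 e2 ε1 ε2).card : ℝ) ≤
      6 * ((Z : ℝ) / 2 ^ m1) * ((Z : ℝ) / 2 ^ m2) * (1 / ((ordCompl[3] d : ℕ) : ℝ)) := by
  have hd0 : d ≠ 0 := by omega
  have hpos : 0 < ordCompl[3] d := Nat.ordCompl_pos 3 hd0
  have hcop : Nat.Coprime (ordCompl[3] d) 3 := (Nat.coprime_ordCompl Nat.prime_three hd0).symm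
  have hdvd : ((ordCompl[3] d : ℕ) : ℤ) ∣ wd ε1 ε2 := by
    rw [Int.natCast_dvd, hD]
    exact (Nat.ordCompl_dvd d 3).mul_left _
  have hne : wd ε1 ε2 ≠ 0 := by
    intro h0
    rw [h0] at hD
    have : 0 < 3 ^ μ * d := by positivity
    simp at hD
    omega
  have h2 := L1 (Z := Z) (m1 := m1) (m2 := m2) (e1 := e1) (e2 := e2) h1 hpos hcop hdvd hne
    (s := T Z m1 m2 e1 e2 ε1 ε2) (fun v hv => (Finset.mem_filter.1 hv).2)
  have hle : ordCompl[3] d ≤ 2 ^ K := (Nat.ordCompl_le d 3).trans hd2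
  generalize ordCompl[3] d = q at *
  have hq : (0 : ℝ) < q := by exact_mod_cast hpos
  have h3 : (((2 * (Z / 2 ^ m2) / q + 1) * (2 * (Z / 2 ^ m1)) : ℕ) : ℝ) ≤
      (3 * ((Z : ℝ) / 2 ^ m2) / q) * (2 * ((Z : ℝ) / 2 ^ m1)) := by
    have h4 : ((Z / 2 ^ m1 : ℕ) : ℝ) ≤ (Z : ℝ) / 2 ^ m1 := by
      have := @Nat.cast_div_le ℝ _ _ _ Z (2 ^ m1)
      push_cast at this
      exact this
    have h5 : ((Z / 2 ^ m2 : ℕ) : ℝ) ≤ (Z : ℝ) / 2 ^ m2 := by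
      have := @Nat.cast_div_le ℝ _ _ _ Z (2 ^ m2)
      push_cast at this
      exact this
    have h6 : ((2 * (Z / 2 ^ m2) / q : ℕ) : ℝ) ≤ 2 * ((Z : ℝ) / 2 ^ m2) / q := by
      have := @Nat.cast_div_le ℝ _ _ _ (2 * (Z / 2 ^ m2)) q
      refine this.trans ?_
      apply div_le_div_of_nonneg_right _ hq.le
      push_cast at h5 ⊢
      linarith
    have h7 : (1 : ℝ) ≤ ((Z : ℝ) / 2 ^ m2) / q := by
      rw [le_div_iff₀ hq, one_mul, le_div_iff₀ (by positivity)]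
      have : q * 2 ^ m2 ≤ Z := by
        calc q * 2 ^ m2 ≤ 2 ^ K * 2 ^ m2 := Nat.mul_le_mul_right _ hle
          _ = 2 ^ (K + m2) := (pow_add _ _ _).symm
          _ ≤ Z := hZ
      exact_mod_cast this
    have h8 : 3 * ((Z : ℝ) / 2 ^ m2) / q = 2 * ((Z : ℝ) / 2 ^ m2) / q + ((Z : ℝ) / 2 ^ m2) / q := by
      ring
    rw [Nat.cast_mul, Nat.cast_add, Nat.cast_one, Nat.cast_mul]
    apply mul_le_mul
    · rw [h8]; linarith
    · push_cast at h4 ⊢; linarith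
    · positivity
    · positivity
  have h9 : ((T Z m1 m2 e1 e2 ε1 ε2).card : ℝ) ≤
      (((2 * (Z / 2 ^ m2) / q + 1) * (2 * (Z / 2 ^ m1)) : ℕ) : ℝ) := by exact_mod_cast h2
  refine (h9.trans h3).trans (le_of_eq ?_)
  ring

/-- the pairs of directions with given data -/
def P (m1 m2 Y i1 i2 : ℕ) (D : ℤ) : Finset ((ℕ × ℕ) × (ℕ × ℕ)) :=
  ((B (2 ^ (m1 + 2) / (Y * 3 ^ i1))) ×ˢ (B (2 ^ (m2 + 2) / (Y * 3 ^ i2)))).filter
    (fun p => wd p.1 p.2 = D)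

theorem card_P {m1 m2 Y i1 i2 : ℕ} (D : ℤ) :
    ((P m1 m2 Y i1 i2 D).card : ℝ) ≤
      4 * (2 ^ (m1 + 2) / ((Y : ℝ) * 3 ^ i1)) * (2 ^ (m2 + 2) / ((Y : ℝ) * 3 ^ i2)) := by
  refine (L2 _ _ D).trans ?_
  have h1 := @Nat.cast_div_le ℝ _ _ _ (2 ^ (m1 + 2)) (Y * 3 ^ i1)
  have h2 := @Nat.cast_div_le ℝ _ _ _ (2 ^ (m2 + 2)) (Y * 3 ^ i2)
  have h3 : ((2 ^ (m1 + 2) / (Y * 3 ^ i1) : ℕ) : ℝ) ≤ 2 ^ (m1 + 2) / ((Y : ℝ) * 3 ^ i1) := by
    refine h1.trans (le_of_eq ?_)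
    push_cast
    rfl
  have h4 : ((2 ^ (m2 + 2) / (Y * 3 ^ i2) : ℕ) : ℝ) ≤ 2 ^ (m2 + 2) / ((Y : ℝ) * 3 ^ i2) := by
    refine h2.trans (le_of_eq ?_)
    push_cast
    rfl
  apply mul_le_mul
  · exact mul_le_mul_of_nonneg_left h3 (by norm_num)
  · exact h4
  · exact Nat.cast_nonneg _
  · positivity

/-- the union over pairs of directions -/
noncomputable def U (Z m1 j1 m2 j2 Y i1 i2 d : ℕ) (σ : ℤ) : Finset (ℕ × ℕ) :=
  (P m1 m2 Y i1 i2 (σ * (3 ^ (min (j1 - i1) (j2 - i2)) * d : ℕ))).biUnion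
    (fun p => T Z m1 m2 (j1 - i1) (j2 - i2) p.1 p.2)

theorem card_U {Z m1 j1 m2 j2 Y i1 i2 d K : ℕ} {σ : ℤ} (hσ : σ = 1 ∨ σ = -1) (hY : 1 ≤ Y)
    (hd : 1 ≤ d) (hd2 : d ≤ 2 ^ K) (hZ : 2 ^ (K + m2) ≤ Z) :
    ((U Z m1 j1 m2 j2 Y i1 i2 d σ).card : ℝ) ≤
      384 * (Z : ℝ) ^ 2 / (Y : ℝ) ^ 2 * ((1 / 3) ^ i1 * (1 / 3) ^ i2) *
        (1 / ((ordCompl[3] d : ℕ) : ℝ)) := by
  have h1 : ((U Z m1 j1 m2 j2 Y i1 i2 d σ).card : ℝ) ≤
      ∑ p ∈ P m1 m2 Y i1 i2 (σ * (3 ^ (min (j1 - i1) (j2 - i2)) * d : ℕ)),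
        6 * ((Z : ℝ) / 2 ^ m1) * ((Z : ℝ) / 2 ^ m2) * (1 / ((ordCompl[3] d : ℕ) : ℝ)) := by
    have h2 : (U Z m1 j1 m2 j2 Y i1 i2 d σ).card ≤
      ∑ p ∈ P m1 m2 Y i1 i2 (σ * (3 ^ (min (j1 - i1) (j2 - i2)) * d : ℕ)),
        (T Z m1 m2 (j1 - i1) (j2 - i2) p.1 p.2).card := Finset.card_biUnion_le
    have h3 : ((U Z m1 j1 m2 j2 Y i1 i2 d σ).card : ℝ) ≤
      ∑ p ∈ P m1 m2 Y i1 i2 (σ * (3 ^ (min (j1 - i1) (j2 - i2)) * d : ℕ)),
        ((T Z m1 m2 (j1 - i1) (j2 - i2) p.1 p.2).card : ℝ) := by exact_mod_cast h2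
    refine h3.trans (Finset.sum_le_sum ?_)
    intro p hp
    obtain ⟨h4, h5⟩ := Finset.mem_filter.1 hp
    have h6 := (mem_B.1 (Finset.mem_product.1 h4).1).1
    apply card_T hd hd2 hZ h6 (μ := min (j1 - i1) (j2 - i2))
    rw [h5]
    rcases hσ with h | h
    · rw [h, one_mul, Int.natAbs_natCast]
    · rw [h, neg_one_mul, Int.natAbs_neg, Int.natAbs_natCast]
  refine h1.trans ?_
  rw [Finset.sum_const, nsmul_eq_mul]
  have hY0 : (0 : ℝ) < Y := by exact_mod_cast hY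
  have h7 : (0 : ℝ) ≤ 1 / ((ordCompl[3] d : ℕ) : ℝ) := by positivity
  refine (mul_le_mul_of_nonneg_right (card_P _) (by positivity)).trans (le_of_eq ?_)
  rw [one_div_pow, one_div_pow]
  have hx : (2 : ℝ) ^ m1 ≠ 0 := by positivity
  have hy : (2 : ℝ) ^ m2 ≠ 0 := by positivity
  rw [pow_add, pow_add]
  field_simp
  ring

theorem geo (j : ℕ) : ∑ i ∈ Finset.range (j + 1), ((1 : ℝ) / 3) ^ i ≤ 3 / 2 := by
  have h := geom_sum_eq (x := (1 : ℝ) / 3) (by norm_num) (j + 1)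
  rw [h]
  have h2 : (0 : ℝ) ≤ (1 / 3) ^ (j + 1) := by positivity
  rw [div_le_iff_of_neg (by norm_num)]
  norm_num at h2 ⊢

open scoped Classical in
theorem cover {Z m1 j1 m2 j2 Y K : ℕ} (hY : 1 ≤ Y)
    (hK : 16 * 3 ^ ((j1 - j2) + (j2 - j1)) * 2 ^ ((m1 - m2) + (m2 - m1)) ≤ 2 ^ K)
    (hZ : 2 ^ (K + max m1 m2) ≤ Z) :
    (V Z).filter (fun v => ∃ ε ε', ε ≠ ε' ∧ ObE v m1 j1 Y ε ∧ ObE v m2 j2 Y ε') ⊆
      (Finset.range (j1 + 1) ×ˢ Finset.range (j2 + 1)).biUnion (fun i =>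
        (Finset.Icc 1 (2 ^ K)).biUnion (fun d =>
          U Z m1 j1 m2 j2 Y i.1 i.2 d 1 ∪ U Z m1 j1 m2 j2 Y i.1 i.2 d (-1))) := by
  have hK4 : 4 ≤ K := by
    have h1 : 2 ^ 4 ≤ 2 ^ K := by
      refine le_trans ?_ hK
      have h3 : 1 ≤ 3 ^ ((j1 - j2) + (j2 - j1)) := Nat.one_le_pow _ _ (by norm_num)
      have h4 : 1 ≤ 2 ^ ((m1 - m2) + (m2 - m1)) := Nat.one_le_pow _ _ (by norm_num)
      nlinarith
    exact (Nat.pow_le_pow_iff_right (by norm_num)).1 h1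
  intro v hv
  obtain ⟨hvV, ε1, ε2, hne, hO1, hO2⟩ := Finset.mem_filter.1 hv
  have hv' := (Finset.mem_filter.1 hvV).2
  have hZ1 : 2 ^ (K + m1) ≤ Z :=
    (Nat.pow_le_pow_right (by norm_num) (by have := le_max_left m1 m2; omega)).trans hZ
  have hZ2 : 2 ^ (K + m2) ≤ Z :=
    (Nat.pow_le_pow_right (by norm_num) (by have := le_max_right m1 m2; omega)).trans hZ
  obtain ⟨i1, e1, hj1, hn1, hd1, ha1, hs1, hc1⟩ := facts hK4 hY hZ1 hvV hO1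
  obtain ⟨i2, e2, hj2, hn2, hd2, ha2, hs2, hc2⟩ := facts hK4 hY hZ2 hvV hO2
  obtain ⟨d, hdp, hdK, hD⟩ := detb hY hK hv'.1 hne hj1 hj2 hd1 hd2 ha1 ha2 hs1 hs2 hc1 hc2
  rw [Finset.mem_biUnion]
  refine ⟨(i1, i2), ?_, ?_⟩
  · rw [Finset.mem_product, Finset.mem_range, Finset.mem_range]
    exact ⟨by simp only; omega, by simp only; omega⟩
  rw [Finset.mem_biUnion]
  refine ⟨d, Finset.mem_Icc.2 ⟨hdp, hdK⟩, ?_⟩
  have he1 : j1 - i1 = e1 := by omega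
  have he2 : j2 - i2 = e2 := by omega
  have hB : (ε1, ε2) ∈ (B (2 ^ (m1 + 2) / (Y * 3 ^ i1))) ×ˢ (B (2 ^ (m2 + 2) / (Y * 3 ^ i2))) := by
    rw [Finset.mem_product, mem_B, mem_B]
    refine ⟨⟨hc1, ?_⟩, ⟨hc2, ?_⟩⟩
    · rw [Nat.le_div_iff_mul_le (Nat.mul_pos hY (by positivity))]
      rw [mul_comm]; exact hs1
    · rw [Nat.le_div_iff_mul_le (Nat.mul_pos hY (by positivity))]
      rw [mul_comm]; exact hs2
  have hT : v ∈ T Z m1 m2 e1 e2 ε1 ε2 := by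
    refine Finset.mem_filter.2 ⟨hvV, hn1, hd1, hd2, ?_, ?_⟩
    · exact ha1.trans (Nat.mul_le_mul_left _ hv'.2.2)
    · exact ha2.trans (Nat.mul_le_mul_left _ hv'.2.2)
  rw [Finset.mem_union]
  rcases Int.natAbs_eq (wd ε1 ε2) with h | h
  · left
    refine Finset.mem_biUnion.2 ⟨(ε1, ε2), Finset.mem_filter.2 ⟨hB, ?_⟩, ?_⟩
    · simp only
      rw [h, hD, he1, he2, one_mul]
    · simp only [he1, he2]
      exact hT
  · right
    refine Finset.mem_biUnion.2 ⟨(ε1, ε2), Finset.mem_filter.2 ⟨hB, ?_⟩, ?_⟩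
    · simp only
      rw [h, hD, he1, he2, neg_one_mul]
    · simp only [he1, he2]
      exact hT

end PairAux

open scoped Classical in
theorem pair_count {Z m1 j1 m2 j2 Y K : ℕ} (hY : 1 ≤ Y)
    (hK : 16 * 3 ^ ((j1 - j2) + (j2 - j1)) * 2 ^ ((m1 - m2) + (m2 - m1)) ≤ 2 ^ K)
    (hZ : 2 ^ (K + max m1 m2) ≤ Z) :
    (((V Z).filter (fun v => ∃ ε ε', ε ≠ ε' ∧ ObE v m1 j1 Y ε ∧ ObE v m2 j2 Y ε')).card : ℝ) *
      (Y : ℝ) ^ 2 ≤ 2000 * ((K : ℝ) + 1) ^ 2 * (Z : ℝ) ^ 2 := by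
  have hY0 : (0 : ℝ) < Y := by exact_mod_cast hY
  have hZ2 : 2 ^ (K + m2) ≤ Z :=
    (Nat.pow_le_pow_right (by norm_num) (by have := le_max_right m1 m2; omega)).trans hZ
  set A : ℝ := 384 * (Z : ℝ) ^ 2 / (Y : ℝ) ^ 2 with hA
  have hA0 : 0 ≤ A := by positivity
  have h1 : (((V Z).filter (fun v => ∃ ε ε', ε ≠ ε' ∧ ObE v m1 j1 Y ε ∧
      ObE v m2 j2 Y ε')).card : ℝ) ≤
      ∑ i ∈ Finset.range (j1 + 1) ×ˢ Finset.range (j2 + 1), ∑ d ∈ Finset.Icc 1 (2 ^ K),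
        2 * (A * ((1 / 3) ^ i.1 * (1 / 3) ^ i.2) * (1 / ((ordCompl[3] d : ℕ) : ℝ))) := by
    have h2 := Finset.card_le_card (PairAux.cover (Z := Z) hY hK hZ)
    refine (Nat.cast_le.2 h2).trans ?_
    have h3 : ((Finset.range (j1 + 1) ×ˢ Finset.range (j2 + 1)).biUnion (fun i =>
        (Finset.Icc 1 (2 ^ K)).biUnion (fun d =>
          PairAux.U Z m1 j1 m2 j2 Y i.1 i.2 d 1 ∪
            PairAux.U Z m1 j1 m2 j2 Y i.1 i.2 d (-1)))).card ≤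
        ∑ i ∈ Finset.range (j1 + 1) ×ˢ Finset.range (j2 + 1), ∑ d ∈ Finset.Icc 1 (2 ^ K),
          ((PairAux.U Z m1 j1 m2 j2 Y i.1 i.2 d 1).card +
            (PairAux.U Z m1 j1 m2 j2 Y i.1 i.2 d (-1)).card) := by
      refine Finset.card_biUnion_le.trans (Finset.sum_le_sum fun i _ => ?_)
      refine Finset.card_biUnion_le.trans (Finset.sum_le_sum fun d _ => ?_)
      exact Finset.card_union_le _ _
    refine (Nat.cast_le.2 h3).trans ?_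
    push_cast
    refine Finset.sum_le_sum fun i _ => Finset.sum_le_sum fun d hd => ?_
    obtain ⟨hd1, hd2⟩ := Finset.mem_Icc.1 hd
    have h4 := PairAux.card_U (Z := Z) (m1 := m1) (j1 := j1) (m2 := m2) (j2 := j2) (i1 := i.1)
      (i2 := i.2) (σ := 1) (Or.inl rfl) hY hd1 hd2 hZ2
    have h5 := PairAux.card_U (Z := Z) (m1 := m1) (j1 := j1) (m2 := m2) (j2 := j2) (i1 := i.1)
      (i2 := i.2) (σ := -1) (Or.inr rfl) hY hd1 hd2 hZ2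
    rw [← hA] at h4 h5
    linarith
  have h6 : ∑ i ∈ Finset.range (j1 + 1) ×ˢ Finset.range (j2 + 1), ∑ d ∈ Finset.Icc 1 (2 ^ K),
        2 * (A * ((1 / 3) ^ i.1 * (1 / 3) ^ i.2) * (1 / ((ordCompl[3] d : ℕ) : ℝ))) =
      2 * A * ((∑ i ∈ Finset.range (j1 + 1), ((1 : ℝ) / 3) ^ i) *
        (∑ i ∈ Finset.range (j2 + 1), ((1 : ℝ) / 3) ^ i)) *
        (∑ d ∈ Finset.Icc 1 (2 ^ K), (1 : ℝ) / ((ordCompl[3] d : ℕ) : ℝ)) := by
    have e1 : ∀ i : ℕ × ℕ, ∑ d ∈ Finset.Icc 1 (2 ^ K),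
        2 * (A * ((1 / 3) ^ i.1 * (1 / 3) ^ i.2) * (1 / ((ordCompl[3] d : ℕ) : ℝ))) =
        2 * A * (∑ d ∈ Finset.Icc 1 (2 ^ K), (1 : ℝ) / ((ordCompl[3] d : ℕ) : ℝ)) *
          ((1 / 3) ^ i.1 * (1 / 3) ^ i.2) := by
      intro i
      rw [Finset.mul_sum, Finset.sum_mul]
      exact Finset.sum_congr rfl fun d _ => by ring
    rw [Finset.sum_congr rfl fun i _ => e1 i, ← Finset.mul_sum, Finset.sum_product,
      ← Finset.sum_mul_sum]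
    ring
  rw [h6] at h1
  have h7 := PairAux.geo j1
  have h8 := PairAux.geo j2
  have h9 := PairAux.L3 K
  have h10 : (0 : ℝ) ≤ ∑ i ∈ Finset.range (j1 + 1), ((1 : ℝ) / 3) ^ i := by positivity
  have h11 : (0 : ℝ) ≤ ∑ i ∈ Finset.range (j2 + 1), ((1 : ℝ) / 3) ^ i := by positivity
  have h12 : (0 : ℝ) ≤ ∑ d ∈ Finset.Icc 1 (2 ^ K), (1 : ℝ) / ((ordCompl[3] d : ℕ) : ℝ) :=
    Finset.sum_nonneg fun d _ => by positivity
  have h13 : 2 * A * ((∑ i ∈ Finset.range (j1 + 1), ((1 : ℝ) / 3) ^ i) *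
        (∑ i ∈ Finset.range (j2 + 1), ((1 : ℝ) / 3) ^ i)) *
        (∑ d ∈ Finset.Icc 1 (2 ^ K), (1 : ℝ) / ((ordCompl[3] d : ℕ) : ℝ)) ≤
      2 * A * ((3 / 2) * (3 / 2)) * ((K : ℝ) + 1) ^ 2 := by
    gcongr
  have h14 := mul_le_mul_of_nonneg_right (h1.trans h13) (by positivity : (0 : ℝ) ≤ (Y : ℝ) ^ 2)
  refine h14.trans ?_
  have h15 : A * (Y : ℝ) ^ 2 = 384 * (Z : ℝ) ^ 2 := by
    rw [hA]; field_simp
  have h16 : 2 * A * ((3 / 2) * (3 / 2)) * ((K : ℝ) + 1) ^ 2 * (Y : ℝ) ^ 2 =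
      (A * (Y : ℝ) ^ 2) * (9 / 2) * ((K : ℝ) + 1) ^ 2 := by ring
  rw [h16, h15]
  have h17 : (0 : ℝ) ≤ (Z : ℝ) ^ 2 * ((K : ℝ) + 1) ^ 2 := by positivity
  nlinarith

end BAC
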