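import Pool.Agent.BAC.Rec
import Pool.Agent.BAC.First
import Pool.Agent.BAC.Pair
import Pool.Agent.BAC.ClimbBad

namespace BAC

/-- along a level function, canonical frames are joined by runs -/
theorem route {v : ℕ × ℕ} (hv : Nat.Coprime v.1 v.2) {h m0 : ℕ} (hh : 1 ≤ h) (lev : ℕ → ℕ)
    {F0 : Fr} {y0 : ℕ × ℕ} (hF0 : Can v (lev 0) m0 F0 y0) :
    ∀ n : ℕ, 2 ^ (m0 + 512 * h * n) ≤ v.1 + v.2 →
    (∀ i < n, lev (i + 1) = lev i ∨ (lev (i + 1) = lev i + h ∧
      ∀ F y, Can v (lev i) (m0 + 512 * h * i) F y →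
        Climb F.c1 F.c2 y.1 y.2 h (2 ^ (m0 + 512 * h * i + 512 * h - 1)))) →
    ∃ F y l, Can v (lev n) (m0 + 512 * h * n) F y ∧ Run F0 (lev 0) y0 l F (lev n) y ∧
      ∀ r ∈ l, ∃ i < n, 2 ^ (m0 + 512 * h * i) ≤ r.s ∧ r.s < 2 ^ (m0 + 512 * h * (i + 1)) ∧
        lev i ≤ r.j ∧ r.j ≤ lev (i + 1) := by
  intro n
  induction n with
  | zero =>
    intro _ _
    refine ⟨F0, y0, [], ?_, Run.nil _ _ _, ?_⟩
    · simpa using hF0
    · intro r hr; simp at hr
  | succ n ih =>
    intro hsz hlev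
    have hpow : 2 ^ (m0 + 512 * h * n) ≤ 2 ^ (m0 + 512 * h * (n + 1)) :=
      Nat.pow_le_pow_right (by norm_num) (by nlinarith)
    obtain ⟨F, y, l, hF, hrun, hl⟩ := ih (le_trans hpow hsz) (fun i hi => hlev i (by omega))
    have hm : m0 + 512 * h * (n + 1) = m0 + 512 * h * n + 512 * h := by ring
    rcases hlev n (by omega) with hn | ⟨hn, hcl⟩
    · obtain ⟨F', y', l', hF', hrun', hl'⟩ := run_horiz (m' := m0 + 512 * h * (n + 1)) hv hF
        (by rw [hm]; omega) hsz
      refine ⟨F', y', l ++ l', ?_, ?_, ?_⟩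
      · rw [hn]; exact hF'
      · rw [hn]; exact hrun.trans hrun'
      · intro r hr
        rcases List.mem_append.1 hr with hr | hr
        · obtain ⟨i, hi, h1, h2, h3, h4⟩ := hl r hr
          exact ⟨i, by omega, h1, h2, h3, h4⟩
        · obtain ⟨h1, h2, h3⟩ := hl' r hr
          exact ⟨n, by omega, h1, h2, by omega, by omega⟩
    · obtain ⟨F', y', l', hF', hrun', hl'⟩ := run_of_climb (m' := m0 + 512 * h * (n + 1)) hv hF
        (by rw [hm]; omega) (hcl F y hF)
        (Nat.pow_lt_pow_right (by norm_num) (by rw [hm]; omega)) hsz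
      refine ⟨F', y', l ++ l', ?_, ?_, ?_⟩
      · rw [hn]; exact hF'
      · rw [hn]; exact hrun.trans hrun'
      · intro r hr
        rcases List.mem_append.1 hr with hr | hr
        · obtain ⟨i, hi, h1, h2, h3, h4⟩ := hl r hr
          exact ⟨i, by omega, h1, h2, h3, h4⟩
        · obtain ⟨h1, h2, h3, h4⟩ := hl' r hr
          exact ⟨n, by omega, h1, h2, h3, by omega⟩

/-- the exceptional events of a block -/
inductive Exc (v : ℕ × ℕ) (a h q Y K : ℕ) : Prop
  | climb1 (i : ℕ) (hi : i < q) (hc : ∃ F y, Can v (a + i * h) (1024 * a + 1 + 512 * h * i) F y ∧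
      ¬ Climb F.c1 F.c2 y.1 y.2 h (2 ^ (1024 * a + 1 + 512 * h * i + 512 * h - 1)))
  | climb2 (i : ℕ) (hi : i < q) (hc : ∃ F y, Can v (a + i * h)
      (1024 * a + 1 + 512 * h * (q + i)) F y ∧
      ¬ Climb F.c1 F.c2 y.1 y.2 h (2 ^ (1024 * a + 1 + 512 * h * (q + i) + 512 * h - 1)))
  | start (m j : ℕ) (hm : m < 1024 * h) (hj : j < 2 * h + 1)
      (ho : ∃ ε, ObE v (1024 * a + 1 + m) (a + j) K ε)
  | fin (m : ℕ) (hm : m < 1024 * h)
      (ho : ∃ ε, ObE v (1024 * a + 1 + 512 * h * (2 * q - 2) + m) (a + q * h) K ε)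
  | far (m j : ℕ) (hm : m < 1024 * (q * h) + h) (hj : j < q * h + 1)
      (ho : ∃ ε, ObE v (1024 * a + 1 + m) (a + j) (K * 2 ^ (h / 2)) ε)
  | pair (m j m' j' : ℕ) (hm : m < 1024 * (q * h)) (hj : j < q * h + 1)
      (hm' : m' < 1024 * (q * h)) (hj' : j' < q * h + 1)
      (ho : ∃ ε ε', ε ≠ ε' ∧ ObE v (1024 * a + 1 + m) (a + j) Y ε ∧
        ObE v (1024 * a + 1 + m') (a + j') Y ε')

theorem exc_of_not_reach {v : ℕ × ℕ} (hv : Nat.Coprime v.1 v.2) (h1 : 0 < v.1) (h2 : 0 < v.2)
    {a h q y Y K : ℕ} (hh : 1 ≤ h) (hq : 3 ≤ q)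
    (hsz : 2 ^ (1024 * (a + q * h) + 1) ≤ v.1 + v.2) (hY : 1 ≤ Y)
    (hYK : Y * (1024 * (q * h)) + K + 2 * (q * h) ≤ y)
    (hr : ¬ Reach v a (a + q * h) y) : Exc v a h q Y K := by
  by_contra hexc
  have hq2 : 1024 * (a + q * h) + 1 = 1024 * a + 1 + 512 * h * (2 * q) := by ring
  have hqh : 1 ≤ q * h := Nat.one_le_iff_ne_zero.2 (by positivity)
  -- start
  obtain ⟨F0, y0, hF0⟩ : ∃ F y, Can v a (1024 * a + 1) F y := by
    apply can_exists hv h1 h2
    · have : 5 ^ a ≤ 2 ^ (1024 * a) := by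
        calc 5 ^ a ≤ (2 ^ 1024) ^ a := Nat.pow_le_pow_left
              (le_trans (by norm_num : 5 ≤ 2 ^ 3) (Nat.pow_le_pow_right (by norm_num)
                (by norm_num))) a
          _ = 2 ^ (1024 * a) := by rw [pow_mul]
      rw [pow_succ]; omega
    · refine le_trans (Nat.pow_le_pow_right (by norm_num) ?_) hsz
      omega
  -- route 1
  have R1 := route hv hh (fun i => a + min i q * h) (F0 := F0) (y0 := y0) (m0 := 1024 * a + 1)
    (by simpa using hF0) (2 * q) (by rw [← hq2]; exact hsz) (by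
      intro i hi
      by_cases hiq : i < q
      · right
        refine ⟨?_, ?_⟩
        · rw [min_eq_left (by omega), min_eq_left (by omega)]; ring
        · intro F y hF
          by_contra hc
          apply hexc
          refine Exc.climb1 i hiq ⟨F, y, ?_, hc⟩
          rw [min_eq_left (by omega)] at hF
          exact hF
      · left
        rw [min_eq_right (by omega), min_eq_right (by omega)])
  obtain ⟨F1, y1, l1, hF1, hrun1, hl1⟩ := R1
  -- route 2
  have R2 := route hv hh (fun i => a + (i - q) * h) (F0 := F0) (y0 := y0) (m0 := 1024 * a + 1)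
    (by simpa using hF0) (2 * q) (by rw [← hq2]; exact hsz) (by
      intro i hi
      by_cases hiq : i < q
      · left
        have e1 : i + 1 - q = 0 := by omega
        have e2 : i - q = 0 := by omega
        rw [e1, e2]
      · right
        refine ⟨?_, ?_⟩
        · have e1 : i + 1 - q = (i - q) + 1 := by omega
          rw [e1]; ring
        · intro F y hF
          by_contra hc
          apply hexc
          have e1 : q + (i - q) = i := by omega
          refine Exc.climb2 (i - q) (by omega) ⟨F, y, ?_, ?_⟩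
          · rw [e1]; exact hF
          · rw [e1]; exact hc)
  obtain ⟨F2, y2, l2, hF2, hrun2, hl2⟩ := R2
  have e0 : a + min 0 q * h = a := by simp
  have e0' : a + (0 - q) * h = a := by simp
  have eq1 : a + min (2 * q) q * h = a + q * h := by rw [min_eq_right (by omega)]
  have eq2 : a + (2 * q - q) * h = a + q * h := by
    have : 2 * q - q = q := by omega
    rw [this]
  rw [e0, eq1] at hrun1
  rw [e0', eq2] at hrun2
  rw [eq1] at hF1
  rw [eq2] at hF2
  rw [← hq2] at hF1 hF2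
  -- lengths
  have len1 : Y * (1024 * (q * h)) + K < l1.length := by
    by_contra hlen
    apply hr
    refine ⟨F0, y0, F1, y1, l1, hF0, hF1, hrun1, ?_⟩
    have : a + q * h - a = q * h := by omega
    rw [this]; omega
  have len2 : Y * (1024 * (q * h)) + K < l2.length := by
    by_contra hlen
    apply hr
    refine ⟨F0, y0, F2, y2, l2, hF0, hF2, hrun2, ?_⟩
    have : a + q * h - a = q * h := by omega
    rw [this]; omega
  have hHas : Has v a F0 y0 := hF0.toHas
  obtain ⟨pw1, pn1⟩ := hrun1.pairwise hHas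
  obtain ⟨pw2, pn2⟩ := hrun2.pairwise hHas
  have ob1 := hrun1.obE hv hHas
  have ob2 := hrun2.obE hv hHas
  -- general position bounds
  have monoI : ∀ i j : ℕ, i ≤ j → 1024 * a + 1 + 512 * h * i ≤ 1024 * a + 1 + 512 * h * j := by
    intro i j hij
    have := Nat.mul_le_mul_left (512 * h) hij
    omega
  have pos1 : ∀ r ∈ l1, 2 ^ (1024 * a + 1) ≤ r.s ∧
      r.s < 2 ^ (1024 * a + 1 + 1024 * (q * h)) := by
    intro r hr
    obtain ⟨i, hi, s1, s2, _, _⟩ := hl1 r hr
    constructor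
    · refine le_trans (Nat.pow_le_pow_right (by norm_num) ?_) s1
      omega
    · refine lt_of_lt_of_le s2 (Nat.pow_le_pow_right (by norm_num) ?_)
      have := monoI (i + 1) (2 * q) (by omega)
      have e : 512 * h * (2 * q) = 1024 * (q * h) := by ring
      omega
  have pos2 : ∀ r ∈ l2, 2 ^ (1024 * a + 1) ≤ r.s ∧
      r.s < 2 ^ (1024 * a + 1 + 1024 * (q * h)) := by
    intro r hr
    obtain ⟨i, hi, s1, s2, _, _⟩ := hl2 r hr
    constructor
    · refine le_trans (Nat.pow_le_pow_right (by norm_num) ?_) s1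
      omega
    · refine lt_of_lt_of_le s2 (Nat.pow_le_pow_right (by norm_num) ?_)
      have := monoI (i + 1) (2 * q) (by omega)
      have e : 512 * h * (2 * q) = 1024 * (q * h) := by ring
      omega
  have lev1 : ∀ r ∈ l1, a ≤ r.j ∧ r.j ≤ a + q * h := by
    intro r hr
    obtain ⟨i, hi, _, _, s1, s2⟩ := hl1 r hr
    constructor
    · omega
    · have : min (i + 1) q * h ≤ q * h := Nat.mul_le_mul_right _ (by omega)
      omega
  have lev2 : ∀ r ∈ l2, a ≤ r.j ∧ r.j ≤ a + q * h := by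
    intro r hr
    obtain ⟨i, hi, _, _, s1, s2⟩ := hl2 r hr
    constructor
    · omega
    · have : (i + 1 - q) * h ≤ q * h := Nat.mul_le_mul_right _ (by omega)
      omega
  -- logarithms
  have hlog : ∀ r : Rc, ∀ A B : ℕ, 2 ^ A ≤ r.s → r.s < 2 ^ B →
      A ≤ Nat.log 2 r.s ∧ Nat.log 2 r.s < B ∧ 2 ^ (Nat.log 2 r.s) ≤ r.s ∧
      r.s < 2 ^ (Nat.log 2 r.s + 1) := by
    intro r A B hA hB
    have hs : r.s ≠ 0 := by
      have : 0 < 2 ^ A := by positivity
      omega
    refine ⟨?_, ?_, Nat.pow_log_le_self 2 hs, Nat.lt_pow_succ_log_self (by norm_num) _⟩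
    · exact (Nat.le_log_iff_pow_le (by norm_num) hs).2 hA
    · exact (Nat.log_lt_iff_lt_pow (by norm_num) hs).2 hB
  obtain ⟨⟨ra, hra, hras⟩, L1⟩ := list_lemma pw1 pn1 (m0 := 1024 * a + 1)
    (m1 := 1024 * a + 1 + 1024 * (q * h)) (Y := Y) (K := K) (by omega) pos1 hY
    (by simpa using len1)
  obtain ⟨⟨rb, hrb, hrbs⟩, L2⟩ := list_lemma pw2 pn2 (m0 := 1024 * a + 1)
    (m1 := 1024 * a + 1 + 1024 * (q * h)) (Y := Y) (K := K) (by omega) pos2 hY
    (by simpa using len2)
  have posu : ∀ r ∈ l1 ++ l2, 2 ^ (1024 * a + 1) ≤ r.s ∧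
      r.s < 2 ^ (1024 * a + 1 + 1024 * (q * h)) := by
    intro r hr
    rcases List.mem_append.1 hr with hr | hr
    · exact pos1 r hr
    · exact pos2 r hr
  have levu : ∀ r ∈ l1 ++ l2, a ≤ r.j ∧ r.j ≤ a + q * h := by
    intro r hr
    rcases List.mem_append.1 hr with hr | hr
    · exact lev1 r hr
    · exact lev2 r hr
  have obu : ∀ r ∈ l1 ++ l2, ∀ m K : ℕ, 2 ^ m ≤ r.s → K * r.n ≤ 2 ^ (m + 2) →
      ObE v m r.j K (prm r.e) := by
    intro r hr
    rcases List.mem_append.1 hr with hr | hr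
    · exact ob1 r hr
    · exact ob2 r hr
  by_cases hall : ∀ r ∈ l1 ++ l2, ∀ r' ∈ l1 ++ l2, Y * r.n < r.s → Y * r'.n < r'.s →
      prm r.e = prm r'.e
  · obtain ⟨r1, hr1, s1, k1⟩ := L1 (fun r hr r' hr' => hall r (List.mem_append_left _ hr) r'
      (List.mem_append_left _ hr'))
    obtain ⟨r2, hr2, s2, k2⟩ := L2 (fun r hr r' hr' => hall r (List.mem_append_right _ hr) r'
      (List.mem_append_right _ hr'))
    have hpe : prm r1.e = prm r2.e := hall r1 (List.mem_append_left _ hr1) r2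
      (List.mem_append_right _ hr2) s1 s2
    obtain ⟨i1, hi1, a1, b1, c1, d1⟩ := hl1 r1 hr1
    obtain ⟨i2, hi2, a2, b2, c2, d2⟩ := hl2 r2 hr2
    obtain ⟨A1, B1, C1, D1⟩ := hlog r1 _ _ a1 b1
    obtain ⟨A2, B2, C2, D2⟩ := hlog r2 _ _ a2 b2
    set m1 := Nat.log 2 r1.s with hm1
    set m2 := Nat.log 2 r2.s with hm2
    have n1 : r1.n < r1.s := lt_of_le_of_lt (Nat.le_mul_of_pos_left _ hY) s1
    have n2 : r2.n < r2.s := lt_of_le_of_lt (Nat.le_mul_of_pos_left _ hY) s2
    have O1 : ObE v m1 r1.j K (prm r1.e) := ob1 r1 hr1 m1 K C1 (by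
      have : 2 ^ (m1 + 2) = 2 * 2 ^ (m1 + 1) := by ring
      omega)
    have O2 : ObE v m2 r2.j K (prm r1.e) := by
      rw [hpe]
      exact ob2 r2 hr2 m2 K C2 (by
        have : 2 ^ (m2 + 2) = 2 * 2 ^ (m2 + 1) := by ring
        omega)
    have e2q : 512 * h * (2 * q) = 1024 * (q * h) := by ring
    by_cases hnear1 : i1 ≤ 1 ∧ i2 ≤ 1
    · -- near the start
      apply hexc
      have hm : m1 < 1024 * a + 1 + 1024 * h := by
        have := monoI (i1 + 1) 2 (by omega)
        omega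
      have hj : r1.j ≤ a + 2 * h := by
        have : min (i1 + 1) q * h ≤ 2 * h := Nat.mul_le_mul_right _ (by omega)
        omega
      have hm0 : 1024 * a + 1 ≤ m1 := by omega
      have hj0 := (lev1 r1 hr1).1
      refine Exc.start (m1 - (1024 * a + 1)) (r1.j - a) (by omega) (by omega) ⟨prm r1.e, ?_⟩
      have ea : 1024 * a + 1 + (m1 - (1024 * a + 1)) = m1 := by omega
      have eb : a + (r1.j - a) = r1.j := by omega
      rw [ea, eb]
      exact O1
    by_cases hnear2 : 2 * q - 2 ≤ i1 ∧ 2 * q - 2 ≤ i2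
    · -- near the end
      apply hexc
      have hm : 1024 * a + 1 + 512 * h * (2 * q - 2) ≤ m1 := by
        have := monoI (2 * q - 2) i1 (by omega)
        omega
      have hm' : m1 < 1024 * a + 1 + 512 * h * (2 * q) := by
        have := monoI (i1 + 1) (2 * q) (by omega)
        omega
      have hj : r1.j = a + q * h := by
        have h3 : min i1 q = q := by omega
        have h4 := (lev1 r1 hr1).2
        rw [h3] at c1
        omega
      have e3 : 512 * h * (2 * q) = 512 * h * (2 * q - 2) + 1024 * h := by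
        have : 2 * q = (2 * q - 2) + 2 := by omega
        calc 512 * h * (2 * q) = 512 * h * ((2 * q - 2) + 2) := by rw [← this]
          _ = _ := by ring
      refine Exc.fin (m1 - (1024 * a + 1 + 512 * h * (2 * q - 2))) (by omega) ⟨prm r1.e, ?_⟩
      have ea : 1024 * a + 1 + 512 * h * (2 * q - 2) +
        (m1 - (1024 * a + 1 + 512 * h * (2 * q - 2))) = m1 := by omega
      rw [ea, ← hj]
      exact O1
    -- far
    have hfar : m1 + h ≤ m2 ∨ m2 + h ≤ m1 ∨ r1.j + h ≤ r2.j ∨ r2.j + h ≤ r1.j := by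
      by_cases hd1 : i1 + 2 ≤ i2
      · left
        have h3 := monoI (i1 + 2) i2 hd1
        have e4 : 512 * h * (i1 + 2) = 512 * h * (i1 + 1) + 512 * h := by ring
        omega
      by_cases hd2 : i2 + 2 ≤ i1
      · right; left
        have h3 := monoI (i2 + 2) i1 hd2
        have e4 : 512 * h * (i2 + 2) = 512 * h * (i2 + 1) + 512 * h := by ring
        omega
      right; right; right
      have key : (i2 + 1 - q) + 1 ≤ min i1 q := by omega
      have := Nat.mul_le_mul_right h key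
      have e5 : (i2 + 1 - q + 1) * h = (i2 + 1 - q) * h + h := by ring
      omega
    obtain ⟨m3, j3, f1, f2, f3, f4, f5⟩ := ob_far O1 O2 hfar
    apply hexc
    have g1 := (lev1 r1 hr1)
    have g2 := (lev2 r2 hr2)
    have hm1' : m1 < 1024 * a + 1 + 1024 * (q * h) := by
      have := monoI (i1 + 1) (2 * q) (by omega)
      omega
    have hm2' : m2 < 1024 * a + 1 + 1024 * (q * h) := by
      have := monoI (i2 + 1) (2 * q) (by omega)
      omega
    refine Exc.far (m3 - (1024 * a + 1)) (j3 - a) (by omega) (by omega) ⟨prm r1.e, ?_⟩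
    have ea : 1024 * a + 1 + (m3 - (1024 * a + 1)) = m3 := by omega
    have eb : a + (j3 - a) = j3 := by omega
    rw [ea, eb]
    exact f5
  · push Not at hall
    obtain ⟨r, hr, r', hr', s, s', hne⟩ := hall
    obtain ⟨A1, B1, C1, D1⟩ := hlog r _ _ (posu r hr).1 (posu r hr).2
    obtain ⟨A2, B2, C2, D2⟩ := hlog r' _ _ (posu r' hr').1 (posu r' hr').2
    set m1 := Nat.log 2 r.s with hm1
    set m2 := Nat.log 2 r'.s with hm2
    have O1 : ObE v m1 r.j Y (prm r.e) := obu r hr m1 Y C1 (by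
      have : 2 ^ (m1 + 2) = 2 * 2 ^ (m1 + 1) := by ring
      omega)
    have O2 : ObE v m2 r'.j Y (prm r'.e) := obu r' hr' m2 Y C2 (by
      have : 2 ^ (m2 + 2) = 2 * 2 ^ (m2 + 1) := by ring
      omega)
    apply hexc
    have g1 := levu r hr
    have g2 := levu r' hr'
    refine Exc.pair (m1 - (1024 * a + 1)) (r.j - a) (m2 - (1024 * a + 1)) (r'.j - a) (by omega)
      (by omega) (by omega) (by omega) ⟨prm r.e, prm r'.e, hne, ?_, ?_⟩
    · have ea : 1024 * a + 1 + (m1 - (1024 * a + 1)) = m1 := by omega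
      have eb : a + (r.j - a) = r.j := by omega
      rw [ea, eb]; exact O1
    · have ea : 1024 * a + 1 + (m2 - (1024 * a + 1)) = m2 := by omega
      have eb : a + (r'.j - a) = r'.j := by omega
      rw [ea, eb]; exact O2

end BAC
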