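import Pool.Agent.BAC.Block

namespace BAC

open scoped Classical in
theorem card_filter_exists_le {α ι : Type*} (V : Finset α) (s : Finset ι) (P : ι → α → Prop)
    (B : ℝ) (hB : ∀ i ∈ s, ((V.filter (P i)).card : ℝ) ≤ B) :
    ((V.filter (fun v => ∃ i ∈ s, P i v)).card : ℝ) ≤ s.card * B := by
  have h1 : V.filter (fun v => ∃ i ∈ s, P i v) ⊆ s.biUnion (fun i => V.filter (P i)) := by
    intro v hv
    rw [Finset.mem_filter] at hv
    obtain ⟨hv, i, hi, hp⟩ := hv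
    rw [Finset.mem_biUnion]
    exact ⟨i, hi, Finset.mem_filter.2 ⟨hv, hp⟩⟩
  have h2 := (Finset.card_le_card h1).trans Finset.card_biUnion_le
  calc ((V.filter (fun v => ∃ i ∈ s, P i v)).card : ℝ)
      ≤ ((∑ i ∈ s, (V.filter (P i)).card : ℕ) : ℝ) := by exact_mod_cast h2
    _ = ∑ i ∈ s, ((V.filter (P i)).card : ℝ) := by push_cast; rfl
    _ ≤ ∑ _i ∈ s, B := Finset.sum_le_sum hB
    _ = s.card * B := by simp

theorem mem_V {Z : ℕ} {v : ℕ × ℕ} (hv : v ∈ V Z) : 0 < v.1 ∧ 0 < v.2 ∧ Nat.Coprime v.1 v.2 ∧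
    Z < 2 * (v.1 + v.2) ∧ v.1 + v.2 ≤ Z := by
  unfold V at hv
  simp only [Finset.mem_filter, Finset.mem_product, Finset.mem_Icc] at hv
  obtain ⟨⟨⟨h1, _⟩, ⟨h2, _⟩⟩, h3, h4, h5⟩ := hv
  exact ⟨h1, h2, h3, h4, h5⟩

open scoped Classical in
theorem block_bound : ∃ C : ℕ, 1 ≤ C ∧ ∀ (Z a h q y : ℕ), 1 ≤ h → 3 ≤ q →
    2 ^ (1024 * (a + q * h) + C * (q * h)) ≤ Z → C * (q * h) ≤ y →
    (((V Z).filter (fun v => ¬ Reach v a (a + q * h) y)).card : ℝ) ≤
      C * (Z : ℝ) ^ 2 * (((q * h : ℕ) : ℝ) / 4 ^ h + ((q * h : ℕ) : ℝ) ^ 8 / (y : ℝ) ^ 2 +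
        ((q * h : ℕ) : ℝ) ^ 2 / ((y : ℝ) * 2 ^ (h / 2)) + (h : ℝ) ^ 2 / y) := by
  obtain ⟨C, hC⟩ : ∃ C : ℕ, C = 10 ^ 25 := ⟨_, rfl⟩
  have hC1 : 1000000 ≤ C := by rw [hC]; norm_num
  have hCR : (C : ℝ) = 10 ^ 25 := by rw [hC]; norm_num
  clear hC
  refine ⟨C, by omega, ?_⟩
  intro Z a h q y hh hq hZ hy
  obtain ⟨T, hT⟩ : ∃ T, T = q * h := ⟨_, rfl⟩
  rw [← hT] at hZ hy ⊢
  obtain ⟨W, hW⟩ : ∃ W, W = C * T := ⟨_, rfl⟩
  have hWT : 1000000 * T ≤ W := by rw [hW]; exact Nat.mul_le_mul_right _ hC1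
  rw [← hW] at hZ hy
  have hT1 : 3 ≤ T := by rw [hT]; nlinarith
  have hqT : q ≤ T := by rw [hT]; nlinarith
  have hhT : h ≤ T := by rw [hT]; nlinarith
  set Y := y / (8192 * T) with hYdef
  set K := y / 4 with hKdef
  have hpos : 0 < 8192 * T := by omega
  have hy' : 8192 * T ≤ y := by omega
  have hY1 : 1 ≤ Y := (Nat.one_le_div_iff hpos).2 hy'
  have hYle : Y * (8192 * T) ≤ y := Nat.div_mul_le_self y (8192 * T)
  have hKle : K * 4 ≤ y := Nat.div_mul_le_self y 4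
  have hK1 : 1 ≤ K := by
    rw [hKdef]; omega
  have hyR : (0 : ℝ) < y := by
    have : 0 < y := by omega
    exact_mod_cast this
  have hTR : (3 : ℝ) ≤ T := by exact_mod_cast hT1
  have hhR : (1 : ℝ) ≤ h := by exact_mod_cast hh
  have hhTR : (h : ℝ) ≤ T := by exact_mod_cast hhT
  have hqTR : (q : ℝ) ≤ T := by exact_mod_cast hqT
  have hZR : (0 : ℝ) ≤ (Z : ℝ) ^ 2 := by positivity
  -- real lower bounds for K and Y
  have hKR : (y : ℝ) / 8 ≤ K := by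
    have h1 : y ≤ 8 * K := by rw [hKdef]; omega
    have h2 : (y : ℝ) ≤ 8 * K := by exact_mod_cast h1
    linarith
  have hYR : (y : ℝ) / (16384 * T) ≤ Y := by
    have h1 : y < (Y + 1) * (8192 * T) := by
      rw [hYdef]
      have h3 := Nat.div_add_mod y (8192 * T)
      have h4 := Nat.mod_lt y hpos
      nlinarith
    have h2 : y ≤ Y * (16384 * T) := by nlinarith
    have h3 : (y : ℝ) ≤ Y * (16384 * T) := by exact_mod_cast h2
    rw [div_le_iff₀ (by positivity)]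
    exact h3
  have hpowZ : ∀ e : ℕ, e ≤ 1024 * a + 1024 * T + W → 2 ^ e ≤ Z := by
    intro e he
    refine le_trans (Nat.pow_le_pow_right (by norm_num) ?_) hZ
    omega
  -- climb events
  let P1 : ℕ → ℕ × ℕ → Prop := fun i v => ∃ F y, Can v (a + i * h) (1024 * a + 1 + 512 * h * i) F y ∧
      ¬ Climb F.c1 F.c2 y.1 y.2 h (2 ^ (1024 * a + 1 + 512 * h * i + 512 * h - 1))
  let P2 : ℕ → ℕ × ℕ → Prop := fun i v => ∃ F y, Can v (a + i * h)
      (1024 * a + 1 + 512 * h * (q + i)) F y ∧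
      ¬ Climb F.c1 F.c2 y.1 y.2 h (2 ^ (1024 * a + 1 + 512 * h * (q + i) + 512 * h - 1))
  let P3 : ℕ × ℕ → ℕ × ℕ → Prop := fun i v => ∃ ε, ObE v (1024 * a + 1 + i.1) (a + i.2) K ε
  let P4 : ℕ → ℕ × ℕ → Prop := fun i v => ∃ ε, ObE v (1024 * a + 1 + 512 * h * (2 * q - 2) + i)
    (a + T) K ε
  let P5 : ℕ × ℕ → ℕ × ℕ → Prop := fun i v => ∃ ε, ObE v (1024 * a + 1 + i.1) (a + i.2)
    (K * 2 ^ (h / 2)) ε
  let P6 : (ℕ × ℕ) × (ℕ × ℕ) → ℕ × ℕ → Prop := fun i v => ∃ ε ε', ε ≠ ε' ∧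
    ObE v (1024 * a + 1 + i.1.1) (a + i.1.2) Y ε ∧ ObE v (1024 * a + 1 + i.2.1) (a + i.2.2) Y ε'
  have e2q : 512 * h * (2 * q) = 1024 * T := by rw [hT]; ring
  have H1 : (((V Z).filter (fun v => ∃ i ∈ Finset.range q, P1 i v)).card : ℝ) ≤
      T * (128 * (Z : ℝ) ^ 2 / 4 ^ h) := by
    refine le_trans (card_filter_exists_le _ _ P1 (128 * (Z : ℝ) ^ 2 / 4 ^ h) ?_) ?_
    · intro i hi
      rw [Finset.mem_range] at hi
      apply climb_bad hh
      apply hpowZ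
      have : 512 * h * (i + 1) ≤ 512 * h * (2 * q) := Nat.mul_le_mul_left _ (by omega)
      rw [e2q] at this
      have e : 512 * h * (i + 1) = 512 * h * i + 512 * h := by ring
      omega
    · rw [Finset.card_range]
      exact mul_le_mul_of_nonneg_right hqTR (by positivity)
  have H2 : (((V Z).filter (fun v => ∃ i ∈ Finset.range q, P2 i v)).card : ℝ) ≤
      T * (128 * (Z : ℝ) ^ 2 / 4 ^ h) := by
    refine le_trans (card_filter_exists_le _ _ P2 (128 * (Z : ℝ) ^ 2 / 4 ^ h) ?_) ?_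
    · intro i hi
      rw [Finset.mem_range] at hi
      apply climb_bad hh
      apply hpowZ
      have : 512 * h * (q + i + 1) ≤ 512 * h * (2 * q) := Nat.mul_le_mul_left _ (by omega)
      rw [e2q] at this
      have e : 512 * h * (q + i + 1) = 512 * h * (q + i) + 512 * h := by ring
      omega
    · rw [Finset.card_range]
      exact mul_le_mul_of_nonneg_right hqTR (by positivity)
  have hKZ : Z ≤ K * Z := Nat.le_mul_of_pos_left _ hK1
  have hK0 : (0 : ℝ) < K := by exact_mod_cast hK1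
  have hbK : 64 * (Z : ℝ) ^ 2 / K ≤ 512 * (Z : ℝ) ^ 2 / y := by
    rw [div_le_div_iff₀ hK0 hyR]
    nlinarith
  have H3 : (((V Z).filter (fun v => ∃ i ∈ Finset.range (1024 * h) ×ˢ Finset.range (2 * h + 1),
      P3 i v)).card : ℝ) ≤ 3072 * (h : ℝ) ^ 2 * (512 * (Z : ℝ) ^ 2 / y) := by
    refine le_trans (card_filter_exists_le _ _ P3 (512 * (Z : ℝ) ^ 2 / y) ?_) ?_
    · intro i hi
      rw [Finset.mem_product, Finset.mem_range, Finset.mem_range] at hi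
      refine le_trans ?_ hbK
      rw [le_div_iff₀ hK0]
      apply first_moment hK1
      refine le_trans ?_ hKZ
      apply hpowZ
      have := Nat.mul_le_mul_left 1024 hhT
      omega
    · rw [Finset.card_product, Finset.card_range, Finset.card_range]
      refine mul_le_mul_of_nonneg_right ?_ (by positivity)
      push_cast
      nlinarith
  obtain ⟨h1024, hh1024⟩ : ∃ h' : ℕ, h' = 1024 * h := ⟨_, rfl⟩
  have H4 : (((V Z).filter (fun v => ∃ i ∈ Finset.range h1024,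
      P4 i v)).card : ℝ) ≤ 1024 * (h : ℝ) ^ 2 * (512 * (Z : ℝ) ^ 2 / y) := by
    refine le_trans (card_filter_exists_le _ _ P4 (512 * (Z : ℝ) ^ 2 / y) ?_) ?_
    · intro i hi
      rw [Finset.mem_range] at hi
      refine le_trans ?_ hbK
      rw [le_div_iff₀ hK0]
      apply first_moment hK1
      refine le_trans ?_ hKZ
      apply hpowZ
      have h5 := Nat.mul_le_mul_left 1024 hhT
      have : 512 * h * (2 * q - 2) ≤ 512 * h * (2 * q) := Nat.mul_le_mul_left _ (by omega)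
      rw [e2q] at this
      omega
    · rw [Finset.card_range, hh1024]
      refine mul_le_mul_of_nonneg_right ?_ (by positivity)
      push_cast
      nlinarith
  have h2h : (0 : ℝ) < 2 ^ (h / 2) := by positivity
  have H5 : (((V Z).filter (fun v => ∃ i ∈ Finset.range (1024 * T + h) ×ˢ Finset.range (T + 1),
      P5 i v)).card : ℝ) ≤ 2050 * (T : ℝ) ^ 2 * (512 * (Z : ℝ) ^ 2 / (y * 2 ^ (h / 2))) := by
    refine le_trans (card_filter_exists_le _ _ P5 (512 * (Z : ℝ) ^ 2 / (y * 2 ^ (h / 2))) ?_) ?_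
    · intro i hi
      rw [Finset.mem_product, Finset.mem_range, Finset.mem_range] at hi
      have hfm := first_moment (Z := Z) (m := 1024 * a + 1 + i.1) (j := a + i.2)
        (Y := K * 2 ^ (h / 2)) (Nat.mul_pos hK1 (by positivity)) (by
          have : Z ≤ K * 2 ^ (h / 2) * Z :=
            Nat.le_mul_of_pos_left _ (Nat.mul_pos hK1 (by positivity))
          refine le_trans ?_ this
          apply hpowZ
          omega)
      have e : 512 * (Z : ℝ) ^ 2 / (y * 2 ^ (h / 2)) = (512 * (Z : ℝ) ^ 2 / y) / 2 ^ (h / 2) := by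
        rw [div_div]
      rw [e, le_div_iff₀ h2h]
      refine le_trans ?_ hbK
      rw [le_div_iff₀ hK0]
      push_cast at hfm
      calc _ = (((V Z).filter (fun v => ∃ ε, ObE v (1024 * a + 1 + i.1) (a + i.2)
            (K * 2 ^ (h / 2)) ε)).card : ℝ) * (K * 2 ^ (h / 2)) := by ring
        _ ≤ _ := hfm
    · rw [Finset.card_product, Finset.card_range, Finset.card_range]
      refine mul_le_mul_of_nonneg_right ?_ (by positivity)
      push_cast
      nlinarith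
  have hY0 : (0 : ℝ) < Y := by exact_mod_cast hY1
  have H6 : (((V Z).filter (fun v => ∃ i ∈ (Finset.range (1024 * T) ×ˢ Finset.range (T + 1)) ×ˢ
      (Finset.range (1024 * T) ×ˢ Finset.range (T + 1)), P6 i v)).card : ℝ) ≤
      (2048 * (T : ℝ) ^ 2) ^ 2 *
        (2000 * (1028 * (T : ℝ)) ^ 2 * (Z : ℝ) ^ 2 * ((16384 * T) ^ 2 / (y : ℝ) ^ 2)) := by
    refine le_trans (card_filter_exists_le _ _ P6
      (2000 * (1028 * (T : ℝ)) ^ 2 * (Z : ℝ) ^ 2 * ((16384 * T) ^ 2 / (y : ℝ) ^ 2)) ?_) ?_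
    · intro i hi
      simp only [Finset.mem_product, Finset.mem_range] at hi
      obtain ⟨⟨i1, i2⟩, i3, i4⟩ := hi
      have hpc := pair_count (Z := Z) (m1 := 1024 * a + 1 + i.1.1) (j1 := a + i.1.2)
        (m2 := 1024 * a + 1 + i.2.1) (j2 := a + i.2.2) (Y := Y) (K := 1026 * T + 4) hY1 (by
          have e1 : 3 ^ ((a + i.1.2 - (a + i.2.2)) + (a + i.2.2 - (a + i.1.2))) ≤ 2 ^ (2 * T) := by
            calc 3 ^ ((a + i.1.2 - (a + i.2.2)) + (a + i.2.2 - (a + i.1.2))) ≤ 3 ^ T :=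
                  Nat.pow_le_pow_right (by norm_num) (by omega)
              _ ≤ 4 ^ T := Nat.pow_le_pow_left (by norm_num) T
              _ = 2 ^ (2 * T) := by rw [pow_mul]; norm_num
          have e2 : 2 ^ ((1024 * a + 1 + i.1.1 - (1024 * a + 1 + i.2.1)) +
              (1024 * a + 1 + i.2.1 - (1024 * a + 1 + i.1.1))) ≤ 2 ^ (1024 * T) :=
            Nat.pow_le_pow_right (by norm_num) (by omega)
          calc _ ≤ 16 * 2 ^ (2 * T) * 2 ^ (1024 * T) :=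
                Nat.mul_le_mul (Nat.mul_le_mul_left _ e1) e2
            _ = 2 ^ (1026 * T + 4) := by
                rw [show 1026 * T + 4 = 4 + 2 * T + 1024 * T by ring, pow_add, pow_add]
                norm_num)
        (by
          apply hpowZ
          have : max (1024 * a + 1 + i.1.1) (1024 * a + 1 + i.2.1) ≤ 1024 * a + 1 + 1024 * T := by
            apply max_le <;> omega
          omega)
      have hkk : ((1026 * T + 4 : ℕ) : ℝ) + 1 ≤ 1028 * T := by push_cast; linarith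
      have hYY : (1 : ℝ) ≤ (Y : ℝ) ^ 2 * ((16384 * T) ^ 2 / (y : ℝ) ^ 2) := by
        have h7 : 1 ≤ (Y : ℝ) * (16384 * T / y) := by
          have h8 : (y : ℝ) / (16384 * T) * (16384 * T / y) = 1 := by
            field_simp
          rw [← h8]
          exact mul_le_mul_of_nonneg_right hYR (by positivity)
        calc (1 : ℝ) ≤ ((Y : ℝ) * (16384 * T / y)) ^ 2 := one_le_pow₀ h7
          _ = _ := by rw [mul_pow, div_pow]
      have hc0 : (0 : ℝ) ≤ (((V Z).filter (fun v => P6 i v)).card : ℝ) := by positivity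
      calc (((V Z).filter (fun v => P6 i v)).card : ℝ) ≤
          (((V Z).filter (fun v => P6 i v)).card : ℝ) *
            ((Y : ℝ) ^ 2 * ((16384 * T) ^ 2 / (y : ℝ) ^ 2)) := le_mul_of_one_le_right hc0 hYY
        _ = ((((V Z).filter (fun v => P6 i v)).card : ℝ) * (Y : ℝ) ^ 2) *
            ((16384 * T) ^ 2 / (y : ℝ) ^ 2) := by ring
        _ ≤ (2000 * (((1026 * T + 4 : ℕ) : ℝ) + 1) ^ 2 * (Z : ℝ) ^ 2) *
            ((16384 * T) ^ 2 / (y : ℝ) ^ 2) :=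
              mul_le_mul_of_nonneg_right hpc (by positivity)
        _ ≤ _ := by
              refine mul_le_mul_of_nonneg_right ?_ (by positivity)
              refine mul_le_mul_of_nonneg_right ?_ (by positivity)
              refine mul_le_mul_of_nonneg_left ?_ (by norm_num)
              exact pow_le_pow_left₀ (by positivity) hkk 2
    · rw [Finset.card_product, Finset.card_product, Finset.card_range, Finset.card_range]
      refine mul_le_mul_of_nonneg_right ?_ (by positivity)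
      rw [← sq]
      push_cast
      refine pow_le_pow_left₀ (by positivity) ?_ 2
      nlinarith
  have hincl : (V Z).filter (fun v => ¬ Reach v a (a + T) y) ⊆
      (V Z).filter (fun v => ∃ i ∈ Finset.range q, P1 i v) ∪
      ((V Z).filter (fun v => ∃ i ∈ Finset.range q, P2 i v) ∪
      ((V Z).filter (fun v => ∃ i ∈ Finset.range (1024 * h) ×ˢ Finset.range (2 * h + 1), P3 i v) ∪
      ((V Z).filter (fun v => ∃ i ∈ Finset.range h1024, P4 i v) ∪
      ((V Z).filter (fun v => ∃ i ∈ Finset.range (1024 * T + h) ×ˢ Finset.range (T + 1), P5 i v) ∪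
      ((V Z).filter (fun v => ∃ i ∈ (Finset.range (1024 * T) ×ˢ Finset.range (T + 1)) ×ˢ
      (Finset.range (1024 * T) ×ˢ Finset.range (T + 1)), P6 i v)))))) := by
    intro v hv
    rw [Finset.mem_filter] at hv
    obtain ⟨hvV, hnr⟩ := hv
    obtain ⟨v1, v2, v3, v4, v5⟩ := mem_V hvV
    have hsz : 2 ^ (1024 * (a + q * h) + 1) ≤ v.1 + v.2 := by
      rw [← hT]
      have h7 : 2 ^ (1024 * (a + T) + 2) ≤ Z := hpowZ _ (by omega)
      have h8 : 2 ^ (1024 * (a + T) + 2) = 2 * 2 ^ (1024 * (a + T) + 1) := by ring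
      omega
    have hYK : Y * (1024 * (q * h)) + K + 2 * (q * h) ≤ y := by
      rw [← hT]
      have e1 : Y * (8192 * T) = 8 * (Y * (1024 * T)) := by ring
      omega
    have hx := exc_of_not_reach v3 v1 v2 hh hq hsz hY1 hYK (by rw [← hT]; exact hnr)
    simp only [Finset.mem_union, Finset.mem_filter]
    rcases hx with ⟨i, hi, hc⟩ | ⟨i, hi, hc⟩ | ⟨m, j, hm, hj, ho⟩ | ⟨m, hm, ho⟩ |
      ⟨m, j, hm, hj, ho⟩ | ⟨m, j, m', j', hm, hj, hm', hj', ho⟩
    · exact Or.inl ⟨hvV, i, Finset.mem_range.2 hi, hc⟩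
    · exact Or.inr (Or.inl ⟨hvV, i, Finset.mem_range.2 hi, hc⟩)
    · exact Or.inr (Or.inr (Or.inl ⟨hvV, (m, j), Finset.mem_product.2
        ⟨Finset.mem_range.2 hm, Finset.mem_range.2 hj⟩, ho⟩))
    · exact Or.inr (Or.inr (Or.inr (Or.inl ⟨hvV, m, Finset.mem_range.2 (by rw [hh1024]; exact hm), by
        rw [← hT] at ho; exact ho⟩)))
    · exact Or.inr (Or.inr (Or.inr (Or.inr (Or.inl ⟨hvV, (m, j), Finset.mem_product.2
        ⟨Finset.mem_range.2 (by rw [hT]; exact hm), Finset.mem_range.2 (by rw [hT]; exact hj)⟩,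
          ho⟩))))
    · exact Or.inr (Or.inr (Or.inr (Or.inr (Or.inr ⟨hvV, ((m, j), (m', j')),
        Finset.mem_product.2 ⟨Finset.mem_product.2
        ⟨Finset.mem_range.2 (by rw [hT]; exact hm), Finset.mem_range.2 (by rw [hT]; exact hj)⟩,
          Finset.mem_product.2
        ⟨Finset.mem_range.2 (by rw [hT]; exact hm'), Finset.mem_range.2 (by rw [hT]; exact hj')⟩⟩,
          ho⟩))))
  have hcard := (Finset.card_le_card hincl).trans (Finset.card_union_le _ _)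
  have hu2 := Finset.card_union_le ((V Z).filter (fun v => ∃ i ∈ Finset.range q, P2 i v))
      ((V Z).filter (fun v => ∃ i ∈ Finset.range (1024 * h) ×ˢ Finset.range (2 * h + 1), P3 i v) ∪
      ((V Z).filter (fun v => ∃ i ∈ Finset.range h1024, P4 i v) ∪
      ((V Z).filter (fun v => ∃ i ∈ Finset.range (1024 * T + h) ×ˢ Finset.range (T + 1), P5 i v) ∪
      ((V Z).filter (fun v => ∃ i ∈ (Finset.range (1024 * T) ×ˢ Finset.range (T + 1)) ×ˢ
      (Finset.range (1024 * T) ×ˢ Finset.range (T + 1)), P6 i v)))))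
  have hu3 := Finset.card_union_le
      ((V Z).filter (fun v => ∃ i ∈ Finset.range (1024 * h) ×ˢ Finset.range (2 * h + 1), P3 i v))
      ((V Z).filter (fun v => ∃ i ∈ Finset.range h1024, P4 i v) ∪
      ((V Z).filter (fun v => ∃ i ∈ Finset.range (1024 * T + h) ×ˢ Finset.range (T + 1), P5 i v) ∪
      ((V Z).filter (fun v => ∃ i ∈ (Finset.range (1024 * T) ×ˢ Finset.range (T + 1)) ×ˢ
      (Finset.range (1024 * T) ×ˢ Finset.range (T + 1)), P6 i v))))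
  have hu4 := Finset.card_union_le
      ((V Z).filter (fun v => ∃ i ∈ Finset.range h1024, P4 i v))
      ((V Z).filter (fun v => ∃ i ∈ Finset.range (1024 * T + h) ×ˢ Finset.range (T + 1), P5 i v) ∪
      ((V Z).filter (fun v => ∃ i ∈ (Finset.range (1024 * T) ×ˢ Finset.range (T + 1)) ×ˢ
      (Finset.range (1024 * T) ×ˢ Finset.range (T + 1)), P6 i v)))
  have hu5 := Finset.card_union_le
      ((V Z).filter (fun v => ∃ i ∈ Finset.range (1024 * T + h) ×ˢ Finset.range (T + 1), P5 i v))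
      ((V Z).filter (fun v => ∃ i ∈ (Finset.range (1024 * T) ×ˢ Finset.range (T + 1)) ×ˢ
      (Finset.range (1024 * T) ×ˢ Finset.range (T + 1)), P6 i v))
  have hsum : (((V Z).filter (fun v => ¬ Reach v a (a + T) y)).card : ℝ) ≤
      (((V Z).filter (fun v => ∃ i ∈ Finset.range q, P1 i v)).card : ℝ) +
      ((((V Z).filter (fun v => ∃ i ∈ Finset.range q, P2 i v)).card : ℝ) +
      ((((V Z).filter (fun v => ∃ i ∈ Finset.range (1024 * h) ×ˢ Finset.range (2 * h + 1),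
        P3 i v)).card : ℝ) +
      ((((V Z).filter (fun v => ∃ i ∈ Finset.range h1024, P4 i v)).card : ℝ) +
      ((((V Z).filter (fun v => ∃ i ∈ Finset.range (1024 * T + h) ×ˢ Finset.range (T + 1),
        P5 i v)).card : ℝ) +
      (((V Z).filter (fun v => ∃ i ∈ (Finset.range (1024 * T) ×ˢ Finset.range (T + 1)) ×ˢ
      (Finset.range (1024 * T) ×ˢ Finset.range (T + 1)), P6 i v)).card : ℝ))))) := by
    have := hcard.trans (Nat.add_le_add_left (hu2.trans (Nat.add_le_add_left (hu3.trans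
      (Nat.add_le_add_left (hu4.trans (Nat.add_le_add_left hu5 _)) _)) _)) _)
    exact_mod_cast this
  refine hsum.trans ?_
  have hfin : T * (128 * (Z : ℝ) ^ 2 / 4 ^ h) + (T * (128 * (Z : ℝ) ^ 2 / 4 ^ h) +
      (3072 * (h : ℝ) ^ 2 * (512 * (Z : ℝ) ^ 2 / y) +
      (1024 * (h : ℝ) ^ 2 * (512 * (Z : ℝ) ^ 2 / y) +
      (2050 * (T : ℝ) ^ 2 * (512 * (Z : ℝ) ^ 2 / (y * 2 ^ (h / 2))) +
      (2048 * (T : ℝ) ^ 2) ^ 2 *
        (2000 * (1028 * (T : ℝ)) ^ 2 * (Z : ℝ) ^ 2 * ((16384 * T) ^ 2 / (y : ℝ) ^ 2)))))) ≤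
      (C : ℝ) * (Z : ℝ) ^ 2 * ((T : ℝ) / 4 ^ h + (T : ℝ) ^ 8 / (y : ℝ) ^ 2 +
        (T : ℝ) ^ 2 / ((y : ℝ) * 2 ^ (h / 2)) + (h : ℝ) ^ 2 / y) := by
    have x1 : (0 : ℝ) ≤ (Z : ℝ) ^ 2 * ((T : ℝ) / 4 ^ h) := by positivity
    have x2 : (0 : ℝ) ≤ (Z : ℝ) ^ 2 * ((T : ℝ) ^ 8 / (y : ℝ) ^ 2) := by positivity
    have x3 : (0 : ℝ) ≤ (Z : ℝ) ^ 2 * ((T : ℝ) ^ 2 / ((y : ℝ) * 2 ^ (h / 2))) := by positivity
    have x4 : (0 : ℝ) ≤ (Z : ℝ) ^ 2 * ((h : ℝ) ^ 2 / y) := by positivity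
    have y1 : T * (128 * (Z : ℝ) ^ 2 / 4 ^ h) = 128 * ((Z : ℝ) ^ 2 * ((T : ℝ) / 4 ^ h)) := by ring
    have y2 : 3072 * (h : ℝ) ^ 2 * (512 * (Z : ℝ) ^ 2 / y) =
        (3072 * 512) * ((Z : ℝ) ^ 2 * ((h : ℝ) ^ 2 / y)) := by ring
    have y3 : 1024 * (h : ℝ) ^ 2 * (512 * (Z : ℝ) ^ 2 / y) =
        (1024 * 512) * ((Z : ℝ) ^ 2 * ((h : ℝ) ^ 2 / y)) := by ring
    have y4 : 2050 * (T : ℝ) ^ 2 * (512 * (Z : ℝ) ^ 2 / (y * 2 ^ (h / 2))) =
        (2050 * 512) * ((Z : ℝ) ^ 2 * ((T : ℝ) ^ 2 / ((y : ℝ) * 2 ^ (h / 2)))) := by ring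
    have y5 : (2048 * (T : ℝ) ^ 2) ^ 2 *
        (2000 * (1028 * (T : ℝ)) ^ 2 * (Z : ℝ) ^ 2 * ((16384 * T) ^ 2 / (y : ℝ) ^ 2)) =
        (2048 ^ 2 * 2000 * 1028 ^ 2 * 16384 ^ 2) * ((Z : ℝ) ^ 2 * ((T : ℝ) ^ 8 / (y : ℝ) ^ 2)) := by
      ring
    rw [y1, y2, y3, y4, y5, hCR]
    have z0 : (10 : ℝ) ^ 25 * (Z : ℝ) ^ 2 * ((T : ℝ) / 4 ^ h + (T : ℝ) ^ 8 / (y : ℝ) ^ 2 +
        (T : ℝ) ^ 2 / ((y : ℝ) * 2 ^ (h / 2)) + (h : ℝ) ^ 2 / y) =
        10 ^ 25 * ((Z : ℝ) ^ 2 * ((T : ℝ) / 4 ^ h)) +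
        10 ^ 25 * ((Z : ℝ) ^ 2 * ((T : ℝ) ^ 8 / (y : ℝ) ^ 2)) +
        10 ^ 25 * ((Z : ℝ) ^ 2 * ((T : ℝ) ^ 2 / ((y : ℝ) * 2 ^ (h / 2)))) +
        10 ^ 25 * ((Z : ℝ) ^ 2 * ((h : ℝ) ^ 2 / y)) := by ring
    rw [z0]
    have w1 : 256 * ((Z : ℝ) ^ 2 * ((T : ℝ) / 4 ^ h)) ≤
      10 ^ 25 * ((Z : ℝ) ^ 2 * ((T : ℝ) / 4 ^ h)) :=
      mul_le_mul_of_nonneg_right (by norm_num) x1
    have w2 : (2048 ^ 2 * 2000 * 1028 ^ 2 * 16384 ^ 2) *
        ((Z : ℝ) ^ 2 * ((T : ℝ) ^ 8 / (y : ℝ) ^ 2)) ≤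
        10 ^ 25 * ((Z : ℝ) ^ 2 * ((T : ℝ) ^ 8 / (y : ℝ) ^ 2)) :=
      mul_le_mul_of_nonneg_right (by norm_num) x2
    have w3 : (2050 * 512) * ((Z : ℝ) ^ 2 * ((T : ℝ) ^ 2 / ((y : ℝ) * 2 ^ (h / 2)))) ≤
        10 ^ 25 * ((Z : ℝ) ^ 2 * ((T : ℝ) ^ 2 / ((y : ℝ) * 2 ^ (h / 2)))) :=
      mul_le_mul_of_nonneg_right (by norm_num) x3
    have w4 : (3072 * 512 + 1024 * 512) * ((Z : ℝ) ^ 2 * ((h : ℝ) ^ 2 / y)) ≤
        10 ^ 25 * ((Z : ℝ) ^ 2 * ((h : ℝ) ^ 2 / y)) :=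
      mul_le_mul_of_nonneg_right (by norm_num) x4
    linarith
  refine le_trans ?_ hfin
  linarith

end BAC
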