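import Pool.Agent.BAC.Defs

namespace BAC

/-! ### Part A: chains and runs (task CHAIN) -/

section basics

theorem Has.L {v : ℕ × ℕ} {j : ℕ} {F : Fr} {y1 y2 : ℕ} (h : Has v j F (y1, y2)) (hy : y1 < y2) :
    Has v j F.L (y1, y2 - y1) := by
  obtain ⟨hd, h1, h2, e1, e2⟩ := h
  obtain ⟨k, rfl⟩ : ∃ k, y2 = y1 + k := ⟨y2 - y1, by omega⟩
  simp only [Nat.add_sub_cancel_left] at *
  refine ⟨?_, h1, by omega, ?_, ?_⟩
  · simp only [Fr.L]; linarith only [hd]
  · simp only [Fr.L]; rw [← e1]; ring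
  · simp only [Fr.L]; rw [← e2]; ring

theorem Has.R {v : ℕ × ℕ} {j : ℕ} {F : Fr} {y1 y2 : ℕ} (h : Has v j F (y1, y2)) (hy : y2 < y1) :
    Has v j F.R (y1 - y2, y2) := by
  obtain ⟨hd, h1, h2, e1, e2⟩ := h
  obtain ⟨k, rfl⟩ : ∃ k, y1 = y2 + k := ⟨y1 - y2, by omega⟩
  simp only [Nat.add_sub_cancel_left] at *
  refine ⟨?_, by omega, h2, ?_, ?_⟩
  · simp only [Fr.R]; linarith only [hd]
  · simp only [Fr.R]; rw [← e1]; ring
  · simp only [Fr.R]; rw [← e2]; ring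

theorem Has.X {v : ℕ × ℕ} {j : ℕ} {F : Fr} {z1 z2 : ℕ} (h : Has v j F (2 * z1 + z2, z1 + 2 * z2))
    (h1 : 0 < z1) (h2 : 0 < z2) : Has v (j + 1) F.X (z1, z2) := by
  obtain ⟨hd, -, -, e1, e2⟩ := h
  refine ⟨?_, h1, h2, ?_, ?_⟩
  · simp only [Fr.X]; rw [pow_succ]; linarith only [hd]
  · simp only [Fr.X]; rw [← e1]; ring
  · simp only [Fr.X]; rw [← e2]; ring

theorem Has.coprime {v : ℕ × ℕ} (hv : Nat.Coprime v.1 v.2) {j : ℕ} {F : Fr} {y : ℕ × ℕ}
    (h : Has v j F y) : Nat.Coprime y.1 y.2 := by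
  obtain ⟨hd, -, -, e1, e2⟩ := h
  have hg1 : Nat.gcd y.1 y.2 ∣ v.1 := by
    rw [← e1]
    exact dvd_add (Dvd.dvd.mul_left (Nat.gcd_dvd_left _ _) _)
      (Dvd.dvd.mul_left (Nat.gcd_dvd_right _ _) _)
  have hg2 : Nat.gcd y.1 y.2 ∣ v.2 := by
    rw [← e2]
    exact dvd_add (Dvd.dvd.mul_left (Nat.gcd_dvd_left _ _) _)
      (Dvd.dvd.mul_left (Nat.gcd_dvd_right _ _) _)
  exact Nat.dvd_one.1 (hv ▸ Nat.dvd_gcd hg1 hg2)

theorem Has.size {v : ℕ × ℕ} {j : ℕ} {F : Fr} {y : ℕ × ℕ}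
    (h : Has v j F y) : F.c1 * y.1 + F.c2 * y.2 = v.1 + v.2 := by
  obtain ⟨hd, -, -, e1, e2⟩ := h
  rw [← e1, ← e2]; simp only [Fr.c1, Fr.c2]; ring

theorem Has.c1_pos {v : ℕ × ℕ} {j : ℕ} {F : Fr} {y : ℕ × ℕ}
    (h : Has v j F y) : 0 < F.c1 := by
  obtain ⟨hd, -, -, e1, e2⟩ := h
  have h3 : 0 < 3 ^ j := by positivity
  have : 0 < F.a := by
    rcases Nat.eq_zero_or_pos F.a with h0 | h0
    · rw [h0, zero_mul] at hd; omega
    · exact h0
  simp only [Fr.c1]; omega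

theorem Has.c2_pos {v : ℕ × ℕ} {j : ℕ} {F : Fr} {y : ℕ × ℕ}
    (h : Has v j F y) : 0 < F.c2 := by
  obtain ⟨hd, -, -, e1, e2⟩ := h
  have h3 : 0 < 3 ^ j := by positivity
  have : 0 < F.d := by
    rcases Nat.eq_zero_or_pos F.d with h0 | h0
    · rw [h0, mul_zero] at hd; omega
    · exact h0
  simp only [Fr.c2]; omega

theorem Fr.c1_L (F : Fr) : F.L.c1 = F.c1 + F.c2 := by simp only [Fr.L, Fr.c1, Fr.c2]; ring
theorem Fr.c2_L (F : Fr) : F.L.c2 = F.c2 := by simp only [Fr.L, Fr.c2]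
theorem Fr.c1_R (F : Fr) : F.R.c1 = F.c1 := by simp only [Fr.R, Fr.c1]
theorem Fr.c2_R (F : Fr) : F.R.c2 = F.c1 + F.c2 := by simp only [Fr.R, Fr.c1, Fr.c2]; ring
theorem Fr.c1_X (F : Fr) : F.X.c1 = 2 * F.c1 + F.c2 := by simp only [Fr.X, Fr.c1, Fr.c2]; ring
theorem Fr.c2_X (F : Fr) : F.X.c2 = F.c1 + 2 * F.c2 := by simp only [Fr.X, Fr.c1, Fr.c2]; ring

/-- the lattice fact -/
theorem lattice_fact {v1 v2 a1 a2 b1 b2 D : ℤ} (hv : IsCoprime v1 v2)
    (ha : D ∣ a1 * v2 - a2 * v1) (hb : D ∣ b1 * v2 - b2 * v1) : D ∣ a1 * b2 - a2 * b1 := by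
  obtain ⟨u1, u2, hu⟩ := hv
  have key : a1 * b2 - a2 * b1 =
      (a1 * v2 - a2 * v1) * (u1 * b1 + u2 * b2) - (b1 * v2 - b2 * v1) * (u1 * a1 + u2 * a2) := by
    linear_combination (-(a1 * b2 - a2 * b1)) * hu
  rw [key]
  exact dvd_sub (Dvd.dvd.mul_right ha _) (Dvd.dvd.mul_right hb _)

end basics

theorem can_unique {v : ℕ × ℕ} (hv : Nat.Coprime v.1 v.2) {j m : ℕ} {F F' : Fr} {y y' : ℕ × ℕ}
    (h : Can v j m F y) (h' : Can v j m F' y') : F = F' ∧ y = y' := by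
  have hc1 := h.toHas.c1_pos
  have hc2 := h.toHas.c2_pos
  have hc1' := h'.toHas.c1_pos
  have hc2' := h'.toHas.c2_pos
  obtain ⟨⟨hd, hy1, hy2, e1, e2⟩, l1, l2, l3⟩ := h
  obtain ⟨⟨hd', hy1', hy2', e1', e2'⟩, l1', l2', l3'⟩ := h'
  obtain ⟨a, b, c, d⟩ := F
  obtain ⟨a', b', c', d'⟩ := F'
  obtain ⟨y1, y2⟩ := y
  obtain ⟨y1', y2'⟩ := y'
  obtain ⟨v1, v2⟩ := v
  simp only [Fr.c1, Fr.c2, Fr.sz] at *
  have hvc : IsCoprime (v1 : ℤ) (v2 : ℤ) := Nat.isCoprime_iff_coprime.2 hv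
  -- casts
  have Hd : (a : ℤ) * d = b * c + 3 ^ j := by exact_mod_cast hd
  have Hd' : (a' : ℤ) * d' = b' * c' + 3 ^ j := by exact_mod_cast hd'
  have E1 : (a : ℤ) * y1 + b * y2 = v1 := by exact_mod_cast e1
  have E2 : (c : ℤ) * y1 + d * y2 = v2 := by exact_mod_cast e2
  have E1' : (a' : ℤ) * y1' + b' * y2' = v1 := by exact_mod_cast e1'
  have E2' : (c' : ℤ) * y1' + d' * y2' = v2 := by exact_mod_cast e2'
  set D : ℤ := 3 ^ j with hD
  have hD0 : 0 < D := by positivity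
  have w1 : D ∣ (a : ℤ) * v2 - c * v1 := ⟨y2, by rw [← E1, ← E2]; linear_combination (y2 : ℤ) * Hd⟩
  have w2 : D ∣ (b : ℤ) * v2 - d * v1 := ⟨-y1, by rw [← E1, ← E2]; linear_combination (-y1 : ℤ) * Hd⟩
  have w1' : D ∣ (a' : ℤ) * v2 - c' * v1 :=
    ⟨y2', by rw [← E1', ← E2']; linear_combination (y2' : ℤ) * Hd'⟩
  have w2' : D ∣ (b' : ℤ) * v2 - d' * v1 :=
    ⟨-y1', by rw [← E1', ← E2']; linear_combination (-y1' : ℤ) * Hd'⟩
  obtain ⟨p, hp⟩ := lattice_fact hvc w1' w2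
  obtain ⟨r, hr⟩ := lattice_fact hvc w1 w1'
  obtain ⟨q, hq⟩ := lattice_fact hvc w2' w2
  obtain ⟨s, hs⟩ := lattice_fact hvc w1 w2'
  -- f1' = p f1 + r f2, f2' = q f1 + s f2
  have A1 : (a' : ℤ) = p * a + r * b := by
    apply mul_left_cancel₀ hD0.ne'
    linear_combination (-(a' : ℤ)) * Hd + (a : ℤ) * hp + (b : ℤ) * hr
  have A2 : (c' : ℤ) = p * c + r * d := by
    apply mul_left_cancel₀ hD0.ne'
    linear_combination (-(c' : ℤ)) * Hd + (c : ℤ) * hp + (d : ℤ) * hr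
  have A3 : (b' : ℤ) = q * a + s * b := by
    apply mul_left_cancel₀ hD0.ne'
    linear_combination (-(b' : ℤ)) * Hd + (a : ℤ) * hq + (b : ℤ) * hs
  have A4 : (d' : ℤ) = q * c + s * d := by
    apply mul_left_cancel₀ hD0.ne'
    linear_combination (-(d' : ℤ)) * Hd + (c : ℤ) * hq + (d : ℤ) * hs
  have det1 : p * s - q * r = 1 := by
    apply mul_left_cancel₀ hD0.ne'
    have := Hd'
    rw [A1, A2, A3, A4] at this
    linear_combination this - (p * s - q * r) * Hd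
  have B1 : (y1 : ℤ) = p * y1' + q * y2' := by
    apply mul_left_cancel₀ hD0.ne'
    have h1 : (v1 : ℤ) * d - v2 * b = D * y1 := by rw [← E1, ← E2]; linear_combination (y1 : ℤ) * Hd
    rw [← h1, ← E1', ← E2']
    linear_combination (y1' : ℤ) * hp + (y2' : ℤ) * hq
  have B2 : (y2 : ℤ) = r * y1' + s * y2' := by
    apply mul_left_cancel₀ hD0.ne'
    have h1 : (a : ℤ) * v2 - c * v1 = D * y2 := by rw [← E1, ← E2]; linear_combination (y2 : ℤ) * Hd
    rw [← h1, ← E1', ← E2']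
    linear_combination (y1' : ℤ) * hr + (y2' : ℤ) * hs
  have B1' : (y1' : ℤ) = s * y1 - q * y2 := by
    rw [B1, B2]; linear_combination (-(y1' : ℤ)) * det1
  have B2' : (y2' : ℤ) = - r * y1 + p * y2 := by
    rw [B1, B2]; linear_combination (-(y2' : ℤ)) * det1
  have A1' : (a : ℤ) = s * a' - r * b' := by
    rw [A1, A3]; linear_combination (-(a : ℤ)) * det1
  have A2' : (c : ℤ) = s * c' - r * d' := by
    rw [A2, A4]; linear_combination (-(c : ℤ)) * det1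
  have A3' : (b : ℤ) = - q * a' + p * b' := by
    rw [A1, A3]; linear_combination (-(b : ℤ)) * det1
  have A4' : (d : ℤ) = - q * c' + p * d' := by
    rw [A2, A4]; linear_combination (-(d : ℤ)) * det1
  have Y1 : (0 : ℤ) < y1 := by exact_mod_cast hy1
  have Y2 : (0 : ℤ) < y2 := by exact_mod_cast hy2
  have Y1' : (0 : ℤ) < y1' := by exact_mod_cast hy1'
  have Y2' : (0 : ℤ) < y2' := by exact_mod_cast hy2'
  have C1 : (0 : ℤ) < a + c := by exact_mod_cast hc1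
  have C2 : (0 : ℤ) < b + d := by exact_mod_cast hc2
  have C1' : (0 : ℤ) < a' + c' := by exact_mod_cast hc1'
  have C2' : (0 : ℤ) < b' + d' := by exact_mod_cast hc2'
  have K1 : (a' : ℤ) + c' = p * (a + c) + r * (b + d) := by rw [A1, A2]; ring
  have K2 : (b' : ℤ) + d' = q * (a + c) + s * (b + d) := by rw [A3, A4]; ring
  have K1' : (a : ℤ) + c = s * (a' + c') - r * (b' + d') := by
    linear_combination A1' + A2'
  have K2' : (b : ℤ) + d = - q * (a' + c') + p * (b' + d') := by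
    linear_combination A3' + A4'
  have L1 : (a : ℤ) + c < 2 ^ m := by exact_mod_cast l1
  have L2 : (b : ℤ) + d < 2 ^ m := by exact_mod_cast l2
  have L3 : (2 : ℤ) ^ m ≤ (a + c) + (b + d) := by exact_mod_cast l3
  have L1' : (a' : ℤ) + c' < 2 ^ m := by exact_mod_cast l1'
  have L2' : (b' : ℤ) + d' < 2 ^ m := by exact_mod_cast l2'
  have L3' : (2 : ℤ) ^ m ≤ (a' + c') + (b' + d') := by exact_mod_cast l3'
  -- p > 0
  have hp0 : 0 < p := by
    by_contra hcon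
    have hcon := not_lt.1 hcon
    rcases le_or_gt r 0 with hr0 | hr0
    · have t1 := mul_nonpos_of_nonpos_of_nonneg hcon C1.le
      have t2 := mul_nonpos_of_nonpos_of_nonneg hr0 C2.le
      linarith only [t1, t2, K1, C1']
    · have t1 := mul_nonpos_of_nonpos_of_nonneg hcon Y2.le
      have t2 := mul_pos hr0 Y1
      linarith only [t1, t2, B2', Y2']
  have hs0 : 0 < s := by
    by_contra hcon
    have hcon := not_lt.1 hcon
    rcases le_or_gt q 0 with hq0 | hq0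
    · have t1 := mul_nonpos_of_nonpos_of_nonneg hcon C2.le
      have t2 := mul_nonpos_of_nonpos_of_nonneg hq0 C1.le
      linarith only [t1, t2, K2, C2']
    · have t1 := mul_nonpos_of_nonpos_of_nonneg hcon Y1.le
      have t2 := mul_pos hq0 Y2
      linarith only [t1, t2, B1', Y1']
  have hps : 1 ≤ p * s := by
    have := mul_pos hp0 hs0
    linarith only [this]
  have hqr : 0 ≤ q * r := by linarith only [hps, det1]
  have hp1 : 1 ≤ p := hp0
  have hs1 : 1 ≤ s := hs0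
  have key1 : ∀ x y z w : ℤ, 1 ≤ x → 1 ≤ y → 0 < z → 0 < w → z + w ≤ x * z + y * w := by
    intro x y z w hx hy hz hw
    have t1 := mul_le_mul_of_nonneg_right hx hz.le
    have t2 := mul_le_mul_of_nonneg_right hy hw.le
    linarith only [t1, t2]
  have hfin : q = 0 ∧ r = 0 := by
    rcases lt_trichotomy q 0 with hq0 | hq0 | hq0
    · -- q < 0, r ≤ 0
      exfalso
      have := key1 (-q) p _ _ (by omega) hp1 C1' C2'
      linarith only [this, K2', L2, L3']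
    · refine ⟨hq0, ?_⟩
      rcases lt_trichotomy r 0 with hr0 | hr0 | hr0
      · exfalso
        have := key1 s (-r) _ _ hs1 (by omega) C1' C2'
        linarith only [this, K1', L1, L3']
      · exact hr0
      · exfalso
        have := key1 p r _ _ hp1 hr0 C1 C2
        linarith only [this, K1, L1', L3]
    · exfalso
      have := key1 q s _ _ hq0 hs1 C1 C2
      linarith only [this, K2, L2', L3]
  obtain ⟨hq0, hr0⟩ := hfin
  subst hq0 hr0
  have hps1 : p * s = 1 := by linarith only [det1]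
  have hp1 : p = 1 := by nlinarith only [hps1, hp1, hs1]
  have hs1 : s = 1 := by nlinarith only [hps1, hp1, hs1]
  subst hp1 hs1
  simp only [one_mul, zero_mul, add_zero, zero_add] at A1 A2 A3 A4 B1 B2
  have r1 : a = a' := by exact_mod_cast A1.symm
  have r2 : c = c' := by exact_mod_cast A2.symm
  have r3 : b = b' := by exact_mod_cast A3.symm
  have r4 : d = d' := by exact_mod_cast A4.symm
  have r5 : y1 = y1' := by exact_mod_cast B1
  have r6 : y2 = y2' := by exact_mod_cast B2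
  subst r1 r2 r3 r4 r5 r6
  exact ⟨rfl, rfl⟩

/-- follow `v` by `L`, `R` until the size is at least `2 ^ m` -/
theorem run_to {v : ℕ × ℕ} (hv : Nat.Coprime v.1 v.2) {m : ℕ} (hm : 2 ^ m ≤ v.1 + v.2)
    (N : ℕ) : ∀ {j : ℕ} {F : Fr} {y : ℕ × ℕ}, y.1 + y.2 ≤ N → Has v j F y → F.c1 < 2 ^ m →
    F.c2 < 2 ^ m →
    ∃ F' y' l, Can v j m F' y' ∧ Run F j y l F' j y' ∧
      ∀ r ∈ l, F.sz ≤ r.s ∧ r.s < 2 ^ m ∧ r.j = j := by
  induction N with
  | zero =>
    intro j F y hN hH h1 h2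
    have := hH.pos1
    omega
  | succ N ih =>
    intro j F y hN hH h1 h2
    obtain ⟨y1, y2⟩ := y
    rcases le_or_gt (2 ^ m) F.sz with hle | hlt
    · exact ⟨F, (y1, y2), [], ⟨hH, h1, h2, hle⟩, Run.nil _ _ _, by simp⟩
    · have hy1 : 0 < y1 := hH.pos1
      have hy2 : 0 < y2 := hH.pos2
      simp only at hN
      rcases lt_trichotomy y1 y2 with hy | hy | hy
      · have h1' : F.L.c1 < 2 ^ m := by rw [Fr.c1_L]; exact hlt
        have h2' : F.L.c2 < 2 ^ m := by rw [Fr.c2_L]; exact h2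
        have hN' : (y1, y2 - y1).1 + (y1, y2 - y1).2 ≤ N := by simp only; omega
        obtain ⟨F', y', l, hc, hr, hl⟩ := ih hN' (hH.L hy) h1' h2'
        refine ⟨F', y', _, hc, Run.stepL hy hr, ?_⟩
        intro r hr'
        rw [List.mem_cons] at hr'
        rcases hr' with rfl | hr'
        · exact ⟨le_refl _, hlt, rfl⟩
        · obtain ⟨g1, g2, g3⟩ := hl r hr'
          refine ⟨le_trans ?_ g1, g2, g3⟩
          simp only [Fr.sz, Fr.c1_L, Fr.c2_L]; omega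
      · exfalso
        have hco := hH.coprime hv
        simp only at hco
        subst hy
        rw [Nat.coprime_self] at hco
        subst hco
        have := hH.size
        simp only [mul_one] at this
        simp only [Fr.sz] at hlt
        omega
      · have h1' : F.R.c1 < 2 ^ m := by rw [Fr.c1_R]; exact h1
        have h2' : F.R.c2 < 2 ^ m := by rw [Fr.c2_R]; exact hlt
        have hN' : (y1 - y2, y2).1 + (y1 - y2, y2).2 ≤ N := by simp only; omega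
        obtain ⟨F', y', l, hc, hr, hl⟩ := ih hN' (hH.R hy) h1' h2'
        refine ⟨F', y', _, hc, Run.stepR hy hr, ?_⟩
        intro r hr'
        rw [List.mem_cons] at hr'
        rcases hr' with rfl | hr'
        · exact ⟨le_refl _, hlt, rfl⟩
        · obtain ⟨g1, g2, g3⟩ := hl r hr'
          refine ⟨le_trans ?_ g1, g2, g3⟩
          simp only [Fr.sz, Fr.c1_R, Fr.c2_R]; omega

/-- root frames -/
theorem root_frame {v : ℕ × ℕ} (hv : Nat.Coprime v.1 v.2) (h1 : 0 < v.1) (h2 : 0 < v.2) (j : ℕ) :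
    4 * 5 ^ j ≤ v.1 + v.2 → ∃ F y, Has v j F y ∧ F.sz ≤ 2 * 5 ^ j := by
  induction j with
  | zero =>
    intro _
    refine ⟨Fr.one, v, ⟨by simp [Fr.one], h1, h2, by simp [Fr.one], by simp [Fr.one]⟩, ?_⟩
    simp [Fr.one, Fr.sz, Fr.c1, Fr.c2]
  | succ j ih =>
    intro hj
    have hj' : 4 * 5 ^ j ≤ v.1 + v.2 := le_trans (by rw [pow_succ]; omega) hj
    obtain ⟨F, y, hF, hsz⟩ := ih hj'
    have hco := hF.coprime hv
    have hsize := hF.size
    have hc1 := hF.c1_pos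
    have hc2 := hF.c2_pos
    obtain ⟨y1, y2⟩ := y
    obtain ⟨hd, hy1, hy2, e1, e2⟩ := hF
    simp only at hco hsize hy1 hy2 e1 e2
    have hpow : 5 ^ (j + 1) = 5 * 5 ^ j := by rw [pow_succ]; ring
    have h5 : 0 < 5 ^ j := by positivity
    rw [hpow] at hj
    have hbig : 2 * F.sz < v.1 + v.2 := by omega
    rw [hpow]
    have h3 : (3 : ℕ) ^ (j + 1) = 3 * 3 ^ j := by rw [pow_succ]; ring
    obtain ⟨a, b, c, d⟩ := F
    simp only [Fr.sz, Fr.c1, Fr.c2] at *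
    -- equalities impossible
    have hne : y1 ≠ y2 := by
      rintro rfl
      rw [Nat.coprime_self] at hco
      subst hco
      omega
    have hne2 : y1 ≠ 2 * y2 := by
      rintro rfl
      have : y2 = 1 := by
        have : Nat.gcd (2 * y2) y2 = y2 := Nat.gcd_mul_left_left _ _
        rw [Nat.Coprime, this] at hco
        exact hco
      subst this
      omega
    have hne3 : y2 ≠ 2 * y1 := by
      rintro rfl
      have : y1 = 1 := by
        have : Nat.gcd y1 (2 * y1) = y1 := Nat.gcd_mul_left_right _ _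
        rw [Nat.Coprime, this] at hco
        exact hco
      subst this
      omega
    by_cases k1 : y1 % 3 = 0
    · obtain ⟨t, rfl⟩ : ∃ t, y1 = 3 * t := ⟨y1 / 3, by omega⟩
      refine ⟨⟨3 * a, b, 3 * c, d⟩, (t, y2), ⟨?_, by simp only; omega, hy2, ?_, ?_⟩, ?_⟩
      · simp only [h3]; linarith only [hd]
      · simp only; rw [← e1]; ring
      · simp only; rw [← e2]; ring
      · simp only; omega
    by_cases k2 : y2 % 3 = 0
    · obtain ⟨t, rfl⟩ : ∃ t, y2 = 3 * t := ⟨y2 / 3, by omega⟩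
      refine ⟨⟨a, 3 * b, c, 3 * d⟩, (y1, t), ⟨?_, hy1, by simp only; omega, ?_, ?_⟩, ?_⟩
      · simp only [h3]; linarith only [hd]
      · simp only; rw [← e1]; ring
      · simp only; rw [← e2]; ring
      · simp only; omega
    by_cases k3 : y1 % 3 = y2 % 3
    · rcases lt_or_gt_of_ne hne with hlt | hlt
      · -- y1 < y2
        obtain ⟨t, rfl⟩ : ∃ t, y2 = y1 + 3 * t := ⟨(y2 - y1) / 3, by omega⟩
        refine ⟨⟨a + b, 3 * b, c + d, 3 * d⟩, (y1, t), ⟨?_, hy1, by simp only; omega, ?_, ?_⟩, ?_⟩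
        · simp only [h3]; linarith only [hd]
        · simp only; rw [← e1]; ring
        · simp only; rw [← e2]; ring
        · simp only; omega
      · obtain ⟨t, rfl⟩ : ∃ t, y1 = y2 + 3 * t := ⟨(y1 - y2) / 3, by omega⟩
        refine ⟨⟨3 * a, a + b, 3 * c, c + d⟩, (t, y2), ⟨?_, by simp only; omega, hy2, ?_, ?_⟩, ?_⟩
        · simp only [h3]; linarith only [hd]
        · simp only; rw [← e1]; ring
        · simp only; rw [← e2]; ring
        · simp only; omega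
    · -- y1 + y2 ≡ 0
      have hsum : (y1 + y2) % 3 = 0 := by omega
      rcases lt_or_gt_of_ne hne2 with hlt | hlt
      · -- y1 < 2 y2
        rcases lt_or_gt_of_ne hne3 with hlt' | hlt'
        · -- y2 < 2 y1 : X
          obtain ⟨z1, hz1⟩ : ∃ z1, 2 * y1 = y2 + 3 * z1 := ⟨(2 * y1 - y2) / 3, by omega⟩
          obtain ⟨z2, hz2⟩ : ∃ z2, 2 * y2 = y1 + 3 * z2 := ⟨(2 * y2 - y1) / 3, by omega⟩
          have ha : y1 = 2 * z1 + z2 := by omega
          have hb : y2 = z1 + 2 * z2 := by omega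
          subst ha hb
          refine ⟨⟨2 * a + b, a + 2 * b, 2 * c + d, c + 2 * d⟩, (z1, z2),
            ⟨?_, by simp only; omega, by simp only; omega, ?_, ?_⟩, ?_⟩
          · simp only [h3]; linarith only [hd]
          · simp only; rw [← e1]; ring
          · simp only; rw [← e2]; ring
          · simp only; omega
        · -- y2 > 2 y1
          obtain ⟨t, rfl⟩ : ∃ t, y2 = 2 * y1 + 3 * t := ⟨(y2 - 2 * y1) / 3, by omega⟩
          refine ⟨⟨a + 2 * b, 3 * b, c + 2 * d, 3 * d⟩, (y1, t),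
            ⟨?_, hy1, by simp only; omega, ?_, ?_⟩, ?_⟩
          · simp only [h3]; linarith only [hd]
          · simp only; rw [← e1]; ring
          · simp only; rw [← e2]; ring
          · simp only; omega
      · obtain ⟨t, rfl⟩ : ∃ t, y1 = 2 * y2 + 3 * t := ⟨(y1 - 2 * y2) / 3, by omega⟩
        refine ⟨⟨3 * a, 2 * a + b, 3 * c, 2 * c + d⟩, (t, y2),
          ⟨?_, by simp only; omega, hy2, ?_, ?_⟩, ?_⟩
        · simp only [h3]; linarith only [hd]
        · simp only; rw [← e1]; ring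
        · simp only; rw [← e2]; ring
        · simp only; omega

theorem can_exists {v : ℕ × ℕ} (hv : Nat.Coprime v.1 v.2) (h1 : 0 < v.1) (h2 : 0 < v.2)
    {j m : ℕ} (hj : 2 * 5 ^ j ≤ 2 ^ m) (hm : 2 ^ (m + 1) ≤ v.1 + v.2) :
    ∃ F y, Can v j m F y := by
  have hp : (2 : ℕ) ^ (m + 1) = 2 * 2 ^ m := by rw [pow_succ]; ring
  rw [hp] at hm
  obtain ⟨F, y, hF, hsz⟩ := root_frame hv h1 h2 j (by omega)
  have hc1 := hF.c1_pos
  have hc2 := hF.c2_pos
  have hsz' : F.c1 + F.c2 ≤ 2 * 5 ^ j := hsz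
  obtain ⟨F', y', l, hc, -, -⟩ := run_to hv (m := m) (by omega) (y.1 + y.2) (le_refl _) hF
    (by omega) (by omega)
  exact ⟨F', y', hc⟩

theorem Climb.le {c1 c2 y1 y2 h S : ℕ} (hc : Climb c1 c2 y1 y2 h S) : c1 + c2 ≤ S := by
  induction hc with
  | done h => exact h
  | l _ _ ih => omega
  | r _ _ ih => omega
  | x _ _ _ ih => omega

theorem run_of_climb_aux {v : ℕ × ℕ} (hv : Nat.Coprime v.1 v.2) {m' : ℕ}
    (hv' : 2 ^ m' ≤ v.1 + v.2) {c1 c2 y1 y2 h S : ℕ} (hc : Climb c1 c2 y1 y2 h S) :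
    ∀ {j : ℕ} {F : Fr}, Has v j F (y1, y2) → F.c1 = c1 → F.c2 = c2 → S < 2 ^ m' →
    ∃ F' y' l, Can v (j + h) m' F' y' ∧ Run F j (y1, y2) l F' (j + h) y' ∧
      ∀ r ∈ l, F.sz ≤ r.s ∧ r.s < 2 ^ m' ∧ j ≤ r.j ∧ r.j ≤ j + h := by
  induction hc with
  | @done c1 c2 y1 y2 S h =>
    intro j F hF e1 e2 hS
    obtain ⟨F', y', l, hc, hr, hl⟩ := run_to hv hv' (y1 + y2) (le_refl _) hF
      (by omega) (by omega)
    refine ⟨F', y', l, by simpa using hc, by simpa using hr, ?_⟩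
    intro r hr'
    obtain ⟨g1, g2, g3⟩ := hl r hr'
    exact ⟨g1, g2, by omega, by omega⟩
  | @l c1 c2 y1 y2 h S hy hc ih =>
    intro j F hF e1 e2 hS
    have hle := hc.le
    obtain ⟨F', y', l, hc', hr, hl⟩ := ih (hF.L hy) (by rw [Fr.c1_L, e1, e2])
      (by rw [Fr.c2_L, e2]) hS
    refine ⟨F', y', _, hc', Run.stepL hy hr, ?_⟩
    intro r hr'
    rw [List.mem_cons] at hr'
    rcases hr' with rfl | hr'
    · refine ⟨le_refl _, ?_, le_refl _, by simp only; omega⟩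
      simp only [Fr.sz]; omega
    · obtain ⟨g1, g2, g3, g4⟩ := hl r hr'
      refine ⟨le_trans ?_ g1, g2, g3, g4⟩
      simp only [Fr.sz, Fr.c1_L, Fr.c2_L]; omega
  | @r c1 c2 y1 y2 h S hy hc ih =>
    intro j F hF e1 e2 hS
    have hle := hc.le
    obtain ⟨F', y', l, hc', hr, hl⟩ := ih (hF.R hy) (by rw [Fr.c1_R, e1])
      (by rw [Fr.c2_R, e1, e2]) hS
    refine ⟨F', y', _, hc', Run.stepR hy hr, ?_⟩
    intro r hr'
    rw [List.mem_cons] at hr'
    rcases hr' with rfl | hr'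
    · refine ⟨le_refl _, ?_, le_refl _, by simp only; omega⟩
      simp only [Fr.sz]; omega
    · obtain ⟨g1, g2, g3, g4⟩ := hl r hr'
      refine ⟨le_trans ?_ g1, g2, g3, g4⟩
      simp only [Fr.sz, Fr.c1_R, Fr.c2_R]; omega
  | @x c1 c2 z1 z2 h S h1 h2 hc ih =>
    intro j F hF e1 e2 hS
    obtain ⟨F', y', l, hc', hr, hl⟩ := ih (hF.X h1 h2) (by rw [Fr.c1_X, e1, e2])
      (by rw [Fr.c2_X, e1, e2]) hS
    have hj : j + 1 + h = j + (h + 1) := by omega
    rw [hj] at hc' hr hl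
    refine ⟨F', y', _, hc', Run.stepX h1 h2 hr, ?_⟩
    intro r hr'
    obtain ⟨g1, g2, g3, g4⟩ := hl r hr'
    refine ⟨le_trans ?_ g1, g2, by omega, g4⟩
    simp only [Fr.sz, Fr.c1_X, Fr.c2_X]; omega

theorem run_of_climb {v : ℕ × ℕ} (hv : Nat.Coprime v.1 v.2) {j m m' h S : ℕ} {F : Fr}
    {y : ℕ × ℕ} (hF : Can v j m F y) (hmm : m ≤ m') (hc : Climb F.c1 F.c2 y.1 y.2 h S)
    (hS : S < 2 ^ m') (hv' : 2 ^ m' ≤ v.1 + v.2) :
    ∃ F' y' l, Can v (j + h) m' F' y' ∧ Run F j y l F' (j + h) y' ∧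
      ∀ r ∈ l, 2 ^ m ≤ r.s ∧ r.s < 2 ^ m' ∧ j ≤ r.j ∧ r.j ≤ j + h := by
  obtain ⟨F', y', l, h1, h2, h3⟩ := run_of_climb_aux hv hv' hc (j := j) (F := F) hF.toHas rfl rfl hS
  refine ⟨F', y', l, h1, h2, ?_⟩
  intro r hr
  obtain ⟨g1, g2, g3, g4⟩ := h3 r hr
  exact ⟨le_trans hF.le g1, g2, g3, g4⟩

theorem run_horiz {v : ℕ × ℕ} (hv : Nat.Coprime v.1 v.2) {j m m' : ℕ} {F : Fr}
    {y : ℕ × ℕ} (hF : Can v j m F y) (hmm : m ≤ m') (hv' : 2 ^ m' ≤ v.1 + v.2) :
    ∃ F' y' l, Can v j m' F' y' ∧ Run F j y l F' j y' ∧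
      ∀ r ∈ l, 2 ^ m ≤ r.s ∧ r.s < 2 ^ m' ∧ r.j = j := by
  have hpow : (2 : ℕ) ^ m ≤ 2 ^ m' := Nat.pow_le_pow_right (by norm_num) hmm
  obtain ⟨F', y', l, h1, h2, h3⟩ := run_to hv hv' (y.1 + y.2) (le_refl _) hF.toHas
    (lt_of_lt_of_le hF.lt1 hpow) (lt_of_lt_of_le hF.lt2 hpow)
  refine ⟨F', y', l, h1, h2, ?_⟩
  intro r hr
  obtain ⟨g1, g2, g3⟩ := h3 r hr
  exact ⟨le_trans hF.le g1, g2, g3⟩

theorem run_final_aux {v : ℕ × ℕ} (hv : Nat.Coprime v.1 v.2) (N : ℕ) :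
    ∀ {j : ℕ} {F : Fr} {y : ℕ × ℕ}, y.1 + y.2 ≤ N → Has v j F y →
    ∃ F' l, Run F j y l F' j (1, 1) ∧ ∀ r ∈ l, F.sz ≤ r.s ∧ r.s < v.1 + v.2 ∧ r.j = j := by
  induction N with
  | zero =>
    intro j F y hN hH
    have := hH.pos1
    omega
  | succ N ih =>
    intro j F y hN hH
    obtain ⟨y1, y2⟩ := y
    have hy1 : 0 < y1 := hH.pos1
    have hy2 : 0 < y2 := hH.pos2
    have hsize := hH.size
    have hc1 := hH.c1_pos
    have hc2 := hH.c2_pos
    simp only at hN hsize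
    rcases lt_trichotomy y1 y2 with hy | hy | hy
    · have hlt : F.sz < v.1 + v.2 := by
        rw [← hsize]
        simp only [Fr.sz]
        have a1 : F.c1 ≤ F.c1 * y1 := Nat.le_mul_of_pos_right _ hy1
        have a2 : F.c2 * 2 ≤ F.c2 * y2 := Nat.mul_le_mul_left _ (by omega)
        omega
      have hN' : (y1, y2 - y1).1 + (y1, y2 - y1).2 ≤ N := by simp only; omega
      obtain ⟨F', l, hr, hl⟩ := ih hN' (hH.L hy)
      refine ⟨F', _, Run.stepL hy hr, ?_⟩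
      intro r hr'
      rw [List.mem_cons] at hr'
      rcases hr' with rfl | hr'
      · exact ⟨le_refl _, hlt, rfl⟩
      · obtain ⟨g1, g2, g3⟩ := hl r hr'
        refine ⟨le_trans ?_ g1, g2, g3⟩
        simp only [Fr.sz, Fr.c1_L, Fr.c2_L]; omega
    · have hco := hH.coprime hv
      simp only at hco
      subst hy
      rw [Nat.coprime_self] at hco
      subst hco
      exact ⟨F, [], Run.nil _ _ _, by simp⟩
    · have hlt : F.sz < v.1 + v.2 := by
        rw [← hsize]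
        simp only [Fr.sz]
        have a1 : F.c2 ≤ F.c2 * y2 := Nat.le_mul_of_pos_right _ hy2
        have a2 : F.c1 * 2 ≤ F.c1 * y1 := Nat.mul_le_mul_left _ (by omega)
        omega
      have hN' : (y1 - y2, y2).1 + (y1 - y2, y2).2 ≤ N := by simp only; omega
      obtain ⟨F', l, hr, hl⟩ := ih hN' (hH.R hy)
      refine ⟨F', _, Run.stepR hy hr, ?_⟩
      intro r hr'
      rw [List.mem_cons] at hr'
      rcases hr' with rfl | hr'
      · exact ⟨le_refl _, hlt, rfl⟩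
      · obtain ⟨g1, g2, g3⟩ := hl r hr'
        refine ⟨le_trans ?_ g1, g2, g3⟩
        simp only [Fr.sz, Fr.c1_R, Fr.c2_R]; omega

theorem run_final {v : ℕ × ℕ} (hv : Nat.Coprime v.1 v.2) {j : ℕ} {F : Fr} {y : ℕ × ℕ}
    (hF : Has v j F y) :
    ∃ F' l, Run F j y l F' j (1, 1) ∧ ∀ r ∈ l, F.sz ≤ r.s ∧ r.s < v.1 + v.2 ∧ r.j = j :=
  run_final_aux hv (y.1 + y.2) (le_refl _) hF

theorem Run.trans {F F' F'' : Fr} {j j' j'' : ℕ} {y y' y'' : ℕ × ℕ} {l l' : List Rc}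
    (h : Run F j y l F' j' y') (h' : Run F' j' y' l' F'' j'' y'') :
    Run F j y (l ++ l') F'' j'' y'' := by
  induction h with
  | nil F j y => simpa using h'
  | stepL h hr ih => exact Run.stepL h (ih h')
  | stepR h hr ih => exact Run.stepR h (ih h')
  | stepX h1 h2 hr ih => exact Run.stepX h1 h2 (ih h')

theorem Run.le {F F' : Fr} {j j' : ℕ} {y y' : ℕ × ℕ} {l : List Rc}
    (h : Run F j y l F' j' y') : j ≤ j' := by
  induction h with
  | nil F j y => exact le_refl _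
  | stepL h hr ih => exact ih
  | stepR h hr ih => exact ih
  | stepX h1 h2 hr ih => omega

theorem Run.word {F F' : Fr} {j j' : ℕ} {y y' : ℕ × ℕ} {l : List Rc}
    (h : Run F j y l F' j' y') :
    ∃ w, wact w y' = y ∧ wcost w = l.length + 2 * (j' - j) := by
  induction h with
  | nil F j y => exact ⟨[], by simp [wact], by simp [wcost]⟩
  | @stepL F j y1 y2 l F' j' y' h hr ih =>
    obtain ⟨w, hw, hc⟩ := ih
    refine ⟨Lt.L :: w, ?_, ?_⟩
    · have : wact (Lt.L :: w) y' = Lt.act Lt.L (wact w y') := rfl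
      rw [this, hw]
      simp only [Lt.act]
      congr 1
      omega
    · have : wcost (Lt.L :: w) = 1 + wcost w := by simp [wcost, Lt.cost]
      rw [this, hc, List.length_cons]
      ring
  | @stepR F j y1 y2 l F' j' y' h hr ih =>
    obtain ⟨w, hw, hc⟩ := ih
    refine ⟨Lt.R :: w, ?_, ?_⟩
    · have : wact (Lt.R :: w) y' = Lt.act Lt.R (wact w y') := rfl
      rw [this, hw]
      simp only [Lt.act]
      congr 1
      omega
    · have : wcost (Lt.R :: w) = 1 + wcost w := by simp [wcost, Lt.cost]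
      rw [this, hc, List.length_cons]
      ring
  | @stepX F j z1 z2 l F' j' y' h1 h2 hr ih =>
    obtain ⟨w, hw, hc⟩ := ih
    have hle := hr.le
    refine ⟨Lt.X :: w, ?_, ?_⟩
    · have : wact (Lt.X :: w) y' = Lt.act Lt.X (wact w y') := rfl
      rw [this, hw]
      rfl
    · have : wcost (Lt.X :: w) = 2 + wcost w := by simp [wcost, Lt.cost]
      rw [this, hc]
      omega

end BAC
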