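import Mathlib

/-!
# Definitions for MP_bac445_co (linear extension numbers of width-two posets)

A *frame* is a `2 × 2` matrix `[[a, b], [c, d]]` of naturals with columns `f₁ = (a, c)`,
`f₂ = (b, d)`.  `Has v j F y` says `v = y₁ f₁ + y₂ f₂`, `y₁, y₂ > 0` and `det F = 3 ^ j`.
-/

namespace BAC

/-- frames -/
structure Fr where
  a : ℕ
  b : ℕ
  c : ℕ
  d : ℕ

namespace Fr
def c1 (F : Fr) : ℕ := F.a + F.c
def c2 (F : Fr) : ℕ := F.b + F.d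
def sz (F : Fr) : ℕ := F.c1 + F.c2
def L (F : Fr) : Fr := ⟨F.a + F.b, F.b, F.c + F.d, F.d⟩
def R (F : Fr) : Fr := ⟨F.a, F.a + F.b, F.c, F.c + F.d⟩
def X (F : Fr) : Fr := ⟨2 * F.a + F.b, F.a + 2 * F.b, 2 * F.c + F.d, F.c + 2 * F.d⟩
/-- the identity frame -/
def one : Fr := ⟨1, 0, 0, 1⟩
end Fr

/-- `v = F y`, `y > 0`, `det F = 3 ^ j` -/
structure Has (v : ℕ × ℕ) (j : ℕ) (F : Fr) (y : ℕ × ℕ) : Prop where
  det : F.a * F.d = F.b * F.c + 3 ^ j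
  pos1 : 0 < y.1
  pos2 : 0 < y.2
  eq1 : F.a * y.1 + F.b * y.2 = v.1
  eq2 : F.c * y.1 + F.d * y.2 = v.2

/-- canonical frames: the first frame of size at least `2 ^ m` on the chain of level `j` -/
structure Can (v : ℕ × ℕ) (j m : ℕ) (F : Fr) (y : ℕ × ℕ) : Prop extends Has v j F y where
  lt1 : F.c1 < 2 ^ m
  lt2 : F.c2 < 2 ^ m
  le : 2 ^ m ≤ F.sz

/-- record of an `L` or `R` step: size of the frame before the step, level, added vector -/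
structure Rc where
  s : ℕ
  j : ℕ
  e : ℕ × ℕ

/-- size of the added vector -/
def Rc.n (r : Rc) : ℕ := r.e.1 + r.e.2

/-- primitive part of a vector -/
def prm (e : ℕ × ℕ) : ℕ × ℕ := (e.1 / Nat.gcd e.1 e.2, e.2 / Nat.gcd e.1 e.2)

/-- Runs: sequences of steps `L`, `R`, `X` that follow the vector `y`; the list records the
`L`/`R` steps. -/
inductive Run : Fr → ℕ → ℕ × ℕ → List Rc → Fr → ℕ → ℕ × ℕ → Prop
  | nil (F : Fr) (j : ℕ) (y : ℕ × ℕ) : Run F j y [] F j y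
  | stepL {F : Fr} {j y1 y2 : ℕ} {l : List Rc} {F' : Fr} {j' : ℕ} {y' : ℕ × ℕ} (h : y1 < y2)
      (hr : Run F.L j (y1, y2 - y1) l F' j' y') :
      Run F j (y1, y2) (⟨F.sz, j, (F.b, F.d)⟩ :: l) F' j' y'
  | stepR {F : Fr} {j y1 y2 : ℕ} {l : List Rc} {F' : Fr} {j' : ℕ} {y' : ℕ × ℕ} (h : y2 < y1)
      (hr : Run F.R j (y1 - y2, y2) l F' j' y') :
      Run F j (y1, y2) (⟨F.sz, j, (F.a, F.c)⟩ :: l) F' j' y'
  | stepX {F : Fr} {j z1 z2 : ℕ} {l : List Rc} {F' : Fr} {j' : ℕ} {y' : ℕ × ℕ} (h1 : 0 < z1)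
      (h2 : 0 < z2) (hr : Run F.X (j + 1) (z1, z2) l F' j' y') :
      Run F j (2 * z1 + z2, z1 + 2 * z2) l F' j' y'

/-- `Climb c1 c2 y1 y2 h S`: following `y`, one can make `h` steps `X` (and any number of `L`, `R`
steps) ending with weight sum at most `S`. -/
inductive Climb : ℕ → ℕ → ℕ → ℕ → ℕ → ℕ → Prop
  | done {c1 c2 y1 y2 S : ℕ} (h : c1 + c2 ≤ S) : Climb c1 c2 y1 y2 0 S
  | l {c1 c2 y1 y2 h S : ℕ} (hy : y1 < y2) (hc : Climb (c1 + c2) c2 y1 (y2 - y1) h S) :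
      Climb c1 c2 y1 y2 h S
  | r {c1 c2 y1 y2 h S : ℕ} (hy : y2 < y1) (hc : Climb c1 (c1 + c2) (y1 - y2) y2 h S) :
      Climb c1 c2 y1 y2 h S
  | x {c1 c2 z1 z2 h S : ℕ} (h1 : 0 < z1) (h2 : 0 < z2)
      (hc : Climb (2 * c1 + c2) (c1 + 2 * c2) z1 z2 h S) :
      Climb c1 c2 (2 * z1 + z2) (z1 + 2 * z2) (h + 1) S

/-- `|ε ∧ v|` -/
def cr (ε v : ℕ × ℕ) : ℕ := ((ε.1 : ℤ) * v.2 - (ε.2 : ℤ) * v.1).natAbs

/-- obstacle in direction `ε` at position `(m, j)` of size `Y` -/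
def ObE (v : ℕ × ℕ) (m j Y : ℕ) (ε : ℕ × ℕ) : Prop :=
  Nat.Coprime ε.1 ε.2 ∧
  Y * 3 ^ (j - padicValNat 3 (cr ε v)) * (ε.1 + ε.2) ≤ 2 ^ (m + 2) ∧
  cr ε v * 2 ^ m ≤ 3 ^ (min j (padicValNat 3 (cr ε v))) * (v.1 + v.2)

/-- the coprime vectors with `Z / 2 < |v| ≤ Z` -/
def V (Z : ℕ) : Finset (ℕ × ℕ) :=
  (Finset.Icc 1 Z ×ˢ Finset.Icc 1 Z).filter
    (fun v => Nat.Coprime v.1 v.2 ∧ Z < 2 * (v.1 + v.2) ∧ v.1 + v.2 ≤ Z)

/-- letters of words: `L`, `R`, `X` and the neck `J` -/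
inductive Lt | L | R | X | J

namespace Lt
/-- number of poset elements used by a letter -/
def cost : Lt → ℕ
  | L => 1
  | R => 1
  | X => 2
  | J => 2
/-- action on state vectors -/
def act : Lt → ℕ × ℕ → ℕ × ℕ
  | L, x => (x.1, x.1 + x.2)
  | R, x => (x.1 + x.2, x.2)
  | X, x => (2 * x.1 + x.2, x.1 + 2 * x.2)
  | J, x => (x.1 + x.2, x.1 + x.2)
end Lt

/-- cost of a word -/
def wcost (w : List Lt) : ℕ := (w.map Lt.cost).sum

/-- action of a word; the head of the list is applied last -/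
def wact (w : List Lt) (x : ℕ × ℕ) : ℕ × ℕ := w.foldr Lt.act x

/-- value of a word: number of linear extensions of the corresponding poset -/
def wval (w : List Lt) : ℕ := (wact w (1, 1)).1 + (wact w (1, 1)).2

/-- `v` is reached by a word of cost at most `c` -/
def Good (v : ℕ × ℕ) (c : ℕ) : Prop := ∃ w : List Lt, wact w (1, 1) = v ∧ wcost w ≤ c

/-- base point `a` is `(level, scale) = (a, 1024 a + 1)`; `Reach v a b c`: the canonical frames of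
`v` at base points `a ≤ b` are joined by a run of cost at most `c`. -/
def Reach (v : ℕ × ℕ) (a b c : ℕ) : Prop :=
  ∃ (F : Fr) (y : ℕ × ℕ) (F' : Fr) (y' : ℕ × ℕ) (l : List Rc),
    Can v a (1024 * a + 1) F y ∧ Can v b (1024 * b + 1) F' y' ∧ Run F a y l F' b y' ∧
      l.length + 2 * (b - a) ≤ c

end BAC
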