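import Pool.Agent.BAC.Defs

/-!
# Sum of `1 / (c₁ c₂)` over canonical frames (task FRAMES of MP_bac445_co)
-/

namespace BAC

/-- difference of two solutions of `ε ∧ v = α` is a multiple of `ε` -/
theorem fs_wedge_diff {e1 e2 x1 x2 : ℤ} (h : IsCoprime e1 e2) (hx : e1 * x2 - e2 * x1 = 0) :
    ∃ t : ℤ, x1 = e1 * t ∧ x2 = e2 * t := by
  obtain ⟨a, b, hab⟩ := h
  refine ⟨a * x1 + b * x2, ?_, ?_⟩
  · linear_combination (-x1) * hab + (-b) * hx
  · linear_combination (-x2) * hab + a * hx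

theorem fs_same_quot {x y t : ℕ} {τ : ℤ} (ht : 0 < t) (h : (x : ℤ) - y = t * τ)
    (hd : x / t = y / t) : τ = 0 := by
  have hdv := Nat.div_add_mod x t
  have hdw := Nat.div_add_mod y t
  have hmv := Nat.mod_lt x ht
  have hmw := Nat.mod_lt y ht
  rw [hd] at hdv
  generalize y / t = q at hdv hdw
  generalize x % t = r at hdv hmv
  generalize y % t = r' at hdw hmw
  rw [← hdv, ← hdw] at h
  push_cast at h
  have h3 : (r : ℤ) - r' = (t : ℤ) * τ := by linear_combination h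
  zify at hmv hmw ht
  by_contra hne
  rcases lt_or_gt_of_ne hne with h | h
  · have : τ ≤ -1 := by omega
    nlinarith [Int.natCast_nonneg r, Int.natCast_nonneg r']
  · have : 1 ≤ τ := by omega
    nlinarith [Int.natCast_nonneg r, Int.natCast_nonneg r']

/-- for a fixed second column there are at most `3 ^ i + 1` first columns -/
theorem fs_card {j i N : ℕ} {ε : ℕ × ℕ} (hε : Nat.Coprime ε.1 ε.2)
    {S : Finset (ℕ × ℕ × ℕ × ℕ)}
    (hS : ∀ F ∈ S, F.1 * F.2.2.2 = F.2.1 * F.2.2.1 + 3 ^ j ∧ F.1 + F.2.2.1 < N ∧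
      N ≤ (F.1 + F.2.2.1) + (F.2.1 + F.2.2.2) ∧ F.2.1 = 3 ^ i * ε.1 ∧ F.2.2.2 = 3 ^ i * ε.2) :
    S.card ≤ 3 ^ i + 1 := by
  have ht : 0 < ε.1 + ε.2 := by
    rcases Nat.eq_zero_or_pos (ε.1 + ε.2) with h | h
    · have h1 : ε.1 = 0 := by omega
      have h2 : ε.2 = 0 := by omega
      rw [h1, h2] at hε
      simp at hε
    · exact h
  have hco : IsCoprime (ε.1 : ℤ) (ε.2 : ℤ) := Nat.isCoprime_iff_coprime.mpr hε
  set t := ε.1 + ε.2 with htdef
  have h := Finset.card_le_card_of_injOn (s := S) (t := Finset.Icc (N / t - 3 ^ i) (N / t))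
    (fun F => (F.1 + F.2.2.1) / t) ?_ ?_
  · rw [Nat.card_Icc] at h
    have hq : ∀ q p : ℕ, q + 1 - (q - p) ≤ p + 1 := by
      intro q p
      omega
    exact h.trans (hq _ _)
  · intro F hF
    obtain ⟨-, h2, h3, h4, h5⟩ := hS F hF
    simp only [Finset.coe_Icc, Set.mem_Icc]
    constructor
    · rw [← Nat.sub_mul_div]
      apply Nat.div_le_div_right
      rw [h4, h5] at h3
      have : t * 3 ^ i = 3 ^ i * ε.1 + 3 ^ i * ε.2 := by rw [htdef]; ring
      omega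
    · exact Nat.div_le_div_right h2.le
  · intro F hF F' hF' hFF
    simp only at hFF
    obtain ⟨h1, -, -, h4, h5⟩ := hS F hF
    obtain ⟨h1', -, -, h4', h5'⟩ := hS F' hF'
    rw [h4, h5] at h1
    rw [h4', h5'] at h1'
    have h3i : ((3 : ℤ) ^ i) ≠ 0 := by positivity
    have hx : (ε.1 : ℤ) * ((F.2.2.1 : ℤ) - F'.2.2.1) - (ε.2 : ℤ) * ((F.1 : ℤ) - F'.1) = 0 := by
      zify at h1 h1'
      have : (3 : ℤ) ^ i * ((ε.1 : ℤ) * ((F.2.2.1 : ℤ) - F'.2.2.1) -
          (ε.2 : ℤ) * ((F.1 : ℤ) - F'.1)) = 0 := by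
        linear_combination h1' - h1
      exact (mul_eq_zero.mp this).resolve_left h3i
    obtain ⟨τ, ht1, ht2⟩ := fs_wedge_diff hco hx
    have hτ := fs_same_quot (x := F.1 + F.2.2.1) (y := F'.1 + F'.2.2.1) (t := t) (τ := τ) ht
      (by rw [htdef]; push_cast; linear_combination ht1 + ht2) hFF
    rw [hτ] at ht1 ht2
    refine Prod.ext (by omega) (Prod.ext (by rw [h4, h4']) (Prod.ext (by omega) ?_))
    rw [h5, h5']

/-- partial sums of the geometric series -/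
theorem fs_geom3 (n : ℕ) : ∑ i ∈ Finset.range n, (1 : ℝ) / 3 ^ i ≤ 3 / 2 := by
  have h : ∀ n : ℕ, ∑ i ∈ Finset.range n, (1 : ℝ) / 3 ^ i = 3 / 2 - 3 / 2 / 3 ^ n := by
    intro n
    induction n with
    | zero => simp
    | succ n ih =>
      rw [Finset.sum_range_succ, ih, pow_succ]
      field_simp
      ring
  rw [h]
  have : (0 : ℝ) ≤ 3 / 2 / 3 ^ n := by positivity
  linarith

/-- the term -/
noncomputable def fsT (F : ℕ × ℕ × ℕ × ℕ) : ℝ :=
  (1 : ℝ) / (((F.1 : ℝ) + F.2.2.1) * ((F.2.1 : ℝ) + F.2.2.2))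

/-- the half `c₂ ≤ c₁` -/
theorem fs_half (j m : ℕ) (s : Finset (ℕ × ℕ × ℕ × ℕ))
    (hs : ∀ F ∈ s, F.1 * F.2.2.2 = F.2.1 * F.2.2.1 + 3 ^ j ∧ F.1 + F.2.2.1 < 2 ^ m ∧
      F.2.1 + F.2.2.2 < 2 ^ m ∧ 2 ^ m ≤ (F.1 + F.2.2.1) + (F.2.1 + F.2.2.2) ∧
      F.2.1 + F.2.2.2 ≤ F.1 + F.2.2.1) :
    ∑ F ∈ s, fsT F ≤ 12 := by
  classical
  set N := 2 ^ m with hN
  have hN0 : (0 : ℝ) < N := by rw [hN]; positivity
  -- the level of the second column
  set lv : ℕ × ℕ × ℕ × ℕ → ℕ := fun F => Nat.log 3 (Nat.gcd F.2.1 F.2.2.2) with hlv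
  have hlv1 : ∀ F ∈ s, lv F ≤ j ∧ Nat.gcd F.2.1 F.2.2.2 = 3 ^ (lv F) := by
    intro F hF
    obtain ⟨h1, -⟩ := hs F hF
    have hd : Nat.gcd F.2.1 F.2.2.2 ∣ 3 ^ j := by
      have h2 : Nat.gcd F.2.1 F.2.2.2 ∣ F.1 * F.2.2.2 :=
        Dvd.dvd.mul_left (Nat.gcd_dvd_right _ _) _
      have h3 : Nat.gcd F.2.1 F.2.2.2 ∣ F.2.1 * F.2.2.1 :=
        Dvd.dvd.mul_right (Nat.gcd_dvd_left _ _) _
      rw [h1] at h2
      exact (Nat.dvd_add_right h3).mp h2
    obtain ⟨k, hk, hk'⟩ := (Nat.dvd_prime_pow Nat.prime_three).mp hd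
    have : lv F = k := by
      rw [hlv]
      simp only
      rw [hk', Nat.log_pow (by norm_num)]
    rw [this]
    exact ⟨hk, hk'⟩
  set ep : ℕ × ℕ × ℕ × ℕ → ℕ × ℕ := fun F =>
    (F.2.1 / 3 ^ (lv F), F.2.2.2 / 3 ^ (lv F)) with hep
  have hep1 : ∀ F ∈ s, Nat.Coprime (ep F).1 (ep F).2 ∧ F.2.1 = 3 ^ (lv F) * (ep F).1 ∧
      F.2.2.2 = 3 ^ (lv F) * (ep F).2 := by
    intro F hF
    obtain ⟨-, h2⟩ := hlv1 F hF
    have hg : 0 < Nat.gcd F.2.1 F.2.2.2 := by rw [h2]; positivity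
    refine ⟨?_, ?_, ?_⟩
    · rw [hep]
      simp only
      rw [← h2]
      exact Nat.coprime_div_gcd_div_gcd hg
    · rw [hep]
      simp only
      rw [← h2]
      exact (Nat.mul_div_cancel' (Nat.gcd_dvd_left _ _)).symm
    · rw [hep]
      simp only
      rw [← h2]
      exact (Nat.mul_div_cancel' (Nat.gcd_dvd_right _ _)).symm
  -- innermost
  have hin : ∀ i : ℕ, ∀ ε : ℕ × ℕ, 1 ≤ ε.1 + ε.2 →
      ∑ F ∈ (s.filter (fun F => lv F = i)).filter (fun F => ep F = ε), fsT F ≤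
        4 / (N * ((ε.1 + ε.2 : ℕ) : ℝ)) := by
    intro i ε hε
    set S := (s.filter (fun F => lv F = i)).filter (fun F => ep F = ε) with hSdef
    rcases S.eq_empty_or_nonempty with hS | ⟨F0, hF0⟩
    · rw [hS, Finset.sum_empty]
      positivity
    have hmem : ∀ F ∈ S, F ∈ s ∧ lv F = i ∧ ep F = ε := by
      intro F hF
      rw [hSdef, Finset.mem_filter, Finset.mem_filter] at hF
      exact ⟨hF.1.1, hF.1.2, hF.2⟩
    have hco : Nat.Coprime ε.1 ε.2 := by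
      obtain ⟨h1, -, h3⟩ := hmem F0 hF0
      have := (hep1 F0 h1).1
      rw [h3] at this
      exact this
    have hcol : ∀ F ∈ S, F.2.1 = 3 ^ i * ε.1 ∧ F.2.2.2 = 3 ^ i * ε.2 := by
      intro F hF
      obtain ⟨h1, h2, h3⟩ := hmem F hF
      have := (hep1 F h1).2
      rw [h2, h3] at this
      exact this
    have hcard : S.card ≤ 3 ^ i + 1 := by
      apply fs_card (j := j) (N := N) hco
      intro F hF
      obtain ⟨h1, h2, h3, h4, h5⟩ := hs F (hmem F hF).1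
      exact ⟨h1, h2, h4, hcol F hF⟩
    have hε' : (0 : ℝ) < ((ε.1 + ε.2 : ℕ) : ℝ) := by exact_mod_cast hε
    have h3i : (0 : ℝ) < 3 ^ i := by positivity
    have hterm : ∀ F ∈ S, fsT F ≤ 2 / (N * (3 ^ i * ((ε.1 + ε.2 : ℕ) : ℝ))) := by
      intro F hF
      obtain ⟨h1, h2, h3, h4, h5⟩ := hs F (hmem F hF).1
      obtain ⟨h6, h7⟩ := hcol F hF
      have hc2 : ((F.2.1 : ℝ) + F.2.2.2) = 3 ^ i * ((ε.1 + ε.2 : ℕ) : ℝ) := by
        rw [h6, h7]
        push_cast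
        ring
      have hc1 : (N : ℝ) / 2 ≤ (F.1 : ℝ) + F.2.2.1 := by
        have : N ≤ 2 * (F.1 + F.2.2.1) := by omega
        have h' : (N : ℝ) ≤ 2 * ((F.1 : ℝ) + F.2.2.1) := by exact_mod_cast this
        linarith
      unfold fsT
      rw [hc2]
      calc (1 : ℝ) / (((F.1 : ℝ) + F.2.2.1) * (3 ^ i * ((ε.1 + ε.2 : ℕ) : ℝ)))
          ≤ 1 / ((N : ℝ) / 2 * (3 ^ i * ((ε.1 + ε.2 : ℕ) : ℝ))) := by
            apply one_div_le_one_div_of_le (by positivity)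
            gcongr
        _ = 2 / (N * (3 ^ i * ((ε.1 + ε.2 : ℕ) : ℝ))) := by
            field_simp
    have h1 := Finset.sum_le_card_nsmul _ _ _ hterm
    refine h1.trans ?_
    rw [nsmul_eq_mul]
    have hc : (S.card : ℝ) ≤ 2 * 3 ^ i := by
      have h2 : S.card ≤ 2 * 3 ^ i := by
        have : 1 ≤ 3 ^ i := Nat.one_le_pow _ _ (by norm_num)
        omega
      exact_mod_cast h2
    calc (S.card : ℝ) * (2 / (N * (3 ^ i * ((ε.1 + ε.2 : ℕ) : ℝ))))
        ≤ (2 * 3 ^ i) * (2 / (N * (3 ^ i * ((ε.1 + ε.2 : ℕ) : ℝ)))) := by gcongr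
      _ = 4 / (N * ((ε.1 + ε.2 : ℕ) : ℝ)) := by
          field_simp
          ring
  -- middle
  have hmid : ∀ i : ℕ, ∑ F ∈ s.filter (fun F => lv F = i), fsT F ≤ 8 * (1 / 3 ^ i) := by
    intro i
    have hmaps : ∀ F ∈ s.filter (fun F => lv F = i), (ep F).1 + (ep F).2 ∈
        Finset.Icc 1 (N / 3 ^ i) := by
      intro F hF
      rw [Finset.mem_filter] at hF
      obtain ⟨h1, h2, h3, h4, h5⟩ := hs F hF.1
      obtain ⟨h6, h7, h8⟩ := hep1 F hF.1
      rw [hF.2] at h7 h8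
      rw [Finset.mem_Icc]
      constructor
      · rcases Nat.eq_zero_or_pos ((ep F).1 + (ep F).2) with h | h
        · have h1 : (ep F).1 = 0 := by omega
          have h2 : (ep F).2 = 0 := by omega
          rw [h1, h2] at h6
          simp at h6
        · exact h
      · rw [Nat.le_div_iff_mul_le (by positivity)]
        calc ((ep F).1 + (ep F).2) * 3 ^ i = 3 ^ i * (ep F).1 + 3 ^ i * (ep F).2 := by ring
          _ = F.2.1 + F.2.2.2 := by rw [← h7, ← h8]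
          _ ≤ N := h3.le
    rw [← Finset.sum_fiberwise_of_maps_to hmaps]
    have hb : ∀ t ∈ Finset.Icc 1 (N / 3 ^ i),
        ∑ F ∈ (s.filter (fun F => lv F = i)).filter (fun F => (ep F).1 + (ep F).2 = t), fsT F ≤
          8 / N := by
      intro t ht
      rw [Finset.mem_Icc] at ht
      have ht1 : (1 : ℝ) ≤ t := by exact_mod_cast ht.1
      have ht0 : (0 : ℝ) < t := by linarith
      have hmaps2 : ∀ F ∈ (s.filter (fun F => lv F = i)).filter
          (fun F => (ep F).1 + (ep F).2 = t), ep F ∈ Finset.HasAntidiagonal.antidiagonal t := by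
        intro F hF
        rw [Finset.mem_filter] at hF
        rw [Finset.HasAntidiagonal.mem_antidiagonal]
        exact hF.2
      rw [← Finset.sum_fiberwise_of_maps_to hmaps2]
      have hb2 : ∀ ε ∈ Finset.HasAntidiagonal.antidiagonal t,
          ∑ F ∈ ((s.filter (fun F => lv F = i)).filter (fun F =>
            (ep F).1 + (ep F).2 = t)).filter (fun F => ep F = ε), fsT F ≤ 4 / (N * (t : ℝ)) := by
        intro ε hε
        rw [Finset.HasAntidiagonal.mem_antidiagonal] at hε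
        have := hin i ε (by omega)
        rw [hε] at this
        refine le_trans (Finset.sum_le_sum_of_subset_of_nonneg ?_ ?_) this
        · intro F hF
          rw [Finset.mem_filter, Finset.mem_filter] at hF
          rw [Finset.mem_filter]
          exact ⟨hF.1.1, hF.2⟩
        · intro F _ _
          unfold fsT
          positivity
      refine (Finset.sum_le_card_nsmul _ _ _ hb2).trans ?_
      rw [Finset.Nat.card_antidiagonal, nsmul_eq_mul]
      push_cast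
      calc ((t : ℝ) + 1) * (4 / (N * (t : ℝ))) ≤ (2 * t) * (4 / (N * (t : ℝ))) := by
            gcongr
            linarith
        _ = 8 / N := by
            field_simp
            ring
    refine (Finset.sum_le_card_nsmul _ _ _ hb).trans ?_
    rw [Nat.card_Icc, nsmul_eq_mul, Nat.add_sub_cancel]
    have hE : ((N / 3 ^ i : ℕ) : ℝ) ≤ (N : ℝ) / 3 ^ i := by
      have := Nat.cast_div_le (α := ℝ) (m := N) (n := 3 ^ i)
      push_cast at this
      exact this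
    calc ((N / 3 ^ i : ℕ) : ℝ) * (8 / N) ≤ (N : ℝ) / 3 ^ i * (8 / N) := by gcongr
      _ = 8 * (1 / 3 ^ i) := by
          field_simp
  have hmaps0 : ∀ F ∈ s, lv F ∈ Finset.range (j + 1) := by
    intro F hF
    rw [Finset.mem_range]
    have := (hlv1 F hF).1
    omega
  rw [← Finset.sum_fiberwise_of_maps_to hmaps0]
  refine (Finset.sum_le_sum (fun i _ => hmid i)).trans ?_
  rw [← Finset.mul_sum]
  have := fs_geom3 (j + 1)
  linarith

/-- task FRAMES -/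
theorem frame_sum (j m : ℕ) (s : Finset (ℕ × ℕ × ℕ × ℕ))
    (hs : ∀ F ∈ s, F.1 * F.2.2.2 = F.2.1 * F.2.2.1 + 3 ^ j ∧ F.1 + F.2.2.1 < 2 ^ m ∧
      F.2.1 + F.2.2.2 < 2 ^ m ∧ 2 ^ m ≤ (F.1 + F.2.2.1) + (F.2.1 + F.2.2.2)) :
    ∑ F ∈ s, (1 : ℝ) / (((F.1 : ℝ) + F.2.2.1) * ((F.2.1 : ℝ) + F.2.2.2)) ≤ 24 := by
  classical
  have hsplit := Finset.sum_filter_add_sum_filter_not s
    (fun F : ℕ × ℕ × ℕ × ℕ => F.2.1 + F.2.2.2 ≤ F.1 + F.2.2.1) fsT
  have h1 := fs_half j m (s.filter (fun F : ℕ × ℕ × ℕ × ℕ => F.2.1 + F.2.2.2 ≤ F.1 + F.2.2.1)) (by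
    intro F hF
    rw [Finset.mem_filter] at hF
    obtain ⟨a, b, c, d⟩ := hs F hF.1
    exact ⟨a, b, c, d, hF.2⟩)
  set σ : ℕ × ℕ × ℕ × ℕ → ℕ × ℕ × ℕ × ℕ := fun F => (F.2.2.2, F.2.2.1, F.2.1, F.1) with hσ
  have hσi : Function.Injective σ := by
    intro F F' h
    rw [hσ] at h
    simp only [Prod.mk.injEq] at h
    exact Prod.ext h.2.2.2 (Prod.ext h.2.2.1 (Prod.ext h.2.1 h.1))
  have h2 := fs_half j m ((s.filter (fun F : ℕ × ℕ × ℕ × ℕ =>
      ¬ F.2.1 + F.2.2.2 ≤ F.1 + F.2.2.1)).image σ) (by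
    intro F hF
    rw [Finset.mem_image] at hF
    obtain ⟨G, hG, rfl⟩ := hF
    rw [Finset.mem_filter] at hG
    obtain ⟨a, b, c, d⟩ := hs G hG.1
    rw [hσ]
    simp only
    refine ⟨?_, ?_, ?_, ?_, ?_⟩
    · rw [mul_comm, a, mul_comm]
    · omega
    · omega
    · omega
    · omega)
  rw [Finset.sum_image (fun x _ y _ h => hσi h)] at h2
  have h3 : ∀ F : ℕ × ℕ × ℕ × ℕ, fsT (σ F) = fsT F := by
    intro F
    rw [hσ]
    unfold fsT
    simp only
    congr 1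
    ring
  simp only [h3] at h2
  calc ∑ F ∈ s, (1 : ℝ) / (((F.1 : ℝ) + F.2.2.1) * ((F.2.1 : ℝ) + F.2.2.2))
      = ∑ F ∈ s, fsT F := rfl
    _ ≤ 24 := by rw [← hsplit]; linarith

end BAC
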