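import Pool.Agent.BAC.Block2

namespace BAC

theorem Reach.mono {v : ℕ × ℕ} {a b c c' : ℕ} (h : Reach v a b c) (hc : c ≤ c') :
    Reach v a b c' := by
  obtain ⟨F, y, F', y', l, h1, h2, h3, h4⟩ := h
  exact ⟨F, y, F', y', l, h1, h2, h3, h4.trans hc⟩

theorem Reach.trans {v : ℕ × ℕ} (hv : Nat.Coprime v.1 v.2) {a b d c c' : ℕ} (h : Reach v a b c)
    (h' : Reach v b d c') : Reach v a d (c + c') := by
  obtain ⟨F, y, F', y', l, h1, h2, h3, h4⟩ := h
  obtain ⟨G, z, G', z', l', g1, g2, g3, g4⟩ := h'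
  obtain ⟨e1, e2⟩ := can_unique hv h2 g1
  subst e1 e2
  refine ⟨F, y, G', z', l ++ l', h1, g2, h3.trans g3, ?_⟩
  have i1 := h3.le
  have i2 := g3.le
  rw [List.length_append]
  omega

theorem reach_self {v : ℕ × ℕ} {a : ℕ} (h : ∃ F y, Can v a (1024 * a + 1) F y) :
    Reach v a a 0 := by
  obtain ⟨F, y, h⟩ := h
  exact ⟨F, y, F, y, [], h, h, Run.nil _ _ _, by simp⟩

theorem reach_chain {v : ℕ × ℕ} (hv : Nat.Coprime v.1 v.2) {a T : ℕ} (f : ℕ → ℕ)
    (h0 : Reach v a a 0) (n : ℕ)
    (h : ∀ i < n, Reach v (a + i * T) (a + (i + 1) * T) (f i)) :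
    Reach v a (a + n * T) (∑ i ∈ Finset.range n, f i) := by
  induction n with
  | zero => simpa using h0
  | succ n ih =>
    rw [Finset.sum_range_succ]
    exact (ih (fun i hi => h i (by omega))).trans hv (h n (by omega))

open scoped Classical in
/-- truncated cost of a block -/
noncomputable def tc (v : ℕ × ℕ) (a b M : ℕ) : ℕ :=
  ((Finset.range M).filter (fun y => ¬ Reach v a b y)).card

theorem tc_le_of_reach {v : ℕ × ℕ} {a b M c : ℕ} (h : Reach v a b c) : tc v a b M ≤ c := by
  classical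
  unfold tc
  have : (Finset.range M).filter (fun y => ¬ Reach v a b y) ⊆ Finset.range c := by
    intro y hy
    rw [Finset.mem_filter] at hy
    rw [Finset.mem_range]
    by_contra hc
    exact hy.2 (h.mono (by omega))
  have := Finset.card_le_card this
  rwa [Finset.card_range] at this

theorem reach_of_tc_lt {v : ℕ × ℕ} {a b M : ℕ} (h : tc v a b M < M) :
    Reach v a b (tc v a b M) := by
  classical
  have hex : ∃ y, Reach v a b y := by
    by_contra hne
    push Not at hne
    unfold tc at h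
    rw [Finset.filter_true_of_mem (fun y _ => hne y), Finset.card_range] at h
    omega
  have hf := Nat.find_spec hex
  set y0 := Nat.find hex with hy0
  have hmin : ∀ y < y0, ¬ Reach v a b y := fun y hy => Nat.find_min hex hy
  have hle : min y0 M ≤ tc v a b M := by
    unfold tc
    have : Finset.range (min y0 M) ⊆ (Finset.range M).filter (fun y => ¬ Reach v a b y) := by
      intro y hy
      rw [Finset.mem_range] at hy
      rw [Finset.mem_filter, Finset.mem_range]
      exact ⟨by omega, hmin y (by omega)⟩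
    have := Finset.card_le_card this
    rwa [Finset.card_range] at this
  exact hf.mono (by omega)

theorem card_le_cover {α ι : Type*} [DecidableEq α] (B : Finset α) (s : Finset ι)
    (Q : ι → Finset α) (D : ℝ) (hB : ∀ v ∈ B, ∃ i ∈ s, v ∈ Q i)
    (hQ : ∀ i ∈ s, ((Q i).card : ℝ) ≤ D) : (B.card : ℝ) ≤ s.card * D := by
  have h1 : B ⊆ s.biUnion Q := by
    intro v hv
    rw [Finset.mem_biUnion]
    exact hB v hv
  have h2 := (Finset.card_le_card h1).trans Finset.card_biUnion_le
  calc (B.card : ℝ) ≤ ((∑ i ∈ s, (Q i).card : ℕ) : ℝ) := by exact_mod_cast h2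
    _ = ∑ i ∈ s, ((Q i).card : ℝ) := by push_cast; rfl
    _ ≤ ∑ _i ∈ s, D := Finset.sum_le_sum hQ
    _ = s.card * D := by simp

open scoped Classical in
theorem rec_step {Z a T n M' y0 M : ℕ} (D E : ℝ) (hZ : 2 ^ (1024 * a + 3) ≤ Z)
    (hB : ∀ k < n, (((V Z).filter (fun v => ¬ Reach v (a + k * T) (a + (k + 1) * T) M')).card : ℝ)
      ≤ D)
    (hE : ∑ y ∈ Finset.Ico y0 M, (((V Z).filter (fun v => ¬ Reach v a (a + n * T) y)).card : ℝ)
      ≤ E) :
    ∑ v ∈ V Z, (tc v a (a + n * T) M : ℝ) ≤
      ∑ k ∈ Finset.range n, ∑ v ∈ V Z, (tc v (a + k * T) (a + (k + 1) * T) (M' + 1) : ℝ) +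
        y0 * (n * D) + E := by
  obtain ⟨B, hBdef⟩ : ∃ B : Finset (ℕ × ℕ), B = (V Z).filter (fun v => ∃ k ∈ Finset.range n,
    ¬ Reach v (a + k * T) (a + (k + 1) * T) M') := ⟨_, rfl⟩
  have hBcard : (B.card : ℝ) ≤ n * D := by
    have := card_le_cover B (Finset.range n)
      (fun k => (V Z).filter (fun v => ¬ Reach v (a + k * T) (a + (k + 1) * T) M')) D
      (by
        intro v hv
        rw [hBdef, Finset.mem_filter] at hv
        obtain ⟨hv, k, hk, hr⟩ := hv
        exact ⟨k, hk, Finset.mem_filter.2 ⟨hv, hr⟩⟩)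
      (fun k hk => hB k (Finset.mem_range.1 hk))
    rwa [Finset.card_range] at this
  have hpt : ∀ v ∈ V Z, (tc v a (a + n * T) M : ℝ) ≤
      ∑ k ∈ Finset.range n, (tc v (a + k * T) (a + (k + 1) * T) (M' + 1) : ℝ) +
      (if v ∈ B then (y0 : ℝ) else 0) +
      (((Finset.Ico y0 M).filter (fun y => ¬ Reach v a (a + n * T) y)).card : ℝ) := by
    intro v hv
    obtain ⟨p1, p2, hcop, hlo, hup⟩ := mem_V hv
    by_cases hvB : v ∈ B
    · rw [if_pos hvB]
      have h1 : (Finset.range M).filter (fun y => ¬ Reach v a (a + n * T) y) ⊆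
          Finset.range y0 ∪ (Finset.Ico y0 M).filter (fun y => ¬ Reach v a (a + n * T) y) := by
        intro y hy
        rw [Finset.mem_filter, Finset.mem_range] at hy
        rw [Finset.mem_union, Finset.mem_range, Finset.mem_filter, Finset.mem_Ico]
        by_cases hy0 : y < y0
        · left; exact hy0
        · right; exact ⟨⟨by omega, hy.1⟩, hy.2⟩
      have h2 := (Finset.card_le_card h1).trans (Finset.card_union_le _ _)
      rw [Finset.card_range] at h2
      have h3 : (tc v a (a + n * T) M : ℝ) ≤ (y0 : ℝ) +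
          (((Finset.Ico y0 M).filter (fun y => ¬ Reach v a (a + n * T) y)).card : ℝ) := by
        unfold tc
        exact_mod_cast h2
      have h4 : (0 : ℝ) ≤
          ∑ k ∈ Finset.range n, (tc v (a + k * T) (a + (k + 1) * T) (M' + 1) : ℝ) :=
        Finset.sum_nonneg (fun _ _ => Nat.cast_nonneg _)
      linarith
    · rw [if_neg hvB]
      have hgood : ∀ k < n, Reach v (a + k * T) (a + (k + 1) * T)
          (tc v (a + k * T) (a + (k + 1) * T) (M' + 1)) := by
        intro k hk
        apply reach_of_tc_lt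
        have hr : Reach v (a + k * T) (a + (k + 1) * T) M' := by
          by_contra hr
          apply hvB
          rw [hBdef, Finset.mem_filter]
          exact ⟨hv, k, Finset.mem_range.2 hk, hr⟩
        have := tc_le_of_reach (M := M' + 1) hr
        omega
      have h0 : Reach v a a 0 := by
        apply reach_self
        apply can_exists hcop p1 p2
        · have : 5 ^ a ≤ 2 ^ (1024 * a) := by
            calc 5 ^ a ≤ (2 ^ 1024) ^ a := Nat.pow_le_pow_left
                  (le_trans (by norm_num : 5 ≤ 2 ^ 3) (Nat.pow_le_pow_right (by norm_num)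
                    (by norm_num))) a
              _ = 2 ^ (1024 * a) := by rw [pow_mul]
          rw [pow_succ]; omega
        · have e : 2 ^ (1024 * a + 3) = 2 * 2 ^ (1024 * a + 1 + 1) := by ring
          omega
      have h1 := tc_le_of_reach (M := M) (reach_chain hcop _ h0 n hgood)
      have h2 : (tc v a (a + n * T) M : ℝ) ≤
          ∑ k ∈ Finset.range n, (tc v (a + k * T) (a + (k + 1) * T) (M' + 1) : ℝ) := by
        exact_mod_cast h1
      have h3 : (0 : ℝ) ≤
        (((Finset.Ico y0 M).filter (fun y => ¬ Reach v a (a + n * T) y)).card : ℝ) :=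
        Nat.cast_nonneg _
      linarith
  have hsum := Finset.sum_le_sum hpt
  rw [Finset.sum_add_distrib, Finset.sum_add_distrib] at hsum
  have s1 : ∑ v ∈ V Z, ∑ k ∈ Finset.range n,
      (tc v (a + k * T) (a + (k + 1) * T) (M' + 1) : ℝ) =
      ∑ k ∈ Finset.range n, ∑ v ∈ V Z, (tc v (a + k * T) (a + (k + 1) * T) (M' + 1) : ℝ) :=
    Finset.sum_comm
  have s2 : ∑ v ∈ V Z, (if v ∈ B then (y0 : ℝ) else 0) ≤ y0 * (n * D) := by
    rw [← Finset.sum_filter, Finset.sum_const, nsmul_eq_mul, mul_comm]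
    refine mul_le_mul_of_nonneg_left ?_ (Nat.cast_nonneg _)
    refine le_trans ?_ hBcard
    have : (V Z).filter (fun v => v ∈ B) ⊆ B := by
      intro v hv
      exact (Finset.mem_filter.1 hv).2
    exact_mod_cast Finset.card_le_card this
  have s3 : ∑ v ∈ V Z, (((Finset.Ico y0 M).filter (fun y => ¬ Reach v a (a + n * T) y)).card : ℝ) =
      ∑ y ∈ Finset.Ico y0 M, (((V Z).filter (fun v => ¬ Reach v a (a + n * T) y)).card : ℝ) := by
    have := Finset.sum_card_bipartiteAbove_eq_sum_card_bipartiteBelow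
      (fun (v : ℕ × ℕ) (y : ℕ) => ¬ Reach v a (a + n * T) y) (s := V Z) (t := Finset.Ico y0 M)
    unfold Finset.bipartiteAbove Finset.bipartiteBelow at this
    exact_mod_cast this
  rw [s1, s3] at hsum
  linarith

end BAC
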