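import Pool.Agent.BAC.MainA

namespace BAC

theorem pow4_le {a : ℕ} (ha : 16 ≤ a) : a ^ 4 ≤ 2 ^ a := by
  induction a, ha using Nat.le_induction with
  | base => norm_num
  | succ a ha ih =>
    have h1 : (a + 1) ^ 4 ≤ 2 * a ^ 4 := by
      have h2 : 16 * a ^ 3 ≤ a ^ 4 := by
        calc 16 * a ^ 3 ≤ a * a ^ 3 := Nat.mul_le_mul_right _ ha
          _ = a ^ 4 := by ring
      have h3 : a ^ 2 ≤ a ^ 3 := Nat.pow_le_pow_right (by omega) (by norm_num)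
      have h4 : a ≤ a ^ 3 := Nat.le_self_pow (by norm_num) a
      have h5 : 1 ≤ a ^ 3 := Nat.one_le_pow _ _ (by omega)
      have h6 : (a + 1) ^ 4 = a ^ 4 + 4 * a ^ 3 + 6 * a ^ 2 + 4 * a + 1 := by ring
      rw [h6]
      omega
    calc (a + 1) ^ 4 ≤ 2 * a ^ 4 := h1
      _ ≤ 2 * 2 ^ a := by omega
      _ = 2 ^ (a + 1) := by ring

theorem sum_inv_sq {y0 M : ℕ} (hy : 1 ≤ y0) :
    ∑ y ∈ Finset.Ico y0 M, 1 / (y : ℝ) ^ 2 ≤ 2 / (y0 : ℝ) := by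
  have h := sum_Ioo_inv_sq_le (α := ℝ) (y0 - 1) M
  have e : Finset.Ioo (y0 - 1) M = Finset.Ico y0 M := by
    ext x
    simp only [Finset.mem_Ioo, Finset.mem_Ico]
    omega
  rw [e] at h
  have e2 : ((y0 - 1 : ℕ) : ℝ) + 1 = y0 := by
    rw [Nat.cast_sub hy]; push_cast; ring
  rw [e2] at h
  calc ∑ y ∈ Finset.Ico y0 M, 1 / (y : ℝ) ^ 2 = ∑ y ∈ Finset.Ico y0 M, ((y : ℝ) ^ 2)⁻¹ := by
        simp only [one_div]
    _ ≤ _ := h

theorem sum_inv {y0 N : ℕ} (hy : 1 ≤ y0) :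
    ∑ y ∈ Finset.Ico y0 (2 ^ N + 1), 1 / (y : ℝ) ≤ 1 + (N : ℝ) := by
  have h := harmonic_le_one_add_log (2 ^ N)
  rw [harmonic_eq_sum_Icc] at h
  have e : ((∑ i ∈ Finset.Icc 1 (2 ^ N), ((i : ℕ) : ℚ)⁻¹ : ℚ) : ℝ) =
      ∑ y ∈ Finset.Icc 1 (2 ^ N), 1 / ((y : ℕ) : ℝ) := by
    push_cast
    simp only [one_div]
  rw [e] at h
  have h2 : Real.log ((2 ^ N : ℕ) : ℝ) ≤ N := by
    push_cast
    rw [Real.log_pow]
    have : Real.log 2 ≤ 1 := by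
      have := Real.log_two_lt_d9
      linarith
    have hN : (0 : ℝ) ≤ N := Nat.cast_nonneg _
    nlinarith
  have h3 : ∑ y ∈ Finset.Ico y0 (2 ^ N + 1), 1 / (y : ℝ) ≤
      ∑ y ∈ Finset.Icc 1 (2 ^ N), 1 / ((y : ℕ) : ℝ) := by
    apply Finset.sum_le_sum_of_subset_of_nonneg
    · intro x hx
      rw [Finset.mem_Ico] at hx
      rw [Finset.mem_Icc]
      omega
    · intro i _ _
      positivity
  linarith

open scoped Classical in
/-- the statement of `block_bound` for a given constant -/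
def BB (C : ℕ) : Prop := ∀ (Z a h q y : ℕ), 1 ≤ h → 3 ≤ q →
    2 ^ (1024 * (a + q * h) + C * (q * h)) ≤ Z → C * (q * h) ≤ y →
    (((V Z).filter (fun v => ¬ Reach v a (a + q * h) y)).card : ℝ) ≤
      C * (Z : ℝ) ^ 2 * (((q * h : ℕ) : ℝ) / 4 ^ h + ((q * h : ℕ) : ℝ) ^ 8 / (y : ℝ) ^ 2 +
        ((q * h : ℕ) : ℝ) ^ 2 / ((y : ℝ) * 2 ^ (h / 2)) + (h : ℝ) ^ 2 / y)

open scoped Classical in
theorem block_scale {C : ℕ} (hC : BB C) {k : ℕ} (hk : 4 ≤ k) {Z a y T : ℕ} (hT : T = 2 ^ 2 ^ k)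
    (hZ : 2 ^ (1024 * (a + T) + C * T) ≤ Z) (hy : C * T ≤ y) :
    (((V Z).filter (fun v => ¬ Reach v a (a + T) y)).card : ℝ) ≤
      C * (Z : ℝ) ^ 2 * ((T : ℝ) / (T : ℝ) ^ 128 + (T : ℝ) ^ 8 / (y : ℝ) ^ 2 +
        (T : ℝ) ^ 2 / ((y : ℝ) * (T : ℝ) ^ 32) + ((2 : ℝ) ^ (k + 6)) ^ 2 / y) := by
  have hk2 : k + 8 ≤ 2 ^ k := by
    clear hT hZ hy
    induction k, hk using Nat.le_induction with
    | base => norm_num
    | succ k hk ih => rw [pow_succ]; omega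
  have hqh : 2 ^ (2 ^ k - (k + 6)) * 2 ^ (k + 6) = T := by
    rw [← pow_add, hT]
    congr 1
    omega
  have hq : 3 ≤ 2 ^ (2 ^ k - (k + 6)) := by
    have : 2 ^ 2 ≤ 2 ^ (2 ^ k - (k + 6)) := Nat.pow_le_pow_right (by norm_num) (by omega)
    omega
  have hb := hC Z a (2 ^ (k + 6)) (2 ^ (2 ^ k - (k + 6))) y Nat.one_le_two_pow hq
    (by rw [hqh]; exact hZ) (by rw [hqh]; exact hy)
  rw [hqh] at hb
  have e1 : (4 : ℝ) ^ (2 ^ (k + 6)) = (T : ℝ) ^ 128 := by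
    rw [hT]
    push_cast
    rw [show (4 : ℝ) = 2 ^ 2 by norm_num, ← pow_mul, ← pow_mul]
    congr 1
    rw [pow_add]
    ring
  have e2 : (2 : ℝ) ^ (2 ^ (k + 6) / 2) = (T : ℝ) ^ 32 := by
    rw [hT]
    push_cast
    rw [← pow_mul]
    congr 1
    rw [pow_succ, pow_add]
    omega
  rw [e1, e2] at hb
  push_cast at hb
  exact hb

theorem h_le {k : ℕ} (hk : 4 ≤ k) : (2 : ℝ) ^ (k + 6) ≤ ((2 ^ 2 ^ k : ℕ) : ℝ) := by
  have hk2 : k + 8 ≤ 2 ^ k := by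
    induction k, hk using Nat.le_induction with
    | base => norm_num
    | succ k hk ih => rw [pow_succ]; omega
  push_cast
  exact pow_le_pow_right₀ (by norm_num) (by omega)

theorem T_ge {k : ℕ} (hk : 4 ≤ k) : 65536 ≤ 2 ^ 2 ^ k := by
  have : 2 ^ 4 ≤ 2 ^ k := Nat.pow_le_pow_right (by norm_num) hk
  calc 65536 = 2 ^ 2 ^ 4 := by norm_num
    _ ≤ 2 ^ 2 ^ k := Nat.pow_le_pow_right (by norm_num) this

open scoped Classical in
theorem D_bound {C : ℕ} (hC : BB C) {k : ℕ} (hk : 4 ≤ k) {Z a T : ℕ} (hT : T = 2 ^ 2 ^ k)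
    (hCT : C ≤ T) (hZ : 2 ^ (1024 * (a + T) + C * T) ≤ Z) :
    (((V Z).filter (fun v => ¬ Reach v a (a + T) (T ^ 40))).card : ℝ) ≤
      C * (Z : ℝ) ^ 2 * (1 / (T : ℝ)) ^ 30 := by
  have hT0 : 65536 ≤ T := by rw [hT]; exact T_ge hk
  have hTR : (65536 : ℝ) ≤ T := by exact_mod_cast hT0
  have hTpos : (0 : ℝ) < T := by linarith
  have hb := block_scale hC hk (y := T ^ 40) hT hZ (by
    calc C * T ≤ T * T := Nat.mul_le_mul_right _ hCT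
      _ = T ^ 2 := by ring
      _ ≤ T ^ 40 := Nat.pow_le_pow_right (by omega) (by norm_num))
  refine hb.trans ?_
  apply mul_le_mul_of_nonneg_left _ (by positivity)
  obtain ⟨x, hx⟩ : ∃ x : ℝ, x = 1 / T := ⟨_, rfl⟩
  have hx0 : 0 < x := by rw [hx]; positivity
  have hx1 : x ≤ 1 / 4 := by
    rw [hx]
    exact one_div_le_one_div_of_le (by norm_num) (by linarith)
  have hxT : x * T = 1 := by rw [hx]; field_simp
  have t1 : (T : ℝ) / (T : ℝ) ^ 128 = x ^ 127 := by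
    rw [div_eq_iff (by positivity)]
    calc (T : ℝ) = (x * T) ^ 127 * T := by rw [hxT]; ring
      _ = _ := by ring
  have t2 : (T : ℝ) ^ 8 / ((T ^ 40 : ℕ) : ℝ) ^ 2 = x ^ 72 := by
    push_cast
    rw [div_eq_iff (by positivity)]
    calc (T : ℝ) ^ 8 = (x * T) ^ 72 * T ^ 8 := by rw [hxT]; ring
      _ = _ := by ring
  have t3 : (T : ℝ) ^ 2 / (((T ^ 40 : ℕ) : ℝ) * (T : ℝ) ^ 32) = x ^ 70 := by
    push_cast
    rw [div_eq_iff (by positivity)]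
    calc (T : ℝ) ^ 2 = (x * T) ^ 70 * T ^ 2 := by rw [hxT]; ring
      _ = _ := by ring
  have t4 : ((2 : ℝ) ^ (k + 6)) ^ 2 / ((T ^ 40 : ℕ) : ℝ) ≤ x ^ 38 := by
    push_cast
    rw [div_le_iff₀ (by positivity)]
    have hh := h_le hk
    rw [← hT] at hh
    calc ((2 : ℝ) ^ (k + 6)) ^ 2 ≤ (T : ℝ) ^ 2 := pow_le_pow_left₀ (by positivity) hh 2
      _ = (x * T) ^ 38 * T ^ 2 := by rw [hxT]; ring
      _ = _ := by ring
  have p : ∀ n, 31 ≤ n → x ^ n ≤ x ^ 31 := fun n hn =>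
    pow_le_pow_of_le_one hx0.le (by linarith) hn
  have q31 : x ^ 31 ≤ 1 / 4 * x ^ 30 := by
    have : x ^ 31 = x * x ^ 30 := by ring
    rw [this]
    exact mul_le_mul_of_nonneg_right hx1 (by positivity)
  have p1 := p 127 (by norm_num)
  have p2 := p 72 (by norm_num)
  have p3 := p 70 (by norm_num)
  have p4 := p 38 (by norm_num)
  rw [t1, t2, t3, ← hx]
  linarith

open scoped Classical in
theorem E_bound {C : ℕ} (hC : BB C) {k : ℕ} (hk : 4 ≤ k) {Z a T : ℕ} (hT : T = 2 ^ 2 ^ k)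
    (hCT : C ≤ T) (hZ : 2 ^ (1024 * (a + T) + C * T) ≤ Z) :
    ∑ y ∈ Finset.Ico (T ^ 8) (T ^ 40 + 1),
      (((V Z).filter (fun v => ¬ Reach v a (a + T) y)).card : ℝ) ≤
      C * (Z : ℝ) ^ 2 * (200000 * ((2 : ℝ) ^ k) ^ 3) := by
  have hT0 : 65536 ≤ T := by rw [hT]; exact T_ge hk
  have hTR : (65536 : ℝ) ≤ T := by exact_mod_cast hT0
  have hTpos : (0 : ℝ) < T := by linarith
  have hT8 : 1 ≤ T ^ 8 := Nat.one_le_pow _ _ (by omega)
  have hterm : ∀ y ∈ Finset.Ico (T ^ 8) (T ^ 40 + 1),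
      (((V Z).filter (fun v => ¬ Reach v a (a + T) y)).card : ℝ) ≤
      C * (Z : ℝ) ^ 2 * ((T : ℝ) / (T : ℝ) ^ 128 + (T : ℝ) ^ 8 * (1 / (y : ℝ) ^ 2) +
        ((T : ℝ) ^ 2 / (T : ℝ) ^ 32 + ((2 : ℝ) ^ (k + 6)) ^ 2) * (1 / (y : ℝ))) := by
    intro y hy
    rw [Finset.mem_Ico] at hy
    have hy0 : 0 < y := by omega
    have hy0' : (0 : ℝ) < y := by exact_mod_cast hy0
    have hb := block_scale hC hk (y := y) hT hZ (by
      calc C * T ≤ T * T := Nat.mul_le_mul_right _ hCT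
        _ = T ^ 2 := by ring
        _ ≤ T ^ 8 := Nat.pow_le_pow_right (by omega) (by norm_num)
        _ ≤ y := hy.1)
    refine hb.trans (le_of_eq ?_)
    congr 1
    field_simp
    ring
  refine (Finset.sum_le_sum hterm).trans ?_
  rw [← Finset.mul_sum]
  apply mul_le_mul_of_nonneg_left _ (by positivity)
  rw [Finset.sum_add_distrib, Finset.sum_add_distrib, ← Finset.mul_sum, ← Finset.mul_sum,
    Finset.sum_const, nsmul_eq_mul, Nat.card_Ico]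
  have s1 : ((T ^ 40 + 1 - T ^ 8 : ℕ) : ℝ) * ((T : ℝ) / (T : ℝ) ^ 128) ≤ 1 := by
    have h1 : ((T ^ 40 + 1 - T ^ 8 : ℕ) : ℝ) ≤ (T : ℝ) ^ 40 := by
      have : T ^ 40 + 1 - T ^ 8 ≤ T ^ 40 := by omega
      exact_mod_cast this
    calc ((T ^ 40 + 1 - T ^ 8 : ℕ) : ℝ) * ((T : ℝ) / (T : ℝ) ^ 128) ≤
          (T : ℝ) ^ 40 * ((T : ℝ) / (T : ℝ) ^ 128) :=
            mul_le_mul_of_nonneg_right h1 (by positivity)
      _ ≤ 1 := by
        rw [← mul_div_assoc, div_le_one (by positivity)]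
        calc (T : ℝ) ^ 40 * T = (T : ℝ) ^ 41 := by ring
          _ ≤ (T : ℝ) ^ 128 := pow_le_pow_right₀ (by linarith) (by norm_num)
  have s2 : (T : ℝ) ^ 8 * ∑ y ∈ Finset.Ico (T ^ 8) (T ^ 40 + 1), 1 / (y : ℝ) ^ 2 ≤ 2 := by
    have := sum_inv_sq (M := T ^ 40 + 1) hT8
    calc (T : ℝ) ^ 8 * ∑ y ∈ Finset.Ico (T ^ 8) (T ^ 40 + 1), 1 / (y : ℝ) ^ 2 ≤
        (T : ℝ) ^ 8 * (2 / ((T ^ 8 : ℕ) : ℝ)) := mul_le_mul_of_nonneg_left this (by positivity)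
      _ = 2 := by push_cast; field_simp
  have hM : T ^ 40 = 2 ^ (40 * 2 ^ k) := by
    rw [hT, ← pow_mul]; congr 1; ring
  obtain ⟨A, hA⟩ : ∃ A : ℝ, A = (2 : ℝ) ^ k := ⟨_, rfl⟩
  have hA1 : (16 : ℝ) ≤ A := by
    rw [hA]
    calc (16 : ℝ) = 2 ^ 4 := by norm_num
      _ ≤ 2 ^ k := pow_le_pow_right₀ (by norm_num) hk
  have s3 : ∑ y ∈ Finset.Ico (T ^ 8) (T ^ 40 + 1), 1 / (y : ℝ) ≤ 41 * A := by
    have := sum_inv (N := 40 * 2 ^ k) hT8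
    rw [← hM] at this
    push_cast at this
    rw [← hA] at this
    linarith
  have s3' : 0 ≤ ∑ y ∈ Finset.Ico (T ^ 8) (T ^ 40 + 1), 1 / (y : ℝ) :=
    Finset.sum_nonneg (fun _ _ => by positivity)
  have s4 : (T : ℝ) ^ 2 / (T : ℝ) ^ 32 + ((2 : ℝ) ^ (k + 6)) ^ 2 ≤ 1 + 4096 * A ^ 2 := by
    have h1 : (T : ℝ) ^ 2 / (T : ℝ) ^ 32 ≤ 1 := by
      rw [div_le_one (by positivity)]
      exact pow_le_pow_right₀ (by linarith) (by norm_num)
    have h2 : ((2 : ℝ) ^ (k + 6)) ^ 2 = 4096 * A ^ 2 := by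
      rw [hA, pow_add]; ring
    linarith
  have s5 : ((T : ℝ) ^ 2 / (T : ℝ) ^ 32 + ((2 : ℝ) ^ (k + 6)) ^ 2) *
      ∑ y ∈ Finset.Ico (T ^ 8) (T ^ 40 + 1), 1 / (y : ℝ) ≤ (1 + 4096 * A ^ 2) * (41 * A) :=
    mul_le_mul s4 s3 s3' (by positivity)
  have s6 : (1 : ℝ) + 2 + (1 + 4096 * A ^ 2) * (41 * A) ≤ 200000 * A ^ 3 := by
    nlinarith [mul_nonneg (by linarith : (0 : ℝ) ≤ A - 16) (by positivity : (0 : ℝ) ≤ A ^ 2),
      mul_nonneg (by linarith : (0 : ℝ) ≤ A - 16) (by positivity : (0 : ℝ) ≤ A)]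
  rw [← hA]
  linarith

theorem card_V_le (Z : ℕ) : ((V Z).card : ℝ) ≤ (Z : ℝ) ^ 2 := by
  have h : (V Z).card ≤ Z * Z := by
    unfold V
    refine (Finset.card_filter_le _ _).trans ?_
    rw [Finset.card_product]
    simp
  calc ((V Z).card : ℝ) ≤ ((Z * Z : ℕ) : ℝ) := by exact_mod_cast h
    _ = (Z : ℝ) ^ 2 := by push_cast; ring

theorem tc_le {v : ℕ × ℕ} {a b M : ℕ} : tc v a b M ≤ M := by
  classical
  unfold tc
  refine (Finset.card_filter_le _ _).trans ?_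
  rw [Finset.card_range]

theorem scale_bound {C : ℕ} (hC : BB C) {k0 : ℕ} (hk0 : 4 ≤ k0)
    (hCk : C ≤ 2 ^ 2 ^ k0) (k : ℕ) (hk : k0 ≤ k) : ∀ (Z a T : ℕ), T = 2 ^ 2 ^ k →
    2 ^ (1024 * (a + T) + C * T) ≤ Z →
    ∑ v ∈ V Z, (tc v a (a + T) (T ^ 40 + 1) : ℝ) ≤
      ((((2 ^ 2 ^ k0 : ℕ) : ℝ) ^ 40 + 1) + 200001 * C * (1 - 1 / 2 ^ k)) * T * (Z : ℝ) ^ 2 := by
  induction k, hk using Nat.le_induction with
  | base =>
    intro Z a T hT hZ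
    have hT0 : 65536 ≤ T := by rw [hT]; exact T_ge hk0
    have hTR : (65536 : ℝ) ≤ T := by exact_mod_cast hT0
    rw [← hT]
    have h1 : ∑ v ∈ V Z, (tc v a (a + T) (T ^ 40 + 1) : ℝ) ≤ ∑ _v ∈ V Z, ((T : ℝ) ^ 40 + 1) := by
      apply Finset.sum_le_sum
      intro v _
      have : tc v a (a + T) (T ^ 40 + 1) ≤ T ^ 40 + 1 := tc_le
      exact_mod_cast this
    refine h1.trans ?_
    rw [Finset.sum_const, nsmul_eq_mul]
    have h2 := card_V_le Z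
    have h3 : (0 : ℝ) ≤ 200001 * C * (1 - 1 / 2 ^ k0) := by
      have : (1 : ℝ) / 2 ^ k0 ≤ 1 := by
        rw [div_le_one (by positivity)]
        exact one_le_pow₀ (by norm_num)
      have : (0 : ℝ) ≤ 1 - 1 / 2 ^ k0 := by linarith
      positivity
    calc ((V Z).card : ℝ) * ((T : ℝ) ^ 40 + 1) ≤ (Z : ℝ) ^ 2 * ((T : ℝ) ^ 40 + 1) :=
          mul_le_mul_of_nonneg_right h2 (by positivity)
      _ ≤ (((T : ℝ) ^ 40 + 1) + 200001 * C * (1 - 1 / 2 ^ k0)) * 1 * (Z : ℝ) ^ 2 := by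
          nlinarith [mul_nonneg h3 (by positivity : (0 : ℝ) ≤ (Z : ℝ) ^ 2)]
      _ ≤ _ := by
          apply mul_le_mul_of_nonneg_right _ (by positivity)
          apply mul_le_mul_of_nonneg_left _ (by positivity)
          linarith
  | succ k hk ih =>
    intro Z a T' hT' hZ
    obtain ⟨T, hT⟩ : ∃ T, T = 2 ^ 2 ^ k := ⟨_, rfl⟩
    have hk4 : 4 ≤ k := hk0.trans hk
    have hT0 : 65536 ≤ T := by rw [hT]; exact T_ge hk4
    have hTR : (65536 : ℝ) ≤ T := by exact_mod_cast hT0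
    have hTT : T' = T * T := by
      rw [hT', hT, ← pow_add]
      congr 1
      rw [pow_succ]; ring
    have hCT : C ≤ T := by
      rw [hT]
      refine hCk.trans (Nat.pow_le_pow_right (by norm_num) ?_)
      exact Nat.pow_le_pow_right (by norm_num) hk
    have hTT' : T ≤ T' := by rw [hTT]; nlinarith
    have hsub : ∀ j < T, 2 ^ (1024 * (a + j * T + T) + C * T) ≤ Z := by
      intro j hj
      refine le_trans (Nat.pow_le_pow_right (by norm_num) ?_) hZ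
      have h1 : j * T + T ≤ T * T := by nlinarith
      have h2 : C * T ≤ C * T' := Nat.mul_le_mul_left _ hTT'
      rw [hTT] at h2 ⊢
      omega
    have hst : ∀ j, a + (j + 1) * T = a + j * T + T := fun j => by ring
    have hrec := rec_step (Z := Z) (a := a) (T := T) (n := T) (M' := T ^ 40) (y0 := T' ^ 8)
      (M := T' ^ 40 + 1) (C * (Z : ℝ) ^ 2 * (1 / (T : ℝ)) ^ 30)
      (C * (Z : ℝ) ^ 2 * (200000 * ((2 : ℝ) ^ (k + 1)) ^ 3))
      (by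
        refine le_trans (Nat.pow_le_pow_right (by norm_num) ?_) hZ
        omega)
      (by
        intro j hj
        rw [hst]
        exact D_bound hC hk4 hT hCT (hsub j hj))
      (by
        rw [← hTT]
        exact E_bound hC (by omega) hT' (hCT.trans hTT') hZ)
    rw [← hTT] at hrec
    have hs1 : ∑ j ∈ Finset.range T, ∑ v ∈ V Z,
        (tc v (a + j * T) (a + (j + 1) * T) (T ^ 40 + 1) : ℝ) ≤
        T * (((((2 ^ 2 ^ k0 : ℕ) : ℝ) ^ 40 + 1) + 200001 * C * (1 - 1 / 2 ^ k)) * T *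
          (Z : ℝ) ^ 2) := by
      calc _ ≤ ∑ _j ∈ Finset.range T, (((((2 ^ 2 ^ k0 : ℕ) : ℝ) ^ 40 + 1) +
            200001 * C * (1 - 1 / 2 ^ k)) * T * (Z : ℝ) ^ 2) := by
            apply Finset.sum_le_sum
            intro j hj
            rw [hst]
            exact ih Z (a + j * T) T hT (hsub j (Finset.mem_range.1 hj))
        _ = _ := by rw [Finset.sum_const, Finset.card_range, nsmul_eq_mul]
    have hx2 : ((T' ^ 8 : ℕ) : ℝ) * (T * (C * (Z : ℝ) ^ 2 * (1 / (T : ℝ)) ^ 30)) ≤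
        C * (Z : ℝ) ^ 2 := by
      have hTpos : (0 : ℝ) < T := by linarith
      have h1 : ((T' ^ 8 : ℕ) : ℝ) = (T : ℝ) ^ 16 := by
        rw [hTT]; push_cast; ring
      rw [h1]
      have h2 : (T : ℝ) ^ 17 * (1 / (T : ℝ)) ^ 30 ≤ 1 := by
        rw [div_pow, one_pow, ← mul_div_assoc, mul_one, div_le_one (by positivity)]
        exact pow_le_pow_right₀ (by linarith) (by norm_num)
      calc (T : ℝ) ^ 16 * (T * (C * (Z : ℝ) ^ 2 * (1 / (T : ℝ)) ^ 30)) =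
            C * (Z : ℝ) ^ 2 * ((T : ℝ) ^ 17 * (1 / (T : ℝ)) ^ 30) := by ring
        _ ≤ C * (Z : ℝ) ^ 2 * 1 := mul_le_mul_of_nonneg_left h2 (by positivity)
        _ = _ := by ring
    obtain ⟨A, hA⟩ : ∃ A : ℝ, A = (2 : ℝ) ^ (k + 1) := ⟨_, rfl⟩
    have hA1 : (16 : ℝ) ≤ A := by
      rw [hA]
      calc (16 : ℝ) = 2 ^ 4 := by norm_num
        _ ≤ 2 ^ (k + 1) := pow_le_pow_right₀ (by norm_num) (by omega)
    have hAT : A ^ 4 ≤ T' := by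
      have h1 := pow4_le (a := 2 ^ (k + 1)) (by
        calc 16 = 2 ^ 4 := by norm_num
          _ ≤ 2 ^ (k + 1) := Nat.pow_le_pow_right (by norm_num) (by omega))
      rw [← hT'] at h1
      rw [hA]
      exact_mod_cast h1
    have hA3 : A ^ 3 ≤ T' * (1 / 2 ^ (k + 1)) := by
      rw [← hA, mul_one_div, le_div_iff₀ (by linarith)]
      calc A ^ 3 * A = A ^ 4 := by ring
        _ ≤ _ := hAT
    have hA31 : 1 ≤ A ^ 3 := one_le_pow₀ (by linarith)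
    have hTTR : (T' : ℝ) = T * T := by rw [hTT]; push_cast; ring
    rw [← hA] at hrec
    have hpk : (1 : ℝ) / 2 ^ k = 2 * (1 / 2 ^ (k + 1)) := by
      rw [pow_succ]
      field_simp
    have hCZ : (0 : ℝ) ≤ C * (Z : ℝ) ^ 2 := by positivity
    have hfin : C * (Z : ℝ) ^ 2 + C * (Z : ℝ) ^ 2 * (200000 * A ^ 3) ≤
        200001 * C * (1 / 2 ^ (k + 1)) * T' * (Z : ℝ) ^ 2 := by
      calc C * (Z : ℝ) ^ 2 + C * (Z : ℝ) ^ 2 * (200000 * A ^ 3) ≤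
            C * (Z : ℝ) ^ 2 * (200001 * A ^ 3) := by nlinarith
        _ ≤ C * (Z : ℝ) ^ 2 * (200001 * (T' * (1 / 2 ^ (k + 1)))) := by
            apply mul_le_mul_of_nonneg_left _ hCZ
            linarith
        _ = _ := by ring
    calc ∑ v ∈ V Z, (tc v a (a + T') (T' ^ 40 + 1) : ℝ) ≤ _ := hrec
      _ ≤ T * (((((2 ^ 2 ^ k0 : ℕ) : ℝ) ^ 40 + 1) + 200001 * C * (1 - 1 / 2 ^ k)) * T *
          (Z : ℝ) ^ 2) + C * (Z : ℝ) ^ 2 + C * (Z : ℝ) ^ 2 * (200000 * A ^ 3) := by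
          exact add_le_add (add_le_add hs1 hx2) le_rfl
      _ ≤ T * (((((2 ^ 2 ^ k0 : ℕ) : ℝ) ^ 40 + 1) + 200001 * C * (1 - 1 / 2 ^ k)) * T *
          (Z : ℝ) ^ 2) + 200001 * C * (1 / 2 ^ (k + 1)) * T' * (Z : ℝ) ^ 2 := by linarith
      _ = _ := by
          rw [hTTR, hpk]
          ring

end BAC
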