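import Pool.Agent.BAC.MainB

namespace BAC

theorem can_zero {v : ℕ × ℕ} (h1 : 0 < v.1) (h2 : 0 < v.2) : Can v 0 (1024 * 0 + 1) Fr.one v := by
  refine ⟨⟨by simp [Fr.one], h1, h2, by simp [Fr.one], by simp [Fr.one]⟩, ?_, ?_, ?_⟩ <;>
    simp [Fr.one, Fr.c1, Fr.c2, Fr.sz]

theorem good_trivial {v : ℕ × ℕ} (hv : Nat.Coprime v.1 v.2) (h1 : 0 < v.1) (h2 : 0 < v.2) {n : ℕ}
    (hn : v.1 + v.2 < 2 ^ (n + 1)) : Good v ((v.1 + v.2) * n) := by
  have hcan := can_zero h1 h2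
  obtain ⟨F', l, hrun, hl⟩ := run_final hv hcan.toHas
  obtain ⟨w, hw1, hw2⟩ := hrun.word
  refine ⟨w, hw1, ?_⟩
  obtain ⟨pw, pn⟩ := hrun.pairwise hcan.toHas
  rw [hw2]
  by_contra hlen
  have hsz : Fr.one.sz = 2 := by simp [Fr.one, Fr.sz, Fr.c1, Fr.c2]
  obtain ⟨⟨r, hr, hrs⟩, _⟩ := list_lemma pw pn (m0 := 1) (m1 := n + 1) (Y := v.1 + v.2) (K := 0)
    (by omega) (by
      intro r hr
      obtain ⟨a1, a2, a3⟩ := hl r hr
      rw [hsz] at a1
      exact ⟨by simpa using a1, a2.trans hn⟩) (by omega) (by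
      have : n + 1 - 1 = n := by omega
      rw [this]
      omega)
  have h3 := (hl r hr).2.1
  have h4 := pn r hr
  have h5 : v.1 + v.2 ≤ (v.1 + v.2) * r.n := Nat.le_mul_of_pos_right _ (by omega)
  omega

theorem final_good {v : ℕ × ℕ} (hv : Nat.Coprime v.1 v.2) (h1 : 0 < v.1) (h2 : 0 < v.2)
    {b c n Y : ℕ} (hr : Reach v 0 b c) (hY : 1 ≤ Y) (hn : v.1 + v.2 < 2 ^ (n + 1))
    (hbn : 1024 * b + 1 ≤ n + 1)
    (hob : ∀ m, 1024 * b + 1 ≤ m → m ≤ n → ¬ ∃ ε, ObE v m b Y ε) :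
    Good v (c + Y * (n + 1 - (1024 * b + 1))) := by
  obtain ⟨F, y, F', y', l, c1, c2, c3, c4⟩ := hr
  obtain ⟨e1, e2⟩ := can_unique hv c1 (can_zero h1 h2)
  subst e1 e2
  obtain ⟨F'', l', hrun, hl'⟩ := run_final hv c2.toHas
  obtain ⟨w, hw1, hw2⟩ := (c3.trans hrun).word
  refine ⟨w, hw1, ?_⟩
  obtain ⟨pw, pn⟩ := hrun.pairwise c2.toHas
  have hlen : l'.length ≤ Y * (n + 1 - (1024 * b + 1)) := by
    by_contra hlen
    obtain ⟨⟨r, hr, hrs⟩, _⟩ := list_lemma pw pn (m0 := 1024 * b + 1) (m1 := n + 1) (Y := Y)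
      (K := 0) hbn (by
        intro r hr
        obtain ⟨a1, a2, a3⟩ := hl' r hr
        exact ⟨c2.le.trans a1, a2.trans hn⟩) hY (by omega)
    obtain ⟨a1, a2, a3⟩ := hl' r hr
    have hs : r.s ≠ 0 := by omega
    have g1 : 1024 * b + 1 ≤ Nat.log 2 r.s :=
      (Nat.le_log_iff_pow_le (by norm_num) hs).2 (c2.le.trans a1)
    have g2 : Nat.log 2 r.s < n + 1 :=
      (Nat.log_lt_iff_lt_pow (by norm_num) hs).2 (a2.trans hn)
    have g3 : 2 ^ (Nat.log 2 r.s) ≤ r.s := Nat.pow_log_le_self 2 hs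
    have g4 : r.s < 2 ^ (Nat.log 2 r.s + 1) := Nat.lt_pow_succ_log_self (by norm_num) _
    have ho := hrun.obE hv c2.toHas r hr (Nat.log 2 r.s) Y g3 (by
      have : 2 ^ (Nat.log 2 r.s + 2) = 2 * 2 ^ (Nat.log 2 r.s + 1) := by ring
      omega)
    rw [a3] at ho
    exact hob _ g1 (by omega) ⟨_, ho⟩
  rw [hw2, List.length_append]
  omega

theorem find_scale {n k0 : ℕ} (h : (2 ^ 2 ^ k0) ^ 4 ≤ n) :
    ∃ k, k0 ≤ k ∧ (2 ^ 2 ^ k) ^ 4 ≤ n ∧ n < (2 ^ 2 ^ (k + 1)) ^ 4 := by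
  by_contra hne
  push Not at hne
  have hall : ∀ k, k0 ≤ k → (2 ^ 2 ^ k) ^ 4 ≤ n := by
    intro k hk
    induction k, hk using Nat.le_induction with
    | base => exact h
    | succ k hk ih => exact hne k hk ih
  have h1 := hall (k0 + n) (by omega)
  have h2 : n < 2 ^ 2 ^ (k0 + n) := by
    have h3 : k0 + n < 2 ^ (k0 + n) := Nat.lt_two_pow_self
    have h4 : 2 ^ (k0 + n) < 2 ^ 2 ^ (k0 + n) := Nat.lt_two_pow_self
    omega
  have h5 : 2 ^ 2 ^ (k0 + n) ≤ (2 ^ 2 ^ (k0 + n)) ^ 4 := Nat.le_self_pow (by norm_num) _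
  omega

open scoped Classical in
theorem main_count (η : ℝ) (hη : 0 < η) : ∃ C : ℕ, ∀ Z : ℕ,
    (((V Z).filter (fun v => ¬ Good v (C * (Nat.log 2 Z + 1)))).card : ℝ) ≤ η * (Z : ℝ) ^ 2 := by
  obtain ⟨C0, hC1, hC⟩ := block_bound
  have hBB : BB C0 := hC
  clear hC
  -- choice of the base scale
  obtain ⟨k0, hk4, hk1, hk2⟩ : ∃ k0 : ℕ, 4 ≤ k0 ∧ C0 ≤ 2 ^ 2 ^ k0 ∧
      4 * (C0 : ℝ) / η ≤ ((2 ^ 2 ^ k0 : ℕ) : ℝ) := by
    obtain ⟨N, hN⟩ := exists_nat_ge (4 * (C0 : ℝ) / η)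
    refine ⟨4 + C0 + N, by omega, ?_, ?_⟩
    · have h3 : 4 + C0 + N < 2 ^ (4 + C0 + N) := Nat.lt_two_pow_self
      have h4 : 2 ^ (4 + C0 + N) < 2 ^ 2 ^ (4 + C0 + N) := Nat.lt_two_pow_self
      omega
    · refine hN.trans ?_
      have h3 : 4 + C0 + N < 2 ^ (4 + C0 + N) := Nat.lt_two_pow_self
      have h4 : 2 ^ (4 + C0 + N) < 2 ^ 2 ^ (4 + C0 + N) := Nat.lt_two_pow_self
      have h5 : N ≤ 2 ^ 2 ^ (4 + C0 + N) := by omega
      exact_mod_cast h5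
  obtain ⟨α, hα⟩ : ∃ α : ℝ, α = (((2 ^ 2 ^ k0 : ℕ) : ℝ) ^ 40 + 1) + 200001 * C0 := ⟨_, rfl⟩
  have hα0 : 0 < α := by rw [hα]; positivity
  have hscale : ∀ k, k0 ≤ k → ∀ (Z a T : ℕ), T = 2 ^ 2 ^ k →
      2 ^ (1024 * (a + T) + C0 * T) ≤ Z →
      ∑ v ∈ V Z, (tc v a (a + T) (T ^ 40 + 1) : ℝ) ≤ α * T * (Z : ℝ) ^ 2 := by
    intro k hk Z a T hT hZ
    refine (scale_bound hBB hk4 hk1 k hk Z a T hT hZ).trans ?_
    apply mul_le_mul_of_nonneg_right _ (by positivity)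
    apply mul_le_mul_of_nonneg_right _ (by positivity)
    rw [hα]
    have h1 : (0 : ℝ) ≤ 1 / 2 ^ k := by positivity
    have h2 : (0 : ℝ) ≤ C0 := Nat.cast_nonneg _
    nlinarith [mul_nonneg h1 h2]
  obtain ⟨lam, hlam⟩ := exists_nat_ge (4 * α / η)
  obtain ⟨K1', hK1'⟩ := exists_nat_ge (256 / η)
  obtain ⟨K1, hK8, hK1⟩ : ∃ K1 : ℕ, 8 ≤ K1 ∧ 256 / η ≤ (K1 : ℝ) := by
    refine ⟨K1' + 8, by omega, ?_⟩
    push_cast
    linarith
  have hlamη : 4 * α ≤ lam * η := by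
    rwa [div_le_iff₀ hη] at hlam
  have hlam0 : (0 : ℝ) < lam := by
    have : 0 < 4 * α / η := by positivity
    linarith
  have hK1η : 256 ≤ K1 * η := by
    rwa [div_le_iff₀ hη] at hK1
  obtain ⟨N0, hN0⟩ : ∃ N0, N0 = (2 ^ 2 ^ k0) ^ 4 := ⟨_, rfl⟩
  refine ⟨lam + K1 * (C0 + 1024) ^ 2 + 2 ^ N0, ?_⟩
  intro Z
  obtain ⟨n, hn⟩ : ∃ n, n = Nat.log 2 Z := ⟨_, rfl⟩
  rw [← hn]
  have hZlt : Z < 2 ^ (n + 1) := by rw [hn]; exact Nat.lt_pow_succ_log_self (by norm_num) _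
  by_cases hsmall : n < N0
  · have hempty : (V Z).filter (fun v => ¬ Good v ((lam + K1 * (C0 + 1024) ^ 2 + 2 ^ N0) *
        (n + 1))) = ∅ := by
      rw [Finset.filter_eq_empty_iff]
      intro v hv hng
      apply hng
      obtain ⟨p1, p2, hcop, hlo, hup⟩ := mem_V hv
      obtain ⟨w, hw1, hw2⟩ := good_trivial hcop p1 p2 (n := n) (by omega)
      refine ⟨w, hw1, hw2.trans ?_⟩
      have h1 : v.1 + v.2 ≤ 2 ^ N0 := by
        have : 2 ^ (n + 1) ≤ 2 ^ N0 := Nat.pow_le_pow_right (by norm_num) (by omega)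
        omega
      apply Nat.mul_le_mul _ (by omega)
      omega
    rw [hempty]
    simp only [Finset.card_empty, Nat.cast_zero]
    positivity
  push Not at hsmall
  rw [hN0] at hsmall
  obtain ⟨k, hk, hk3, hk5⟩ := find_scale hsmall
  obtain ⟨T, hT⟩ : ∃ T, T = 2 ^ 2 ^ k := ⟨_, rfl⟩
  have hk4' : 4 ≤ k := hk4.trans hk
  have hT0 : 65536 ≤ T := by rw [hT]; exact T_ge hk4'
  have hTR : (65536 : ℝ) ≤ T := by exact_mod_cast hT0
  have hTT : 2 ^ 2 ^ (k + 1) = T * T := by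
    rw [hT, ← pow_add]
    congr 1
    rw [pow_succ]; ring
  rw [hTT] at hk5
  rw [← hT] at hk3
  have hTk0 : 2 ^ 2 ^ k0 ≤ T := by
    rw [hT]
    refine Nat.pow_le_pow_right (by norm_num) ?_
    exact Nat.pow_le_pow_right (by norm_num) hk
  have hCT : C0 ≤ T := hk1.trans hTk0
  have hT2n : T ^ 2 ≤ n := le_trans (Nat.pow_le_pow_right (by omega) (by norm_num)) hk3
  have hCTn : C0 * T ≤ n := by
    refine le_trans ?_ hT2n
    rw [sq]; exact Nat.mul_le_mul_right _ hCT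
  have hCT1 : 1 ≤ C0 * T := Nat.mul_pos hC1 (by omega)
  have hZge : 2 ^ n ≤ Z := by
    rw [hn]
    apply Nat.pow_log_le_self
    rintro rfl
    simp at hn
    omega
  obtain ⟨b, hb⟩ : ∃ b, b = (n - C0 * T) / (1024 * T) := ⟨_, rfl⟩
  have hb1 : b * (1024 * T) ≤ n - C0 * T := by rw [hb]; exact Nat.div_mul_le_self _ _
  have hb2 : n - C0 * T < (b + 1) * (1024 * T) := by
    rw [hb]
    have h3 := Nat.div_add_mod (n - C0 * T) (1024 * T)
    have h4 := Nat.mod_lt (n - C0 * T) (show 0 < 1024 * T by omega)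
    nlinarith
  obtain ⟨W, hW⟩ : ∃ W, W = b * T := ⟨_, rfl⟩
  have hW1 : b * (1024 * T) = 1024 * W := by rw [hW]; ring
  have hW2 : (b + 1) * (1024 * T) = 1024 * W + 1024 * T := by rw [hW]; ring
  rw [hW1] at hb1
  rw [hW2] at hb2
  obtain ⟨d, hd⟩ : ∃ d, d = n - 1024 * W := ⟨_, rfl⟩
  have hd1 : 1 ≤ d := by omega
  have hd2 : d ≤ (C0 + 1024) * T := by
    have : (C0 + 1024) * T = C0 * T + 1024 * T := by ring
    omega
  have hd3 : n + 1 - (1024 * W + 1) = d := by omega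
  obtain ⟨Y, hY⟩ : ∃ Y, Y = K1 * d := ⟨_, rfl⟩
  have hY8 : 8 ≤ Y := by rw [hY]; nlinarith
  -- blocks
  have hblockZ : ∀ i < b, 2 ^ (1024 * (i * T + T) + C0 * T) ≤ Z := by
    intro i hi
    refine le_trans (Nat.pow_le_pow_right (by norm_num) ?_) hZge
    have h1 : i * T + T ≤ W := by
      rw [hW]
      calc i * T + T = (i + 1) * T := by ring
        _ ≤ b * T := Nat.mul_le_mul_right _ hi
    omega
  have hst : ∀ j, (j + 1) * T = j * T + T := fun j => by ring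
  -- bad events
  obtain ⟨B1, hB1⟩ : ∃ B : Finset (ℕ × ℕ), B = (V Z).filter (fun v => lam * n <
    ∑ i ∈ Finset.range b, tc v (0 + i * T) (0 + (i + 1) * T) (T ^ 40 + 1)) := ⟨_, rfl⟩
  obtain ⟨B2, hB2⟩ : ∃ B : Finset (ℕ × ℕ), B = (V Z).filter (fun v => ∃ i ∈ Finset.range b,
    ¬ Reach v (0 + i * T) (0 + (i + 1) * T) (T ^ 40)) := ⟨_, rfl⟩
  obtain ⟨P3, hP3⟩ : ∃ P : ℕ × ℕ → Prop, ∀ v, P v ↔
    ∃ m ∈ Finset.Icc (1024 * W + 1) n, ∃ ε, ObE v m W Y ε := ⟨_, fun _ => Iff.rfl⟩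
  obtain ⟨B3, hB3⟩ : ∃ B : Finset (ℕ × ℕ), B = (V Z).filter (fun v => P3 v) := ⟨_, rfl⟩
  have hnR : (0 : ℝ) < n := by
    have : 0 < n := by omega
    exact_mod_cast this
  have hbT : (b : ℝ) * T ≤ n := by
    have : b * T ≤ n := by rw [← hW]; omega
    exact_mod_cast this
  have hZ2 : (0 : ℝ) ≤ (Z : ℝ) ^ 2 := by positivity
  have c1 : (B1.card : ℝ) ≤ η / 4 * (Z : ℝ) ^ 2 := by
    have h1 : (B1.card : ℝ) * (lam * n) ≤ ∑ v ∈ V Z, ∑ i ∈ Finset.range b,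
        (tc v (0 + i * T) (0 + (i + 1) * T) (T ^ 40 + 1) : ℝ) := by
      calc (B1.card : ℝ) * (lam * n) = ∑ _v ∈ B1, ((lam : ℝ) * n) := by
            rw [Finset.sum_const, nsmul_eq_mul]
        _ ≤ ∑ v ∈ B1, ∑ i ∈ Finset.range b,
            (tc v (0 + i * T) (0 + (i + 1) * T) (T ^ 40 + 1) : ℝ) := by
            apply Finset.sum_le_sum
            intro v hv
            rw [hB1, Finset.mem_filter] at hv
            exact_mod_cast hv.2.le
        _ ≤ _ := by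
            apply Finset.sum_le_sum_of_subset_of_nonneg
            · rw [hB1]; exact Finset.filter_subset _ _
            · intro v _ _
              exact Finset.sum_nonneg (fun _ _ => Nat.cast_nonneg _)
    rw [Finset.sum_comm] at h1
    have h2 : ∑ i ∈ Finset.range b, ∑ v ∈ V Z,
        (tc v (0 + i * T) (0 + (i + 1) * T) (T ^ 40 + 1) : ℝ) ≤ b * (α * T * (Z : ℝ) ^ 2) := by
      calc _ ≤ ∑ _i ∈ Finset.range b, α * T * (Z : ℝ) ^ 2 := by
            apply Finset.sum_le_sum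
            intro i hi
            rw [zero_add, zero_add, hst]
            exact hscale k hk Z (i * T) T hT (hblockZ i (Finset.mem_range.1 hi))
        _ = _ := by rw [Finset.sum_const, Finset.card_range, nsmul_eq_mul]
    have h3 : (b : ℝ) * (α * T * (Z : ℝ) ^ 2) ≤ α * n * (Z : ℝ) ^ 2 := by
      calc (b : ℝ) * (α * T * (Z : ℝ) ^ 2) = α * (Z : ℝ) ^ 2 * (b * T) := by ring
        _ ≤ α * (Z : ℝ) ^ 2 * n := mul_le_mul_of_nonneg_left hbT (by positivity)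
        _ = _ := by ring
    have h4 : ((B1.card : ℝ) * lam) * n ≤ (α * (Z : ℝ) ^ 2) * n := by
      calc _ = (B1.card : ℝ) * (lam * n) := by ring
        _ ≤ _ := h1
        _ ≤ _ := h2
        _ ≤ _ := h3
        _ = _ := by ring
    have h5 : (B1.card : ℝ) * lam ≤ α * (Z : ℝ) ^ 2 := le_of_mul_le_mul_right h4 hnR
    have h6 : (B1.card : ℝ) * lam ≤ (η / 4 * (Z : ℝ) ^ 2) * lam := by
      nlinarith [mul_le_mul_of_nonneg_right hlamη hZ2]
    exact le_of_mul_le_mul_right h6 hlam0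
  have c2 : (B2.card : ℝ) ≤ η / 4 * (Z : ℝ) ^ 2 := by
    have h1 := card_le_cover B2 (Finset.range b)
      (fun i => (V Z).filter (fun v => ¬ Reach v (0 + i * T) (0 + (i + 1) * T) (T ^ 40)))
      (C0 * (Z : ℝ) ^ 2 * (1 / (T : ℝ)) ^ 30) (by
        intro v hv
        rw [hB2, Finset.mem_filter] at hv
        obtain ⟨hv, i, hi, hr⟩ := hv
        exact ⟨i, hi, Finset.mem_filter.2 ⟨hv, hr⟩⟩) (by
        intro i hi
        rw [zero_add, zero_add, hst]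
        exact D_bound hBB hk4' hT hCT (hblockZ i (Finset.mem_range.1 hi)))
    rw [Finset.card_range] at h1
    refine h1.trans ?_
    have hb8 : (b : ℝ) ≤ (T : ℝ) ^ 8 := by
      have h2 : b ≤ (T * T) ^ 4 := by
        have : b ≤ b * T := Nat.le_mul_of_pos_right _ (by omega)
        omega
      calc (b : ℝ) ≤ (((T * T) ^ 4 : ℕ) : ℝ) := by exact_mod_cast h2
        _ = _ := by push_cast; ring
    have hTpos : (0 : ℝ) < T := by linarith
    have h3 : (T : ℝ) ^ 8 * (1 / (T : ℝ)) ^ 30 ≤ 1 / T := by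
      rw [div_pow, one_pow, ← mul_div_assoc, mul_one, div_le_div_iff₀ (by positivity) hTpos]
      calc (T : ℝ) ^ 8 * T = (T : ℝ) ^ 9 := by ring
        _ ≤ (T : ℝ) ^ 30 := pow_le_pow_right₀ (by linarith) (by norm_num)
        _ = _ := by ring
    have h4 : (C0 : ℝ) * (1 / T) ≤ η / 4 := by
      have h5 : 4 * (C0 : ℝ) / η ≤ T := hk2.trans (by exact_mod_cast hTk0)
      rw [div_le_iff₀ hη] at h5
      rw [mul_one_div, div_le_iff₀ hTpos]
      linarith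
    calc (b : ℝ) * (C0 * (Z : ℝ) ^ 2 * (1 / (T : ℝ)) ^ 30) ≤
          (T : ℝ) ^ 8 * (C0 * (Z : ℝ) ^ 2 * (1 / (T : ℝ)) ^ 30) :=
            mul_le_mul_of_nonneg_right hb8 (by positivity)
      _ = C0 * (Z : ℝ) ^ 2 * ((T : ℝ) ^ 8 * (1 / (T : ℝ)) ^ 30) := by ring
      _ ≤ C0 * (Z : ℝ) ^ 2 * (1 / T) := mul_le_mul_of_nonneg_left h3 (by positivity)
      _ = C0 * (1 / T) * (Z : ℝ) ^ 2 := by ring
      _ ≤ η / 4 * (Z : ℝ) ^ 2 := mul_le_mul_of_nonneg_right h4 hZ2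
  have c3 : (B3.card : ℝ) ≤ η / 4 * (Z : ℝ) ^ 2 := by
    have hY0 : (0 : ℝ) < Y := by
      have : 0 < Y := by omega
      exact_mod_cast this
    have h1 := card_le_cover B3 (Finset.Icc (1024 * W + 1) n)
      (fun m => (V Z).filter (fun v => ∃ ε, ObE v m W Y ε))
      (64 * (Z : ℝ) ^ 2 / Y) (by
        intro v hv
        rw [hB3, Finset.mem_filter, hP3] at hv
        obtain ⟨hv, i, hi, hr⟩ := hv
        exact ⟨i, hi, Finset.mem_filter.2 ⟨hv, hr⟩⟩) (by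
        intro m hm
        rw [Finset.mem_Icc] at hm
        rw [le_div_iff₀ hY0]
        apply first_moment (by omega)
        calc 2 ^ (m + 3) = 8 * 2 ^ m := by ring
          _ ≤ Y * 2 ^ m := Nat.mul_le_mul_right _ hY8
          _ ≤ Y * 2 ^ n := Nat.mul_le_mul_left _ (Nat.pow_le_pow_right (by norm_num) hm.2)
          _ ≤ Y * Z := Nat.mul_le_mul_left _ hZge)
    rw [Nat.card_Icc, hd3] at h1
    refine h1.trans ?_
    have hd0 : (0 : ℝ) < d := by exact_mod_cast hd1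
    have hK0 : (0 : ℝ) < K1 := by
      have : 0 < K1 := by omega
      exact_mod_cast this
    have h2 : (d : ℝ) * (64 * (Z : ℝ) ^ 2 / Y) = 64 * (Z : ℝ) ^ 2 / K1 := by
      rw [hY]
      push_cast
      field_simp
    rw [h2, div_le_iff₀ hK0]
    nlinarith [mul_le_mul_of_nonneg_right hK1η hZ2]
  have hincl : (V Z).filter (fun v => ¬ Good v ((lam + K1 * (C0 + 1024) ^ 2 + 2 ^ N0) *
        (n + 1))) ⊆ B1 ∪ (B2 ∪ B3) := by
    intro v hv
    rw [Finset.mem_filter] at hv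
    obtain ⟨hvV, hng⟩ := hv
    by_contra hnb
    rw [Finset.mem_union, Finset.mem_union] at hnb
    push Not at hnb
    obtain ⟨n1, n2, n3⟩ := hnb
    obtain ⟨p1, p2, hcop, hlo, hup⟩ := mem_V hvV
    apply hng
    have hgood : ∀ i < b, Reach v (0 + i * T) (0 + (i + 1) * T)
        (tc v (0 + i * T) (0 + (i + 1) * T) (T ^ 40 + 1)) := by
      intro i hi
      apply reach_of_tc_lt
      have hr : Reach v (0 + i * T) (0 + (i + 1) * T) (T ^ 40) := by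
        by_contra hr
        apply n2
        rw [hB2, Finset.mem_filter]
        exact ⟨hvV, i, Finset.mem_range.2 hi, hr⟩
      have := tc_le_of_reach (M := T ^ 40 + 1) hr
      omega
    have h0 : Reach v 0 0 0 := reach_self ⟨_, _, can_zero p1 p2⟩
    have hch := reach_chain hcop _ h0 b hgood
    rw [zero_add, ← hW] at hch
    have hsum : ∑ i ∈ Finset.range b, tc v (0 + i * T) (0 + (i + 1) * T) (T ^ 40 + 1) ≤
        lam * n := by
      by_contra hs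
      apply n1
      rw [hB1, Finset.mem_filter]
      exact ⟨hvV, by omega⟩
    obtain ⟨w, hw1, hw2⟩ := final_good (n := n) (Y := Y) hcop p1 p2 (hch.mono hsum) (by omega)
      (by omega) (by omega) (by
        intro m hm1 hm2 ho
        apply n3
        rw [hB3, Finset.mem_filter, hP3]
        exact ⟨hvV, m, Finset.mem_Icc.2 ⟨hm1, hm2⟩, ho⟩)
    refine ⟨w, hw1, hw2.trans ?_⟩
    rw [hd3, hY]
    have e1 : K1 * d * d ≤ K1 * (C0 + 1024) ^ 2 * n := by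
      calc K1 * d * d = K1 * (d * d) := by ring
        _ ≤ K1 * (((C0 + 1024) * T) * ((C0 + 1024) * T)) :=
            Nat.mul_le_mul_left _ (Nat.mul_le_mul hd2 hd2)
        _ = K1 * (C0 + 1024) ^ 2 * T ^ 2 := by ring
        _ ≤ _ := Nat.mul_le_mul_left _ hT2n
    calc lam * n + K1 * d * d ≤ lam * n + K1 * (C0 + 1024) ^ 2 * n := by omega
      _ = (lam + K1 * (C0 + 1024) ^ 2) * n := by ring
      _ ≤ _ := Nat.mul_le_mul (Nat.le_add_right _ _) (by omega)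
  have hcard := (Finset.card_le_card hincl).trans ((Finset.card_union_le _ _).trans
    (Nat.add_le_add_left (Finset.card_union_le _ _) _))
  have hcardR : (((V Z).filter (fun v => ¬ Good v ((lam + K1 * (C0 + 1024) ^ 2 + 2 ^ N0) *
        (n + 1)))).card : ℝ) ≤ B1.card + (B2.card + B3.card) := by exact_mod_cast hcard
  nlinarith [mul_nonneg hη.le hZ2]

end BAC
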