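import Mathlib

/-!
# Linear extension numbers of posets of width at most two
-/

namespace BAC

/-- at most two pairwise incomparable elements: every antichain has at most two elements -/
def WidthLeTwo (P : Type*) [PartialOrder P] : Prop :=
  ∀ s : Finset P, IsAntichain (· ≤ ·) (s : Set P) → s.card ≤ 2

/-- the number of linear extensions: total orders `r` on `P` such that `x ≤ y` implies `r x y` -/
noncomputable def linExt (P : Type*) [PartialOrder P] : ℕ :=
  Set.ncard {r : P → P → Prop | IsLinearOrder P r ∧ ∀ x y, x ≤ y → r x y}

/-- the least positive integer that is not the number of linear extensions of a poset of width at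
most two with `n` elements -/
noncomputable def M2 (n : ℕ) : ℕ :=
  sInf {k : ℕ | 1 ≤ k ∧ ∀ P : PartialOrder (Fin n), @WidthLeTwo (Fin n) P →
    k ≠ @linExt (Fin n) P}

end BAC
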