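import Pool.Agent.BAC.MainC

/-!
# Task PRIMES: `words_all` from `main_count`
-/

set_option autoImplicit false

namespace BAC

/-! ### words -/

theorem primes_wact_append (w w' : List Lt) (x : ℕ × ℕ) :
    wact (w ++ w') x = wact w (wact w' x) := by
  unfold wact
  rw [List.foldr_append]

theorem primes_wact_cons (a : Lt) (w : List Lt) (x : ℕ × ℕ) :
    wact (a :: w) x = a.act (wact w x) := rfl

theorem primes_wact_nil (x : ℕ × ℕ) : wact [] x = x := rfl

theorem primes_wcost_append (w w' : List Lt) : wcost (w ++ w') = wcost w + wcost w' := by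
  unfold wcost
  rw [List.map_append, List.sum_append]

theorem primes_wcost_cons (a : Lt) (w : List Lt) : wcost (a :: w) = a.cost + wcost w := by
  unfold wcost
  rw [List.map_cons, List.sum_cons]

/-- linearity -/
theorem primes_wact_smul (w : List Lt) (n : ℕ) (x : ℕ × ℕ) :
    wact w (n * x.1, n * x.2) = (n * (wact w x).1, n * (wact w x).2) := by
  induction w with
  | nil => rfl
  | cons a w ih =>
    rw [primes_wact_cons, primes_wact_cons, ih]
    obtain ⟨x1, x2⟩ := wact w x
    cases a <;> refine Prod.ext ?_ ?_ <;> simp only [Lt.act] <;> ring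

theorem primes_wval_J (w w' : List Lt) :
    wval (w ++ Lt.J :: w') = wval w * wval w' := by
  unfold wval
  rw [primes_wact_append, primes_wact_cons]
  set n := (wact w' (1, 1)).1 + (wact w' (1, 1)).2 with hn
  have h : Lt.J.act (wact w' (1, 1)) = (n * 1, n * 1) := by
    simp only [Lt.act, mul_one, hn]
  rw [h]
  have := primes_wact_smul w n (1, 1)
  simp only at this
  rw [this]
  ring

/-- transposition of letters -/
def primesTr : Lt → Lt
  | Lt.L => Lt.R
  | Lt.R => Lt.L
  | Lt.X => Lt.X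
  | Lt.J => Lt.J

/-- transposition of words -/
def primesTrW (w : List Lt) : List Lt := (w.map primesTr).reverse

theorem primes_tr_cost (a : Lt) : (primesTr a).cost = a.cost := by cases a <;> rfl

theorem primes_trW_cost (w : List Lt) : wcost (primesTrW w) = wcost w := by
  unfold primesTrW wcost
  rw [List.map_reverse, List.sum_reverse, List.map_map]
  congr 1
  apply List.map_congr_left
  intro a _
  exact primes_tr_cost a

theorem primes_dot_act (a : Lt) (x y : ℕ × ℕ) :
    (a.act x).1 * y.1 + (a.act x).2 * y.2 =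
      x.1 * ((primesTr a).act y).1 + x.2 * ((primesTr a).act y).2 := by
  cases a <;> simp only [Lt.act, primesTr] <;> ring

theorem primes_dot (w : List Lt) (x y : ℕ × ℕ) :
    (wact w x).1 * y.1 + (wact w x).2 * y.2 =
      x.1 * (wact (primesTrW w) y).1 + x.2 * (wact (primesTrW w) y).2 := by
  induction w generalizing y with
  | nil => rfl
  | cons a w ih =>
    rw [primes_wact_cons, primes_dot_act, ih]
    have : primesTrW (a :: w) = primesTrW w ++ [primesTr a] := by
      unfold primesTrW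
      rw [List.map_cons, List.reverse_cons]
    rw [this, primes_wact_append]
    rfl

theorem primes_wval_dot (w' w : List Lt) :
    wval (primesTrW w' ++ w) =
      (wact w' (1, 1)).1 * (wact w (1, 1)).1 + (wact w' (1, 1)).2 * (wact w (1, 1)).2 := by
  rw [primes_dot]
  unfold wval
  rw [primes_wact_append]
  ring

theorem primes_wact_replicate (n : ℕ) : wact (List.replicate n Lt.L) (1, 1) = (1, 1 + n) := by
  induction n with
  | zero => rfl
  | succ n ih =>
    rw [List.replicate_succ, primes_wact_cons, ih]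
    simp only [Lt.act, Prod.mk.injEq, true_and]
    ring

theorem primes_wcost_replicate (n : ℕ) : wcost (List.replicate n Lt.L) = n := by
  unfold wcost
  rw [List.map_replicate, List.sum_replicate]
  simp [Lt.cost]

/-! ### coprime pairs in a box -/

theorem primes_sum_sq (D : ℕ) (hD : 2 ≤ D) :
    ∑ d ∈ Finset.Icc 2 D, (1 : ℝ) / (d : ℝ) ^ 2 ≤ 3 / 4 - 1 / D := by
  induction D, hD using Nat.le_induction with
  | base => norm_num
  | succ D hD ih =>
    rw [← Finset.insert_Icc_right_eq_Icc_add_one (by omega), Finset.sum_insert (by simp)]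
    have hD' : (2 : ℝ) ≤ D := by exact_mod_cast hD
    have h : (1 : ℝ) / ((D + 1 : ℕ) : ℝ) ^ 2 ≤ 1 / D - 1 / ((D + 1 : ℕ) : ℝ) := by
      push_cast
      rw [div_sub_div _ _ (by positivity) (by positivity), div_le_div_iff₀ (by positivity)
        (by positivity)]
      nlinarith
    linarith

theorem primes_mult_card (N d : ℕ) (hd : 0 < d) :
    (((Finset.Ioc N (2 * N)).filter (fun x => d ∣ x)).card : ℝ) ≤ (N : ℝ) / d + 1 := by
  have h1 : ((Finset.Ioc N (2 * N)).filter (fun x => d ∣ x)).card ≤ 2 * N / d - N / d := by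
    rw [← Nat.card_Ioc]
    apply Finset.card_le_card_of_injOn (fun x => x / d)
    · intro x hx
      rw [Finset.mem_coe, Finset.mem_filter, Finset.mem_Ioc] at hx
      obtain ⟨⟨hx1, hx2⟩, e, rfl⟩ := hx
      rw [Finset.mem_coe, Finset.mem_Ioc]
      simp only [Nat.mul_div_cancel_left _ hd]
      constructor
      · rw [Nat.div_lt_iff_lt_mul hd]
        linarith
      · rw [Nat.le_div_iff_mul_le hd]
        linarith
    · intro x hx y hy hxy
      rw [Finset.mem_coe, Finset.mem_filter] at hx hy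
      obtain ⟨_, e, rfl⟩ := hx
      obtain ⟨_, f, rfl⟩ := hy
      simp only [Nat.mul_div_cancel_left _ hd] at hxy
      rw [hxy]
  have h2 : (2 * N / d : ℕ) ≤ N / d + N / d + 1 := by
    have : 2 * N / d < N / d + N / d + 2 := by
      rw [Nat.div_lt_iff_lt_mul hd]
      have := Nat.lt_div_mul_add hd (a := N)
      nlinarith
    exact Nat.lt_succ_iff.1 this
  have h3 : ((Finset.Ioc N (2 * N)).filter (fun x => d ∣ x)).card ≤ N / d + 1 := by
    refine h1.trans ?_
    rw [Nat.sub_le_iff_le_add]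
    linarith
  calc (((Finset.Ioc N (2 * N)).filter (fun x => d ∣ x)).card : ℝ) ≤ ((N / d + 1 : ℕ) : ℝ) := by
        exact_mod_cast h3
    _ ≤ (N : ℝ) / d + 1 := by
        push_cast
        have := Nat.cast_div_le (m := N) (n := d) (α := ℝ)
        linarith

/-- many coprime pairs in a box -/
theorem primes_coprime_box (N : ℕ) (hN : 10000 ≤ N) :
    (N : ℝ) ^ 2 / 8 ≤ (((Finset.Ioc N (2 * N) ×ˢ Finset.Ioc N (2 * N)).filter
      (fun u : ℕ × ℕ => Nat.Coprime u.1 u.2)).card : ℝ) := by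
  classical
  set box := Finset.Ioc N (2 * N) ×ˢ Finset.Ioc N (2 * N) with hbox
  set M : ℕ → Finset ℕ := fun d => (Finset.Ioc N (2 * N)).filter (fun x => d ∣ x) with hM
  have hcard : box.card = N ^ 2 := by
    rw [hbox, Finset.card_product, Nat.card_Ioc]
    have : 2 * N - N = N := by omega
    rw [this]
    ring
  have hsub : box.filter (fun u : ℕ × ℕ => ¬ Nat.Coprime u.1 u.2) ⊆
      (Finset.Icc 2 (2 * N)).biUnion (fun d => M d ×ˢ M d) := by
    intro u hu
    rw [Finset.mem_filter, hbox, Finset.mem_product] at hu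
    obtain ⟨⟨h1, h2⟩, hc⟩ := hu
    rw [Finset.mem_biUnion]
    have hu1 := Finset.mem_Ioc.1 h1
    have hu2 := Finset.mem_Ioc.1 h2
    refine ⟨Nat.gcd u.1 u.2, ?_, ?_⟩
    · rw [Finset.mem_Icc]
      have hpos : 0 < Nat.gcd u.1 u.2 := Nat.gcd_pos_of_pos_left _ (by omega)
      have hne : Nat.gcd u.1 u.2 ≠ 1 := hc
      have hle : Nat.gcd u.1 u.2 ≤ u.1 := Nat.gcd_le_left _ (by omega)
      omega
    · rw [Finset.mem_product]
      exact ⟨Finset.mem_filter.2 ⟨h1, Nat.gcd_dvd_left _ _⟩,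
        Finset.mem_filter.2 ⟨h2, Nat.gcd_dvd_right _ _⟩⟩
  have hbad : ((box.filter (fun u : ℕ × ℕ => ¬ Nat.Coprime u.1 u.2)).card : ℝ) ≤
      7 / 8 * (N : ℝ) ^ 2 := by
    have h1 : (box.filter (fun u : ℕ × ℕ => ¬ Nat.Coprime u.1 u.2)).card ≤
        ∑ d ∈ Finset.Icc 2 (2 * N), (M d).card ^ 2 := by
      refine (Finset.card_le_card hsub).trans (Finset.card_biUnion_le.trans (le_of_eq ?_))
      refine Finset.sum_congr rfl fun d _ => ?_
      rw [Finset.card_product, sq]
    have hN' : (10000 : ℝ) ≤ N := by exact_mod_cast hN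
    calc ((box.filter (fun u : ℕ × ℕ => ¬ Nat.Coprime u.1 u.2)).card : ℝ)
        ≤ ((∑ d ∈ Finset.Icc 2 (2 * N), (M d).card ^ 2 : ℕ) : ℝ) := by exact_mod_cast h1
      _ = ∑ d ∈ Finset.Icc 2 (2 * N), ((M d).card : ℝ) ^ 2 := by push_cast; rfl
      _ ≤ ∑ d ∈ Finset.Icc 2 (2 * N), (10 / 9 * (N : ℝ) ^ 2 * (1 / (d : ℝ) ^ 2) + 10) := by
          refine Finset.sum_le_sum fun d hd => ?_
          rw [Finset.mem_Icc] at hd
          have hd0 : (0 : ℝ) < d := by
            have : 0 < d := by omega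
            exact_mod_cast this
          have h2 : ((M d).card : ℝ) ≤ (N : ℝ) / d + 1 := primes_mult_card N d (by omega)
          have h3 : (0 : ℝ) ≤ ((M d).card : ℝ) := by positivity
          have h4 : 10 / 9 * (N : ℝ) ^ 2 * (1 / (d : ℝ) ^ 2) = 10 / 9 * ((N : ℝ) / d) ^ 2 := by
            rw [div_pow]; ring
          rw [h4]
          have h5 : ((M d).card : ℝ) ^ 2 ≤ ((N : ℝ) / d + 1) ^ 2 := by
            apply pow_le_pow_left₀ h3 h2
          nlinarith [sq_nonneg ((N : ℝ) / d - 9)]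
      _ = 10 / 9 * (N : ℝ) ^ 2 * ∑ d ∈ Finset.Icc 2 (2 * N), (1 / (d : ℝ) ^ 2) +
            10 * ((2 * N + 1 - 2 : ℕ) : ℝ) := by
          rw [Finset.sum_add_distrib, ← Finset.mul_sum, Finset.sum_const, Nat.card_Icc,
            nsmul_eq_mul]
          ring
      _ ≤ 10 / 9 * (N : ℝ) ^ 2 * (3 / 4) + 10 * (2 * N) := by
          have h6 := primes_sum_sq (2 * N) (by omega)
          have h7 : (0 : ℝ) ≤ 1 / ((2 * N : ℕ) : ℝ) := by positivity
          have h8 : ∑ d ∈ Finset.Icc 2 (2 * N), (1 : ℝ) / (d : ℝ) ^ 2 ≤ 3 / 4 := by linarith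
          have h9 : ((2 * N + 1 - 2 : ℕ) : ℝ) ≤ 2 * N := by
            have : 2 * N + 1 - 2 ≤ 2 * N := by omega
            exact_mod_cast this
          gcongr
      _ ≤ 7 / 8 * (N : ℝ) ^ 2 := by nlinarith
  have htot := Finset.card_filter_add_card_filter_not (s := box)
    (fun u : ℕ × ℕ => Nat.Coprime u.1 u.2)
  rw [hcard] at htot
  have htot' : ((box.filter (fun u : ℕ × ℕ => Nat.Coprime u.1 u.2)).card : ℝ) +
      ((box.filter (fun u : ℕ × ℕ => ¬ Nat.Coprime u.1 u.2)).card : ℝ) = (N : ℝ) ^ 2 := by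
    exact_mod_cast htot
  linarith

/-! ### the line `u · v = k` -/

theorem primes_exists_v (u1 u2 k : ℕ) (hc : Nat.Coprime u1 u2) (h1 : 0 < u1) (h2 : 0 < u2)
    (hk : u1 * u2 < k) : ∃ v1 v2 : ℕ, 0 < v1 ∧ 0 < v2 ∧ u1 * v1 + u2 * v2 = k := by
  have hb := Nat.gcd_eq_gcd_ab u1 u2
  rw [hc.gcd_eq_one] at hb
  set a := Nat.gcdA u1 u2
  set b := Nat.gcdB u1 u2
  have hu2 : (0 : ℤ) < u2 := by exact_mod_cast h2
  set r : ℤ := ((k : ℤ) * a - 1) % u2 with hr
  have hr0 : 0 ≤ r := Int.emod_nonneg _ hu2.ne'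
  have hr1 : r < u2 := Int.emod_lt_of_pos _ hu2
  obtain ⟨q, hq⟩ : ∃ q : ℤ, (k : ℤ) * a - 1 = r + u2 * q :=
    ⟨((k : ℤ) * a - 1) / u2, (Int.emod_add_mul_ediv _ _).symm⟩
  have hkey : (k : ℤ) - u1 * (r + 1) = u2 * (u1 * q + k * b) := by
    have : (r : ℤ) = k * a - 1 - u2 * q := by linarith
    rw [this]
    have h3 : (k : ℤ) = k * (u1 * a + u2 * b) := by rw [← hb]; push_cast; ring
    linear_combination h3
  have hpos : 0 < (k : ℤ) - u1 * (r + 1) := by
    have h4 : (u1 : ℤ) * (r + 1) ≤ u1 * u2 := by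
      apply mul_le_mul_of_nonneg_left _ (by positivity)
      linarith
    have h5 : ((u1 * u2 : ℕ) : ℤ) < k := by exact_mod_cast hk
    push_cast at h5
    linarith
  have hw : 0 < u1 * q + k * b := by
    rw [hkey] at hpos
    exact (pos_iff_pos_of_mul_pos hpos).1 hu2
  obtain ⟨v1, hv1⟩ := Int.eq_ofNat_of_zero_le (by linarith : 0 ≤ r + 1)
  obtain ⟨v2, hv2⟩ := Int.eq_ofNat_of_zero_le hw.le
  refine ⟨v1, v2, ?_, ?_, ?_⟩
  · have : (0 : ℤ) < v1 := by rw [← hv1]; linarith
    exact_mod_cast this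
  · have : (0 : ℤ) < v2 := by rw [← hv2]; exact hw
    exact_mod_cast this
  · have : (u1 : ℤ) * v1 + u2 * v2 = k := by
      rw [← hv1, ← hv2]
      linarith
    exact_mod_cast this

open scoped Classical in
/-- bad vectors -/
theorem primes_bad_count {η : ℝ} (hη : 0 < η) {C : ℕ}
    (hC : ∀ Z : ℕ, (((V Z).filter (fun v => ¬ Good v (C * (Nat.log 2 Z + 1)))).card : ℝ) ≤
      η * (Z : ℝ) ^ 2) (c M : ℕ) (hc : C * (Nat.log 2 M + 1) ≤ c)
    (s : Finset (ℕ × ℕ)) (hs : ∀ v ∈ s, 0 < v.1 ∧ 0 < v.2 ∧ Nat.Coprime v.1 v.2 ∧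
      v.1 + v.2 ≤ M ∧ ¬ Good v c) : (s.card : ℝ) ≤ 2 * η * (M : ℝ) ^ 2 := by
  induction M using Nat.strong_induction_on generalizing s with
  | _ M ih =>
    rcases Nat.eq_zero_or_pos M with hM | hM
    · have : s = ∅ := by
        rw [Finset.eq_empty_iff_forall_notMem]
        intro v hv
        obtain ⟨h1, h2, _, h3, _⟩ := hs v hv
        omega
      rw [this]
      simp only [Finset.card_empty, Nat.cast_zero]
      positivity
    · have hsplit := Finset.card_filter_add_card_filter_not (s := s)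
        (fun v : ℕ × ℕ => M < 2 * (v.1 + v.2))
      have h1 : ((s.filter (fun v : ℕ × ℕ => M < 2 * (v.1 + v.2))).card : ℝ) ≤
          η * (M : ℝ) ^ 2 := by
        refine le_trans ?_ (hC M)
        have : s.filter (fun v : ℕ × ℕ => M < 2 * (v.1 + v.2)) ⊆
            (V M).filter (fun v => ¬ Good v (C * (Nat.log 2 M + 1))) := by
          intro v hv
          rw [Finset.mem_filter] at hv
          obtain ⟨h1, h2, h3, h4, h5⟩ := hs v hv.1
          rw [Finset.mem_filter, V, Finset.mem_filter, Finset.mem_product, Finset.mem_Icc,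
            Finset.mem_Icc]
          refine ⟨⟨⟨⟨h1, by omega⟩, ⟨h2, by omega⟩⟩, h3, hv.2, h4⟩, ?_⟩
          rintro ⟨w, hw1, hw2⟩
          exact h5 ⟨w, hw1, hw2.trans hc⟩
        exact_mod_cast Finset.card_le_card this
      have h2 : ((s.filter (fun v : ℕ × ℕ => ¬ M < 2 * (v.1 + v.2))).card : ℝ) ≤
          2 * η * ((M / 2 : ℕ) : ℝ) ^ 2 := by
        apply ih (M / 2) (by omega)
        · refine le_trans ?_ hc
          apply Nat.mul_le_mul_left
          have := Nat.log_mono_right (b := 2) (Nat.div_le_self M 2)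
          omega
        · intro v hv
          rw [Finset.mem_filter] at hv
          obtain ⟨h1, h2, h3, h4, h5⟩ := hs v hv.1
          exact ⟨h1, h2, h3, by omega, h5⟩
      have h3 : ((M / 2 : ℕ) : ℝ) ≤ (M : ℝ) / 2 := by
        have := Nat.cast_div_le (m := M) (n := 2) (α := ℝ)
        simpa using this
      have h4 : ((M / 2 : ℕ) : ℝ) ^ 2 ≤ ((M : ℝ) / 2) ^ 2 := by
        apply pow_le_pow_left₀ (by positivity) h3
      have h5 : (s.card : ℝ) =
          ((s.filter (fun v : ℕ × ℕ => M < 2 * (v.1 + v.2))).card : ℝ) +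
          ((s.filter (fun v : ℕ × ℕ => ¬ M < 2 * (v.1 + v.2))).card : ℝ) := by
        exact_mod_cast hsplit.symm
      rw [h5]
      nlinarith [sq_nonneg (M : ℝ), mul_le_mul_of_nonneg_left h4 hη.le]

open scoped Classical in
/-- the main step: large primes -/
theorem primes_step {C : ℕ}
    (hC : ∀ Z : ℕ, (((V Z).filter (fun v => ¬ Good v (C * (Nat.log 2 Z + 1)))).card : ℝ) ≤
      (1 / 20000) * (Z : ℝ) ^ 2) (k : ℕ) (hk : k.Prime) (N : ℕ) (hN : 10000 ≤ N)
    (hk1 : 16 * N ^ 2 ≤ k) (hk2 : k < 16 * (N + 1) ^ 2) :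
    ∃ u v : ℕ × ℕ, Good u (C * (Nat.log 2 (32 * N) + 1)) ∧
      Good v (C * (Nat.log 2 (32 * N) + 1)) ∧ u.1 * v.1 + u.2 * v.2 = k := by
  set c := C * (Nat.log 2 (32 * N) + 1) with hc
  by_contra hcon
  push Not at hcon
  set S := (Finset.Ioc N (2 * N) ×ˢ Finset.Ioc N (2 * N)).filter
    (fun u : ℕ × ℕ => Nat.Coprime u.1 u.2) with hS
  have hmem : ∀ u ∈ S, N < u.1 ∧ u.1 ≤ 2 * N ∧ N < u.2 ∧ u.2 ≤ 2 * N ∧
      Nat.Coprime u.1 u.2 := by
    intro u hu
    rw [hS, Finset.mem_filter, Finset.mem_product, Finset.mem_Ioc, Finset.mem_Ioc] at hu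
    exact ⟨hu.1.1.1, hu.1.1.2, hu.1.2.1, hu.1.2.2, hu.2⟩
  have hex : ∀ u : ℕ × ℕ, ∃ v : ℕ × ℕ, u ∈ S → 0 < v.1 ∧ 0 < v.2 ∧
      u.1 * v.1 + u.2 * v.2 = k := by
    intro u
    by_cases hu : u ∈ S
    · obtain ⟨h1, h2, h3, h4, h5⟩ := hmem u hu
      have h6 : u.1 * u.2 < k := by
        have : u.1 * u.2 ≤ (2 * N) * (2 * N) := Nat.mul_le_mul h2 h4
        nlinarith
      obtain ⟨v1, v2, h7, h8, h9⟩ := primes_exists_v u.1 u.2 k h5 (by omega) (by omega) h6
      exact ⟨(v1, v2), fun _ => ⟨h7, h8, h9⟩⟩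
    · exact ⟨(0, 0), fun h => absurd h hu⟩
  choose f hf using hex
  have hfc : ∀ u ∈ S, Nat.Coprime (f u).1 (f u).2 := by
    intro u hu
    obtain ⟨h1, h2, h3, h4, h5⟩ := hmem u hu
    obtain ⟨h7, h8, h9⟩ := hf u hu
    have hd : Nat.gcd (f u).1 (f u).2 ∣ k := by
      rw [← h9]
      exact dvd_add (Dvd.dvd.mul_left (Nat.gcd_dvd_left _ _) _)
        (Dvd.dvd.mul_left (Nat.gcd_dvd_right _ _) _)
    rcases (Nat.dvd_prime hk).1 hd with h | h
    · exact h
    · exfalso
      have h10 : k ≤ (f u).1 := by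
        rw [← h]
        exact Nat.gcd_le_left _ h7
      nlinarith
  have hflow : ∀ u ∈ S, (f u).1 + (f u).2 ≤ 32 * N := by
    intro u hu
    obtain ⟨h1, h2, h3, h4, h5⟩ := hmem u hu
    obtain ⟨h7, h8, h9⟩ := hf u hu
    by_contra h
    push Not at h
    have h10 : N * ((f u).1 + (f u).2) ≤ k := by nlinarith
    have h11 : N * (32 * N) < 16 * (N + 1) ^ 2 := by nlinarith
    nlinarith
  have hfhigh : ∀ u ∈ S, 8 * N ≤ (f u).1 + (f u).2 := by
    intro u hu
    obtain ⟨h1, h2, h3, h4, h5⟩ := hmem u hu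
    obtain ⟨h7, h8, h9⟩ := hf u hu
    by_contra h
    push Not at h
    have h10 : k ≤ 2 * N * ((f u).1 + (f u).2) := by nlinarith
    have h11 : 2 * N * ((f u).1 + (f u).2) < 2 * N * (8 * N) := by
      apply Nat.mul_lt_mul_of_pos_left h
      omega
    nlinarith
  have hinj : Set.InjOn f S := by
    intro u hu u' hu' huu
    obtain ⟨h1, h2, h3, h4, _⟩ := hmem u hu
    obtain ⟨h1', h2', h3', h4', _⟩ := hmem u' hu'
    obtain ⟨h7, h8, h9⟩ := hf u hu
    obtain ⟨_, _, h9'⟩ := hf u' hu'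
    rw [← huu] at h9'
    have hco := hfc u hu
    have hhi := hfhigh u hu
    set v := f u with hv
    have e : ((u.1 : ℤ) - u'.1) * v.1 = ((u'.2 : ℤ) - u.2) * v.2 := by
      have e1 : (u.1 : ℤ) * v.1 + u.2 * v.2 = u'.1 * v.1 + u'.2 * v.2 := by
        exact_mod_cast h9.trans h9'.symm
      linarith
    have hz1 : IsCoprime (v.1 : ℤ) (v.2 : ℤ) := Nat.isCoprime_iff_coprime.2 hco
    have d1 : (v.1 : ℤ) ∣ (u'.2 : ℤ) - u.2 := by
      apply hz1.dvd_of_dvd_mul_right
      rw [← e]
      exact Dvd.intro_left _ rfl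
    have d2 : (v.2 : ℤ) ∣ (u.1 : ℤ) - u'.1 := by
      apply hz1.symm.dvd_of_dvd_mul_right
      rw [e]
      exact Dvd.intro_left _ rfl
    rcases le_or_gt N v.1 with h | h
    · have e2 : (u'.2 : ℤ) - u.2 = 0 := by
        apply Int.eq_zero_of_abs_lt_dvd d1
        rw [abs_lt]
        constructor <;> omega
      rw [e2, zero_mul] at e
      have hv0 : (v.1 : ℤ) ≠ 0 := by omega
      have e3 : (u.1 : ℤ) - u'.1 = 0 := by
        rcases mul_eq_zero.1 e with h' | h'
        · exact h'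
        · exact absurd h' hv0
      exact Prod.ext (by omega) (by omega)
    · have e2 : (u.1 : ℤ) - u'.1 = 0 := by
        apply Int.eq_zero_of_abs_lt_dvd d2
        rw [abs_lt]
        constructor <;> omega
      rw [e2, zero_mul] at e
      have hv0 : (v.2 : ℤ) ≠ 0 := by omega
      have e3 : (u'.2 : ℤ) - u.2 = 0 := by
        rcases mul_eq_zero.1 e.symm with h' | h'
        · exact h'
        · exact absurd h' hv0
      exact Prod.ext (by omega) (by omega)
  have hη : (0 : ℝ) < 1 / 20000 := by norm_num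
  have hB1 : ((S.filter (fun u => ¬ Good u c)).card : ℝ) ≤
      2 * (1 / 20000) * ((4 * N : ℕ) : ℝ) ^ 2 := by
    apply primes_bad_count hη hC c (4 * N)
    · rw [hc]
      apply Nat.mul_le_mul_left
      have := Nat.log_mono_right (b := 2) (show 4 * N ≤ 32 * N by omega)
      omega
    · intro u hu
      rw [Finset.mem_filter] at hu
      obtain ⟨h1, h2, h3, h4, h5⟩ := hmem u hu.1
      exact ⟨by omega, by omega, h5, by omega, hu.2⟩
  have hB2 : ((S.filter (fun u => ¬ Good (f u) c)).card : ℝ) ≤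
      2 * (1 / 20000) * ((32 * N : ℕ) : ℝ) ^ 2 := by
    have e : (S.filter (fun u => ¬ Good (f u) c)).card =
        ((S.filter (fun u => ¬ Good (f u) c)).image f).card := by
      rw [Finset.card_image_of_injOn]
      intro u hu u' hu' h
      exact hinj (Finset.mem_filter.1 hu).1 (Finset.mem_filter.1 hu').1 h
    rw [e]
    apply primes_bad_count hη hC c (32 * N) le_rfl
    intro v hv
    rw [Finset.mem_image] at hv
    obtain ⟨u, hu, rfl⟩ := hv
    rw [Finset.mem_filter] at hu
    obtain ⟨h7, h8, h9⟩ := hf u hu.1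
    exact ⟨h7, h8, hfc u hu.1, hflow u hu.1, hu.2⟩
  have hcover : S ⊆ S.filter (fun u => ¬ Good u c) ∪ S.filter (fun u => ¬ Good (f u) c) := by
    intro u hu
    by_cases h1 : Good u c
    · refine Finset.mem_union_right _ (Finset.mem_filter.2 ⟨hu, fun h2 => ?_⟩)
      exact hcon u (f u) h1 h2 (hf u hu).2.2
    · exact Finset.mem_union_left _ (Finset.mem_filter.2 ⟨hu, h1⟩)
  have hle : (S.card : ℝ) ≤ ((S.filter (fun u => ¬ Good u c)).card : ℝ) +
      ((S.filter (fun u => ¬ Good (f u) c)).card : ℝ) := by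
    exact_mod_cast (Finset.card_le_card hcover).trans (Finset.card_union_le _ _)
  have hlow := primes_coprime_box N hN
  rw [← hS] at hlow
  have hN' : (10000 : ℝ) ≤ N := by exact_mod_cast hN
  push_cast at hB1 hB2
  nlinarith

open scoped Classical in
/-- task PRIMES (from the statement of `main_count`) -/
theorem words_all_of_main
    (hmain : ∀ η : ℝ, 0 < η → ∃ C : ℕ, ∀ Z : ℕ,
      (((V Z).filter (fun v => ¬ Good v (C * (Nat.log 2 Z + 1)))).card : ℝ) ≤
        η * (Z : ℝ) ^ 2) :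
    ∃ C : ℕ, ∀ k : ℕ, 2 ≤ k → ∃ w, wval w = k ∧ wcost w + 2 ≤ C * Nat.log 2 k := by
  obtain ⟨C, hC⟩ := hmain (1 / 20000) (by norm_num)
  set k0 : ℕ := 40000 ^ 2 with hk0
  refine ⟨4 * C + 2 + k0, ?_⟩
  intro k
  induction k using Nat.strong_induction_on with
  | _ k ih =>
    intro hk
    have hlog : 1 ≤ Nat.log 2 k := Nat.log_pos (by norm_num) hk
    rcases lt_or_ge k k0 with hsmall | hlarge
    · refine ⟨List.replicate (k - 2) Lt.L, ?_, ?_⟩
      · unfold wval
        rw [primes_wact_replicate]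
        simp only
        omega
      · rw [primes_wcost_replicate]
        have : (4 * C + 2 + k0) * 1 ≤ (4 * C + 2 + k0) * Nat.log 2 k :=
          Nat.mul_le_mul_left _ hlog
        omega
    · by_cases hp : k.Prime
      · set s := Nat.sqrt k with hs
        have hs1 : s * s ≤ k := Nat.sqrt_le k
        have hs2 : k < (s + 1) * (s + 1) := Nat.lt_succ_sqrt k
        have hs3 : 40000 ≤ s := by
          rw [hs, Nat.le_sqrt, ← sq]
          exact hlarge
        set N := s / 4 with hN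
        have hN1 : 4 * N ≤ s := by omega
        have hN2 : s < 4 * (N + 1) := by omega
        have hN3 : 10000 ≤ N := by omega
        have h1 : 16 * N ^ 2 ≤ k := by
          have : (4 * N) * (4 * N) ≤ s * s := Nat.mul_le_mul hN1 hN1
          nlinarith
        have h2 : k < 16 * (N + 1) ^ 2 := by
          have : (s + 1) * (s + 1) ≤ (4 * (N + 1)) * (4 * (N + 1)) :=
            Nat.mul_le_mul (by omega) (by omega)
          nlinarith
        obtain ⟨u, v, ⟨w1, hw1, hc1⟩, ⟨w2, hw2, hc2⟩, huv⟩ := primes_step hC k hp N hN3 h1 h2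
        refine ⟨primesTrW w1 ++ w2, ?_, ?_⟩
        · rw [primes_wval_dot, hw1, hw2]
          exact huv
        · rw [primes_wcost_append, primes_trW_cost]
          have h3 : Nat.log 2 (32 * N) ≤ Nat.log 2 k := by
            apply Nat.log_mono_right
            nlinarith
          have h4 : C * (Nat.log 2 (32 * N) + 1) ≤ C * (2 * Nat.log 2 k) := by
            apply Nat.mul_le_mul_left
            omega
          have h5 : (4 * C + 2 + k0) * Nat.log 2 k =
              2 * (C * (2 * Nat.log 2 k)) + 2 * Nat.log 2 k + k0 * Nat.log 2 k := by ring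
          rw [h5]
          have h6 : 0 ≤ k0 * Nat.log 2 k := Nat.zero_le _
          omega
      · obtain ⟨a, ha1, ha2, ha3⟩ := Nat.exists_dvd_of_not_prime2 hk hp
        obtain ⟨b, rfl⟩ := ha1
        have hb2 : 2 ≤ b := by
          by_contra hb
          have hb' : b = 0 ∨ b = 1 := by omega
          rcases hb' with hb' | hb'
          · rw [hb'] at hk; omega
          · rw [hb', mul_one] at ha3; omega
        have hb3 : b < a * b := by nlinarith
        obtain ⟨w1, hw1, hc1⟩ := ih a ha3 ha2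
        obtain ⟨w2, hw2, hc2⟩ := ih b hb3 hb2
        refine ⟨w1 ++ Lt.J :: w2, ?_, ?_⟩
        · rw [primes_wval_J, hw1, hw2]
        · rw [primes_wcost_append, primes_wcost_cons]
          have h3 : Nat.log 2 a + Nat.log 2 b ≤ Nat.log 2 (a * b) := by
            apply Nat.le_log_of_pow_le (by norm_num)
            rw [pow_add]
            exact Nat.mul_le_mul (Nat.pow_log_le_self 2 (by omega))
              (Nat.pow_log_le_self 2 (by omega))
          have h4 : (4 * C + 2 + k0) * (Nat.log 2 a + Nat.log 2 b) ≤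
              (4 * C + 2 + k0) * Nat.log 2 (a * b) := Nat.mul_le_mul_left _ h3
          have h5 : Lt.J.cost = 2 := rfl
          rw [h5]
          rw [mul_add] at h4
          omega

theorem words_all : ∃ C : ℕ, ∀ k : ℕ, 2 ≤ k → ∃ w, wval w = k ∧ wcost w + 2 ≤ C * Nat.log 2 k :=
  words_all_of_main main_count

end BAC
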