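import Pool.Agent.BAC.Defs
import Pool.Agent.BAC.Poset

/-!
# Task REALIZE of MP_bac445_co

Every word `w` is realised by a poset of width at most two with `wcost w + 2 + r` elements and
exactly `wval w` linear extensions.
-/

namespace BAC

namespace Realize

/-- linear orders, unbundled -/
def Lin {α : Type} (r : α → α → Prop) : Prop :=
  (∀ x y z, r x y → r y z → r x z) ∧ (∀ x y, r x y → r y x → x = y) ∧ ∀ x y, r x y ∨ r y x

/-- partial orders, unbundled -/
def Par {α : Type} (r : α → α → Prop) : Prop :=
  (∀ x, r x x) ∧ (∀ x y z, r x y → r y z → r x z) ∧ ∀ x y, r x y → r y x → x = y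

/-- linear extensions -/
def LX {α : Type} (le : α → α → Prop) : Set (α → α → Prop) :=
  {r | Lin r ∧ ∀ x y, le x y → r x y}

/-- linear extensions with top `t` -/
def LXt {α : Type} (le : α → α → Prop) (t : α) : Set (α → α → Prop) :=
  {r | r ∈ LX le ∧ ∀ x, r x t}

theorem lin_iff {α : Type} (r : α → α → Prop) : IsLinearOrder α r ↔ Lin r := by
  constructor
  · intro h
    exact ⟨fun x y z => h.trans x y z, fun x y => h.antisymm x y, fun x y => h.total x y⟩
  · intro h
    exact { refl := fun x => (h.2.2 x x).elim id id, trans := h.1, antisymm := h.2.1,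
            total := h.2.2 }

/-- new element `none` above `D` -/
def ex {α : Type} (le : α → α → Prop) (D : α → Prop) : Option α → Option α → Prop
  | some x, some y => le x y
  | some x, none => D x
  | none, none => True
  | none, some _ => False

theorem ex_par {α : Type} {le : α → α → Prop} {D : α → Prop} (h : Par le)
    (hD : ∀ x y, le x y → D y → D x) : Par (ex le D) := by
  obtain ⟨h1, h2, h3⟩ := h
  refine ⟨?_, ?_, ?_⟩
  · rintro (_ | x)
    · trivial
    · exact h1 x
  · rintro (_ | x) (_ | y) (_ | z) <;> simp only [ex] <;> tauto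
  · rintro (_ | x) (_ | y) <;> simp only [ex] <;> tauto

theorem ex_inj {α : Type} {D : α → Prop} {r r' : α → α → Prop} (h : ex r D = ex r' D) :
    r = r' := by
  funext x y
  exact congrFun (congrFun h (some x)) (some y)

theorem lin_res {α : Type} {r : Option α → Option α → Prop} (h : Lin r) :
    Lin (fun x y => r (some x) (some y)) := by
  obtain ⟨h1, h2, h3⟩ := h
  refine ⟨fun x y z => h1 _ _ _, fun x y hxy hyx => ?_, fun x y => h3 _ _⟩
  exact Option.some_injective _ (h2 _ _ hxy hyx)

/-- Lemma A -/
theorem card_top {α : Type} (le : α → α → Prop) (D : α → Prop) :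
    (LXt (ex le D) none).ncard = (LX le).ncard := by
  have : LXt (ex le D) none = (fun r => ex r (fun _ => True)) '' LX le := by
    ext r
    constructor
    · rintro ⟨⟨hl, he⟩, ht⟩
      refine ⟨fun x y => r (some x) (some y), ⟨lin_res hl, fun x y hxy => he (some x) (some y) hxy⟩, ?_⟩
      funext x y
      rcases x with _ | x <;> rcases y with _ | y <;> simp only [ex]
      · exact (eq_true (ht none)).symm
      · refine (eq_false fun h => ?_).symm
        have := hl.2.1 _ _ h (ht _)
        simp at this
      · exact (eq_true (ht _)).symm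
    · rintro ⟨r0, ⟨hl, he⟩, rfl⟩
      refine ⟨⟨⟨?_, ?_, ?_⟩, ?_⟩, ?_⟩
      · rintro (_ | x) (_ | y) (_ | z) <;> simp only [ex] <;> first | tauto | exact hl.1 x y z
      · rintro (_ | x) (_ | y) <;> simp only [ex] <;>
          first | tauto | (intro hxy hyx; rw [hl.2.1 x y hxy hyx])
      · rintro (_ | x) (_ | y) <;> simp only [ex] <;> first | tauto | exact hl.2.2 x y
      · rintro (_ | x) (_ | y) <;> simp only [ex] <;> tauto
      · rintro (_ | x) <;> simp only [ex]
  rw [this, Set.ncard_image_of_injective]
  intro r r' h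
  exact ex_inj h

/-- insert `none` just below the top `a` -/
def ins {α : Type} (r : α → α → Prop) (a : α) : Option α → Option α → Prop
  | some x, some y => r x y
  | some x, none => x ≠ a
  | none, none => True
  | none, some y => y = a

/-- Lemma B -/
theorem card_sec {α : Type} (le : α → α → Prop) (a : α) :
    (LXt (ex le (fun x => x ≠ a)) (some a)).ncard = (LXt le a).ncard := by
  have : LXt (ex le (fun x => x ≠ a)) (some a) = (fun r => ins r a) '' LXt le a := by
    ext r
    constructor
    · rintro ⟨⟨hl, he⟩, ht⟩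
      refine ⟨fun x y => r (some x) (some y), ⟨⟨lin_res hl, fun x y hxy => he (some x) (some y) hxy⟩,
        fun x => ht _⟩, ?_⟩
      funext x y
      rcases x with _ | x <;> rcases y with _ | y <;> simp only [ins]
      · exact (eq_true ((hl.2.2 none none).elim id id)).symm
      · apply propext
        constructor
        · rintro rfl
          exact ht none
        · intro h
          by_contra hy
          have := hl.2.1 _ _ h (he (some y) none hy)
          simp at this
      · apply propext
        constructor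
        · intro h
          exact he (some x) none h
        · rintro h rfl
          have := hl.2.1 _ _ h (ht none)
          simp at this
    · rintro ⟨r0, ⟨⟨hl, he⟩, ht⟩, rfl⟩
      refine ⟨⟨⟨?_, ?_, ?_⟩, ?_⟩, ?_⟩
      · rintro (_ | x) (_ | y) (_ | z) <;> simp only [ins] <;>
          first
          | tauto
          | (rintro rfl hz; exact hl.2.1 _ _ (ht z) hz)
          | (rintro hx rfl; exact ht x)
          | (rintro hxy hy rfl; exact hy (hl.2.1 _ _ (ht y) hxy))
          | exact hl.1 x y z
      · rintro (_ | x) (_ | y) <;> simp only [ins] <;>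
          first | tauto | (intro hxy hyx; rw [hl.2.1 x y hxy hyx])
      · rintro (_ | x) (_ | y) <;> simp only [ins] <;> first | tauto | exact hl.2.2 x y
      · rintro (_ | x) (_ | y) <;> simp only [ex, ins] <;> tauto
      · rintro (_ | x) <;> simp only [ins]; tauto
  rw [this, Set.ncard_image_of_injective]
  intro r r' h
  funext x y
  exact congrFun (congrFun h (some x)) (some y)

/-- Lemma C -/
theorem card_iso {α β : Type} (e : α ≃ β) {le : α → α → Prop} {le' : β → β → Prop}
    (h : ∀ x y, le x y ↔ le' (e x) (e y)) : (LX le).ncard = (LX le').ncard := by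
  have : LX le = (fun r x y => r (e x) (e y)) '' LX le' := by
    ext r
    constructor
    · rintro ⟨hl, he⟩
      refine ⟨fun x y => r (e.symm x) (e.symm y), ⟨⟨fun x y z => hl.1 _ _ _, fun x y hxy hyx => ?_,
        fun x y => hl.2.2 _ _⟩, fun x y hxy => ?_⟩, ?_⟩
      · exact e.symm.injective (hl.2.1 _ _ hxy hyx)
      · apply he
        rw [h]
        simpa using hxy
      · funext x y
        simp
    · rintro ⟨r0, ⟨hl, he⟩, rfl⟩
      refine ⟨⟨fun x y z => hl.1 _ _ _, fun x y hxy hyx => ?_, fun x y => hl.2.2 _ _⟩,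
        fun x y hxy => ?_⟩
      · exact e.injective (hl.2.1 _ _ hxy hyx)
      · exact he _ _ ((h x y).1 hxy)
  rw [this, Set.ncard_image_of_injective]
  intro r r' hrr
  funext x y
  have := congrFun (congrFun hrr (e.symm x)) (e.symm y)
  simpa using this

theorem card_iso_top {α β : Type} (e : α ≃ β) {le : α → α → Prop} {le' : β → β → Prop}
    (h : ∀ x y, le x y ↔ le' (e x) (e y)) (t : α) :
    (LXt le t).ncard = (LXt le' (e t)).ncard := by
  have : LXt le t = (fun r x y => r (e x) (e y)) '' LXt le' (e t) := by
    ext r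
    constructor
    · rintro ⟨⟨hl, he⟩, ht⟩
      refine ⟨fun x y => r (e.symm x) (e.symm y), ⟨⟨⟨fun x y z => hl.1 _ _ _, fun x y hxy hyx => ?_,
        fun x y => hl.2.2 _ _⟩, fun x y hxy => ?_⟩, fun x => ?_⟩, ?_⟩
      · exact e.symm.injective (hl.2.1 _ _ hxy hyx)
      · apply he
        rw [h]
        simpa using hxy
      · simpa using ht (e.symm x)
      · funext x y
        simp
    · rintro ⟨r0, ⟨⟨hl, he⟩, ht⟩, rfl⟩
      refine ⟨⟨⟨fun x y z => hl.1 _ _ _, fun x y hxy hyx => ?_, fun x y => hl.2.2 _ _⟩,
        fun x y hxy => ?_⟩, fun x => ?_⟩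
      · exact e.injective (hl.2.1 _ _ hxy hyx)
      · exact he _ _ ((h x y).1 hxy)
      · exact ht _
  rw [this, Set.ncard_image_of_injective]
  intro r r' hrr
  funext x y
  have := congrFun (congrFun hrr (e.symm x)) (e.symm y)
  simpa using this

/-- Lemma D -/
theorem card_split {α : Type} [Finite α] {le : α → α → Prop} {a b : α} (hab : a ≠ b)
    (h : ∀ x, le x a ∨ le x b) : (LX le).ncard = (LXt le a).ncard + (LXt le b).ncard := by
  rw [← Set.ncard_union_eq]
  · congr 1
    ext r
    constructor
    · rintro ⟨hl, he⟩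
      rcases hl.2.2 a b with h1 | h1
      · refine Or.inr ⟨⟨hl, he⟩, fun x => ?_⟩
        rcases h x with h2 | h2
        · exact hl.1 _ _ _ (he _ _ h2) h1
        · exact he _ _ h2
      · refine Or.inl ⟨⟨hl, he⟩, fun x => ?_⟩
        rcases h x with h2 | h2
        · exact he _ _ h2
        · exact hl.1 _ _ _ (he _ _ h2) h1
    · rintro (h1 | h1)
      · exact h1.1
      · exact h1.1
  · rw [Set.disjoint_left]
    rintro r ⟨h1, h2⟩ ⟨_, h3⟩
    exact hab (h1.1.2.1 _ _ (h3 a) (h2 b))

/-- a state: poset with `n` elements, tops `a`, `b`, a decomposition into two chains -/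
def St (n s1 s2 : ℕ) : Prop :=
  ∃ (α : Type) (_ : Fintype α) (le : α → α → Prop) (a b : α) (f : α → Bool),
    Fintype.card α = n ∧ Par le ∧ (∀ x y, f x = f y → le x y ∨ le y x) ∧ f a = true ∧
    f b = false ∧ (∀ x, le a x → x = a) ∧ (∀ x, le b x → x = b) ∧ (∀ x, le x a ∨ le x b) ∧
    (LXt le a).ncard = s1 ∧ (LXt le b).ncard = s2

/-- final posets -/
def Ps (n N : ℕ) : Prop :=
  ∃ (α : Type) (_ : Fintype α) (le : α → α → Prop) (f : α → Bool),
    Fintype.card α = n ∧ Par le ∧ (∀ x y, f x = f y → le x y ∨ le y x) ∧ (LX le).ncard = N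

theorem St.toPs {n s1 s2 : ℕ} (h : St n s1 s2) : Ps n (s1 + s2) := by
  obtain ⟨α, _, le, a, b, f, h1, h2, h3, h4, h5, h6, h7, h8, h9, h10⟩ := h
  refine ⟨α, _, le, f, h1, h2, h3, ?_⟩
  rw [card_split _ h8, h9, h10]
  rintro rfl
  rw [h4] at h5
  exact absurd h5 (by simp)

theorem St.swap {n s1 s2 : ℕ} (h : St n s1 s2) : St n s2 s1 := by
  obtain ⟨α, _, le, a, b, f, h1, h2, h3, h4, h5, h6, h7, h8, h9, h10⟩ := h
  refine ⟨α, _, le, b, a, fun x => !(f x), h1, h2, ?_, by simp [h5], by simp [h4], h7, h6,
    fun x => (h8 x).symm, h10, h9⟩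
  intro x y hxy
  exact h3 x y (by simpa using hxy)

theorem St.L {n s1 s2 : ℕ} (h : St n s1 s2) : St (n + 1) s1 (s1 + s2) := by
  obtain ⟨α, _, le, a, b, f, h1, h2, h3, h4, h5, h6, h7, h8, h9, h10⟩ := h
  have hab : a ≠ b := by
    rintro rfl
    rw [h4] at h5
    exact absurd h5 (by simp)
  refine ⟨Option α, inferInstance, ex le (fun x => x ≠ a), some a, none,
    fun o => o.elim false f, by simp [h1], ex_par h2 ?_, ?_, h4, rfl, ?_, ?_, ?_, ?_, ?_⟩
  · rintro x y hxy hy rfl
    exact hy (h6 _ hxy)
  · rintro (_ | x) (_ | y) <;> simp only [ex, Option.elim] <;> try tauto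
    · intro hy
      right
      rintro rfl
      rw [h4] at hy
      exact absurd hy (by simp)
    · intro hx
      left
      rintro rfl
      rw [h4] at hx
      exact absurd hx (by simp)
    · exact h3 x y
  · rintro (_ | x) <;> simp only [ex]
    · intro h
      exact absurd rfl h
    · intro h
      rw [h6 x h]
  · rintro (_ | x) <;> simp only [ex] <;> tauto
  · rintro (_ | x) <;> simp only [ex]
    · tauto
    · by_cases hx : x = a
      · left
        rw [hx]
        exact h2.1 a
      · right
        exact hx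
  · rw [card_sec, h9]
  · rw [card_top, card_split hab h8, h9, h10]

theorem St.R {n s1 s2 : ℕ} (h : St n s1 s2) : St (n + 1) (s1 + s2) s2 := by
  have := h.swap.L.swap
  rwa [add_comm s2 s1] at this

/-- two new elements -/
def two {α : Type} (le : α → α → Prop) (D1 D2 : α → Prop) :
    Option (Option α) → Option (Option α) → Prop :=
  ex (ex le D1) (fun o => o.elim False D2)

/-- the swap -/
def sw {α : Type} : Option (Option α) → Option (Option α)
  | none => some none
  | some none => none
  | some (some x) => some (some x)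

/-- the swap as an equivalence -/
def swe (α : Type) : Option (Option α) ≃ Option (Option α) where
  toFun := sw
  invFun := sw
  left_inv := by rintro (_ | _ | x) <;> rfl
  right_inv := by rintro (_ | _ | x) <;> rfl

theorem two_sw {α : Type} (le : α → α → Prop) (D1 D2 : α → Prop) (x y : Option (Option α)) :
    two le D1 D2 x y ↔ two le D2 D1 (swe α x) (swe α y) := by
  rcases x with _ | _ | x <;> rcases y with _ | _ | y <;> simp [two, swe, sw, ex]

theorem card_two_b {α : Type} (le : α → α → Prop) (D1 D2 : α → Prop) :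
    (LXt (two le D1 D2) none).ncard = (LX (ex le D1)).ncard := card_top _ _

theorem card_two_a {α : Type} (le : α → α → Prop) (D1 D2 : α → Prop) :
    (LXt (two le D1 D2) (some none)).ncard = (LX (ex le D2)).ncard := by
  rw [card_iso_top (swe α) (two_sw le D1 D2)]
  exact card_top _ _

theorem St.two {α : Type} [Fintype α] {le : α → α → Prop} {f : α → Bool} {n : ℕ}
    {D1 D2 : α → Prop} (h1 : Fintype.card α = n) (h2 : Par le)
    (h3 : ∀ x y, f x = f y → le x y ∨ le y x) (hD1 : ∀ x y, le x y → D1 y → D1 x)
    (hD2 : ∀ x y, le x y → D2 y → D2 x) (hf1 : ∀ x, f x = true → D1 x)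
    (hf2 : ∀ x, f x = false → D2 x) (hD : ∀ x, D1 x ∨ D2 x) :
    St (n + 2) (LX (ex le D2)).ncard (LX (ex le D1)).ncard := by
  refine ⟨Option (Option α), inferInstance, Realize.two le D1 D2, some none, none,
    fun o => o.elim false (fun o => o.elim true f), by simp [h1], ex_par (ex_par h2 hD1) ?_, ?_,
    rfl, rfl, ?_, ?_, ?_, card_two_a _ _ _, card_two_b _ _ _⟩
  · rintro (_ | x) (_ | y) <;> simp only [ex, Option.elim] <;> tauto
  · rintro (_ | _ | x) (_ | _ | y) <;> simp only [Realize.two, ex, Option.elim] <;>
      first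
      | tauto
      | exact h3 x y
  · rintro (_ | _ | x) <;> simp only [Realize.two, ex] <;> tauto
  · rintro (_ | _ | x) <;> simp only [Realize.two, ex] <;> tauto
  · rintro (_ | _ | x) <;> simp only [Realize.two, ex, Option.elim]
    · tauto
    · tauto
    · exact hD x

theorem St.X {n s1 s2 : ℕ} (h : St n s1 s2) : St (n + 2) (2 * s1 + s2) (s1 + 2 * s2) := by
  obtain ⟨α, _, le, a, b, f, h1, h2, h3, h4, h5, h6, h7, h8, h9, h10⟩ := h
  have hab : a ≠ b := by
    rintro rfl
    rw [h4] at h5
    exact absurd h5 (by simp)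
  have key := St.two (le := le) (f := f) (D1 := fun x => x ≠ b) (D2 := fun x => x ≠ a) h1 h2 h3
    (by rintro x y hxy hy rfl; exact hy (h7 _ hxy)) (by rintro x y hxy hy rfl; exact hy (h6 _ hxy))
    (by rintro x hx rfl; rw [h5] at hx; exact absurd hx (by simp))
    (by rintro x hx rfl; rw [h4] at hx; exact absurd hx (by simp))
    (by
      intro x
      by_cases hx : x = b
      · right
        rintro rfl
        exact hab hx
      · exact Or.inl hx)
  have e1 : (LX (ex le (fun x => x ≠ a))).ncard = 2 * s1 + s2 := by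
    rw [card_split (a := some a) (b := none) (by simp), card_sec, card_top, card_split hab h8, h9,
      h10]
    · ring
    · rintro (_ | x) <;> simp only [ex]
      · tauto
      · by_cases hx : x = a
        · left
          rw [hx]
          exact h2.1 a
        · right
          exact hx
  have e2 : (LX (ex le (fun x => x ≠ b))).ncard = s1 + 2 * s2 := by
    rw [card_split (a := some b) (b := none) (by simp), card_sec, card_top, card_split hab h8, h9,
      h10]
    · ring
    · rintro (_ | x) <;> simp only [ex]
      · tauto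
      · by_cases hx : x = b
        · left
          rw [hx]
          exact h2.1 b
        · right
          exact hx
  rw [e1, e2] at key
  exact key

theorem card_pad {α : Type} (le : α → α → Prop) :
    (LX (ex le (fun _ => True))).ncard = (LX le).ncard := by
  rw [← card_top le (fun _ => True)]
  congr 1
  ext r
  constructor
  · rintro ⟨hl, he⟩
    refine ⟨⟨hl, he⟩, ?_⟩
    rintro (_ | x)
    · exact (hl.2.2 none none).elim id id
    · exact he (some x) none trivial
  · exact fun h => h.1

theorem St.J {n s1 s2 : ℕ} (h : St n s1 s2) : St (n + 2) (s1 + s2) (s1 + s2) := by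
  obtain ⟨α, _, le, f, h1, h2, h3, h4⟩ := h.toPs
  have key := St.two (le := le) (f := f) (D1 := fun x => True) (D2 := fun x => True) h1 h2 h3
    (by tauto) (by tauto) (by tauto) (by tauto) (by tauto)
  rwa [card_pad, h4] at key

theorem Ps.pad {n N : ℕ} (h : Ps n N) : Ps (n + 1) N := by
  obtain ⟨α, _, le, f, h1, h2, h3, h4⟩ := h
  refine ⟨Option α, inferInstance, ex le (fun _ => True), fun o => o.elim true f, by simp [h1],
    ex_par h2 (by tauto), ?_, by rw [card_pad, h4]⟩
  rintro (_ | x) (_ | y) <;> simp only [ex, Option.elim] <;> try tauto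
  exact h3 x y

theorem Ps.pads {n N : ℕ} (h : Ps n N) (r : ℕ) : Ps (n + r) N := by
  induction r with
  | zero => exact h
  | succ r ih => exact ih.pad

theorem St.base : St 2 1 1 := by
  refine ⟨Option Unit, inferInstance, Eq, some (), none, fun o => o.isSome, rfl,
    ⟨fun _ => rfl, fun _ _ _ => Eq.trans, fun _ _ h _ => h⟩, ?_, rfl, rfl, fun x h => h.symm,
    fun x h => h.symm, ?_, ?_, ?_⟩
  · rintro (_ | ⟨⟩) (_ | ⟨⟩) <;> simp
  · rintro (_ | ⟨⟩) <;> simp
  · have : (Eq : Option Unit → Option Unit → Prop) = ex (Eq : Unit → Unit → Prop) (fun x => x ≠ ()) := by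
      funext x y
      rcases x with _ | ⟨⟩ <;> rcases y with _ | ⟨⟩ <;> simp [ex]
    rw [this, card_sec, Set.ncard_eq_one]
    refine ⟨Eq, ?_⟩
    ext r
    constructor
    · intro h
      funext x y
      simp only [Subsingleton.elim x (), Subsingleton.elim y (), h.2 ()]
    · rintro rfl
      exact ⟨⟨⟨fun _ _ _ => Eq.trans, fun _ _ h _ => h, fun _ _ => Or.inl rfl⟩, fun _ _ h => h⟩,
        fun _ => rfl⟩
  · have : (Eq : Option Unit → Option Unit → Prop) = ex (Eq : Unit → Unit → Prop) (fun x => x ≠ ()) := by
      funext x y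
      rcases x with _ | ⟨⟩ <;> rcases y with _ | ⟨⟩ <;> simp [ex]
    rw [this, card_top, Set.ncard_eq_one]
    refine ⟨Eq, ?_⟩
    ext r
    constructor
    · intro h
      funext x y
      have := h.2 () () rfl
      simp only [Subsingleton.elim x (), Subsingleton.elim y (), this]
    · rintro rfl
      exact ⟨⟨fun _ _ _ => Eq.trans, fun _ _ h _ => h, fun _ _ => Or.inl rfl⟩, fun _ _ h => h⟩

theorem word_st (w : List Lt) : St (wcost w + 2) (wact w (1, 1)).1 (wact w (1, 1)).2 := by
  induction w with
  | nil => exact St.base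
  | cons l w ih =>
    cases l with
    | L =>
      have e : wcost (Lt.L :: w) + 2 = wcost w + 2 + 1 := by
        simp [wcost, Lt.cost]; ring
      rw [e]
      exact ih.L
    | R =>
      have e : wcost (Lt.R :: w) + 2 = wcost w + 2 + 1 := by
        simp [wcost, Lt.cost]; ring
      rw [e]
      exact ih.R
    | X =>
      have e : wcost (Lt.X :: w) + 2 = wcost w + 2 + 2 := by
        simp [wcost, Lt.cost]; ring
      rw [e]
      exact ih.X
    | J =>
      have e : wcost (Lt.J :: w) + 2 = wcost w + 2 + 2 := by
        simp [wcost, Lt.cost]; ring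
      rw [e]
      exact ih.J

end Realize

open Realize in
/-- task REALIZE -/
theorem realize (w : List Lt) (r : ℕ) : ∃ P : PartialOrder (Fin (wcost w + 2 + r)),
    @WidthLeTwo _ P ∧ @linExt _ P = wval w := by
  obtain ⟨α, _, le, f, h1, h2, h3, h4⟩ := (word_st w).toPs.pads r
  have e : α ≃ Fin (wcost w + 2 + r) := Fintype.equivFinOfCardEq h1
  let P : PartialOrder (Fin (wcost w + 2 + r)) :=
    { le := fun x y => le (e.symm x) (e.symm y)
      lt := fun x y => le (e.symm x) (e.symm y) ∧ ¬ le (e.symm y) (e.symm x)
      le_refl := fun x => h2.1 _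
      le_trans := fun x y z => h2.2.1 _ _ _
      lt_iff_le_not_ge := fun x y => Iff.rfl
      le_antisymm := fun x y hxy hyx => e.symm.injective (h2.2.2 _ _ hxy hyx) }
  refine ⟨P, ?_, ?_⟩
  · intro s hs
    by_contra hc
    push Not at hc
    obtain ⟨x, hx, y, hy, hxy, hf⟩ := Finset.exists_ne_map_eq_of_card_lt_of_maps_to
      (s := s) (t := (Finset.univ : Finset Bool)) (f := fun x => f (e.symm x)) (by simpa using hc)
      (fun _ _ => Finset.mem_univ _)
    rcases h3 _ _ hf with h | h
    · exact hs hx hy hxy h
    · exact hs hy hx hxy.symm h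
  · have : @linExt _ P = (LX (fun x y : Fin (wcost w + 2 + r) => le (e.symm x) (e.symm y))).ncard := by
      unfold linExt LX
      congr 1
      ext r
      simp only [Set.mem_ofPred_eq, lin_iff]
      exact Iff.rfl
    rw [this, wval, ← h4]
    exact card_iso e.symm (fun x y => Iff.rfl)

end BAC
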