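import Pool.Agent.BAC.Chain

namespace BAC

/-! ### Part D: records, obstacles (task REC) -/

/-- relation between an earlier record `r` and a later record `r'` -/
def Rel (r r' : Rc) : Prop :=
  r.j ≤ r'.j ∧ 3 ^ (r'.j - r.j) * (r.s + r.n) ≤ r'.s ∧
    (prm r.e = prm r'.e → r'.n ≤ 3 ^ (r'.j - r.j) * r.n)

theorem cross_of_prm {e f : ℕ × ℕ} (h : prm e = prm f) : e.1 * f.2 = e.2 * f.1 := by
  unfold prm at h
  rw [Prod.mk.injEq] at h
  obtain ⟨h1, h2⟩ := h
  have e1 := Nat.div_mul_cancel (Nat.gcd_dvd_left e.1 e.2)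
  have e2 := Nat.div_mul_cancel (Nat.gcd_dvd_right e.1 e.2)
  have f1 := Nat.div_mul_cancel (Nat.gcd_dvd_left f.1 f.2)
  have f2 := Nat.div_mul_cancel (Nat.gcd_dvd_right f.1 f.2)
  calc e.1 * f.2 = (e.1 / Nat.gcd e.1 e.2 * Nat.gcd e.1 e.2) *
        (f.2 / Nat.gcd f.1 f.2 * Nat.gcd f.1 f.2) := by rw [e1, f2]
    _ = (e.2 / Nat.gcd e.1 e.2 * Nat.gcd e.1 e.2) *
        (f.1 / Nat.gcd f.1 f.2 * Nat.gcd f.1 f.2) := by rw [h1, h2]; ring
    _ = e.2 * f.1 := by rw [e2, f1]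

theorem head_bound {F : Fr} {j k : ℕ} (hdet : F.a * F.d = F.b * F.c + 3 ^ j) {e : ℕ × ℕ}
    {z1 z2 : ℤ} (he : 1 ≤ e.1 + e.2)
    (h1 : (3 : ℤ) ^ k * e.1 = F.a * z1 + F.b * z2) (h2 : (3 : ℤ) ^ k * e.2 = F.c * z1 + F.d * z2) :
    (prm e = prm (F.b, F.d) → F.b + F.d ≤ 3 ^ k * (e.1 + e.2)) ∧
    (prm e = prm (F.a, F.c) → F.a + F.c ≤ 3 ^ k * (e.1 + e.2)) := by
  have hd : (F.a : ℤ) * F.d = F.b * F.c + 3 ^ j := by exact_mod_cast hdet
  have h3j : (0 : ℤ) < 3 ^ j := by positivity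
  have h3k : (0 : ℤ) < 3 ^ k := by positivity
  have he' : (1 : ℤ) ≤ e.1 + e.2 := by exact_mod_cast he
  constructor
  · intro h
    have hc := cross_of_prm h
    have hc' : (e.1 : ℤ) * F.d = e.2 * F.b := by exact_mod_cast hc
    have hz1 : z1 = 0 := by
      have : (3 : ℤ) ^ j * z1 = 0 := by
        have e1 : (3 : ℤ) ^ k * e.1 * F.d = (F.a * z1 + F.b * z2) * F.d := by rw [h1]
        have e2 : (3 : ℤ) ^ k * e.2 * F.b = (F.c * z1 + F.d * z2) * F.b := by rw [h2]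
        have e3 : (3 : ℤ) ^ k * e.1 * F.d = (3 : ℤ) ^ k * e.2 * F.b := by
          rw [mul_assoc, hc', mul_assoc]
        linear_combination e3 - e1 + e2 - z1 * hd
      rcases mul_eq_zero.mp this with h | h
      · exact absurd h h3j.ne'
      · exact h
    subst hz1
    have hsum : (3 : ℤ) ^ k * (e.1 + e.2) = (F.b + F.d) * z2 := by
      linear_combination h1 + h2
    have hbd : (0 : ℤ) ≤ (F.b : ℤ) + F.d := by positivity
    have hz2 : 1 ≤ z2 := by
      by_contra hcon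
      have : z2 ≤ 0 := by omega
      have h4 : ((F.b : ℤ) + F.d) * z2 ≤ 0 := mul_nonpos_of_nonneg_of_nonpos hbd this
      have h5 : (0 : ℤ) < 3 ^ k * (e.1 + e.2) := by positivity
      omega
    have : ((F.b : ℤ) + F.d) ≤ 3 ^ k * (e.1 + e.2) := by
      rw [hsum]; nlinarith
    exact_mod_cast this
  · intro h
    have hc := cross_of_prm h
    have hc' : (e.1 : ℤ) * F.c = e.2 * F.a := by exact_mod_cast hc
    have hz2 : z2 = 0 := by
      have : (3 : ℤ) ^ j * z2 = 0 := by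
        have e1 : (3 : ℤ) ^ k * e.1 * F.c = (F.a * z1 + F.b * z2) * F.c := by rw [h1]
        have e2 : (3 : ℤ) ^ k * e.2 * F.a = (F.c * z1 + F.d * z2) * F.a := by rw [h2]
        have e3 : (3 : ℤ) ^ k * e.1 * F.c = (3 : ℤ) ^ k * e.2 * F.a := by
          rw [mul_assoc, hc', mul_assoc]
        linear_combination -e3 + e1 - e2 - z2 * hd
      rcases mul_eq_zero.mp this with h | h
      · exact absurd h h3j.ne'
      · exact h
    subst hz2
    have hsum : (3 : ℤ) ^ k * (e.1 + e.2) = (F.a + F.c) * z1 := by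
      linear_combination h1 + h2
    have hbd : (0 : ℤ) ≤ (F.a : ℤ) + F.c := by positivity
    have hz1 : 1 ≤ z1 := by
      by_contra hcon
      have : z1 ≤ 0 := by omega
      have h4 : ((F.a : ℤ) + F.c) * z1 ≤ 0 := mul_nonpos_of_nonneg_of_nonpos hbd this
      have h5 : (0 : ℤ) < 3 ^ k * (e.1 + e.2) := by positivity
      omega
    have : ((F.a : ℤ) + F.c) ≤ 3 ^ k * (e.1 + e.2) := by
      rw [hsum]; nlinarith
    exact_mod_cast this

theorem Run.inv {F F' : Fr} {j j' : ℕ} {y y' : ℕ × ℕ} {l : List Rc}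
    (h : Run F j y l F' j' y') : F.a * F.d = F.b * F.c + 3 ^ j → ∀ r' ∈ l,
      j ≤ r'.j ∧ 3 ^ (r'.j - j) * F.sz ≤ r'.s ∧ 1 ≤ r'.n ∧
      ∀ (e : ℕ × ℕ) (k : ℕ) (z1 z2 : ℤ), 1 ≤ e.1 + e.2 →
        (3 : ℤ) ^ k * e.1 = F.a * z1 + F.b * z2 → (3 : ℤ) ^ k * e.2 = F.c * z1 + F.d * z2 →
        prm e = prm r'.e → r'.n ≤ 3 ^ (r'.j - j + k) * (e.1 + e.2) := by
  induction h with
  | nil F j y => intro _ r' hr'; simp at hr'
  | @stepL F j y1 y2 l F' j' y' h hr ih =>
    intro hdet r' hr'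
    have hd1 : 1 ≤ F.d := by
      rcases Nat.eq_zero_or_pos F.d with h0 | h0
      · rw [h0, mul_zero] at hdet
        have : 0 < 3 ^ j := by positivity
        omega
      · exact h0
    rcases List.mem_cons.mp hr' with rfl | hmem
    · refine ⟨le_refl _, by simp, ?_, ?_⟩
      · show 1 ≤ F.b + F.d
        omega
      · intro e k z1 z2 he h1 h2 hp
        have := (head_bound hdet he h1 h2).1 hp
        simpa [Rc.n] using this
    · have hdet' : F.L.a * F.L.d = F.L.b * F.L.c + 3 ^ j := by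
        simp only [Fr.L]; nlinarith
      obtain ⟨i1, i2, i3, i4⟩ := ih hdet' r' hmem
      refine ⟨i1, le_trans (Nat.mul_le_mul_left _ ?_) i2, i3, ?_⟩
      · simp only [Fr.sz, Fr.L, Fr.c1, Fr.c2]; omega
      · intro e k z1 z2 he h1 h2 hp
        refine i4 e k z1 (z2 - z1) he ?_ ?_ hp
        · rw [h1]; simp only [Fr.L]; push_cast; ring
        · rw [h2]; simp only [Fr.L]; push_cast; ring
  | @stepR F j y1 y2 l F' j' y' h hr ih =>
    intro hdet r' hr'
    have hd1 : 1 ≤ F.a := by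
      rcases Nat.eq_zero_or_pos F.a with h0 | h0
      · rw [h0, zero_mul] at hdet
        have : 0 < 3 ^ j := by positivity
        omega
      · exact h0
    rcases List.mem_cons.mp hr' with rfl | hmem
    · refine ⟨le_refl _, by simp, ?_, ?_⟩
      · show 1 ≤ F.a + F.c
        omega
      · intro e k z1 z2 he h1 h2 hp
        have := (head_bound hdet he h1 h2).2 hp
        simpa [Rc.n] using this
    · have hdet' : F.R.a * F.R.d = F.R.b * F.R.c + 3 ^ j := by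
        simp only [Fr.R]; nlinarith
      obtain ⟨i1, i2, i3, i4⟩ := ih hdet' r' hmem
      refine ⟨i1, le_trans (Nat.mul_le_mul_left _ ?_) i2, i3, ?_⟩
      · simp only [Fr.sz, Fr.R, Fr.c1, Fr.c2]; omega
      · intro e k z1 z2 he h1 h2 hp
        refine i4 e k (z1 - z2) z2 he ?_ ?_ hp
        · rw [h1]; simp only [Fr.R]; push_cast; ring
        · rw [h2]; simp only [Fr.R]; push_cast; ring
  | @stepX F j z1 z2 l F' j' y' h1 h2 hr ih =>
    intro hdet r' hr'
    have hdet' : F.X.a * F.X.d = F.X.b * F.X.c + 3 ^ (j + 1) := by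
      simp only [Fr.X]; rw [pow_succ]; nlinarith
    obtain ⟨i1, i2, i3, i4⟩ := ih hdet' r' hr'
    have hsub : r'.j - j = r'.j - (j + 1) + 1 := by omega
    refine ⟨by omega, ?_, i3, ?_⟩
    · rw [hsub, pow_succ]
      refine le_trans (le_of_eq ?_) i2
      simp only [Fr.sz, Fr.X, Fr.c1, Fr.c2]
      ring
    · intro e k w1 w2 he e1 e2 hp
      have := i4 e (k + 1) (2 * w1 - w2) (2 * w2 - w1) he ?_ ?_ hp
      · rw [hsub, show r'.j - (j + 1) + 1 + k = r'.j - (j + 1) + (k + 1) by ring]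
        exact this
      · rw [pow_succ, mul_assoc, mul_comm (3 : ℤ), ← mul_assoc, e1]; simp only [Fr.X]; push_cast; ring
      · rw [pow_succ, mul_assoc, mul_comm (3 : ℤ), ← mul_assoc, e2]; simp only [Fr.X]; push_cast; ring

theorem Run.pairwise_aux {F F' : Fr} {j j' : ℕ} {y y' : ℕ × ℕ} {l : List Rc}
    (h : Run F j y l F' j' y') : F.a * F.d = F.b * F.c + 3 ^ j → l.Pairwise Rel := by
  induction h with
  | nil F j y => intro _; exact List.Pairwise.nil
  | @stepL F j y1 y2 l F' j' y' h hr ih =>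
    intro hdet
    have hdet' : F.L.a * F.L.d = F.L.b * F.L.c + 3 ^ j := by
      simp only [Fr.L]; nlinarith
    have hd1 : 1 ≤ F.d := by
      rcases Nat.eq_zero_or_pos F.d with h0 | h0
      · rw [h0, mul_zero] at hdet
        have : 0 < 3 ^ j := by positivity
        omega
      · exact h0
    refine List.Pairwise.cons ?_ (ih hdet')
    intro r' hr'
    obtain ⟨i1, i2, i3, i4⟩ := hr.inv hdet' r' hr'
    refine ⟨i1, ?_, ?_⟩
    · refine le_trans (le_of_eq ?_) i2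
      simp only [Fr.sz, Fr.L, Fr.c1, Fr.c2, Rc.n]
      ring
    · intro hp
      have := i4 (F.b, F.d) 0 0 1 (by simp only; omega) (by simp [Fr.L]) (by simp [Fr.L]) hp
      simpa [Rc.n] using this
  | @stepR F j y1 y2 l F' j' y' h hr ih =>
    intro hdet
    have hdet' : F.R.a * F.R.d = F.R.b * F.R.c + 3 ^ j := by
      simp only [Fr.R]; nlinarith
    have hd1 : 1 ≤ F.a := by
      rcases Nat.eq_zero_or_pos F.a with h0 | h0
      · rw [h0, zero_mul] at hdet
        have : 0 < 3 ^ j := by positivity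
        omega
      · exact h0
    refine List.Pairwise.cons ?_ (ih hdet')
    intro r' hr'
    obtain ⟨i1, i2, i3, i4⟩ := hr.inv hdet' r' hr'
    refine ⟨i1, ?_, ?_⟩
    · refine le_trans (le_of_eq ?_) i2
      simp only [Fr.sz, Fr.R, Fr.c1, Fr.c2, Rc.n]
      ring
    · intro hp
      have := i4 (F.a, F.c) 0 1 0 (by simp only; omega) (by simp [Fr.R]) (by simp [Fr.R]) hp
      simpa [Rc.n] using this
  | @stepX F j z1 z2 l F' j' y' h1 h2 hr ih =>
    intro hdet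
    refine ih ?_
    simp only [Fr.X]; rw [pow_succ]; nlinarith

theorem Run.pairwise {v : ℕ × ℕ} {F F' : Fr} {j j' : ℕ} {y y' : ℕ × ℕ} {l : List Rc}
    (hF : Has v j F y) (h : Run F j y l F' j' y') :
    l.Pairwise Rel ∧ ∀ r ∈ l, 1 ≤ r.n :=
  ⟨h.pairwise_aux hF.det, fun r hr => (h.inv hF.det r hr).2.2.1⟩

/-! ### obstacles of records -/

theorem ob_core {v e : ℕ × ℕ} {j t s m K : ℕ} (ht : 0 < t) (hcr : cr e v = 3 ^ j * t)
    (hg : Nat.gcd e.1 e.2 ∣ 3 ^ j) (hs : t * s ≤ v.1 + v.2) (hm : 2 ^ m ≤ s)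
    (hK : K * (e.1 + e.2) ≤ 2 ^ (m + 2)) : ObE v m j K (prm e) := by
  obtain ⟨i, hi, hgi⟩ := (Nat.dvd_prime_pow Nat.prime_three).mp hg
  have hgpos : 0 < Nat.gcd e.1 e.2 := by rw [hgi]; positivity
  have e1 : e.1 = 3 ^ i * (prm e).1 := by
    have := Nat.div_mul_cancel (Nat.gcd_dvd_left e.1 e.2)
    simp only [prm]
    rw [← hgi, mul_comm, this]
  have e2 : e.2 = 3 ^ i * (prm e).2 := by
    have := Nat.div_mul_cancel (Nat.gcd_dvd_right e.1 e.2)
    simp only [prm]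
    rw [← hgi, mul_comm, this]
  set ε := prm e with hε
  have hcr2 : cr e v = 3 ^ i * cr ε v := by
    unfold cr
    rw [e1, e2]
    have : ((3 ^ i * ε.1 : ℕ) : ℤ) * v.2 - ((3 ^ i * ε.2 : ℕ) : ℤ) * v.1 =
        ((3 ^ i : ℕ) : ℤ) * ((ε.1 : ℤ) * v.2 - (ε.2 : ℤ) * v.1) := by
      push_cast; ring
    rw [this, Int.natAbs_mul, Int.natAbs_natCast]
  have hA : cr ε v = 3 ^ (j - i) * t := by
    have h3i : 0 < 3 ^ i := by positivity
    apply Nat.eq_of_mul_eq_mul_left h3i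
    rw [← hcr2, hcr, ← mul_assoc, ← pow_add]
    congr 2
    omega
  set μ := padicValNat 3 (cr ε v) with hμ
  have hμ2 : μ = (j - i) + padicValNat 3 t := by
    rw [hμ, hA, padicValNat.mul (by positivity) ht.ne', padicValNat.prime_pow]
  refine ⟨?_, ?_, ?_⟩
  · rw [hε]; unfold prm; exact Nat.coprime_div_gcd_div_gcd hgpos
  · have h1 : 3 ^ (j - μ) ≤ 3 ^ i := Nat.pow_le_pow_right (by norm_num) (by omega)
    calc K * 3 ^ (j - μ) * (ε.1 + ε.2) ≤ K * 3 ^ i * (ε.1 + ε.2) := by gcongr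
      _ = K * (e.1 + e.2) := by rw [e1, e2]; ring
      _ ≤ 2 ^ (m + 2) := hK
  · have hts : t * 2 ^ m ≤ v.1 + v.2 := le_trans (Nat.mul_le_mul_left _ hm) hs
    rcases le_total j μ with hjm | hjm
    · rw [min_eq_left hjm, hA]
      calc 3 ^ (j - i) * t * 2 ^ m = 3 ^ (j - i) * (t * 2 ^ m) := by ring
        _ ≤ 3 ^ j * (v.1 + v.2) := by
            gcongr
            · norm_num
            · omega
    · rw [min_eq_right hjm]
      have hdvd : 3 ^ padicValNat 3 t ∣ t := pow_padicValNat_dvd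
      obtain ⟨t', ht'⟩ := hdvd
      have ht'' : t' ≤ t := by
        calc t' = 1 * t' := (one_mul _).symm
          _ ≤ 3 ^ padicValNat 3 t * t' := by gcongr; exact Nat.one_le_pow _ _ (by norm_num)
          _ = t := ht'.symm
      have hA' : cr ε v = 3 ^ μ * t' := by
        rw [hA, hμ2, pow_add, mul_assoc, ← ht']
      rw [hA']
      calc 3 ^ μ * t' * 2 ^ m ≤ 3 ^ μ * t * 2 ^ m := by gcongr
        _ = 3 ^ μ * (t * 2 ^ m) := by ring
        _ ≤ 3 ^ μ * (v.1 + v.2) := by gcongr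

theorem gcd_col_dvd {a b c d g : ℕ} (h : a * d = b * c + g) :
    Nat.gcd b d ∣ g ∧ Nat.gcd a c ∣ g := by
  constructor
  · have h1 : Nat.gcd b d ∣ b * c + g := by
      rw [← h]; exact Dvd.dvd.mul_left (Nat.gcd_dvd_right b d) a
    exact (Nat.dvd_add_right (Dvd.dvd.mul_right (Nat.gcd_dvd_left b d) c)).mp h1
  · have h1 : Nat.gcd a c ∣ b * c + g := by
      rw [← h]; exact Dvd.dvd.mul_right (Nat.gcd_dvd_left a c) d
    exact (Nat.dvd_add_right (Dvd.dvd.mul_left (Nat.gcd_dvd_right a c) b)).mp h1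

theorem Run.obE_aux {v : ℕ × ℕ} {F F' : Fr} {j j' : ℕ} {y y' : ℕ × ℕ} {l : List Rc}
    (h : Run F j y l F' j' y') : Has v j F y →
    ∀ r ∈ l, ∀ m K : ℕ, 2 ^ m ≤ r.s → K * r.n ≤ 2 ^ (m + 2) → ObE v m r.j K (prm r.e) := by
  induction h with
  | nil F j y => intro _ r hr; simp at hr
  | @stepL F j y1 y2 l F' j' y' h hr ih =>
    intro hF r hr m K hm hK
    rcases List.mem_cons.mp hr with rfl | hmem
    · have hF' := hF
      obtain ⟨hd, hp1, hp2, he1, he2⟩ := hF'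
      simp only at hp1 hp2 he1 he2 hm hK ⊢
      refine ob_core hp1 ?_ (gcd_col_dvd hd).1 ?_ hm hK
      · unfold cr
        have hd' : (F.a : ℤ) * F.d = F.b * F.c + 3 ^ j := by exact_mod_cast hd
        have : ((F.b : ℕ) : ℤ) * v.2 - ((F.d : ℕ) : ℤ) * v.1 = -((3 ^ j * y1 : ℕ) : ℤ) := by
          rw [← he1, ← he2]; push_cast; linear_combination -(y1 : ℤ) * hd'
        simp only [this, Int.natAbs_neg, Int.natAbs_natCast]
      · rw [← he1, ← he2]
        simp only [Fr.sz, Fr.c1, Fr.c2]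
        have : y1 * (F.b + F.d) ≤ y2 * (F.b + F.d) := Nat.mul_le_mul_right _ h.le
        nlinarith
    · exact ih (hF.L h) r hmem m K hm hK
  | @stepR F j y1 y2 l F' j' y' h hr ih =>
    intro hF r hr m K hm hK
    rcases List.mem_cons.mp hr with rfl | hmem
    · have hF' := hF
      obtain ⟨hd, hp1, hp2, he1, he2⟩ := hF'
      simp only at hp1 hp2 he1 he2 hm hK ⊢
      refine ob_core hp2 ?_ (gcd_col_dvd hd).2 ?_ hm hK
      · unfold cr
        have hd' : (F.a : ℤ) * F.d = F.b * F.c + 3 ^ j := by exact_mod_cast hd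
        have : ((F.a : ℕ) : ℤ) * v.2 - ((F.c : ℕ) : ℤ) * v.1 = ((3 ^ j * y2 : ℕ) : ℤ) := by
          rw [← he1, ← he2]; push_cast; linear_combination (y2 : ℤ) * hd'
        simp only [this, Int.natAbs_natCast]
      · rw [← he1, ← he2]
        simp only [Fr.sz, Fr.c1, Fr.c2]
        have : y2 * (F.a + F.c) ≤ y1 * (F.a + F.c) := Nat.mul_le_mul_right _ h.le
        nlinarith
    · exact ih (hF.R h) r hmem m K hm hK
  | @stepX F j z1 z2 l F' j' y' h1 h2 hr ih =>
    intro hF r hr m K hm hK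
    exact ih (hF.X h1 h2) r hr m K hm hK

theorem Run.obE {v : ℕ × ℕ} {F F' : Fr} {j j' : ℕ} {y y' : ℕ × ℕ} {l : List Rc}
    (hv : Nat.Coprime v.1 v.2) (hF : Has v j F y) (h : Run F j y l F' j' y') :
    ∀ r ∈ l, ∀ m K : ℕ, 2 ^ m ≤ r.s → K * r.n ≤ 2 ^ (m + 2) → ObE v m r.j K (prm r.e) :=
  h.obE_aux hF

/-! ### long and short records -/

theorem long_growth {Y : ℕ} (hY : 1 ≤ Y) (l : List Rc) : ∀ S : ℝ, 0 ≤ S → l ≠ [] →
    l.Pairwise Rel → (∀ r ∈ l, S ≤ r.s) → (∀ r ∈ l, r.s ≤ Y * r.n) →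
    ∃ r ∈ l, S * (1 + 1 / (Y : ℝ)) ^ (l.length - 1) ≤ r.s := by
  induction l with
  | nil => intro S _ h; exact absurd rfl h
  | cons r l ih =>
    intro S hS _ hp hs hl
    rcases l with _ | ⟨r2, l⟩
    · exact ⟨r, by simp, by simpa using hs r (by simp)⟩
    · have hYr : (0 : ℝ) < Y := by exact_mod_cast hY
      rw [List.pairwise_cons] at hp
      have hstep : ∀ r' ∈ (r2 :: l), S * (1 + 1 / (Y : ℝ)) ≤ r'.s := by
        intro r' hr'
        obtain ⟨_, h2, _⟩ := hp.1 r' hr'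
        have h3 : r.s + r.n ≤ r'.s := by
          refine le_trans ?_ h2
          exact Nat.le_mul_of_pos_left _ (by positivity)
        have h4 : (r.s : ℝ) + r.n ≤ r'.s := by exact_mod_cast h3
        have h5 : (r.s : ℝ) ≤ Y * r.n := by exact_mod_cast hl r (by simp)
        have h6 : (r.s : ℝ) / Y ≤ r.n := by
          rw [div_le_iff₀ hYr]; linarith
        have h7 : S ≤ r.s := hs r (by simp)
        calc S * (1 + 1 / (Y : ℝ)) ≤ r.s * (1 + 1 / (Y : ℝ)) := by gcongr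
          _ = r.s + r.s / Y := by ring
          _ ≤ r'.s := by linarith
      obtain ⟨r', hr', h8⟩ := ih (S * (1 + 1 / (Y : ℝ))) (by positivity) (by simp) hp.2 hstep
        (fun r' hr' => hl r' (List.mem_cons_of_mem _ hr'))
      refine ⟨r', List.mem_cons_of_mem _ hr', le_trans (le_of_eq ?_) h8⟩
      simp only [List.length_cons, Nat.add_sub_cancel]
      rw [pow_succ]; ring

theorem long_count {Y m0 m1 : ℕ} (hY : 1 ≤ Y) (hm : m0 ≤ m1) {l : List Rc}
    (hp : l.Pairwise Rel) (hs : ∀ r ∈ l, 2 ^ m0 ≤ r.s ∧ r.s < 2 ^ m1)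
    (hl : ∀ r ∈ l, r.s ≤ Y * r.n) : l.length ≤ Y * (m1 - m0) := by
  by_contra hcon
  push Not at hcon
  have hne : l ≠ [] := by rintro rfl; simp at hcon
  obtain ⟨r, hr, h1⟩ := long_growth hY l (2 ^ m0) (by positivity) hne hp
    (fun r hr => by exact_mod_cast (hs r hr).1) hl
  have hYr : (0 : ℝ) < Y := by exact_mod_cast hY
  have hb : (2 : ℝ) ≤ (1 + 1 / (Y : ℝ)) ^ Y := by
    have := one_add_mul_le_pow (a := 1 / (Y : ℝ)) (by have : (0:ℝ) ≤ 1 / Y := by positivity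
                                                      linarith) Y
    have h2 : (Y : ℝ) * (1 / Y) = 1 := by field_simp
    linarith
  have h3 : (2 : ℝ) ^ m1 ≤ r.s := by
    calc (2 : ℝ) ^ m1 = 2 ^ m0 * 2 ^ (m1 - m0) := by rw [← pow_add]; congr 1; omega
      _ ≤ 2 ^ m0 * ((1 + 1 / (Y : ℝ)) ^ Y) ^ (m1 - m0) := by gcongr
      _ = 2 ^ m0 * (1 + 1 / (Y : ℝ)) ^ (Y * (m1 - m0)) := by rw [pow_mul]
      _ ≤ 2 ^ m0 * (1 + 1 / (Y : ℝ)) ^ (l.length - 1) := by
          gcongr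
          · have : (0:ℝ) ≤ 1 / Y := by positivity
            linarith
          · omega
      _ ≤ r.s := h1
  have h4 : 2 ^ m1 ≤ r.s := by exact_mod_cast h3
  exact absurd (hs r hr).2 (not_lt.mpr h4)

theorem short_growth (l : List Rc) : ∀ i : ℕ, l ≠ [] → l.Pairwise Rel →
    (∀ r ∈ l, ∀ r' ∈ l, prm r.e = prm r'.e) → (∀ r ∈ l, i * r.n ≤ r.s) →
    ∃ r ∈ l, (i + l.length) * r.n ≤ r.s + r.n := by
  induction l with
  | nil => intro i h; exact absurd rfl h
  | cons r l ih =>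
    intro i _ hp hpar hi
    rcases l with _ | ⟨r2, l⟩
    · refine ⟨r, by simp, ?_⟩
      have := hi r (by simp)
      simp only [List.length_cons, List.length_nil]
      nlinarith
    · rw [List.pairwise_cons] at hp
      have hstep : ∀ r' ∈ (r2 :: l), (i + 1) * r'.n ≤ r'.s := by
        intro r' hr'
        obtain ⟨_, h2, h3⟩ := hp.1 r' hr'
        have h4 := h3 (hpar r (by simp) r' (List.mem_cons_of_mem _ hr'))
        have h5 := hi r (by simp)
        calc (i + 1) * r'.n ≤ (i + 1) * (3 ^ (r'.j - r.j) * r.n) := by gcongr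
          _ = 3 ^ (r'.j - r.j) * (i * r.n + r.n) := by ring
          _ ≤ 3 ^ (r'.j - r.j) * (r.s + r.n) := by gcongr
          _ ≤ r'.s := h2
      obtain ⟨r', hr', h6⟩ := ih (i + 1) (by simp) hp.2
        (fun a ha b hb => hpar a (List.mem_cons_of_mem _ ha) b (List.mem_cons_of_mem _ hb)) hstep
      refine ⟨r', List.mem_cons_of_mem _ hr', ?_⟩
      simp only [List.length_cons] at h6 ⊢
      rw [show i + (l.length + 1 + 1) = i + 1 + (l.length + 1) by ring]
      exact h6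

theorem list_lemma {l : List Rc} (hp : l.Pairwise Rel) (h1 : ∀ r ∈ l, 1 ≤ r.n)
    {m0 m1 Y K : ℕ} (hm : m0 ≤ m1) (hs : ∀ r ∈ l, 2 ^ m0 ≤ r.s ∧ r.s < 2 ^ m1) (hY : 1 ≤ Y)
    (hlen : Y * (m1 - m0) + K < l.length) :
    (∃ r ∈ l, Y * r.n < r.s) ∧
    ((∀ r ∈ l, ∀ r' ∈ l, Y * r.n < r.s → Y * r'.n < r'.s → prm r.e = prm r'.e) →
      ∃ r ∈ l, Y * r.n < r.s ∧ K * r.n ≤ r.s + r.n) := by
  set p : Rc → Bool := fun r => decide (Y * r.n < r.s) with hpdef
  have hsplit : l.length = (l.filter p).length + (l.filter (fun r => !p r)).length :=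
    List.length_eq_length_filter_add p
  have hlong : (l.filter (fun r => !p r)).length ≤ Y * (m1 - m0) := by
    refine long_count hY hm (hp.sublist List.filter_sublist) ?_ ?_
    · intro r hr; exact hs r (List.mem_of_mem_filter hr)
    · intro r hr
      have := (List.mem_filter.mp hr).2
      simp only [hpdef, Bool.not_eq_true', decide_eq_false_iff_not, not_lt] at this
      exact this
  have hshort : K < (l.filter p).length := by omega
  have hne : l.filter p ≠ [] := by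
    intro h; rw [h] at hshort; simp at hshort
  have hmem : ∀ r ∈ l.filter p, r ∈ l ∧ Y * r.n < r.s := by
    intro r hr
    have h2 := List.mem_filter.mp hr
    simp only [hpdef, decide_eq_true_eq] at h2
    exact h2
  constructor
  · obtain ⟨r, hr⟩ := List.exists_mem_of_ne_nil _ hne
    exact ⟨r, (hmem r hr).1, (hmem r hr).2⟩
  · intro hpar
    obtain ⟨r, hr, h2⟩ := short_growth (l.filter p) 0 hne (hp.sublist List.filter_sublist)
      (fun a ha b hb => hpar a (hmem a ha).1 b (hmem b hb).1 (hmem a ha).2 (hmem b hb).2)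
      (fun r _ => by simp)
    refine ⟨r, (hmem r hr).1, (hmem r hr).2, le_trans ?_ h2⟩
    gcongr
    omega

/-! ### far away obstacles -/

theorem ob_far_aux {v ε : ℕ × ℕ} {m1 j1 m2 j2 Y h : ℕ} (h1 : ObE v m1 j1 Y ε)
    (h2 : ObE v m2 j2 Y ε)
    (hfar : m1 + h ≤ m2 ∨ j1 + h ≤ j2) :
    ∃ m3 j3, min m1 m2 ≤ m3 ∧ m3 ≤ max m1 m2 + h ∧ min j1 j2 ≤ j3 ∧ j3 ≤ max j1 j2 ∧
      ObE v m3 j3 (Y * 2 ^ (h / 2)) ε := by
  obtain ⟨c1, p1, q1⟩ := h1
  obtain ⟨_, p2, q2⟩ := h2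
  unfold ObE
  set μ := padicValNat 3 (cr ε v) with hμ
  set A := cr ε v with hA
  have h2s : 2 ^ (h / 2) ≤ 2 ^ h := Nat.pow_le_pow_right (by norm_num) (by omega)
  rcases hfar with hf | hf
  · -- far in scale
    have key : ∀ j3, j3 - μ ≤ j1 - μ → min j2 μ ≤ min j3 μ →
        Y * 2 ^ (h / 2) * 3 ^ (j3 - μ) * (ε.1 + ε.2) ≤ 2 ^ (m2 + 2) ∧
        A * 2 ^ m2 ≤ 3 ^ (min j3 μ) * (v.1 + v.2) := by
      intro j3 hj3 hmin
      constructor
      · calc Y * 2 ^ (h / 2) * 3 ^ (j3 - μ) * (ε.1 + ε.2)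
            ≤ Y * 2 ^ h * 3 ^ (j1 - μ) * (ε.1 + ε.2) := by
              gcongr
              norm_num
          _ = 2 ^ h * (Y * 3 ^ (j1 - μ) * (ε.1 + ε.2)) := by ring
          _ ≤ 2 ^ h * 2 ^ (m1 + 2) := by gcongr
          _ = 2 ^ (m1 + h + 2) := by rw [← pow_add]; congr 1; ring
          _ ≤ 2 ^ (m2 + 2) := Nat.pow_le_pow_right (by norm_num) (by omega)
      · refine le_trans q2 ?_
        gcongr
        norm_num
    rcases le_total j1 j2 with hj | hj
    · refine ⟨m2, max j1 (min μ j2), by omega, by omega, by omega, by omega, c1, ?_⟩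
      exact key _ (by omega) (by omega)
    · refine ⟨m2, j2, by omega, by omega, by omega, by omega, c1, ?_⟩
      exact key _ (by omega) (by omega)
  · -- far in level
    set s := h / 2 with hs
    have h23 : 2 ^ s ≤ 3 ^ s := Nat.pow_le_pow_left (by norm_num) s
    by_cases hμs : j1 + s ≤ μ
    · refine ⟨m1 + s, j1 + s, by omega, by omega, by omega, by omega, c1, ?_, ?_⟩
      · have e1 : j1 + s - μ = 0 := by omega
        have e2 : j1 - μ = 0 := by omega
        rw [e1, pow_zero, mul_one]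
        rw [e2, pow_zero, mul_one] at p1
        calc Y * 2 ^ s * (ε.1 + ε.2) = 2 ^ s * (Y * (ε.1 + ε.2)) := by ring
          _ ≤ 2 ^ s * 2 ^ (m1 + 2) := by gcongr
          _ = 2 ^ (m1 + s + 2) := by rw [← pow_add]; congr 1; ring
      · have e1 : min (j1 + s) μ = j1 + s := by omega
        have e2 : min j1 μ = j1 := by omega
        rw [e1]
        rw [e2] at q1
        calc A * 2 ^ (m1 + s) = A * 2 ^ m1 * 2 ^ s := by rw [pow_add]; ring
          _ ≤ 3 ^ j1 * (v.1 + v.2) * 3 ^ s := by gcongr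
          _ = 3 ^ (j1 + s) * (v.1 + v.2) := by rw [pow_add]; ring
    · push Not at hμs
      refine ⟨m2, j2 - s, by omega, by omega, by omega, by omega, c1, ?_, ?_⟩
      · have e1 : j2 - μ = (j2 - s - μ) + s := by omega
        rw [e1] at p2
        calc Y * 2 ^ s * 3 ^ (j2 - s - μ) * (ε.1 + ε.2)
            ≤ Y * 3 ^ s * 3 ^ (j2 - s - μ) * (ε.1 + ε.2) := by gcongr
          _ = Y * 3 ^ (j2 - s - μ + s) * (ε.1 + ε.2) := by rw [pow_add]; ring
          _ ≤ 2 ^ (m2 + 2) := p2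
      · have e1 : min (j2 - s) μ = min j2 μ := by omega
        rw [e1]
        exact q2

theorem ob_far {v ε : ℕ × ℕ} {m1 j1 m2 j2 Y h : ℕ} (h1 : ObE v m1 j1 Y ε)
    (h2 : ObE v m2 j2 Y ε)
    (hfar : m1 + h ≤ m2 ∨ m2 + h ≤ m1 ∨ j1 + h ≤ j2 ∨ j2 + h ≤ j1) :
    ∃ m3 j3, min m1 m2 ≤ m3 ∧ m3 ≤ max m1 m2 + h ∧ min j1 j2 ≤ j3 ∧ j3 ≤ max j1 j2 ∧
      ObE v m3 j3 (Y * 2 ^ (h / 2)) ε := by
  rcases hfar with hf | hf | hf | hf
  · exact ob_far_aux h1 h2 (Or.inl hf)
  · obtain ⟨m3, j3, a1, a2, a3, a4, a5⟩ := ob_far_aux h2 h1 (Or.inl hf)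
    exact ⟨m3, j3, by omega, by omega, by omega, by omega, a5⟩
  · exact ob_far_aux h1 h2 (Or.inr hf)
  · obtain ⟨m3, j3, a1, a2, a3, a4, a5⟩ := ob_far_aux h2 h1 (Or.inr hf)
    exact ⟨m3, j3, by omega, by omega, by omega, by omega, a5⟩

end BAC
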